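import Pool.Agent.N808.AS.Stm

/-!
ACC: there are no infinite sequences of quadratic transforms of a two-dimensional regular local ring
on which finitely many given functions do not become monomials (helper394, for helper808).
-/

set_option autoImplicit false
set_option linter.unusedVariables false
set_option linter.unusedSectionVars false

universe u

open Pool.Agent.W418.LU2 Pool.Agent.N98.T2 Pool.Agent.N98.RM Polynomial

namespace Pool.Agent.N808.AS

namespace ACC_

variable {E : Type u} [Field E] {V W : ValuationSubring E} {P P' : Subring E} {x y s : E}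

/-- `V` dominates `P`. -/
structure Dm (V : ValuationSubring E) (P : Subring E) : Prop where
  le : ∀ a ∈ P, a ∈ V
  inv : ∀ a ∈ P, V.valuation a = 1 → a⁻¹ ∈ P

lemma lt_dm (h : Par W P x y) (hV : Dm V P) {a : E} (ha : a ∈ P) (h1 : W.valuation a < 1) :
    V.valuation a < 1 := by
  refine (lt_or_one (hV.le a ha)).resolve_right fun h2 => ?_
  have h3 := one_of_inv (h.le a ha) (ne_zero_of_one h2) (h.le _ (hV.inv a ha h2))
  rw [h3] at h1
  exact lt_irrefl _ h1

/-- The condition `Par` for another dominating valuation ring. -/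
lemma par_dm (h : Par W P x y) (hV : Dm V P) : Par V P x y where
  le := hV.le
  inv := hV.inv
  noeth := h.noeth
  xP := h.xP
  yP := h.yP
  xV := lt_dm h hV h.xP h.xV
  yV := lt_dm h hV h.yP h.yV
  x0 := h.x0
  gen := by
    intro a ha h1
    refine h.gen a ha ((lt_or_one (h.le a ha)).resolve_right fun h2 => ?_)
    have h3 := one_of_inv (hV.le a ha) (ne_zero_of_one h2) (hV.le _ (h.inv a ha h2))
    rw [h3] at h1
    exact lt_irrefl _ h1
  nil := h.nil

/-- The quadratic transform, for another dominating valuation ring. -/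
lemma nx_dm (hN : Nx W P s P') (hV : Dm V P') : Nx V P s P' := by
  obtain ⟨y, h, hw, e⟩ := hN
  have hle : P ≤ P' := by
    rw [e]
    exact (le_bl _ _).trans (le_lo _ _)
  have hbl : bl P (y / s) ≤ P' := by
    rw [e]
    exact le_lo _ _
  have hW : P' ≤ W.toSubring := by
    rw [e]
    exact lo_le (h.bl_le hw)
  have hP : Dm V P := by
    refine ⟨fun a ha => hV.le a (hle ha), fun a ha h1 => ?_⟩
    have h2 := hV.inv a (hle ha) h1
    exact h.inv a ha (one_of_inv (h.le a ha) (ne_zero_of_one h1) (hW h2))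
  refine ⟨y, par_dm h hP, hV.le _ (hbl (self_mem_bl _ _)), ?_⟩
  apply le_antisymm
  · intro c hc
    rw [e] at hc
    obtain ⟨a, ha, b, hb, hb0, hbW, rfl⟩ := hc
    refine ⟨a, ha, b, hb, hb0, ?_, rfl⟩
    have h3 : b⁻¹ ∈ P' := by
      rw [e]
      exact inv_mem_lo (h.bl_le hw) (le_lo _ _ hb) hb0 hbW
    exact hV.le _ h3
  · rintro _ ⟨a, ha, b, hb, hb0, hbV, rfl⟩
    exact P'.mul_mem (hbl ha)
      (hV.inv b (hbl hb) (one_of_inv (hV.le b (hbl hb)) hb0 hbV))

/-- One valuation ring dominates all rings of the sequence. -/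
theorem exists_dom (P : ℕ → Subring E) (W : ℕ → ValuationSubring E) (s : ℕ → E)
    (hN : ∀ n, Nx (W n) (P n) (s n) (P (n + 1))) : ∃ V : ValuationSubring E, ∀ n, Dm V (P n) := by
  have hmono : Monotone P := monotone_nat_of_le_succ fun n => (hN n).le
  have hdir : Directed (· ≤ ·) P := hmono.directed_le
  have hdown1 : ∀ n, ∀ a ∈ P n, a ≠ 0 → a⁻¹ ∈ P (n + 1) → a⁻¹ ∈ P n := by
    intro n a ha ha0 h1
    obtain ⟨y, h, hw, e⟩ := hN n
    have hW : P (n + 1) ≤ (W n).toSubring := by
      rw [e]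
      exact lo_le (h.bl_le hw)
    exact h.inv a ha (one_of_inv (h.le a ha) ha0 (hW h1))
  have hdown : ∀ n k, ∀ a ∈ P n, a ≠ 0 → a⁻¹ ∈ P (n + k) → a⁻¹ ∈ P n := by
    intro n k
    induction k with
    | zero => intro a ha ha0 h; exact h
    | succ k ih =>
      intro a ha ha0 h
      exact ih a ha ha0 (hdown1 (n + k) a (hmono (Nat.le_add_right n k) ha) ha0 h)
  obtain ⟨U, hUd⟩ : ∃ U : Subring E, U = ⨆ n, P n := ⟨_, rfl⟩
  have hU : ∀ a, a ∈ U ↔ ∃ n, a ∈ P n := by
    intro a
    rw [hUd]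
    exact Subring.mem_iSup_of_directed hdir
  have hloc : IsLocalRing U := by
    refine IsLocalRing.of_isUnit_or_isUnit_one_sub_self fun a => ?_
    obtain ⟨n, hn⟩ := (hU a).1 a.2
    obtain ⟨y, h, -⟩ := hN n
    rcases lt_or_one (h.le a hn) with h1 | h1
    · right
      have h2 := val_one_sub h1
      have h3 := h.inv _ ((P n).sub_mem (P n).one_mem hn) h2
      exact isUnit_iff_exists_inv.2 ⟨⟨_, (hU _).2 ⟨n, h3⟩⟩,
        Subtype.ext (mul_inv_cancel₀ (ne_zero_of_one h2))⟩
    · left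
      exact isUnit_iff_exists_inv.2 ⟨⟨_, (hU _).2 ⟨n, h.inv _ hn h1⟩⟩,
        Subtype.ext (mul_inv_cancel₀ (ne_zero_of_one h1))⟩
  obtain ⟨V, hVle, hVl⟩ := (LocalSubring.mk U).exists_le_valuationSubring
  refine ⟨V, fun n => ⟨fun a ha => hVle ((hU a).2 ⟨n, ha⟩), fun a ha h1 => ?_⟩⟩
  have ha0 := ne_zero_of_one h1
  have hu : IsUnit (Subring.inclusion hVle ⟨a, (hU a).2 ⟨n, ha⟩⟩) :=
    isUnit_iff_exists_inv.2 ⟨⟨a⁻¹, inv_mem_of_one h1⟩, Subtype.ext (mul_inv_cancel₀ ha0)⟩
  have hu2 := hVl.1 _ hu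
  obtain ⟨c, hc⟩ := isUnit_iff_exists_inv.1 hu2
  have hc' : a * (c : E) = 1 := congrArg Subtype.val hc
  have hc2 : a⁻¹ ∈ U := by
    rw [inv_eq_of_mul_eq_one_right hc']
    exact c.2
  obtain ⟨m, hm⟩ := (hU _).1 hc2
  exact hdown n m a ha ha0 (hmono (Nat.le_add_left m n) hm)

/-- A two-dimensional regular local ring is not a discrete valuation ring. -/
lemma not_dv (h : Par V P x y) (hD : Dv V P s) : False := by
  obtain ⟨b, hb, e1⟩ := hD.gen x h.xP h.xV
  obtain ⟨c, hc, e2⟩ := hD.gen y h.yP h.yV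
  rcases h.prime hb hD.xP P.one_mem (by rw [one_mul]; exact e1.symm) with ⟨d, hd, e3⟩ | ⟨d, hd, e3⟩
  · have h1 : x * 1 = x * (d * s) := by
      calc x * 1 = b * s := by rw [mul_one]; exact e1
        _ = (d * x) * s := by rw [← e3]
        _ = x * (d * s) := by ring
    have h2 : 1 = d * s := mul_left_cancel₀ h.x0 h1
    have h3 : V.valuation (d * s) < 1 := val_mul_lt_right (h.le d hd) hD.xV
    rw [← h2, map_one] at h3
    exact lt_irrefl _ h3
  · exact h.not_dvd (P.mul_mem hc hd) (by rw [e2, e3, mul_assoc])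

lemma mo_nat {z f u : E} (hu : u ∈ P) (hu1 : V.valuation u = 1) (i j : ℕ)
    (e : f = u * s ^ i * z ^ j) : Mo V P s z f :=
  ⟨u, hu, hu1, i, j, by rw [e, zpow_natCast, zpow_natCast]⟩

end ACC_

open ACC_

/-- **There are no infinite sequences of quadratic transforms of the points on which the functions
do not become monomials.** -/
theorem t_ACC : S_acc.{u} := by
  classical
  intro K _ Γ _ Δ G hΔ hG P0 hN0 hfr hfin
  by_contra hcon
  obtain ⟨P, hP0, hP⟩ := not_acc_iff_exists_descending_chain.1 hcon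
  choose W t hNx using fun n => (hP n).1
  obtain ⟨V, hV⟩ := exists_dom P W t hNx
  have hN : ∀ n, Nx V (P n) (t n) (P (n + 1)) := fun n => nx_dm (hNx n) (hV (n + 1))
  let s : ℕ → K := fun n => Nat.casesOn n (t 0) t
  have hS : Sq V P s := by
    refine ⟨?_, hN⟩
    intro n
    cases n with
    | zero =>
      obtain ⟨y, h, -⟩ := hN 0
      exact ⟨y, h⟩
    | succ n =>
      obtain ⟨y, h, hw, e⟩ := hN n
      rcases h.blow hw with ⟨z, hz⟩ | hD
      · refine ⟨z, ?_⟩
        rw [e]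
        exact hz
      · exfalso
        rw [← e] at hD
        obtain ⟨y', h', -⟩ := hN (n + 1)
        exact not_dv h' hD
  have hP0' : ∀ e, e ∈ P 0 ↔ ∃ a : P0, algebraMap P0 K a = e := by
    intro e
    rw [hP0]
    constructor
    · intro h
      exact ⟨⟨e, h⟩, rfl⟩
    · rintro ⟨a, rfl⟩
      exact a.2
  have hinj : Function.Injective (algebraMap P0 K) := IsFractionRing.injective P0 K
  let f : Option Γ → K := fun o => o.elim Δ G
  have hf : ∀ o, f o ≠ 0 := by
    intro o
    cases o with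
    | none => exact hΔ
    | some a => exact hG a
  choose a b hb hab using fun o => IsFractionRing.div_surjective P0 (f o)
  have hne : ∀ s : P0, s ≠ 0 → algebraMap P0 K s ≠ 0 := fun s hs h =>
    hs (hinj (h.trans (map_zero _).symm))
  have hb0 : ∀ o, algebraMap P0 K (b o) ≠ 0 := fun o => hne _ (nonZeroDivisors.ne_zero (hb o))
  have ha0 : ∀ o, algebraMap P0 K (a o) ≠ 0 := by
    intro o h1
    apply hf o
    rw [← hab o, h1, zero_div]
  let F : K := ∏ o, (algebraMap P0 K (a o) * algebraMap P0 K (b o))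
  have hF0 : F ≠ 0 := Finset.prod_ne_zero_iff.2 fun o _ => mul_ne_zero (ha0 o) (hb0 o)
  obtain ⟨n, z, hz, hm⟩ := ev_all hS hP0' hfin F hF0
  have hkP : ∀ c : P0, algebraMap P0 K c ∈ P n := fun c =>
    hS.mono (Nat.zero_le n) ((hP0' _).2 ⟨c, rfl⟩)
  have hdv : ∀ o, ∃ c ∈ P n, F = algebraMap P0 K (a o) * algebraMap P0 K (b o) * c := by
    intro o
    refine ⟨∏ i ∈ Finset.univ.erase o, (algebraMap P0 K (a i) * algebraMap P0 K (b i)),
      (P n).prod_mem fun i _ => (P n).mul_mem (hkP _) (hkP _), ?_⟩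
    exact (Finset.mul_prod_erase Finset.univ
      (fun i => algebraMap P0 K (a i) * algebraMap P0 K (b i)) (Finset.mem_univ o)).symm
  have hmo : ∀ o, Mo V (P n) (s n) z (f o) := by
    intro o
    obtain ⟨c, hc, e⟩ := hdv o
    have hla : Mo V (P n) (s n) z (algebraMap P0 K (a o)) := by
      obtain ⟨u, hu, hu1, i, j, e1⟩ := mono_of_dvd hz (hkP (a o)) (b := algebraMap P0 K (b o) * c)
        ((P n).mul_mem (hkP _) hc) (by rw [← mul_assoc, ← e]; exact hm)
      exact mo_nat hu hu1 i j e1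
    have hlb : Mo V (P n) (s n) z (algebraMap P0 K (b o)) := by
      obtain ⟨u, hu, hu1, i, j, e1⟩ := mono_of_dvd hz (hkP (b o)) (b := algebraMap P0 K (a o) * c)
        ((P n).mul_mem (hkP _) hc)
        (by rw [← mul_assoc, mul_comm (algebraMap P0 K (b o)), ← e]; exact hm)
      exact mo_nat hu hu1 i j e1
    have h1 := Mo.mul hz hla (Mo.zpow hz hlb (-1))
    rw [zpow_neg_one, ← div_eq_mul_inv, hab o] at h1
    exact h1
  obtain ⟨z', hz', hp⟩ := hS.persist hz 1
  exact (hP n).2 ⟨V, s (n + 1), z', hz', hp _ (hmo none), fun c => hp _ (hmo (some c))⟩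

end Pool.Agent.N808.AS
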