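import Pool.Agent.N808.AS.Stm2

/-!
Log resolution on arithmetic surfaces: adding a family of divisors to a model (helper277).
-/

set_option autoImplicit false
set_option linter.unusedVariables false
set_option linter.unusedSectionVars false

universe u

open Pool.Agent.W418.LU2 Pool.Agent.N98.T2 Pool.Agent.N98.RM Polynomial

namespace Pool.Agent.N808.AS

namespace ADDF_

variable {k K : Type u} [CommRing k] [Field K] [Algebra k K]

/-- `y` has a power of `r` as denominator with respect to `A` -/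
def Q (A : Subalgebra k K) (r y : K) : Prop := ∃ n : ℕ, r ^ n * y ∈ A

lemma Q_one (A : Subalgebra k K) (r : K) : Q A r 1 := ⟨0, by
  rw [pow_zero, one_mul]
  exact A.one_mem⟩

lemma Q_mul {A : Subalgebra k K} {r y z : K} (hy : Q A r y) (hz : Q A r z) : Q A r (y * z) := by
  obtain ⟨n, hn⟩ := hy
  obtain ⟨m, hm⟩ := hz
  refine ⟨n + m, ?_⟩
  have h := A.mul_mem hn hm
  have e : r ^ (n + m) * (y * z) = r ^ n * y * (r ^ m * z) := by rw [pow_add]; ring
  rw [e]
  exact h

lemma Q_pow {A : Subalgebra k K} {r y : K} (hy : Q A r y) (m : ℕ) : Q A r (y ^ m) := by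
  induction m with
  | zero => rw [pow_zero]; exact Q_one A r
  | succ m ih => rw [pow_succ]; exact Q_mul ih hy

lemma Q_zpow {A : Subalgebra k K} {r y : K} (hy : Q A r y) (hy' : Q A r y⁻¹) (e : ℤ) :
    Q A r (y ^ e) := by
  rcases le_total 0 e with h | h
  · obtain ⟨m, rfl⟩ := Int.eq_ofNat_of_zero_le h
    rw [zpow_natCast]
    exact Q_pow hy m
  · obtain ⟨m, hm⟩ := Int.eq_ofNat_of_zero_le (neg_nonneg.2 h)
    have h2 : e = -(m : ℤ) := by omega
    rw [h2, zpow_neg, zpow_natCast, ← inv_pow]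
    exact Q_pow hy' m

lemma Q_prod {A : Subalgebra k K} {r : K} {I : Type} [Fintype I] (f : I → K)
    (h : ∀ i, Q A r (f i)) : Q A r (∏ i, f i) :=
  Finset.prod_induction f (Q A r) (fun _ _ => Q_mul) (Q_one A r) fun i _ => h i

end ADDF_

open ADDF_ in
theorem t_ADDF : S_addf.{u} := by
  intro k K _ _ _ T I J _ _ _ M g c hg hA
  have hQ : ∀ t t' i, Q (M.A t) (M.H t' / M.H t) (M.x t' i / M.x t i) := fun t t' i => M.gi t t' i
  have hQ' : ∀ t t' i, Q (M.A t) (M.H t' / M.H t) (M.x t' i / M.x t i)⁻¹ := by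
    intro t t' i
    obtain ⟨m, hm⟩ := M.gi t' t i
    obtain ⟨n, hn⟩ := M.gl t t' _ hm
    refine ⟨n + m, ?_⟩
    have h1 := (M.A t).mul_mem ((M.A t).pow_mem (M.rt t t') m)
      ((M.A t).mul_mem ((M.A t).pow_mem (M.rt t t') m) hn)
    have e : (M.H t' / M.H t) ^ (n + m) * (M.x t' i / M.x t i)⁻¹ =
        (M.H t' / M.H t) ^ m * ((M.H t' / M.H t) ^ m * ((M.H t' / M.H t) ^ n *
          ((M.H t / M.H t') ^ m * (M.x t i / M.x t' i)))) := by
      have h2 : (M.H t' / M.H t) ^ m * (M.H t / M.H t') ^ m = 1 := by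
        rw [← mul_pow, div_mul_div_comm, mul_comm (M.H t') (M.H t),
          div_self (mul_ne_zero (M.H0 t) (M.H0 t')), one_pow]
      rw [inv_div, pow_add]
      calc (M.H t' / M.H t) ^ n * (M.H t' / M.H t) ^ m * (M.x t i / M.x t' i)
          = (M.H t' / M.H t) ^ m * (M.H t' / M.H t) ^ n * (M.x t i / M.x t' i) * 1 := by ring
        _ = (M.H t' / M.H t) ^ m * (M.H t' / M.H t) ^ n * (M.x t i / M.x t' i) *
            ((M.H t' / M.H t) ^ m * (M.H t / M.H t') ^ m) := by rw [h2]
        _ = _ := by ring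
    rw [e]
    exact h1
  refine ⟨{
    A := M.A
    H := M.H
    x := fun t => Sum.elim (M.x t) (fun j => g j * ∏ i, M.x t i ^ c j i)
    ft := M.ft
    H0 := M.H0
    rt := M.rt
    gl := M.gl
    cv := fun V hV => M.cv V (fun a ha => by
      rw [Algebra.mem_bot] at ha
      obtain ⟨r, rfl⟩ := ha
      exact hV r)
    xA := fun t i => by
      rcases i with i | j
      · exact M.xA t i
      · exact hA t j
    x0 := fun t i => by
      rcases i with i | j
      · exact M.x0 t i
      · exact mul_ne_zero (hg j) (Finset.prod_ne_zero_iff.2 fun i _ => zpow_ne_zero _ (M.x0 t i))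
    gi := fun t t' i => by
      rcases i with i | j
      · exact M.gi t t' i
      · have e : (Sum.elim (M.x t') (fun j => g j * ∏ i, M.x t' i ^ c j i) (Sum.inr j) : K) /
            Sum.elim (M.x t) (fun j => g j * ∏ i, M.x t i ^ c j i) (Sum.inr j) =
            ∏ i, (M.x t' i / M.x t i) ^ c j i := by
          show (g j * ∏ i, M.x t' i ^ c j i) / (g j * ∏ i, M.x t i ^ c j i) = _
          rw [mul_div_mul_left _ _ (hg j), ← Finset.prod_div_distrib]
          refine Finset.prod_congr rfl fun i _ => ?_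
          rw [div_zpow]
        rw [e]
        exact Q_prod _ fun i => Q_zpow (hQ t t' i) (hQ' t t' i) _ }, rfl, rfl⟩

end Pool.Agent.N808.AS
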