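import Pool.Agent.N808.AS.Stm

/-!
Project AS (helper808), part BLM (helper134): the blowup of a point, for pre-models
(adapted from `exists_blowup` of Pool.Agent.N98.RM.Model of helper98).
-/

set_option autoImplicit false
set_option linter.unusedVariables false
set_option linter.unusedSimpArgs false

universe u

open Pool.Agent.W418.LU2 Pool.Agent.N98.T2 Pool.Agent.N98.RM Polynomial

namespace Pool.Agent.N808.AS.BLM_

variable {k K : Type u} [CommRing k] [Field K] [Algebra k K] {T I : Type} (M : PM k K T I)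
  (t0 : T) (u v : K)

lemma be_pos {t : T} (ht : t = t0) (b : Bool) : be t0 u v (t, b) = if b then u else v := by
  unfold be
  rw [if_pos ht]

lemma be_neg {p : T × Bool} (hp : p.1 ≠ t0) : be t0 u v p = 1 := by
  unfold be
  rw [if_neg hp]

lemma be_ne (hu : u ≠ 0) (hv : v ≠ 0) (p : T × Bool) : be t0 u v p ≠ 0 := by
  unfold be
  split_ifs
  · exact hu
  · exact hv
  · exact one_ne_zero

lemma be_mem (hu : u ∈ M.A t0) (hv : v ∈ M.A t0) (p : T × Bool) : be t0 u v p ∈ M.A p.1 := by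
  unfold be
  split_ifs with h1 h2
  · rw [h1]; exact hu
  · rw [h1]; exact hv
  · exact (M.A p.1).one_mem

lemma bw_eq (hu : u ≠ 0) (hv : v ≠ 0) (p : T × Bool) :
    bw t0 u v p = be t0 u v (p.1, !p.2) / be t0 u v p := by
  unfold bw be
  rcases p with ⟨t, b⟩
  by_cases h : t = t0
  · cases b <;> simp [h]
  · cases b <;> simp [h]

lemma bw_inv (t : T) : bw t0 u v (t, false) = (bw t0 u v (t, true))⁻¹ := by
  unfold bw
  by_cases h : t = t0
  · simp [h]
  · simp [h]

lemma be_div_mem (hu : u ≠ 0) (hv : v ≠ 0) (p : T × Bool) (b : Bool) :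
    be t0 u v (p.1, b) / be t0 u v p ∈ adj (M.A p.1) (bw t0 u v p) := by
  by_cases hb : b = p.2
  · have e : (p.1, b) = p := by rw [hb]
    rw [e, div_self (be_ne t0 u v hu hv p)]
    exact (adj (M.A p.1) (bw t0 u v p)).one_mem
  · have e : b = !p.2 := by
      rcases p with ⟨t, b'⟩
      cases b <;> cases b' <;> simp_all
    rw [e, ← bw_eq t0 u v hu hv]
    exact self_mem_adj _ _

lemma key0 (huA : u ∈ M.A t0) (hvA : v ∈ M.A t0) (hu : u ≠ 0) (hv : v ≠ 0)
    (hH : ∀ t, t ≠ t0 → ∃ α ∈ M.A t0, ∃ β ∈ M.A t0, M.H t / M.H t0 = α * u + β * v)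
    (p p' : T × Bool) : ∃ n : ℕ, (M.H p'.1 / M.H p.1) ^ n * (be t0 u v p' / be t0 u v p) ∈
      adj (M.A p.1) (bw t0 u v p) := by
  by_cases hp : p.1 = t0
  · by_cases hp' : p'.1 = t0
    · refine ⟨0, ?_⟩
      rw [pow_zero, one_mul]
      have e : p' = (p.1, p'.2) := Prod.ext (hp'.trans hp.symm) rfl
      rw [e]
      exact be_div_mem M t0 u v hu hv p p'.2
    · obtain ⟨α, hα, β, hβ, h⟩ := hH p'.1 hp'
      refine ⟨1, ?_⟩
      have e2 : (M.H p'.1 / M.H p.1) ^ 1 * (be t0 u v p' / be t0 u v p) =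
          α * (be t0 u v (p.1, true) / be t0 u v p) +
            β * (be t0 u v (p.1, false) / be t0 u v p) := by
        have eu : be t0 u v (p.1, true) = u := be_pos t0 u v hp true
        have ev : be t0 u v (p.1, false) = v := be_pos t0 u v hp false
        rw [be_neg t0 u v hp', pow_one, eu, ev, hp, h]
        ring
      rw [e2]
      rw [← hp] at hα hβ
      exact (adj (M.A p.1) (bw t0 u v p)).add_mem
        ((adj (M.A p.1) (bw t0 u v p)).mul_mem (le_adj _ _ hα) (be_div_mem M t0 u v hu hv p true))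
        ((adj (M.A p.1) (bw t0 u v p)).mul_mem (le_adj _ _ hβ) (be_div_mem M t0 u v hu hv p false))
  · obtain ⟨n, hn⟩ := M.gl p.1 p'.1 _ (be_mem M t0 u v huA hvA p')
    refine ⟨n, ?_⟩
    rw [be_neg t0 u v hp, div_one]
    exact le_adj _ _ hn

lemma key [Finite T] (huA : u ∈ M.A t0) (hvA : v ∈ M.A t0) (hu : u ≠ 0) (hv : v ≠ 0)
    (hH : ∀ t, t ≠ t0 → ∃ α ∈ M.A t0, ∃ β ∈ M.A t0, M.H t / M.H t0 = α * u + β * v) :
    ∃ N : ℕ, ∀ (p p' : T × Bool) (n : ℕ), N ≤ n →
      (M.H p'.1 / M.H p.1) ^ n * (be t0 u v p' / be t0 u v p) ∈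
        adj (M.A p.1) (bw t0 u v p) := by
  classical
  have : Fintype T := Fintype.ofFinite T
  choose n hn using key0 M t0 u v huA hvA hu hv hH
  refine ⟨Finset.univ.sup fun q : (T × Bool) × (T × Bool) => n q.1 q.2, fun p p' N hN => ?_⟩
  have h1 : n p p' ≤ Finset.univ.sup fun q : (T × Bool) × (T × Bool) => n q.1 q.2 :=
    Finset.le_sup (f := fun q : (T × Bool) × (T × Bool) => n q.1 q.2) (Finset.mem_univ (p, p'))
  obtain ⟨e, rfl⟩ := Nat.exists_eq_add_of_le (h1.trans hN)
  rw [add_comm, pow_add, mul_assoc]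
  exact (adj (M.A p.1) (bw t0 u v p)).mul_mem
    (le_adj _ _ ((M.A p.1).pow_mem (M.rt _ _) e)) (hn p p')

lemma form_u (hu : u ≠ 0) (m : ℕ) (c : ℕ → K) :
    form m c u v / u ^ m = ∑ l ∈ Finset.range (m + 1), c l * (v / u) ^ l := by
  unfold form
  rw [Finset.sum_div]
  refine Finset.sum_congr rfl fun l hl => ?_
  have hl' : l ≤ m := Nat.lt_succ_iff.1 (Finset.mem_range.1 hl)
  have e : u ^ m = u ^ (m - l) * u ^ l := by rw [← pow_add, Nat.sub_add_cancel hl']
  rw [e, div_pow]
  field_simp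

lemma form_v (hv : v ≠ 0) (m : ℕ) (c : ℕ → K) :
    form m c u v / v ^ m = ∑ l ∈ Finset.range (m + 1), c l * (u / v) ^ (m - l) := by
  unfold form
  rw [Finset.sum_div]
  refine Finset.sum_congr rfl fun l hl => ?_
  have hl' : l ≤ m := Nat.lt_succ_iff.1 (Finset.mem_range.1 hl)
  have e : v ^ m = v ^ (m - l) * v ^ l := by rw [← pow_add, Nat.sub_add_cancel hl']
  rw [e, div_pow]
  field_simp

lemma strict_mem (hu : u ≠ 0) (hv : v ≠ 0) {m : I → ℕ}
    (hx : ∀ i, ∃ c : ℕ → K, (∀ l, c l ∈ M.A t0) ∧ M.x t0 i = form (m i) c u v)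
    (p : T × Bool) (i : I) :
    M.x p.1 i / be t0 u v p ^ m i ∈ adj (M.A p.1) (bw t0 u v p) := by
  by_cases hp : p.1 = t0
  · obtain ⟨c, hc, h⟩ := hx i
    rcases p with ⟨t, b⟩
    simp only at hp ⊢
    subst hp
    rw [h, be_pos t u v rfl]
    cases b
    · simp only [Bool.false_eq_true, if_false]
      rw [form_v u v hv]
      refine Subalgebra.sum_mem _ fun l _ => ?_
      refine Subalgebra.mul_mem _ (le_adj _ _ (hc l)) (Subalgebra.pow_mem _ ?_ _)
      have e : bw t u v (t, false) = u / v := by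
        unfold bw
        simp
      rw [← e]
      exact self_mem_adj _ _
    · simp only [if_true]
      rw [form_u u v hu]
      refine Subalgebra.sum_mem _ fun l _ => ?_
      refine Subalgebra.mul_mem _ (le_adj _ _ (hc l)) (Subalgebra.pow_mem _ ?_ _)
      have e : bw t u v (t, true) = v / u := by
        unfold bw
        simp
      rw [← e]
      exact self_mem_adj _ _
  · rw [be_neg t0 u v hp, one_pow, div_one]
    exact le_adj _ _ (M.xA _ _)

end Pool.Agent.N808.AS.BLM_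

namespace Pool.Agent.N808.AS

open BLM_

/-- BLM: the blowup of a point, for pre-models. -/
theorem t_BLM : S_blow.{u} := by
  intro k K _ _ _ T I _ _ M t0 u v huA hvA hu hv hH m hx
  obtain ⟨N0, hN0⟩ := key M t0 u v huA hvA hu hv hH
  obtain ⟨A', hA'⟩ : ∃ A' : T × Bool → Subalgebra k K,
      A' = fun p => adj (M.A p.1) (bw t0 u v p) := ⟨_, rfl⟩
  have hle : ∀ p, M.A p.1 ≤ A' p := fun p => by rw [hA']; exact le_adj _ _
  obtain ⟨e, he⟩ : ∃ e : T × Bool → K, e = be t0 u v := ⟨_, rfl⟩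
  have he0 : ∀ p, e p ≠ 0 := fun p => by rw [he]; exact be_ne t0 u v hu hv p
  have hq : ∀ (p p' : T × Bool) (n : ℕ), N0 ≤ n →
      (M.H p'.1 / M.H p.1) ^ n * (e p' / e p) ∈ A' p := by
    intro p p' n hn
    rw [hA', he]
    exact hN0 p p' n hn
  obtain ⟨N, hN⟩ : ∃ N : ℕ, N = 2 * N0 + 1 := ⟨_, rfl⟩
  obtain ⟨H', hH'⟩ : ∃ H' : T × Bool → K, H' = fun p => M.H p.1 ^ N * e p := ⟨_, rfl⟩
  have hH0 : ∀ p : T × Bool, H' p ≠ 0 := fun p => by
    rw [hH']
    exact mul_ne_zero (pow_ne_zero _ (M.H0 _)) (he0 p)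
  have hρN : ∀ p p' : T × Bool, H' p' / H' p = (M.H p'.1 / M.H p.1) ^ N * (e p' / e p) := by
    intro p p'
    rw [hH']
    simp only
    rw [div_pow, mul_div_mul_comm]
  have hρ : ∀ p p' : T × Bool, H' p' / H' p =
      (M.H p'.1 / M.H p.1) * ((M.H p'.1 / M.H p.1) ^ (2 * N0) * (e p' / e p)) := by
    intro p p'
    rw [hρN, hN, pow_succ']
    ring
  have hρmem : ∀ p p' : T × Bool, H' p' / H' p ∈ A' p := by
    intro p p'
    rw [hρN]
    exact hq p p' _ (by omega)
  have hw : ∀ p : T × Bool, bw t0 u v p = e (p.1, !p.2) / e p := fun p => by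
    rw [he]
    exact bw_eq t0 u v hu hv p
  have hgl : ∀ p p' : T × Bool, ∀ f ∈ A' p', ∃ n : ℕ,
      (H' p' / H' p) ^ n * f ∈ A' p := by
    intro p p' f hf
    rw [hA'] at hf
    refine adj_induction (M.A p'.1) (bw t0 u v p')
      (p := fun f => ∃ n : ℕ, (H' p' / H' p) ^ n * f ∈ A' p) ?_ ?_ ?_ f hf
    · intro a ha
      obtain ⟨n, hn⟩ := M.gl p.1 p'.1 a ha
      refine ⟨n, ?_⟩
      rw [hρ, mul_pow, mul_right_comm]
      exact (A' p).mul_mem (hle p hn) ((A' p).pow_mem (hq p p' _ (by omega)) n)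
    · rintro a b ⟨n, hn⟩ ⟨m, hm⟩
      refine ⟨n + m, ?_⟩
      have h1 : (H' p' / H' p) ^ (n + m) * (a + b) =
          (H' p' / H' p) ^ m * ((H' p' / H' p) ^ n * a) +
          (H' p' / H' p) ^ n * ((H' p' / H' p) ^ m * b) := by
        ring
      rw [h1]
      exact (A' p).add_mem
        ((A' p).mul_mem ((A' p).pow_mem (hρmem p p') m) hn)
        ((A' p).mul_mem ((A' p).pow_mem (hρmem p p') n) hm)
    · rintro a ⟨n, hn⟩
      refine ⟨n + 1, ?_⟩
      have h1 : (H' p' / H' p) ^ (n + 1) * (a * bw t0 u v p') =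
          (H' p' / H' p) ^ n * a * (H' p' / H' p * bw t0 u v p') := by ring
      rw [h1]
      refine (A' p).mul_mem hn ?_
      have h2 : H' p' / H' p * bw t0 u v p' =
          (M.H p'.1 / M.H p.1) ^ N * (e (p'.1, !p'.2) / e p) := by
        rw [hw, hρN]
        have h4 := he0 p'
        field_simp
      rw [h2]
      exact hq p (p'.1, !p'.2) N (by omega)
  have hft : ∀ p, Algebra.FiniteType k (A' p) := fun p => by
    rw [hA']
    exact ft_adj (M.ft p.1) _
  refine ⟨{ A := A', H := H', x := fun p o => o.elim (be t0 u v p) fun i =>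
              M.x p.1 i / be t0 u v p ^ m i,
            ft := hft, H0 := hH0,
            rt := hρmem, gl := hgl, cv := ?_, xA := ?_,
            x0 := ?_, gi := ?_ }, hA', rfl⟩
  · -- covering
    intro V hV
    obtain ⟨t, ht⟩ := M.cv V hV
    have h1 : ∀ b : Bool, bw t0 u v (t, b) ∈ V → ∀ f ∈ A' (t, b), f ∈ V := by
      intro b hb
      rw [hA']
      exact adj_induction (M.A t) (bw t0 u v (t, b)) ht (fun a b ha hb => V.add_mem _ _ ha hb)
        (fun a ha => V.mul_mem _ _ ha hb)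
    rcases V.mem_or_inv_mem (bw t0 u v (t, true)) with h | h
    · exact ⟨(t, true), h1 true h⟩
    · refine ⟨(t, false), h1 false ?_⟩
      rw [bw_inv]
      exact h
  · rintro p (_ | i)
    · exact hle p (be_mem M t0 u v huA hvA p)
    · rw [hA']
      exact strict_mem M t0 u v hu hv hx p i
  · rintro p (_ | i)
    · exact be_ne t0 u v hu hv p
    · exact div_ne_zero (M.x0 _ _) (pow_ne_zero _ (be_ne t0 u v hu hv p))
  · -- gluing of the divisors
    rintro p p' (_ | i)
    · refine ⟨1, ?_⟩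
      simp only [Option.elim]
      rw [← he]
      have h1 : (H' p' / H' p) ^ 1 * (e p' / e p) =
          (M.H p'.1 / M.H p.1) * ((M.H p'.1 / M.H p.1) ^ N0 * (e p' / e p)) ^ 2 := by
        rw [pow_one, hρ, mul_pow, ← pow_mul, mul_comm N0 2]
        ring
      rw [h1]
      exact (A' p).mul_mem (hle p (M.rt _ _)) ((A' p).pow_mem (hq p p' _ le_rfl) 2)
    · obtain ⟨n, hn⟩ := M.gi p.1 p'.1 i
      refine ⟨m i + n, ?_⟩
      simp only [Option.elim]
      rw [← he]
      have h4 := he0 p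
      have h5 := he0 p'
      have h6 := M.x0 p.1 i
      have h7 := M.H0 p.1
      have h8 : H' p' / H' p * (e p / e p') = (M.H p'.1 / M.H p.1) ^ N := by
        rw [hρN]
        field_simp
      have h1 : (H' p' / H' p) ^ (m i + n) *
          (M.x p'.1 i / e p' ^ m i / (M.x p.1 i / e p ^ m i)) =
          ((H' p' / H' p) * (e p / e p')) ^ m i *
          ((H' p' / H' p) ^ n * (M.x p'.1 i / M.x p.1 i)) := by
        rw [pow_add, mul_pow, div_pow (e p)]
        have h9 := pow_ne_zero (m i) h4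
        have h10 := pow_ne_zero (m i) h5
        generalize (H' p' / H' p) ^ m i = X1
        generalize (H' p' / H' p) ^ n = X2
        field_simp
      have h2 : (H' p' / H' p) ^ n * (M.x p'.1 i / M.x p.1 i) =
          ((M.H p'.1 / M.H p.1) ^ n * (M.x p'.1 i / M.x p.1 i)) *
          ((M.H p'.1 / M.H p.1) ^ (2 * N0) * (e p' / e p)) ^ n := by
        rw [hρ, mul_pow]
        ring
      rw [h1, h8, h2]
      refine (A' p).mul_mem ((A' p).pow_mem ((A' p).pow_mem (hle p (M.rt _ _)) N) (m i)) ?_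
      exact (A' p).mul_mem (hle p hn) ((A' p).pow_mem (hq p p' _ (by omega)) n)

end Pool.Agent.N808.AS
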