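import Pool.Agent.N808.AS.Stm
import Pool.Agent.N98.RM.Base2

/-!
# AS, task DED: explicit regular models of Dedekind domains

The construction is that of `Pool.Agent.N98.RM.hasRM_dedekind` (helper98).
-/

set_option autoImplicit false
set_option linter.unusedVariables false
set_option linter.unusedSectionVars false

universe u

open IsLocalRing Pool.Agent.W418.LU2 Pool.Agent.N98.RM

namespace Pool.Agent.N808.AS

namespace DED_

section primes

variable {O : Type u} [CommRing O] [IsDedekindDomain O]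

lemma exists_primes' (c : O) (hc : c ≠ 0) : ∃ (n : ℕ) (P : Fin n → Ideal O),
    Function.Injective P ∧ (∀ i, (P i).IsPrime) ∧ (∀ i, P i ≠ ⊥) ∧ (∀ i, c ∈ P i) ∧
      ∀ Q : Ideal O, Q.IsPrime → Q ≠ ⊥ → c ∈ Q → ∃ i, P i = Q := by
  classical
  have hc' : Ideal.span {c} ≠ ⊥ := fun h => hc (Ideal.span_singleton_eq_bot.1 h)
  let S : Finset (Ideal O) := (UniqueFactorizationMonoid.normalizedFactors (Ideal.span {c})).toFinset
  have hS : ∀ Q, Q ∈ S ↔ Q.IsPrime ∧ Q ≠ ⊥ ∧ c ∈ Q := by
    intro Q
    rw [Multiset.mem_toFinset]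
    constructor
    · intro hQ
      have h1 := UniqueFactorizationMonoid.prime_of_normalized_factor Q hQ
      refine ⟨Ideal.isPrime_of_prime h1, h1.ne_zero, ?_⟩
      have h2 := UniqueFactorizationMonoid.dvd_of_mem_normalizedFactors hQ
      exact Ideal.dvd_iff_le.1 h2 (Ideal.mem_span_singleton_self _)
    · rintro ⟨h1, h2, h3⟩
      have h4 : Prime Q := Ideal.prime_of_isPrime h2 h1
      have h5 : Q ∣ Ideal.span {c} :=
        Ideal.dvd_iff_le.2 ((Ideal.span_singleton_le_iff_mem _).2 h3)
      obtain ⟨Q', hQ', hQQ⟩ := UniqueFactorizationMonoid.exists_mem_normalizedFactors_of_dvd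
        hc' h4.irreducible h5
      rw [associated_iff_eq] at hQQ
      rwa [hQQ]
  refine ⟨S.card, fun i => (S.equivFin.symm i).1, ?_, ?_, ?_, ?_, ?_⟩
  · exact Subtype.val_injective.comp S.equivFin.symm.injective
  · exact fun i => ((hS _).1 (S.equivFin.symm i).2).1
  · exact fun i => ((hS _).1 (S.equivFin.symm i).2).2.1
  · exact fun i => ((hS _).1 (S.equivFin.symm i).2).2.2
  · intro Q h1 h2 h3
    refine ⟨S.equivFin ⟨Q, (hS Q).2 ⟨h1, h2, h3⟩⟩, ?_⟩
    change (S.equivFin.symm (S.equivFin ⟨Q, (hS Q).2 ⟨h1, h2, h3⟩⟩)).1 = Q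
    rw [Equiv.symm_apply_apply]

end primes

section centre

variable {O F : Type u} [CommRing O] [IsDedekindDomain O] [Field F] [Algebra O F]
  [IsFractionRing O F]

/-- The prime ideal of the centre of a local ring. -/
lemma exists_centre {W : Subring F} (hW : Loc W)
    (hOW : (⊥ : Subalgebra O F).toSubring ≤ W) : ∃ q : Ideal O, q.IsPrime ∧
    ∀ a : O, a ∈ q ↔ ¬ (algebraMap O F a ≠ 0 ∧ (algebraMap O F a)⁻¹ ∈ W) := by
  have hloc : IsLocalRing (lo W (⊥ : Subalgebra O F).toSubring) := isLocalRing_lo hW hOW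
  let j : O →+* lo W (⊥ : Subalgebra O F).toSubring :=
    (algebraMap O F).codRestrict _ fun a => le_lo _ _ (mem_bot' a)
  refine ⟨(maximalIdeal (lo W (⊥ : Subalgebra O F).toSubring)).comap j, Ideal.IsPrime.comap j,
    fun a => ?_⟩
  rw [Ideal.mem_comap, mem_maximalIdeal, mem_nonunits_iff, isUnit_lo_iff hOW]
  exact Iff.rfl

end centre

end DED_

open DED_ in
theorem t_DED : S_ded.{u} := by
  classical
  intro O F _ _ _ _ _ c hc
  have hinj : Function.Injective (algebraMap O F) := inj_OF
  have hne : ∀ {a : O}, a ≠ 0 → algebraMap O F a ≠ 0 := fun ha h =>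
    ha (hinj (h.trans (map_zero _).symm))
  obtain ⟨n, P, hPi, hPp, hP0, hcP, hPc⟩ := exists_primes' c hc
  obtain ⟨s, x, hs, hx0, hx⟩ := exists_cover_ded P hPp hP0
  let T : Type := {b : Bool // s b ≠ 0}
  let A : T → Subalgebra O F := fun t => adj ⊥ (algebraMap O F (s t.1))⁻¹
  have hs0 : ∀ t : T, algebraMap O F (s t.1) ≠ 0 := fun t => hne t.2
  have hOA : ∀ (t : T) (a : O), algebraMap O F a ∈ A t := fun t a => (A t).algebraMap_mem a
  have hsA : ∀ t : T, (algebraMap O F (s t.1))⁻¹ ∈ A t := fun t => self_mem_adj _ _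
  have hx0' : ∀ b i, algebraMap O F (x b i) ≠ 0 := fun b i => hne (hx0 b i)
  let M : LM (⊥ : Subalgebra O F) ⊤ T (Fin n) :=
    { A := A
      H := fun t => algebraMap O F (s t.1)
      x := fun t i => algebraMap O F (x t.1 i)
      ft := fun t => ft_adj inferInstance _
      base := fun t => bot_le
      H0 := hs0
      HR := fun t => trivial
      rt := fun t t' => by
        rw [div_eq_mul_inv]
        exact (A t).mul_mem (hOA _ _) (hsA t)
      gl := by
        intro t t' f hf
        obtain ⟨m, hm⟩ := (mem_adj_inv (Subalgebra.algebraMap_mem _ _) (hs0 t')).1 hf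
        refine ⟨m, ?_⟩
        have e : (algebraMap O F (s t'.1) / algebraMap O F (s t.1)) ^ m * f =
            f * algebraMap O F (s t'.1) ^ m * ((algebraMap O F (s t.1))⁻¹) ^ m := by
          rw [div_eq_mul_inv, mul_pow]
          ring
        rw [e]
        exact (A t).mul_mem (le_adj _ _ hm) ((A t).pow_mem (hsA t) m)
      dn := fun t f hf => ⟨0, trivial⟩
      cv := by
        intro V hV
        have hV' : ∀ a : O, algebraMap O F a ∈ V := fun a => hV _ (Subalgebra.algebraMap_mem _ a)
        have key : ∀ b, algebraMap O F (s b) ≠ 0 → (algebraMap O F (s b))⁻¹ ∈ V →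
            ∃ t : T, ∀ f ∈ A t, f ∈ V := by
          intro b hb hbV
          refine ⟨⟨b, fun h => hb (by rw [h, map_zero])⟩, ?_⟩
          exact adj_induction _ _ (p := fun f => f ∈ V) (fun f hf => hV f hf)
            (fun _ _ h1 h2 => V.add_mem _ _ h1 h2) (fun _ h => V.mul_mem _ _ h hbV)
        let j : Bool → V := fun b => ⟨algebraMap O F (s b), hV' _⟩
        have h1 : j false + j true = 1 := by
          apply Subtype.ext
          change algebraMap O F (s false) + algebraMap O F (s true) = 1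
          rw [← map_add, hs, map_one]
        have key2 : ∀ b, IsUnit (j b) → ∃ t : T, ∀ f ∈ A t, f ∈ V := by
          intro b hb
          obtain ⟨c, hc⟩ := isUnit_iff_exists_inv.1 hb
          have h3 : algebraMap O F (s b) * c = 1 := congrArg Subtype.val hc
          refine key b (left_ne_zero_of_mul_eq_one h3) ?_
          rw [← eq_inv_of_mul_eq_one_right h3]
          exact c.2
        rcases IsLocalRing.isUnit_or_isUnit_of_add_one h1 with h | h
        · exact key2 _ h
        · exact key2 _ h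
      xA := fun t i => hOA _ _
      x0 := fun t i => hx0' _ _
      gi := by
        intro t t' i
        refine ⟨1, ?_⟩
        obtain ⟨d, hd⟩ := (hx t.1 i).1 _ (hx t'.1 i).2
        have e : (algebraMap O F (s t'.1) / algebraMap O F (s t.1)) ^ 1 *
            (algebraMap O F (x t'.1 i) / algebraMap O F (x t.1 i)) =
            algebraMap O F d * ((algebraMap O F (s t.1))⁻¹) ^ 2 := by
          have h2 := congrArg (algebraMap O F) hd
          simp only [map_mul] at h2
          have h3 := hs0 t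
          have h4 := hx0' t.1 i
          field_simp
          linear_combination h2
        rw [e]
        exact (A t).mul_mem (hOA _ _) ((A t).pow_mem (hsA t) 2)
      rg := by
        intro t
        refine rg_ded (fun i => hx0' _ _) (fun i => hOA _ _) P (fun i => (hPp i).isMaximal (hP0 i))
          hPi ?_
        intro i a ha
        obtain ⟨d, hd⟩ := (hx t.1 i).1 a ha
        refine ⟨algebraMap O F d * (algebraMap O F (s t.1))⁻¹, (A t).mul_mem (hOA _ _) (hsA t), ?_⟩
        have h2 := congrArg (algebraMap O F) hd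
        simp only [map_mul] at h2
        rw [← mul_assoc, ← h2, mul_comm (algebraMap O F (s t.1)), mul_assoc,
          mul_inv_cancel₀ (hs0 t), mul_one] }
  have hB : ∀ (e : O) (m : ℕ), e ∣ c ^ m → IsB M (algebraMap O F e) := by
    intro e m he
    obtain ⟨γ, hγ⟩ := exists_factor P (c ^ m) (pow_ne_zero m hc)
      (fun Q hQ hQ0 hQm => hPc Q hQ hQ0 (hQ.mem_of_pow_mem m hQm)) e he
    have he0 : e ≠ 0 := by
      rintro rfl
      exact pow_ne_zero m hc (zero_dvd_iff.1 he)
    refine ⟨fun i => γ i, fun t => ?_⟩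
    obtain ⟨⟨u, hu⟩, v, hv⟩ := exists_frac P (s t.1) (x t.1) (fun i => hx t.1 i) e γ hγ
    have hP' : ∏ i, algebraMap O F (x t.1 i) ^ γ i ≠ 0 :=
      Finset.prod_ne_zero_iff.2 fun i _ => pow_ne_zero _ (hx0' _ _)
    have hu' := congrArg (algebraMap O F) hu
    have hv' := congrArg (algebraMap O F) hv
    simp only [map_mul, map_pow, map_prod] at hu' hv'
    set X := ∏ i, algebraMap O F (x t.1 i) ^ γ i with hX
    have e1 : algebraMap O F e / X =
        algebraMap O F u * ((algebraMap O F (s t.1))⁻¹) ^ (∑ i, γ i) := by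
      have := hs0 t
      rw [inv_pow]
      field_simp
      linear_combination hu'
    have e2 : (algebraMap O F e / X)⁻¹ =
        algebraMap O F v * ((algebraMap O F (s t.1))⁻¹) ^ (∑ i, γ i) := by
      have := hs0 t
      have := hne he0
      rw [inv_pow, inv_div]
      field_simp
      linear_combination hv'
    refine ⟨algebraMap O F e / X, div_ne_zero (hne he0) hP', ?_, ?_, ?_⟩
    · rw [e1]
      exact (A t).mul_mem (hOA _ _) ((A t).pow_mem (hsA t) _)
    · rw [e2]
      exact (A t).mul_mem (hOA _ _) ((A t).pow_mem (hsA t) _)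
    · change algebraMap O F e = algebraMap O F e / X * ∏ i, algebraMap O F (x t.1 i) ^ (γ i : ℤ)
      simp only [zpow_natCast]
      rw [← hX, div_mul_cancel₀ _ hP']
  have hbotA : ∀ t : T, (⊥ : Subalgebra O F).toSubring ≤ (A t).toSubring := by
    intro t a ha
    obtain ⟨α, rfl⟩ := Algebra.mem_bot.1 ha
    exact hOA t α
  have hcen : ∀ (t : T) (S : Subring F), Loc S → (A t).toSubring ≤ S → ∃ q : Ideal O, q.IsPrime ∧
      s t.1 ∉ q ∧ ∀ a : O, a ∈ q ↔ ¬ (algebraMap O F a ≠ 0 ∧ (algebraMap O F a)⁻¹ ∈ S) := by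
    intro t S hS hAS
    obtain ⟨q, hq, hq'⟩ := exists_centre (O := O) hS ((hbotA t).trans hAS)
    refine ⟨q, hq, fun h => ?_, hq'⟩
    exact (hq' _).1 h ⟨hs0 t, hAS (hsA t)⟩
  refine ⟨T, inferInstance, n, M, ?_, ?_, ?_, ?_, ?_⟩
  · intro t y
    obtain ⟨a, b, hb, hab⟩ := IsFractionRing.div_surjective O y
    exact ⟨_, hOA t a, _, hOA t b, hne (nonZeroDivisors.ne_zero hb), by
      rw [← hab, div_eq_mul_inv]⟩
  · intro a d m had
    exact hB a m ⟨d, had.symm⟩
  · intro t i
    obtain ⟨d, hd⟩ := (hx t.1 i).1 c (hcP i)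
    have h2 := congrArg (algebraMap O F) hd
    simp only [map_mul] at h2
    change algebraMap O F c / algebraMap O F (x t.1 i) ∈ A t
    have e : algebraMap O F c / algebraMap O F (x t.1 i) =
        algebraMap O F d * (algebraMap O F (s t.1))⁻¹ := by
      have h3 := hs0 t
      have h4 := hx0' t.1 i
      field_simp
      linear_combination h2
    rw [e]
    exact (A t).mul_mem (hOA _ _) (hsA t)
  · intro t S hS hAS hcS
    obtain ⟨q, hq, hsq, hq'⟩ := hcen t S hS hAS
    have hcq : c ∈ q := (hq' c).2 fun h => hcS h.2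
    have hq0 : q ≠ ⊥ := by
      rintro rfl
      exact hc ((Submodule.mem_bot _).1 hcq)
    obtain ⟨i, hi⟩ := hPc q hq hq0 hcq
    refine ⟨i, fun h => ?_⟩
    have h1 : s t.1 * x t.1 i ∈ q := by
      rw [← hi]
      exact (hx t.1 i).2
    have h2 : x t.1 i ∈ q := (hq.mem_or_mem h1).resolve_left hsq
    exact (hq' _).1 h2 ⟨hx0' _ _, h⟩
  · intro t i S hS hAS hxS a ha haS
    obtain ⟨q, hq, hsq, hq'⟩ := hcen t S hS hAS
    have hxq : x t.1 i ∈ q := (hq' _).2 fun h => hxS h.2
    have hPq : P i = q := by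
      refine ((hPp i).isMaximal (hP0 i)).eq_of_le hq.ne_top ?_
      intro p hp
      obtain ⟨d, hd⟩ := (hx t.1 i).1 p hp
      have h1 : s t.1 * p ∈ q := by
        rw [hd]
        exact Ideal.mul_mem_right _ _ hxq
      exact (hq.mem_or_mem h1).resolve_left hsq
    obtain ⟨m, hm⟩ := (mem_adj_inv (Subalgebra.algebraMap_mem _ _) (hs0 t)).1 ha
    obtain ⟨α, hα⟩ := Algebra.mem_bot.1 hm
    have ha2 : a = algebraMap O F α * ((algebraMap O F (s t.1))⁻¹) ^ m := by
      rw [hα, inv_pow, mul_assoc, mul_inv_cancel₀ (pow_ne_zero m (hs0 t)), mul_one]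
    have hαq : α ∈ q := by
      refine (hq' α).2 fun h => haS ?_
      rw [ha2, mul_inv, inv_pow, inv_inv]
      exact S.mul_mem h.2 (S.pow_mem (hAS (hOA t _)) m)
    rw [← hPq] at hαq
    obtain ⟨d, hd⟩ := (hx t.1 i).1 α hαq
    have h2 := congrArg (algebraMap O F) hd
    simp only [map_mul] at h2
    change a / algebraMap O F (x t.1 i) ∈ A t
    have e : a / algebraMap O F (x t.1 i) =
        algebraMap O F d * ((algebraMap O F (s t.1))⁻¹) ^ (m + 1) := by
      have h3 := hs0 t
      have h4 := hx0' t.1 i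
      rw [ha2, pow_succ]
      field_simp
      linear_combination h2
    rw [e]
    exact (A t).mul_mem (hOA _ _) ((A t).pow_mem (hsA t) _)

end Pool.Agent.N808.AS
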