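import Pool.Agent.N98.RM.HasRM
import Pool.Agent.N98.T2.Main

/-!
Log resolution on arithmetic surfaces: definitions.
-/

set_option autoImplicit false
set_option linter.unusedVariables false
set_option linter.unusedSectionVars false

universe u

open Pool.Agent.W418.LU2 Pool.Agent.N98.T2 Pool.Agent.N98.RM Polynomial

namespace Pool.Agent.N808.AS

/-- Finitely many affine charts of a projective `k`-scheme with function field `K`, with homogeneous
coordinates `H t`, and a family of divisors with the local equations `x t i`. (The same as `LM`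
without the condition `rg`.) -/
structure PM (k K : Type u) [CommRing k] [Field K] [Algebra k K] (T I : Type) where
  A : T → Subalgebra k K
  H : T → K
  x : T → I → K
  ft : ∀ t, Algebra.FiniteType k (A t)
  H0 : ∀ t, H t ≠ 0
  rt : ∀ t t', H t' / H t ∈ A t
  gl : ∀ t t', ∀ f ∈ A t', ∃ n : ℕ, (H t' / H t) ^ n * f ∈ A t
  cv : ∀ V : ValuationSubring K, (∀ a : k, algebraMap k K a ∈ V) → ∃ t, ∀ f ∈ A t, f ∈ V
  xA : ∀ t i, x t i ∈ A t
  x0 : ∀ t i, x t i ≠ 0
  gi : ∀ t t' i, ∃ n : ℕ, (H t' / H t) ^ n * (x t' i / x t i) ∈ A t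

section defs

variable {k K : Type u} [CommRing k] [Field K] [Algebra k K] {T T' I Γ : Type} [Fintype Γ]

/-- The local ring of the chart `t` at the centre of the local ring `S`. -/
def PM.P (M : PM k K T I) (t : T) (S : Subring K) : Subring K := lo S (M.A t).toSubring

/-- The local ring `S` has a centre on the chart `t`. -/
def PM.On (M : PM k K T I) (t : T) (S : Subring K) : Prop := Loc S ∧ (M.A t).toSubring ≤ S

/-- All functions are monomials in some system of parameters of `P`. -/
def GoodP (Δ : K) (G : Γ → K) (P : Subring K) : Prop :=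
  ∃ (V : ValuationSubring K) (x y : K), Par V P x y ∧ Mo V P x y Δ ∧ ∀ a, Mo V P x y (G a)

/-- `P'` is a quadratic transform of `P` on which the functions are not monomials. -/
def rr (Δ : K) (G : Γ → K) (P' P : Subring K) : Prop :=
  (∃ V s, Nx V P s P') ∧ ¬ GoodP Δ G P'

/-- The points at which the family `x` has not normal crossings. -/
def PM.BadSet [Fintype I] (M : PM k K T I) : Set (Subring K) :=
  {P | ∃ t S, M.On t S ∧ P = M.P t S ∧ ¬ RegP S (M.P t S) (M.x t)}

/-- The components `x i` with `b i` (the boundary) form a divisor with strict normal crossings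
whose support is `Δ = 0`; the others are curves, which have normal crossings outside of `Δ = 0`.
(`hv`: no component of the boundary is contained in a curve. `mon`: the equations of the curves are
products of powers of the functions `G a` and of equations of boundary components. `two`: the
points on the curves above `Δ = 0` are two-dimensional.) -/
structure St0 (Δ : K) (G : Γ → K) [Fintype I] (M : PM k K T I) (b : I → Prop) : Prop where
  reg : ∀ t, RegC (M.A t).toSubring (fun i : {i // b i} => M.x t i)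
  hv : ∀ t S, M.On t S → ∀ i j, b i → ¬ b j → (M.x t i)⁻¹ ∉ S → M.x t j / M.x t i ∉ M.P t S
  out : ∀ t S, M.On t S → Δ⁻¹ ∈ S → RegP S (M.P t S) (M.x t)
  dv : ∀ t i, b i → Δ / M.x t i ∈ M.A t
  cov : ∀ t S, M.On t S → Δ⁻¹ ∉ S → ∃ i, b i ∧ (M.x t i)⁻¹ ∉ S
  mon : ∀ t j, ¬ b j → ∃ (e : Γ → ℤ) (c : I → ℤ), (∀ i, ¬ b i → c i = 0) ∧
    M.x t j = (∏ a, G a ^ e a) * ∏ i, M.x t i ^ c i
  two : ∀ t S, M.On t S → Δ⁻¹ ∉ S → (∃ j, ¬ b j ∧ (M.x t j)⁻¹ ∉ S) →
    ∃ V x y, Par V (M.P t S) x y

/-- In addition there are no infinite sequences of quadratic transforms of the bad points on which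
the functions do not become monomials. -/
structure St (Δ : K) (G : Γ → K) [Fintype I] (M : PM k K T I) (b : I → Prop) : Prop where
  st0 : St0 Δ G M b
  acc : ∀ P ∈ M.BadSet, Acc (rr Δ G) P

/-- `M'` is obtained from `M` by localizing the charts. -/
structure Rf (M : PM k K T I) (M' : PM k K T' I) (π : T' → T) : Prop where
  x : ∀ p i, M'.x p i = M.x (π p) i
  le : ∀ p, M.A (π p) ≤ M'.A p
  lo : ∀ p S, M'.On p S → M'.P p S = M.P (π p) S

/-- The centre of `S0` is on the chart `t0` only, and on this chart `u, v` generate its ideal. -/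
structure Iso (M : PM k K T I) (b : I → Prop) (S0 : Subring K) (t0 : T) (u v : K) : Prop where
  on : M.On t0 S0
  uA : u ∈ M.A t0
  vA : v ∈ M.A t0
  u0 : u ≠ 0
  v0 : v ≠ 0
  uS : u⁻¹ ∉ S0
  vS : v⁻¹ ∉ S0
  gen : ∀ a ∈ M.A t0, a⁻¹ ∉ S0 → ∃ α ∈ M.A t0, ∃ β ∈ M.A t0, a = α * u + β * v
  H : ∀ t, t ≠ t0 → ∃ α ∈ M.A t0, ∃ β ∈ M.A t0, M.H t / M.H t0 = α * u + β * v
  bd : ∀ i, b i → M.x t0 i = u ∨ M.x t0 i = v ∨ (M.x t0 i)⁻¹ ∈ M.A t0
  pt : ∀ S, M.On t0 S → u⁻¹ ∉ S → v⁻¹ ∉ S → M.P t0 S = M.P t0 S0
  uniq : ∀ t S, M.On t S → M.P t S = M.P t0 S0 → t = t0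

open Classical in
/-- The equation of the exceptional divisor of the blowup of the point `u = v = 0`. -/
noncomputable def be (t0 : T) (u v : K) (p : T × Bool) : K :=
  if p.1 = t0 then (if p.2 then u else v) else 1

open Classical in
/-- The new function on the charts of the blowup of the point `u = v = 0`. -/
noncomputable def bw (t0 : T) (u v : K) (p : T × Bool) : K :=
  if p.1 = t0 then (if p.2 then v / u else u / v) else 1

/-- The form of degree `m` with the coefficients `c` at `(u, v)`. -/
def form (m : ℕ) (c : ℕ → K) (u v : K) : K :=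
  ∑ l ∈ Finset.range (m + 1), c l * (u ^ (m - l) * v ^ l)

end defs

end Pool.Agent.N808.AS
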