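import Pool.Agent.N808.AS.Stm2

/-!
Functions with an etale zero divisor have normal crossings.
-/

set_option autoImplicit false

universe u

open Pool.Agent.W418.LU2 Pool.Agent.N98.T2 Pool.Agent.N98.RM Polynomial IsLocalRing

namespace Pool.Agent.N808.AS

theorem t_ETD : S_etd.{u} := by
  classical
  intro K _ A S hS hAS hreg D hD ι _ x hx0 hxA hUW
  obtain ⟨U, hU, W, hW, hUW⟩ := hUW
  -- the derivation preserves the local ring
  have hDP : ∀ p ∈ lo S A, D p ∈ lo S A := by
    rintro _ ⟨a, ha, b, hb, hb0, hbW, rfl⟩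
    have hbP : b⁻¹ ∈ lo S A := inv_mem_lo hAS (le_lo _ _ hb) hb0 hbW
    rw [Derivation.leibniz, Derivation.leibniz_inv]
    simp only [smul_eq_mul]
    refine (lo S A).add_mem ((lo S A).mul_mem (le_lo _ _ ha) ((lo S A).mul_mem
      ((lo S A).neg_mem ((lo S A).pow_mem hbP 2)) (le_lo _ _ (hD _ hb))))
      ((lo S A).mul_mem hbP (le_lo _ _ (hD _ ha)))
  let δ : lo S A → lo S A := fun p => ⟨D p, hDP p p.2⟩
  have hδadd : ∀ p q, δ (p + q) = δ p + δ q := fun p q => Subtype.ext (map_add D _ _)
  have hδmul : ∀ p q, δ (p * q) = p * δ q + q * δ p := fun p q => by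
    apply Subtype.ext
    change D ((p : K) * q) = p * D q + q * D p
    rw [Derivation.leibniz]
    rfl
  have hδ2 : ∀ p ∈ maximalIdeal (lo S A) ^ 2, δ p ∈ maximalIdeal (lo S A) := by
    intro p hp
    rw [pow_two] at hp
    induction hp using Submodule.mul_induction_on' with
    | mem_mul_mem a ha b hb =>
      rw [hδmul]
      exact (maximalIdeal _).add_mem ((maximalIdeal _).mul_mem_right _ ha)
        ((maximalIdeal _).mul_mem_right _ hb)
    | add a _ b _ ha hb =>
      rw [hδadd]
      exact (maximalIdeal _).add_mem ha hb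
  let X : ι → lo S A := fun i => ⟨x i, le_lo _ _ (hxA i)⟩
  have hXv : ((∏ i, X i : lo S A) : K) = ∏ i, x i := by
    rw [← Subring.subtype_apply, map_prod]
    rfl
  have hQ : (∏ i, X i) ∉ maximalIdeal (lo S A) ^ 2 := by
    intro hQ
    have h1 : (⟨U, hU⟩ : lo S A) * (∏ i, X i) + ⟨W, hW⟩ * δ (∏ i, X i) = 1 := by
      apply Subtype.ext
      change U * ((∏ i, X i : lo S A) : K) + W * D ((∏ i, X i : lo S A) : K) = 1
      rw [hXv]
      exact hUW
    have h2 : (1 : lo S A) ∈ maximalIdeal (lo S A) := by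
      rw [← h1]
      exact (maximalIdeal _).add_mem ((maximalIdeal _).mul_mem_left _ (Ideal.pow_le_self
        two_ne_zero hQ)) ((maximalIdeal _).mul_mem_left _ (hδ2 _ hQ))
    exact (Ideal.ne_top_iff_one _).1 (maximalIdeal.isMaximal _).ne_top h2
  refine ⟨lo_le hAS, hx0, fun i => le_lo _ _ (hxA i), hreg, fun y hy h0 h1 =>
    inv_mem_lo hAS hy h0 h1, ?_⟩
  intro c hc hs i
  by_cases hi : X i ∈ maximalIdeal (lo S A)
  · have hl : ∀ l, l ≠ i → c l = 0 := by
      intro l hli
      apply hc l
      intro hl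
      apply hQ
      rw [← Finset.mul_prod_erase Finset.univ X (Finset.mem_univ i),
        ← Finset.mul_prod_erase (Finset.univ.erase i) X
          (Finset.mem_erase.2 ⟨hli, Finset.mem_univ l⟩), ← mul_assoc]
      refine Ideal.mul_mem_right _ _ ?_
      rw [pow_two]
      exact Ideal.mul_mem_mul hi hl
    rw [Finset.sum_eq_single i (fun l _ hli => by rw [hl l hli, zero_mul])
      (fun h => absurd (Finset.mem_univ i) h)] at hs
    by_contra hci
    have hcu : IsUnit (c i) := by
      rw [mem_maximalIdeal, mem_nonunits_iff, not_not] at hci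
      exact hci
    have h3 : X i ∈ maximalIdeal (lo S A) ^ 2 := (Ideal.unit_mul_mem_iff_mem _ hcu).1 hs
    apply hQ
    rw [← Finset.mul_prod_erase Finset.univ X (Finset.mem_univ i)]
    exact Ideal.mul_mem_right _ _ h3
  · rw [hc i hi]
    exact Ideal.zero_mem _

end Pool.Agent.N808.AS
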