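import Pool.Agent.N808.AS.Stm

/-!
Log resolution on arithmetic surfaces: the points above `Δ = 0` on the curves are closed, and the
bad points are finite in number (helper866, for the project of helper808).
-/

set_option autoImplicit false
set_option linter.unusedVariables false

universe u

open Pool.Agent.W418.LU2 Pool.Agent.N98.T2 Pool.Agent.N98.RM Polynomial

namespace Pool.Agent.N808.AS

namespace FIN_

section pm

variable {k K : Type u} [CommRing k] [Field K] [Algebra k K] {T I Γ : Type} [Fintype I]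
  [Fintype Γ] {Δ : K} {G : Γ → K} {M : PM k K T I} {b : I → Prop}

lemma delta_mem (h : St0 Δ G M b) {t : T} {S : Subring K} (hS : M.On t S) (hΔ : Δ⁻¹ ∉ S) :
    Δ ∈ M.A t := by
  obtain ⟨i, hi, -⟩ := h.cov t S hS hΔ
  have h1 := (M.A t).mul_mem (h.dv t i hi) (M.xA t i)
  rwa [div_mul_cancel₀ _ (M.x0 t i)] at h1

lemma bad (h : St0 Δ G M b) (t : T) (S : Subring K) (hS : M.On t S)
    (hb : ¬ RegP S (M.P t S) (M.x t)) : Δ⁻¹ ∉ S ∧ ∃ j, ¬ b j ∧ (M.x t j)⁻¹ ∉ S := by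
  classical
  refine ⟨fun h1 => hb (h.out t S hS h1), ?_⟩
  by_contra hcon
  push Not at hcon
  apply hb
  have h1 := (h.reg t).reg S hS.1 hS.2 {i // b i} id Function.injective_id
  refine regP_reindex h1 (M.x t) (fun i => M.x0 t i) (fun i => le_lo _ _ (M.xA t i))
    (fun k => ⟨k.1, by_contra fun hk => k.2 (hcon k.1 hk)⟩) ?_ fun k => rfl
  intro a c hac
  have h2 : (a : I) = c := congrArg (fun z : {i // b i} => (z : I)) hac
  exact Subtype.ext h2

end pm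

section ideals

variable {K : Type u} [Field K] {A S : Subring K}

/-- The extension of an ideal to the local ring. -/
def ext (hAS : A ≤ S) (q : Ideal A) (hq : q.IsPrime)
    (hqS : ∀ a : A, (a : K)⁻¹ ∈ S → (a : K) ≠ 0 → a ∉ q) : Ideal (lo S A) where
  carrier := {z | ∃ a ∈ q, ∃ d : A, (d : K) ≠ 0 ∧ (d : K)⁻¹ ∈ S ∧ (z : K) = a * (d : K)⁻¹}
  add_mem' := by
    rintro x y ⟨a, ha, d, hd, hdS, hx⟩ ⟨a', ha', d', hd', hdS', hy⟩
    refine ⟨a * d' + a' * d, q.add_mem (q.mul_mem_right _ ha) (q.mul_mem_right _ ha'), d * d',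
      mul_ne_zero hd hd', ?_, ?_⟩
    · change ((d : K) * (d' : K))⁻¹ ∈ S
      rw [mul_inv]
      exact S.mul_mem hdS hdS'
    · change (x : K) + (y : K) = ((a : K) * d' + a' * d) * ((d : K) * (d' : K))⁻¹
      rw [hx, hy]
      field_simp
  zero_mem' := ⟨0, q.zero_mem, 1, one_ne_zero, by
    change (1 : K)⁻¹ ∈ S
    rw [inv_one]
    exact S.one_mem, by
    change (0 : K) = (0 : K) * (1 : K)⁻¹
    ring⟩
  smul_mem' := by
    rintro ⟨_, r, hr, s, hs, hs0, hsS, rfl⟩ x ⟨a, ha, d, hd, hdS, hx⟩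
    refine ⟨⟨r, hr⟩ * a, q.mul_mem_left _ ha, ⟨s, hs⟩ * d, mul_ne_zero hs0 hd, ?_, ?_⟩
    · change (s * (d : K))⁻¹ ∈ S
      rw [mul_inv]
      exact S.mul_mem hsS hdS
    · change (r * s⁻¹) * (x : K) = (r * (a : K)) * (s * (d : K))⁻¹
      rw [hx]
      field_simp

lemma ext_mem {hAS : A ≤ S} {q : Ideal A} {hq : q.IsPrime}
    {hqS : ∀ a : A, (a : K)⁻¹ ∈ S → (a : K) ≠ 0 → a ∉ q} (a : A) :
    (⟨a, le_lo S A a.2⟩ : lo S A) ∈ ext hAS q hq hqS ↔ a ∈ q := by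
  constructor
  · rintro ⟨c, hc, d, hd, hdS, e⟩
    have h1 : a * d = c := Subtype.ext (by
      change (a : K) * d = c
      change (a : K) = c * (d : K)⁻¹ at e
      rw [e, mul_assoc, inv_mul_cancel₀ hd, mul_one])
    rw [← h1] at hc
    exact (hq.mem_or_mem hc).resolve_right (hqS d hdS hd)
  · intro ha
    refine ⟨a, ha, 1, one_ne_zero, ?_, ?_⟩
    · change (1 : K)⁻¹ ∈ S
      rw [inv_one]
      exact S.one_mem
    · change (a : K) = a * (1 : K)⁻¹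
      rw [inv_one, mul_one]

lemma ext_prime (hAS : A ≤ S) (q : Ideal A) (hq : q.IsPrime)
    (hqS : ∀ a : A, (a : K)⁻¹ ∈ S → (a : K) ≠ 0 → a ∉ q) : (ext hAS q hq hqS).IsPrime := by
  refine ⟨?_, ?_⟩
  · intro h1
    have h2 : (⟨(1 : A), le_lo S A (1 : A).2⟩ : lo S A) ∈ ext hAS q hq hqS := by
      rw [h1]
      exact Submodule.mem_top
    rw [ext_mem] at h2
    exact hq.ne_top ((Ideal.eq_top_iff_one _).2 h2)
  · rintro ⟨_, r, hr, s, hs, hs0, hsS, rfl⟩ ⟨_, r', hr', s', hs', hs0', hsS', rfl⟩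
      ⟨a, ha, d, hd, hdS, e⟩
    change r * s⁻¹ * (r' * s'⁻¹) = (a : K) * (d : K)⁻¹ at e
    have h1 : (⟨r, hr⟩ * ⟨r', hr'⟩ * d : A) = a * (⟨s, hs⟩ * ⟨s', hs'⟩) := by
      apply Subtype.ext
      change r * r' * (d : K) = a * (s * s')
      field_simp at e
      linear_combination e
    have h2 : (⟨r, hr⟩ * ⟨r', hr'⟩ * d : A) ∈ q := by
      rw [h1]
      exact q.mul_mem_right _ ha
    have h3 := (hq.mem_or_mem h2).resolve_right (hqS d hdS hd)
    rcases hq.mem_or_mem h3 with h4 | h4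
    · exact Or.inl ⟨⟨r, hr⟩, h4, ⟨s, hs⟩, hs0, hsS, rfl⟩
    · exact Or.inr ⟨⟨r', hr'⟩, h4, ⟨s', hs'⟩, hs0', hsS', rfl⟩

end ideals

/-- The minimality of the centre over the two equations. -/
lemma minimal {K : Type u} [Field K] {A S : Subring K} (hAS : A ≤ S)
    {V : ValuationSubring K} {x y : K} (h : Par V (lo S A) x y) (Q : Ideal A)
    (hQ : ∀ a : A, a ∉ Q ↔ (a : K) ≠ 0 ∧ (a : K)⁻¹ ∈ S) (f g : K) (hf : f ∈ A) (hg : g ∈ A)
    (hfS : f⁻¹ ∉ S) (hreg : RegP S (lo S A) (fun _ : Unit => f)) (hfg : g / f ∉ lo S A)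
    (q : Ideal A) (hq : q.IsPrime) (hqQ : q ≤ Q) (hfq : (⟨f, hf⟩ : A) ∈ q)
    (hgq : (⟨g, hg⟩ : A) ∈ q) : Q ≤ q := by
  have hf0 : f ≠ 0 := hreg.ne ()
  have hqS : ∀ a : A, (a : K)⁻¹ ∈ S → (a : K) ≠ 0 → a ∉ q := fun a h1 h0 ha =>
    (hQ a).2 ⟨h0, h1⟩ (hqQ ha)
  have hp := ext_prime hAS q hq hqS
  rcases h.prime_ideal (ext hAS q hq hqS) with ⟨z, hz⟩ | ⟨h1, h2⟩
  · exfalso
    have h1 := (ext_mem (hAS := hAS) (hq := hq) (hqS := hqS) _).2 hfq
    have h2 := (ext_mem (hAS := hAS) (hq := hq) (hqS := hqS) _).2 hgq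
    rw [hz, Ideal.mem_span_singleton] at h1 h2
    obtain ⟨c, hc⟩ := h1
    obtain ⟨e, he⟩ := h2
    have hregl := hreg.reg
    have hfm : (⟨f, hreg.mem ()⟩ : lo S A) ∈ IsLocalRing.maximalIdeal (lo S A) := by
      rw [hreg.mem_max]
      exact fun h3 => hfS h3.2
    have hzm : z ∈ IsLocalRing.maximalIdeal (lo S A) := by
      refine IsLocalRing.le_maximalIdeal hp.ne_top ?_
      rw [hz]
      exact Ideal.mem_span_singleton_self z
    have hcu : IsUnit c := by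
      by_contra hcn
      have hcm : c ∈ IsLocalRing.maximalIdeal (lo S A) := (IsLocalRing.mem_maximalIdeal c).2 hcn
      have h3 := hreg.ind (fun _ => 1) (fun _ h4 => absurd hfm h4) (by
        rw [Fintype.sum_unique, one_mul]
        have h4 : (⟨f, hreg.mem ()⟩ : lo S A) = z * c := hc
        change (⟨f, hreg.mem ()⟩ : lo S A) ∈ _
        rw [h4, pow_two]
        exact Ideal.mul_mem_mul hzm hcm) ()
      exact (Ideal.ne_top_iff_one _).1 (IsLocalRing.maximalIdeal.isMaximal _).ne_top h3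
    obtain ⟨c', hc'⟩ := hcu.exists_right_inv
    apply hfg
    have hcK : f = z * (c : K) := congrArg Subtype.val hc
    have heK : g = z * (e : K) := congrArg Subtype.val he
    have hc'K : (c : K) * c' = 1 := congrArg Subtype.val hc'
    have h3 : g / f = e * c' := by
      rw [div_eq_iff hf0, hcK, heK]
      linear_combination (-(z : K) * e) * hc'K
    rw [h3]
    exact (lo S A).mul_mem e.2 c'.2
  · intro a ha
    rw [← ext_mem (hAS := hAS) (hq := hq) (hqS := hqS)]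
    refine h.mem_of_both h1 h2 ?_
    refine (lt_or_one (h.le a (le_lo S A a.2))).resolve_right fun h3 => ?_
    have h4 := (h.isUnit_iff (⟨a, le_lo S A a.2⟩ : lo S A)).2 h3
    rw [isUnit_lo_iff hAS] at h4
    exact (hQ a).2 h4 ha

end FIN_

theorem t_CL : S_cl.{u} := by
  intro k K _ _ _ _ T I Γ _ _ _ Δ G M b h t S0 hS0 hΔ0 hj0 S hS hsub
  have hΔA := FIN_.delta_mem h hS0 hΔ0
  have hΔ : Δ⁻¹ ∉ S := hsub Δ hΔA hΔ0
  obtain ⟨j, hj, hjS0⟩ := hj0
  have hjS : (M.x t j)⁻¹ ∉ S := hsub _ (M.xA t j) hjS0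
  obtain ⟨V, x, y, hV⟩ := h.two t S hS hΔ ⟨j, hj, hjS⟩
  obtain ⟨V0, x0, y0, hV0⟩ := h.two t S0 hS0 hΔ0 ⟨j, hj, hjS0⟩
  have hle : M.P t S ≤ M.P t S0 := by
    rintro z ⟨a, ha, d, hd, hd0, hdS, rfl⟩
    exact ⟨a, ha, d, hd, hd0, by_contra fun h1 => hsub d hd h1 hdS, rfl⟩
  have hle0 : M.P t S0 ≤ S0 := lo_le hS0.2
  obtain ⟨𝔭, h𝔭, h𝔭m, -⟩ := Pool.Agent.N98.RV.exists_center hS0.1 (hle.trans hle0)
  have hAP : (M.A t).toSubring ≤ M.P t S := le_lo _ _
  have hAP0 : (M.A t).toSubring ≤ M.P t S0 := le_lo _ _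
  rcases hV.prime_ideal 𝔭 with ⟨g, hg⟩ | ⟨h1, h2⟩
  · exfalso
    have hgp : g ∈ 𝔭 := by
      rw [hg]
      exact Ideal.mem_span_singleton_self g
    -- nonunits are multiples of `g`
    have key : ∀ z ∈ M.P t S0, V0.valuation z < 1 → ∃ c ∈ M.P t S0, z = c * g := by
      rintro z ⟨a, ha, d, hd, hd0, hdS, rfl⟩ hz
      have ha1 : (⟨a, hAP ha⟩ : M.P t S) ∈ 𝔭 := by
        by_contra h3
        have h4 := (h𝔭m _).1 h3
        have h5 : IsUnit (⟨a * d⁻¹, ⟨a, ha, d, hd, hd0, hdS, rfl⟩⟩ : lo S0 (M.A t).toSubring) := by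
          rw [isUnit_lo_iff hS0.2]
          refine ⟨mul_ne_zero h4.1 (inv_ne_zero hd0), ?_⟩
          change (a * d⁻¹)⁻¹ ∈ S0
          rw [mul_inv, inv_inv]
          exact S0.mul_mem h4.2 (hS0.2 hd)
        have h6 := (hV0.isUnit_iff (⟨a * d⁻¹, ⟨a, ha, d, hd, hd0, hdS, rfl⟩⟩ : M.P t S0)).1 h5
        change V0.valuation (a * d⁻¹) = 1 at h6
        rw [h6] at hz
        exact lt_irrefl _ hz
      rw [hg, Ideal.mem_span_singleton] at ha1
      obtain ⟨c, hc⟩ := ha1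
      have hc' : a = g * c := congrArg Subtype.val hc
      refine ⟨c * d⁻¹, (M.P t S0).mul_mem (hle c.2) (inv_mem_lo hS0.2 (hAP0 hd) hd0 hdS), ?_⟩
      rw [hc']
      ring
    obtain ⟨c1, hc1, e1⟩ := key x0 hV0.xP hV0.xV
    obtain ⟨c2, hc2, e2⟩ := key y0 hV0.yP hV0.yV
    have hgn : V0.valuation (g : K) < 1 := by
      refine (lt_or_one (hV0.le g (hle g.2))).resolve_right fun h3 => ?_
      have h4 := (hV0.isUnit_iff (⟨g, hle g.2⟩ : M.P t S0)).2 h3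
      have h5 := (isUnit_lo_iff hS0.2 _).1 h4
      exact (h𝔭m g).2 h5 hgp
    have hirr := hV0.prime_left.irreducible
    have e3 : (⟨x0, hV0.xP⟩ : M.P t S0) = ⟨c1, hc1⟩ * ⟨g, hle g.2⟩ := Subtype.ext e1
    rcases hirr.isUnit_or_isUnit e3 with h3 | h3
    · obtain ⟨c, hc⟩ := h3.exists_left_inv
      have hc' : (c : K) * c1 = 1 := congrArg Subtype.val hc
      refine hV0.not_dvd ((M.P t S0).mul_mem hc2 c.2) ?_
      rw [e2, e1]
      linear_combination (-(c2 : K) * g) * hc'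
    · rw [hV0.isUnit_iff] at h3
      change V0.valuation (g : K) = 1 at h3
      rw [h3] at hgn
      exact lt_irrefl _ hgn
  · apply le_antisymm hle
    rintro z ⟨a, ha, d, hd, hd0, hdS, rfl⟩
    refine (M.P t S).mul_mem (hAP ha) (hV.inv d (hAP hd) ?_)
    refine (lt_or_one (hV.le d (hAP hd))).resolve_left fun h3 => ?_
    exact (h𝔭m ⟨d, hAP hd⟩).2 ⟨hd0, hdS⟩ (hV.mem_of_both h1 h2 h3)

theorem t_FIN : S_fin.{u} := by
  intro k K _ _ _ _ T I Γ _ _ _ Δ G M b h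
  refine ⟨?_, fun t S hS hb => FIN_.bad h t S hS hb⟩
  classical
  have hN : ∀ t, IsNoetherianRing (M.A t).toSubring := by
    intro t
    have := M.ft t
    have h1 : IsNoetherianRing (M.A t) := Algebra.FiniteType.isNoetherianRing k (M.A t)
    exact h1
  let D : T → I → I → Set (Set K) := fun t i j =>
    (fun q : Ideal (M.A t).toSubring => {z : K | ∃ a d : (M.A t).toSubring, d ∉ q ∧
      z = a * (d : K)⁻¹}) '' (Ideal.span {(⟨M.x t i, M.xA t i⟩ : (M.A t).toSubring),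
        ⟨M.x t j, M.xA t j⟩}).minimalPrimes
  have hD : (⋃ t, ⋃ i, ⋃ j, D t i j).Finite := by
    refine Set.finite_iUnion fun t => Set.finite_iUnion fun i => Set.finite_iUnion fun j => ?_
    have := hN t
    exact (Ideal.finite_minimalPrimes_of_isNoetherianRing _ _).image _
  refine Set.Finite.of_finite_image (f := fun P : Subring K => (P : Set K)) (hD.subset ?_)
    (fun a _ c _ hac => SetLike.coe_injective hac)
  rintro _ ⟨_, ⟨t, S, hS, rfl, hb⟩, rfl⟩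
  obtain ⟨hΔ, j, hj, hjS⟩ := FIN_.bad h t S hS hb
  obtain ⟨i, hi, hiS⟩ := h.cov t S hS hΔ
  obtain ⟨V, x, y, hV⟩ := h.two t S hS hΔ ⟨j, hj, hjS⟩
  obtain ⟨Q, hQ, hQm, -⟩ := Pool.Agent.N98.RV.exists_center hS.1 hS.2
  refine Set.mem_iUnion.2 ⟨t, Set.mem_iUnion.2 ⟨i, Set.mem_iUnion.2 ⟨j, Q, ?_, ?_⟩⟩⟩
  · have hiQ : (⟨M.x t i, M.xA t i⟩ : (M.A t).toSubring) ∈ Q := by
      by_contra h1
      exact hiS ((hQm _).1 h1).2
    have hjQ : (⟨M.x t j, M.xA t j⟩ : (M.A t).toSubring) ∈ Q := by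
      by_contra h1
      exact hjS ((hQm _).1 h1).2
    refine ⟨⟨hQ, ?_⟩, ?_⟩
    · rw [Ideal.span_le]
      rintro z (rfl | hz)
      · exact hiQ
      · rw [Set.mem_singleton_iff.1 hz]
        exact hjQ
    · rintro q ⟨hq, hqI⟩ hqQ
      refine FIN_.minimal hS.2 hV Q hQm (M.x t i) (M.x t j) (M.xA t i) (M.xA t j) hiS ?_ ?_ q hq
        hqQ (hqI (Ideal.subset_span (Or.inl rfl))) (hqI (Ideal.subset_span (Or.inr rfl)))
      · exact (h.reg t).reg S hS.1 hS.2 Unit (fun _ => ⟨i, hi⟩) (fun _ _ _ => rfl)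
      · exact h.hv t S hS i j hi hj hiS
  · ext z
    constructor
    · rintro ⟨a, d, hd, rfl⟩
      have h1 := (hQm d).1 hd
      exact ⟨a, a.2, d, d.2, h1.1, h1.2, rfl⟩
    · rintro ⟨a, ha, d, hd, hd0, hdS, rfl⟩
      exact ⟨⟨a, ha⟩, ⟨d, hd⟩, (hQm _).2 ⟨hd0, hdS⟩, rfl⟩

end Pool.Agent.N808.AS
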