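import Pool.Agent.N808.AS.GStm
import Pool.Agent.N808.AS.FIN

/-!
Log resolution on arithmetic surfaces, the general case: the bad points are closed, the
intersections of the boundary with the curves are two-dimensional and finite in number
(helper353, after `FIN.lean` by helper866; for the project of helper808).
-/

set_option autoImplicit false
set_option linter.unusedVariables false

universe u

open Pool.Agent.W418.LU2 Pool.Agent.N98.T2 Pool.Agent.N98.RM Polynomial

namespace Pool.Agent.N808.AS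

namespace GCL_

/-- The minimality of the centre over two elements, the first of them irreducible. -/
lemma minimal {K : Type u} [Field K] {A S : Subring K} (hAS : A ≤ S)
    {V : ValuationSubring K} {x y : K} (h : Par V (lo S A) x y) (Q : Ideal A)
    (hQ : ∀ a : A, a ∉ Q ↔ (a : K) ≠ 0 ∧ (a : K)⁻¹ ∈ S) (u f : K) (hu : u ∈ A) (hf : f ∈ A)
    (huS : u⁻¹ ∉ S)
    (hirr : ∀ a ∈ lo S A, ∀ c ∈ lo S A, u = a * c → a⁻¹ ∈ S ∨ c⁻¹ ∈ S) (hfu : f / u ∉ lo S A)
    (q : Ideal A) (hq : q.IsPrime) (hqQ : q ≤ Q) (huq : (⟨u, hu⟩ : A) ∈ q)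
    (hfq : (⟨f, hf⟩ : A) ∈ q) : Q ≤ q := by
  have hu0 : u ≠ 0 := by
    intro h0
    apply huS
    rw [h0, inv_zero]
    exact S.zero_mem
  have hqS : ∀ a : A, (a : K)⁻¹ ∈ S → (a : K) ≠ 0 → a ∉ q := fun a h1 h0 ha =>
    (hQ a).2 ⟨h0, h1⟩ (hqQ ha)
  have hp := FIN_.ext_prime hAS q hq hqS
  rcases h.prime_ideal (FIN_.ext hAS q hq hqS) with ⟨z, hz⟩ | ⟨h1, h2⟩
  · exfalso
    have h1 := (FIN_.ext_mem (hAS := hAS) (hq := hq) (hqS := hqS) _).2 huq
    have h2 := (FIN_.ext_mem (hAS := hAS) (hq := hq) (hqS := hqS) _).2 hfq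
    rw [hz, Ideal.mem_span_singleton] at h1 h2
    obtain ⟨c, hc⟩ := h1
    obtain ⟨e, he⟩ := h2
    have hcK : u = z * (c : K) := congrArg Subtype.val hc
    have heK : f = z * (e : K) := congrArg Subtype.val he
    have hz0 : (z : K) ≠ 0 := by
      intro h0
      apply hu0
      rw [hcK, h0, zero_mul]
    have hc0 : (c : K) ≠ 0 := by
      intro h0
      apply hu0
      rw [hcK, h0, mul_zero]
    rcases hirr z z.2 c c.2 hcK with h3 | h3
    · have h4 : IsUnit z := (isUnit_lo_iff hAS z).2 ⟨hz0, h3⟩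
      apply hp.ne_top
      rw [hz]
      exact Ideal.span_singleton_eq_top.2 h4
    · apply hfu
      have h4 : f / u = e * (c : K)⁻¹ := by
        rw [heK, hcK]
        field_simp
      rw [h4]
      exact (lo S A).mul_mem e.2 (inv_mem_lo hAS c.2 hc0 h3)
  · intro a ha
    rw [← FIN_.ext_mem (hAS := hAS) (hq := hq) (hqS := hqS)]
    refine h.mem_of_both h1 h2 ?_
    refine (lt_or_one (h.le a (le_lo S A a.2))).resolve_right fun h3 => ?_
    have h4 := (h.isUnit_iff (⟨a, le_lo S A a.2⟩ : lo S A)).2 h3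
    rw [isUnit_lo_iff hAS] at h4
    exact (hQ a).2 h4 ha

/-- Elements of a noetherian domain which are divisible by all powers of a nonunit. -/
lemma eq_zero_of_dvd {R : Type u} [CommRing R] [IsDomain R] [IsNoetherianRing R] {g : R}
    (hg : ¬ IsUnit g) {a : R} (h : ∀ n : ℕ, g ^ n ∣ a) : a = 0 := by
  by_contra h0
  obtain ⟨n, hn⟩ := FiniteMultiplicity.of_not_isUnit hg h0
  exact hn (h (n + 1))

end GCL_

theorem t_GTWO : S_gtwo.{u} := by
  intro k K _ _ _ _ T I Γ _ _ _ Δ G M b h t S hS hi' hj'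
  obtain ⟨i, hi, hiS⟩ := hi'
  obtain ⟨j, hj, hjS⟩ := hj'
  rcases h.dm t S hS with h1 | ⟨g, hg, hg0, hgen⟩
  · exact h1
  · exfalso
    have hPS : M.P t S ≤ S := M.P_le hS
    obtain ⟨c, hc, ec⟩ := hgen (M.x t i) (M.le_P t S (M.xA t i)) fun h2 => hiS (hPS h2)
    obtain ⟨d, hd, ed⟩ := hgen (M.x t j) (M.le_P t S (M.xA t j)) fun h2 => hjS (hPS h2)
    have hg00 : g ≠ 0 := by
      intro h0
      apply M.x0 t i
      rw [ec, h0, mul_zero]
    have hc0 : c ≠ 0 := by
      intro h0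
      apply M.x0 t i
      rw [ec, h0, zero_mul]
    have hgP : g⁻¹ ∉ M.P t S := hg0.resolve_left hg00
    have hgS : g⁻¹ ∉ S := fun h2 => hgP (M.P_inv hS hg hg00 h2)
    have hreg : RegP S (lo S (M.A t).toSubring) (fun _ : Unit => M.x t i) :=
      (h.reg t).reg S hS.1 hS.2 Unit (fun _ => ⟨i, hi⟩) (fun _ _ _ => rfl)
    have hregl := hreg.reg
    have hcS : c⁻¹ ∈ S := by
      by_contra hcn
      have hcm : (⟨c, hc⟩ : lo S (M.A t).toSubring) ∈
          IsLocalRing.maximalIdeal (lo S (M.A t).toSubring) := by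
        rw [hreg.mem_max]
        exact fun h3 => hcn h3.2
      have hgm : (⟨g, hg⟩ : lo S (M.A t).toSubring) ∈
          IsLocalRing.maximalIdeal (lo S (M.A t).toSubring) := by
        rw [hreg.mem_max]
        exact fun h3 => hgS h3.2
      have hxm : (⟨M.x t i, hreg.mem ()⟩ : lo S (M.A t).toSubring) ∈
          IsLocalRing.maximalIdeal (lo S (M.A t).toSubring) := by
        rw [hreg.mem_max]
        exact fun h3 => hiS h3.2
      have h3 := hreg.ind (fun _ => 1) (fun _ h4 => absurd hxm h4) (by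
        rw [Fintype.sum_unique, one_mul]
        have h4 : (⟨M.x t i, hreg.mem ()⟩ : lo S (M.A t).toSubring) = ⟨c, hc⟩ * ⟨g, hg⟩ :=
          Subtype.ext ec
        change (⟨M.x t i, hreg.mem ()⟩ : lo S (M.A t).toSubring) ∈ _
        rw [h4, pow_two]
        exact Ideal.mul_mem_mul hcm hgm) ()
      exact (Ideal.ne_top_iff_one _).1 (IsLocalRing.maximalIdeal.isMaximal _).ne_top h3
    apply h.hv t S hS i j hi hj hiS
    have e : M.x t j / M.x t i = d * c⁻¹ := by
      rw [ec, ed]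
      field_simp
    rw [e]
    exact (M.P t S).mul_mem hd (M.P_inv hS hc hc0 hcS)

theorem t_GFIN : S_gfin.{u} := by
  intro K _ A hA u hu f hf h
  classical
  let D : Set (Set K) :=
    (fun q : Ideal A => {z : K | ∃ a d : A, d ∉ q ∧ z = a * (d : K)⁻¹}) ''
      (Ideal.span {(⟨u, hu⟩ : A), ⟨f, hf⟩}).minimalPrimes
  have hD : D.Finite := (Ideal.finite_minimalPrimes_of_isNoetherianRing _ _).image _
  refine Set.Finite.of_finite_image (f := fun P : Subring K => (P : Set K)) (hD.subset ?_)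
    (fun a _ c _ hac => SetLike.coe_injective hac)
  rintro _ ⟨_, ⟨S, hS, hAS, huS, hfS, rfl⟩, rfl⟩
  obtain ⟨⟨V, x, y, hV⟩, hirr, hfu⟩ := h S hS hAS huS hfS
  obtain ⟨Q, hQ, hQm, -⟩ := Pool.Agent.N98.RV.exists_center hS hAS
  refine ⟨Q, ?_, ?_⟩
  · have huQ : (⟨u, hu⟩ : A) ∈ Q := by
      by_contra h1
      exact huS ((hQm _).1 h1).2
    have hfQ : (⟨f, hf⟩ : A) ∈ Q := by
      by_contra h1
      exact hfS ((hQm _).1 h1).2
    refine ⟨⟨hQ, ?_⟩, ?_⟩
    · rw [Ideal.span_le]
      rintro z (rfl | hz)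
      · exact huQ
      · rw [Set.mem_singleton_iff.1 hz]
        exact hfQ
    · rintro q ⟨hq, hqI⟩ hqQ
      exact GCL_.minimal hAS hV Q hQm u f hu hf huS hirr hfu q hq hqQ
        (hqI (Ideal.subset_span (Or.inl rfl))) (hqI (Ideal.subset_span (Or.inr rfl)))
  · ext z
    constructor
    · rintro ⟨a, d, hd, rfl⟩
      have h1 := (hQm d).1 hd
      exact ⟨a, a.2, d, d.2, h1.1, h1.2, rfl⟩
    · rintro ⟨a, ha, d, hd, hd0, hdS, rfl⟩
      exact ⟨⟨a, ha⟩, ⟨d, hd⟩, (hQm _).2 ⟨hd0, hdS⟩, rfl⟩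

theorem t_GCL : S_gcl.{u} := by
  intro k K _ _ _ _ T I Γ _ _ _ Δ G M b h t S0 hS0 hbad S hS hsub
  have hle : M.P t S ≤ M.P t S0 := by
    rintro z ⟨a, ha, d, hd, hd0, hdS, rfl⟩
    exact ⟨a, ha, d, hd, hd0, by_contra fun h1 => hsub d hd h1 hdS, rfl⟩
  have hle0 : M.P t S0 ≤ S0 := lo_le hS0.2
  obtain ⟨V0, x0, y0, hV0⟩ := (h.dm t S0 hS0).resolve_right fun h1 => hbad (h.one t S0 hS0 h1)
  obtain ⟨𝔭, h𝔭, h𝔭m, -⟩ := Pool.Agent.N98.RV.exists_center hS0.1 (hle.trans hle0)
  have hAP : (M.A t).toSubring ≤ M.P t S := le_lo _ _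
  have hAP0 : (M.A t).toSubring ≤ M.P t S0 := le_lo _ _
  rcases h.dm t S hS with ⟨V, x, y, hV⟩ | ⟨g, hg, hg0, hgen⟩
  · rcases hV.prime_ideal 𝔭 with ⟨g, hg⟩ | ⟨h1, h2⟩
    · exfalso
      have hgp : g ∈ 𝔭 := by
        rw [hg]
        exact Ideal.mem_span_singleton_self g
      -- nonunits are multiples of `g`
      have key : ∀ z ∈ M.P t S0, V0.valuation z < 1 → ∃ c ∈ M.P t S0, z = c * g := by
        rintro z ⟨a, ha, d, hd, hd0, hdS, rfl⟩ hz
        have ha1 : (⟨a, hAP ha⟩ : M.P t S) ∈ 𝔭 := by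
          by_contra h3
          have h4 := (h𝔭m _).1 h3
          have h5 : IsUnit (⟨a * d⁻¹, ⟨a, ha, d, hd, hd0, hdS, rfl⟩⟩ :
              lo S0 (M.A t).toSubring) := by
            rw [isUnit_lo_iff hS0.2]
            refine ⟨mul_ne_zero h4.1 (inv_ne_zero hd0), ?_⟩
            change (a * d⁻¹)⁻¹ ∈ S0
            rw [mul_inv, inv_inv]
            exact S0.mul_mem h4.2 (hS0.2 hd)
          have h6 := (hV0.isUnit_iff (⟨a * d⁻¹, ⟨a, ha, d, hd, hd0, hdS, rfl⟩⟩ : M.P t S0)).1 h5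
          change V0.valuation (a * d⁻¹) = 1 at h6
          rw [h6] at hz
          exact lt_irrefl _ hz
        rw [hg, Ideal.mem_span_singleton] at ha1
        obtain ⟨c, hc⟩ := ha1
        have hc' : a = g * c := congrArg Subtype.val hc
        refine ⟨c * d⁻¹, (M.P t S0).mul_mem (hle c.2) (inv_mem_lo hS0.2 (hAP0 hd) hd0 hdS), ?_⟩
        rw [hc']
        ring
      obtain ⟨c1, hc1, e1⟩ := key x0 hV0.xP hV0.xV
      obtain ⟨c2, hc2, e2⟩ := key y0 hV0.yP hV0.yV
      have hgn : V0.valuation (g : K) < 1 := by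
        refine (lt_or_one (hV0.le g (hle g.2))).resolve_right fun h3 => ?_
        have h4 := (hV0.isUnit_iff (⟨g, hle g.2⟩ : M.P t S0)).2 h3
        have h5 := (isUnit_lo_iff hS0.2 _).1 h4
        exact (h𝔭m g).2 h5 hgp
      have hirr := hV0.prime_left.irreducible
      have e3 : (⟨x0, hV0.xP⟩ : M.P t S0) = ⟨c1, hc1⟩ * ⟨g, hle g.2⟩ := Subtype.ext e1
      rcases hirr.isUnit_or_isUnit e3 with h3 | h3
      · obtain ⟨c, hc⟩ := h3.exists_left_inv
        have hc' : (c : K) * c1 = 1 := congrArg Subtype.val hc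
        refine hV0.not_dvd ((M.P t S0).mul_mem hc2 c.2) ?_
        rw [e2, e1]
        linear_combination (-(c2 : K) * g) * hc'
      · rw [hV0.isUnit_iff] at h3
        change V0.valuation (g : K) = 1 at h3
        rw [h3] at hgn
        exact lt_irrefl _ hgn
    · apply le_antisymm hle
      rintro z ⟨a, ha, d, hd, hd0, hdS, rfl⟩
      refine (M.P t S).mul_mem (hAP ha) (hV.inv d (hAP hd) ?_)
      refine (lt_or_one (hV.le d (hAP hd))).resolve_left fun h3 => ?_
      exact (h𝔭m ⟨d, hAP hd⟩).2 ⟨hd0, hdS⟩ (hV.mem_of_both h1 h2 h3)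
  · -- the maximal ideal of the local ring at `S` is principal
    have hPS : M.P t S ≤ S := M.P_le hS
    by_cases hg1 : g = 0 ∨ g⁻¹ ∈ S0
    · -- then the nonunits of the smaller ring which are nonunits at `S0` are zero
      have hzero : ∀ a ∈ M.P t S, a⁻¹ ∉ S0 → a = 0 := by
        intro a ha haS0
        have hchain : ∀ n : ℕ, ∃ c ∈ M.P t S, c⁻¹ ∉ S0 ∧ a = c * g ^ n := by
          intro n
          induction n with
          | zero => exact ⟨a, ha, haS0, by rw [pow_zero, mul_one]⟩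
          | succ n ih =>
            obtain ⟨c, hc, hcS0, e⟩ := ih
            obtain ⟨c', hc', e'⟩ := hgen c hc fun h2 => hcS0 (hle0 (hle h2))
            refine ⟨c', hc', fun h2 => hcS0 ?_, ?_⟩
            · rw [e', mul_inv]
              refine S0.mul_mem h2 ?_
              rcases hg1 with h3 | h3
              · rw [h3, inv_zero]
                exact S0.zero_mem
              · exact h3
            · rw [e, e', pow_succ]
              ring
        rcases hg0 with h3 | h3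
        · obtain ⟨c, hc, hcS0, e⟩ := hchain 1
          rw [e, h3, pow_one, mul_zero]
        · have := M.ft t
          have h1 : IsNoetherianRing (M.A t) := Algebra.FiniteType.isNoetherianRing k (M.A t)
          have hN : IsNoetherianRing (M.P t S) := noeth_lo h1 hS.1 hS.2
          have hgu : ¬ IsUnit (⟨g, hg⟩ : M.P t S) := by
            intro h4
            obtain ⟨y, hy⟩ := isUnit_iff_exists_inv.1 h4
            have h5 : g * y = 1 := congrArg Subtype.val hy
            apply h3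
            rw [← eq_inv_of_mul_eq_one_right h5]
            exact y.2
          have h6 : (⟨a, ha⟩ : M.P t S) = 0 := GCL_.eq_zero_of_dvd hgu fun n => by
            obtain ⟨c, hc, hcS0, e⟩ := hchain n
            refine ⟨⟨c, hc⟩, Subtype.ext ?_⟩
            change a = g ^ n * c
            rw [e]
            ring
          exact congrArg Subtype.val h6
      exfalso
      obtain ⟨a, ha, d, hd, hd0, hdS, e⟩ := hV0.xP
      have hx0S : x0⁻¹ ∉ S0 := by
        intro h2
        have h3 := inv_mem_lo hS0.2 hV0.xP hV0.x0 h2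
        have h4 := one_of_inv (hV0.le _ hV0.xP) hV0.x0 (hV0.le _ h3)
        have h5 := hV0.xV
        rw [h4] at h5
        exact lt_irrefl _ h5
      have ha0 : a = 0 := by
        refine hzero a (hAP ha) fun h2 => hx0S ?_
        rw [e, mul_inv, inv_inv]
        exact S0.mul_mem h2 (hS0.2 hd)
      apply hV0.x0
      rw [e, ha0, zero_mul]
    · -- then `x0`, `y0` are multiples of the nonunit `g`
      push Not at hg1
      obtain ⟨hg00, hgS0⟩ := hg1
      exfalso
      have key : ∀ z ∈ M.P t S0, z⁻¹ ∉ S0 → ∃ c ∈ M.P t S0, z = c * g := by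
        rintro z ⟨a, ha, d, hd, hd0, hdS, rfl⟩ hz
        have haS0 : a⁻¹ ∉ S0 := by
          intro h2
          apply hz
          rw [mul_inv, inv_inv]
          exact S0.mul_mem h2 (hS0.2 hd)
        obtain ⟨c, hc, e⟩ := hgen a (hAP ha) fun h2 => haS0 (hle0 (hle h2))
        refine ⟨c * d⁻¹, (M.P t S0).mul_mem (hle hc) (inv_mem_lo hS0.2 (hAP0 hd) hd0 hdS), ?_⟩
        rw [e]
        ring
      have hnu : ∀ z ∈ M.P t S0, z ≠ 0 → V0.valuation z < 1 → z⁻¹ ∉ S0 := by
        intro z hz hz0 hzV h2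
        have h3 := inv_mem_lo hS0.2 hz hz0 h2
        have h4 := one_of_inv (hV0.le _ hz) hz0 (hV0.le _ h3)
        rw [h4] at hzV
        exact lt_irrefl _ hzV
      obtain ⟨c1, hc1, e1⟩ := key x0 hV0.xP (hnu x0 hV0.xP hV0.x0 hV0.xV)
      obtain ⟨c2, hc2, e2⟩ := key y0 hV0.yP (hnu y0 hV0.yP hV0.y0 hV0.yV)
      have hirr := hV0.prime_left.irreducible
      have e3 : (⟨x0, hV0.xP⟩ : M.P t S0) = ⟨c1, hc1⟩ * ⟨g, hle hg⟩ := Subtype.ext e1
      rcases hirr.isUnit_or_isUnit e3 with h3 | h3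
      · obtain ⟨c, hc⟩ := h3.exists_left_inv
        have hc' : (c : K) * c1 = 1 := congrArg Subtype.val hc
        refine hV0.not_dvd ((M.P t S0).mul_mem hc2 c.2) ?_
        rw [e2, e1]
        linear_combination (-(c2 : K) * g) * hc'
      · have h4 := (isUnit_lo_iff hS0.2 _).1 h3
        exact hgS0 h4.2

end Pool.Agent.N808.AS
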