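import Pool.Agent.N808.AS.GStm

/-!
COO: the model with given homogeneous coordinates.
-/

set_option autoImplicit false

universe u

namespace Pool.Agent.N808.AS

namespace GCOO_

/-- the chart -/
def cA (k : Type u) {K : Type u} [CommRing k] [Field K] [Algebra k K] {m : ℕ} (H : Fin (m + 1) → K)
    (t : Fin (m + 1)) : Subalgebra k K := Algebra.adjoin k (Set.range fun j => H j / H t)

variable {k K : Type u} [CommRing k] [Field K] [Algebra k K] {m : ℕ} (H : Fin (m + 1) → K)

theorem gen_mem (t j : Fin (m + 1)) : H j / H t ∈ cA k H t :=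
  Algebra.subset_adjoin ⟨j, rfl⟩

theorem cft (t : Fin (m + 1)) : Algebra.FiniteType k (cA k H t) := by
  rw [← Subalgebra.fg_iff_finiteType]
  exact ⟨(Set.finite_range fun j => H j / H t).toFinset, by rw [Set.Finite.coe_toFinset]; rfl⟩

theorem cgl (hH : ∀ i, H i ≠ 0) (t t' : Fin (m + 1)) (f : K) (hf : f ∈ cA k H t') :
    ∃ n : ℕ, (H t' / H t) ^ n * f ∈ cA k H t := by
  have hq : H t' / H t ∈ cA k H t := gen_mem H t t'
  induction hf using Algebra.adjoin_induction with
  | mem x hx =>
    obtain ⟨j, rfl⟩ := hx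
    refine ⟨1, ?_⟩
    have e : (H t' / H t) ^ 1 * (H j / H t') = H j / H t := by
      have h1 := hH t
      have h2 := hH t'
      field_simp
    show (H t' / H t) ^ 1 * (H j / H t') ∈ _
    rw [e]
    exact gen_mem H t j
  | algebraMap r =>
    refine ⟨0, ?_⟩
    rw [pow_zero, one_mul]
    exact (cA k H t).algebraMap_mem r
  | add x y _ _ h1 h2 =>
    obtain ⟨a, ha⟩ := h1
    obtain ⟨b, hb⟩ := h2
    refine ⟨a + b, ?_⟩
    have e : (H t' / H t) ^ (a + b) * (x + y) = (H t' / H t) ^ b * ((H t' / H t) ^ a * x) +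
        (H t' / H t) ^ a * ((H t' / H t) ^ b * y) := by ring
    rw [e]
    exact add_mem (mul_mem (pow_mem hq _) ha) (mul_mem (pow_mem hq _) hb)
  | mul x y _ _ h1 h2 =>
    obtain ⟨a, ha⟩ := h1
    obtain ⟨b, hb⟩ := h2
    refine ⟨a + b, ?_⟩
    have e : (H t' / H t) ^ (a + b) * (x * y) = ((H t' / H t) ^ a * x) * ((H t' / H t) ^ b * y) := by
      ring
    rw [e]
    exact mul_mem ha hb

theorem ccv (hH : ∀ i, H i ≠ 0) (V : ValuationSubring K) (hV : ∀ a : k, algebraMap k K a ∈ V) :
    ∃ t, ∀ f ∈ cA k H t, f ∈ V := by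
  obtain ⟨t, ht⟩ := Finite.exists_max fun j => V.valuation (H j)
  refine ⟨t, fun f hf => ?_⟩
  induction hf using Algebra.adjoin_induction with
  | mem x hx =>
    obtain ⟨j, rfl⟩ := hx
    show H j / H t ∈ V
    rw [← V.valuation_le_one_iff, map_div₀]
    have h0 : V.valuation (H t) ≠ 0 := (Valuation.ne_zero_iff _).2 (hH t)
    exact (div_le_one₀ (zero_lt_iff.2 h0)).2 (ht j)
  | algebraMap r => exact hV r
  | add x y _ _ h1 h2 => exact add_mem h1 h2
  | mul x y _ _ h1 h2 => exact mul_mem h1 h2

end GCOO_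

open GCOO_ in
theorem t_COO : S_coo.{u} := by
  intro k K _ _ _ m H hH
  exact ⟨{ A := cA k H
           H := H
           x := fun _ i => i.elim
           ft := cft H
           H0 := hH
           rt := fun t t' => gen_mem H t t'
           gl := cgl H hH
           cv := ccv H hH
           xA := fun _ i => i.elim
           x0 := fun _ i => i.elim
           gi := fun _ _ i => i.elim }, fun t => rfl⟩

end Pool.Agent.N808.AS
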