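import Pool.Agent.N808.AS.StB

/-!
Log resolution on arithmetic surfaces: the chart of the blowup of a bad point.
-/

set_option autoImplicit false
set_option linter.unusedVariables false
set_option linter.unusedSectionVars false

universe u

open Pool.Agent.W418.LU2 Pool.Agent.N98.T2 Pool.Agent.N98.RM Polynomial IsLocalRing

namespace Pool.Agent.N808.AS

variable {K : Type u} [Field K]

/-- A local ring is dominated by a valuation ring. -/
theorem exists_dom {W : Subring K} (hW : Loc W) : ∃ V : ValuationSubring K, (∀ x ∈ W, x ∈ V) ∧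
    ∀ x ∈ W, x⁻¹ ∉ W → V.valuation x < 1 := by
  have hloc : IsLocalRing W := by
    refine IsLocalRing.of_isUnit_or_isUnit_one_sub_self fun a => ?_
    rcases hW a a.2 with h | h
    · exact Or.inl (isUnit_iff_exists_inv.2 ⟨⟨_, h.2⟩, Subtype.ext (mul_inv_cancel₀ h.1)⟩)
    · exact Or.inr (isUnit_iff_exists_inv.2 ⟨⟨_, h.2⟩, Subtype.ext (mul_inv_cancel₀ h.1)⟩)
  let L : LocalSubring K := { toSubring := W, isLocalRing := hloc }
  obtain ⟨V, hV⟩ := L.exists_le_valuationSubring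
  refine ⟨V, fun x hx => hV.1 hx, fun x hx hxi => ?_⟩
  have hx0 : x ≠ 0 := by
    rintro rfl
    exact hxi (by rw [inv_zero]; exact W.zero_mem)
  refine (lt_or_one (hV.1 hx)).resolve_right fun h1 => hxi ?_
  have hxV : x⁻¹ ∈ V := inv_mem_of_one h1
  have hlh : IsLocalHom (Subring.inclusion hV.1) := hV.2
  have hu : IsUnit (Subring.inclusion hV.1 ⟨x, hx⟩) :=
    isUnit_iff_exists_inv.2 ⟨⟨_, hxV⟩, Subtype.ext (mul_inv_cancel₀ hx0)⟩
  have hu' : IsUnit (⟨x, hx⟩ : W) := isUnit_of_map_unit _ _ hu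
  obtain ⟨c, hc⟩ := isUnit_iff_exists_inv.1 hu'
  have h3 : x * c = 1 := congrArg Subtype.val hc
  rw [← eq_inv_of_mul_eq_one_right h3]
  exact c.2

lemma form_symm (m : ℕ) (c : ℕ → K) (u v : K) :
    form m c u v = form m (fun l => c (m - l)) v u := by
  unfold form
  rw [← Finset.sum_range_reflect]
  refine Finset.sum_congr rfl fun l hl => ?_
  have hl' : l ≤ m := Nat.lt_succ_iff.1 (Finset.mem_range.1 hl)
  have e1 : m + 1 - 1 - l = m - l := by omega
  have e2 : m - (m - l) = l := by omega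
  rw [e1, e2]
  ring

/-- The data on the chart containing the bad point. -/
structure Ld (A S0 : Subring K) (V : ValuationSubring K) (u v : K) {I : Type} (x : I → K)
    (m : I → ℕ) (b : I → Prop) : Prop where
  loc : Loc S0
  AS : A ≤ S0
  uA : u ∈ A
  vA : v ∈ A
  v0 : v ≠ 0
  par : Par V (lo S0 A) u v
  gen : ∀ a ∈ A, a⁻¹ ∉ S0 → ∃ α ∈ A, ∃ β ∈ A, a = α * u + β * v
  pt : ∀ S, Loc S → A ≤ S → u⁻¹ ∉ S → v⁻¹ ∉ S → lo S A = lo S0 A
  x0 : ∀ i, x i ≠ 0
  xA : ∀ i, x i ∈ A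
  bd : ∀ i, b i → (m i = 1 ∧ (x i = u ∨ x i = v)) ∨ (m i = 0 ∧ (x i)⁻¹ ∈ A)
  fm : ∀ j, ∃ c : ℕ → K, (∀ l, c l ∈ A) ∧ x j = form (m j) c u v ∧
    (¬ b j → ∃ l ≤ m j, c l ≠ 0 ∧ (c l)⁻¹ ∈ S0)

/-- The chart of the blowup. -/
def A1 (A : Subring K) (u v : K) : Subring K := Subring.closure (insert (v / u) (A : Set K))

namespace Ld

variable {A S0 : Subring K} {V : ValuationSubring K} {u v : K} {I : Type} {x : I → K}
  {m : I → ℕ} {b : I → Prop}

theorem symm (h : Ld A S0 V u v x m b) : Ld A S0 V v u x m b where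
  loc := h.loc
  AS := h.AS
  uA := h.vA
  vA := h.uA
  v0 := h.par.x0
  par := h.par.symm
  gen := by
    intro a ha h1
    obtain ⟨α, hα, β, hβ, e⟩ := h.gen a ha h1
    exact ⟨β, hβ, α, hα, by rw [e]; ring⟩
  pt := fun S h1 h2 h3 h4 => h.pt S h1 h2 h4 h3
  x0 := h.x0
  xA := h.xA
  bd := by
    intro i hi
    rcases h.bd i hi with ⟨h1, h2 | h2⟩ | h1
    · exact Or.inl ⟨h1, Or.inr h2⟩
    · exact Or.inl ⟨h1, Or.inl h2⟩
    · exact Or.inr h1
  fm := by
    intro j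
    obtain ⟨c, h1, h2, h3⟩ := h.fm j
    refine ⟨fun l => c (m j - l), fun l => h1 _, ?_, fun hj => ?_⟩
    · rw [h2, form_symm]
    · obtain ⟨l, hl, h4, h5⟩ := h3 hj
      have e3 := Nat.sub_sub_self hl
      refine ⟨m j - l, Nat.sub_le _ _, ?_, ?_⟩
      · change c (m j - (m j - l)) ≠ 0
        rw [e3]
        exact h4
      · change (c (m j - (m j - l)))⁻¹ ∈ S0
        rw [e3]
        exact h5

variable (h : Ld A S0 V u v x m b)

include h

lemma u0 : u ≠ 0 := h.par.x0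

lemma uS0 : u⁻¹ ∉ S0 := by
  rcases (val_of h.AS h.par h.par.xP).1 h.par.xV with h1 | h1
  · exact h1
  · exact absurd h1 h.u0

lemma vS0 : v⁻¹ ∉ S0 := by
  rcases (val_of h.AS h.par h.par.yP).1 h.par.yV with h1 | h1
  · exact h1
  · exact absurd h1 h.v0

variable {S : Subring K} (hS : Loc S) (hA : A1 A u v ≤ S)

include hS hA

lemma AS' : A ≤ S := le_closure.trans hA

lemma wS : v / u ∈ S := hA self_mem_closure

/-- The points outside of the exceptional divisor. -/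
lemma far (hu : u⁻¹ ∈ S) : lo S (A1 A u v) = lo S A := by
  refine lo_eq_of (h.AS' hS hA) le_closure (closure_le_lo ?_)
  rw [div_eq_mul_inv]
  exact (lo S A).mul_mem (le_lo _ _ h.vA) (inv_mem_lo (h.AS' hS hA) (le_lo _ _ h.uA) h.u0 hu)

lemma uP (hu : u⁻¹ ∈ S) : u⁻¹ ∈ lo S A :=
  inv_mem_lo (h.AS' hS hA) (le_lo _ _ h.uA) h.u0 hu

variable (hu : u⁻¹ ∉ S)

include hu

lemma near_v : v⁻¹ ∉ S := by
  intro h1
  apply hu
  have h0 := h.u0
  have h0' := h.v0
  have e : u⁻¹ = v / u * v⁻¹ := by field_simp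
  rw [e]
  exact S.mul_mem (h.wS hS hA) h1

lemma near_P : lo S A = lo S0 A := h.pt S hS (h.AS' hS hA) hu (h.near_v hS hA hu)

/-- The local rings above the point are quadratic transforms. -/
theorem nx : ∃ V' : ValuationSubring K, Par V' (lo S0 A) u v ∧ v / u ∈ V' ∧
    (∀ a ∈ S, a ∈ V') ∧ (∀ a ∈ S, a⁻¹ ∉ S → V'.valuation a < 1) ∧
    lo S (A1 A u v) = lo V'.toSubring (bl (lo S0 A) (v / u)) := by
  obtain ⟨V', h1, h2⟩ := exists_dom hS
  have hP := h.near_P hS hA hu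
  have hPS : lo S0 A ≤ S := by
    rw [← hP]
    exact lo_le (h.AS' hS hA)
  have h3 : Par V' (lo S0 A) u v := by
    refine par_chg h.par (fun a ha => h1 a (hPS ha)) fun a ha h4 => ?_
    have h5 : a⁻¹ ∉ S ∨ a = 0 := by
      by_cases h0 : a = 0
      · exact Or.inr h0
      · left
        intro h6
        have h7 : a⁻¹ ∈ lo S0 A := by
          rw [← hP] at ha ⊢
          exact inv_mem_lo (h.AS' hS hA) ha h0 h6
        have h8 := one_of_inv (h.par.le a ha) h0 (h.par.le _ h7)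
        rw [h8] at h4
        exact lt_irrefl _ h4
    rcases h5 with h5 | rfl
    · exact h2 a (hPS ha) h5
    · rw [map_zero]
      exact zero_lt_one
  refine ⟨V', h3, h1 _ (h.wS hS hA), h1, h2, ?_⟩
  apply le_antisymm
  · rintro _ ⟨a, ha, d, hd, hd0, hdS, rfl⟩
    have h4 : A1 A u v ≤ bl (lo S0 A) (v / u) := by
      unfold A1
      rw [Subring.closure_le]
      rintro a (rfl | ha)
      · exact self_mem_bl _ _
      · exact le_bl _ _ (le_lo _ _ ha)
    exact ⟨a, h4 ha, d, h4 hd, hd0, h1 _ hdS, rfl⟩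
  · rintro _ ⟨a, ha, d, hd, hd0, hdV, rfl⟩
    have h4 : bl (lo S0 A) (v / u) ≤ lo S (A1 A u v) := by
      apply Pool.Agent.N98.T2.bl_le
      · rw [← hP]
        exact lo_mono le_closure
      · exact le_lo _ _ self_mem_closure
    have h5 := h4 hd
    have h6 : d ∈ S := lo_le hA h5
    have h7 : d⁻¹ ∈ S := by
      by_contra h8
      have h9 := h2 d h6 h8
      have h10 := one_of_inv (h1 d h6) hd0 hdV
      rw [h10] at h9
      exact lt_irrefl _ h9
    exact Subring.mul_mem _ (h4 ha) (inv_mem_lo hA h5 hd0 h7)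

end Ld

section loc

variable {A S0 : Subring K} {V : ValuationSubring K} {u v : K} {I : Type} {x : I → K}
  {m : I → ℕ} {b : I → Prop} (h : Ld A S0 V u v x m b) {S : Subring K} (hS : Loc S)
  (hA : A1 A u v ≤ S)

include h

/-- The equation of the exceptional divisor divides `Δ`. -/
lemma Ld.dv {Δ : K} (hΔ : Δ ∈ A) (hΔ' : Δ⁻¹ ∉ S0) : Δ / u ∈ A1 A u v := by
  obtain ⟨α, hα, β, hβ, e⟩ := h.gen Δ hΔ hΔ'
  have h0 := h.u0
  have e2 : Δ / u = α + β * (v / u) := by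
    rw [e]
    field_simp
  rw [e2]
  exact Subring.add_mem _ (le_closure hα) (Subring.mul_mem _ (le_closure hβ) self_mem_closure)

include hS hA

lemma Ld.unit_of {Δ : K} (hΔ : Δ ∈ A) (hΔ' : Δ⁻¹ ∉ S0) (h1 : Δ⁻¹ ∈ S) : u⁻¹ ∈ S := by
  by_cases h0 : Δ = 0
  · exfalso
    apply hΔ'
    rw [h0, inv_zero]
    exact S0.zero_mem
  · have h2 := hA (h.dv hΔ hΔ')
    have e : u⁻¹ = Δ / u * Δ⁻¹ := by
      have := h.u0
      field_simp
    rw [e]
    exact S.mul_mem h2 h1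

lemma Ld.inv_of (i : I) (n : ℕ) (h1 : (x i / u ^ n)⁻¹ ∉ S) : (x i)⁻¹ ∉ S := by
  intro h2
  apply h1
  have e : (x i / u ^ n)⁻¹ = u ^ n * (x i)⁻¹ := by
    rw [inv_div, div_eq_mul_inv]
  rw [e]
  exact S.mul_mem (S.pow_mem (h.AS' hS hA h.uA) n) h2

section far

variable (hu : u⁻¹ ∈ S)

include hu

lemma Ld.far_inv (i : I) (n : ℕ) (h1 : (x i)⁻¹ ∉ S) : (x i / u ^ n)⁻¹ ∉ S := by
  intro h2
  apply h1
  have e : (x i)⁻¹ = u⁻¹ ^ n * (x i / u ^ n)⁻¹ := by
    have := h.u0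
    have := h.x0 i
    rw [inv_div, inv_pow]
    field_simp
  rw [e]
  exact S.mul_mem (S.pow_mem hu n) h2

lemma Ld.far_unit (n : ℤ) : u ^ n ∈ lo S A ∧ (u ^ n)⁻¹ ∈ lo S A ∧ u ^ n ∈ S ∧ (u ^ n)⁻¹ ∈ S := by
  have h1 : u ∈ lo S A := le_lo _ _ h.uA
  have h2 := h.uP hS hA hu
  have h3 : lo S A ≤ S := lo_le (h.AS' hS hA)
  have key : ∀ n : ℤ, u ^ n ∈ lo S A := by
    intro n
    obtain ⟨k, rfl | rfl⟩ := Int.eq_nat_or_neg n
    · rw [zpow_natCast]
      exact (lo S A).pow_mem h1 k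
    · rw [zpow_neg, zpow_natCast, ← inv_pow]
      exact (lo S A).pow_mem h2 k
  have h4 := key n
  have h5 := key (-n)
  rw [zpow_neg] at h5
  exact ⟨h4, h5, h3 h4, h3 h5⟩

lemma Ld.far_reg [Fintype I] (hr : RegP S (lo S A) x) :
    RegP S (lo S (A1 A u v)) (fun o : Option I => o.elim u fun i => x i / u ^ m i) := by
  rw [h.far hS hA hu]
  refine regP_change hr _ ?_ ?_ (fun k => match k with
    | ⟨none, hk⟩ => absurd hu hk
    | ⟨some i, hk⟩ => i) ?_ ?_
  · rintro (_ | i)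
    · exact h.u0
    · exact div_ne_zero (h.x0 i) (pow_ne_zero _ h.u0)
  · rintro (_ | i)
    · exact le_lo _ _ h.uA
    · have h1 := (h.far_unit hS hA hu (m i)).2.1
      rw [zpow_natCast] at h1
      change x i / u ^ m i ∈ lo S A
      rw [div_eq_mul_inv]
      exact (lo S A).mul_mem (le_lo _ _ (h.xA i)) h1
  · rintro ⟨_ | i, hi⟩ ⟨_ | j, hj⟩ hij
    · rfl
    · exact absurd hu hi
    · exact absurd hu hj
    · have : i = j := hij
      subst this
      rfl
  · rintro ⟨_ | i, hi⟩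
    · exact absurd hu hi
    · have h1 := h.far_unit hS hA hu (m i)
      rw [zpow_natCast] at h1
      refine ⟨(u ^ m i)⁻¹, h1.2.1, inv_ne_zero (pow_ne_zero _ h.u0), ?_, ?_⟩
      · rw [inv_inv]
        exact h1.2.2.1
      · change x i / u ^ m i = (u ^ m i)⁻¹ * x i
        rw [div_eq_mul_inv, mul_comm]

end far

/-- The curves do not contain the exceptional divisor. -/
lemma Ld.hv_exc (hSTR : S_str.{u}) (hu : u⁻¹ ∉ S) {j : I} (hj : ¬ b j) :
    x j / u ^ m j / u ∉ lo S (A1 A u v) := by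
  obtain ⟨c, h1, h2, h3⟩ := h.fm j
  have h4 := hSTR K A S0 h.loc h.AS V u v h.uA h.vA h.par h.gen (m j) c h1 (h3 hj) S hS hA hu
  rw [← h2] at h4
  exact h4.2.1

/-- The curves do not contain components of the boundary. -/
lemma Ld.hv_bd (hSTR : S_str.{u}) {i j : I} (hi : b i) (hj : ¬ b j)
    (hv : (x i)⁻¹ ∉ S → x j / x i ∉ lo S A) (hv0 : (x i)⁻¹ ∉ S0 → x j / x i ∉ lo S0 A)
    (h1 : (x i / u ^ m i)⁻¹ ∉ S) :
    (x j / u ^ m j) / (x i / u ^ m i) ∉ lo S (A1 A u v) := by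
  have hu0 := h.u0
  have hi0 := h.x0 i
  have hj0 := h.x0 j
  by_cases hu : u⁻¹ ∈ S
  · rw [h.far hS hA hu]
    intro h2
    refine hv (h.inv_of hS hA i _ h1) ?_
    have e : x j / x i = x j / u ^ m j / (x i / u ^ m i) * u ^ ((m j : ℤ) - m i) := by
      rw [zpow_sub₀ hu0, zpow_natCast, zpow_natCast]
      field_simp
    rw [e]
    exact (lo S A).mul_mem h2 (h.far_unit hS hA hu _).1
  · rcases h.bd i hi with ⟨hm, h2 | h2⟩ | ⟨hm, h2⟩
    · exfalso
      apply h1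
      rw [hm, pow_one, h2, div_self hu0, inv_one]
      exact S.one_mem
    · obtain ⟨c, h3, h4, h5⟩ := h.fm j
      have h6 := hSTR K A S0 h.loc h.AS V u v h.uA h.vA h.par h.gen (m j) c h3 (h5 hj) S hS hA hu
      rw [← h4] at h6
      rw [hm, pow_one, h2]
      rw [hm, pow_one, h2] at h1
      rw [h2] at hv0
      exact h6.2.2 h1 (hv0 h.vS0)
    · exfalso
      apply h1
      rw [hm, pow_zero, div_one]
      exact h.AS' hS hA h2

/-- The points of the exceptional divisor on the curves are two-dimensional. -/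
lemma Ld.two (hSTR : S_str.{u}) (hu : u⁻¹ ∉ S) {j : I} (hj : ¬ b j)
    (hjA : x j / u ^ m j ∈ A1 A u v) (h1 : (x j / u ^ m j)⁻¹ ∉ S) :
    ∃ V x y, Par V (lo S (A1 A u v)) x y := by
  obtain ⟨V', h2, h3, h4, h5, h6⟩ := h.nx hS hA hu
  rcases h2.blow h3 with ⟨z, h7⟩ | h7
  · rw [← h6] at h7
    exact ⟨V', u, z, h7⟩
  · exfalso
    rw [← h6] at h7
    obtain ⟨d, hd, e⟩ := h7.gen _ (le_lo _ _ hjA) (h5 _ (hA hjA) h1)
    refine h.hv_exc hS hA hSTR hu hj ?_
    rw [e, mul_div_assoc, div_self h.u0, mul_one]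
    exact hd

end loc

/-- Regularity of the boundary of the blowup. -/
theorem Ld.reg {A S0 : Subring K} {V : ValuationSubring K} {u v : K} {I : Type} {x : I → K}
    {m : I → ℕ} {b : I → Prop} (h : Ld A S0 V u v x m b) (hREG : S_reg.{u})
    (hr : RegC A (fun i : {i // b i} => x i)) :
    RegC (A1 A u v) (fun o : Option {i // b i} => o.elim u fun i => x i / u ^ m i) := by
  refine hREG K A {i // b i} (fun i => x i) hr u v (fun i => m i) h.uA h.vA h.u0 h.v0
    (fun i => h.bd i i.2) ⟨S0, h.loc, h.AS, h.uS0, h.vS0⟩ fun S hS hAS hu hv => ?_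
  have h1 := h.pt S hS hAS hu hv
  have h2 := h.par.regC.reg S hS (by rw [← h1]; exact lo_le hAS) (Fin 2) id
    Function.injective_id
  have h3 : lo S (lo S0 A) = lo S A := by
    rw [← h1, lo_lo hAS]
  rw [h3] at h2
  exact h2

end Pool.Agent.N808.AS
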