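import Pool.Agent.N808.AS.GStm
import Pool.Agent.N808.AS.StC
import Pool.Agent.N98.T2.Reg
import Pool.Agent.N98.T2.Curve
import Pool.Agent.N98.T2.Blow
import Pool.Agent.N98.RM.Reg2

/-!
Log resolution on regular arithmetic surfaces: dimension statements (DIM, DLE, PFO). (helper958)
-/

set_option autoImplicit false
set_option linter.unusedVariables false
set_option linter.unusedSectionVars false

universe u

open Pool.Agent.W418.LU2 Pool.Agent.N98.T2 Pool.Agent.N98.RM Polynomial IsLocalRing

namespace Pool.Agent.N808.AS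

namespace GDIM_

/-- A local ring with principal maximal ideal. -/
lemma lw_of {K : Type u} [Field K] (P : Subring K) [IsLocalRing P] (g : P)
    (hg : maximalIdeal P = Ideal.span {g}) : Lw P := by
  refine ⟨g, g.2, ?_, ?_⟩
  · by_contra hcon
    push Not at hcon
    obtain ⟨h0, h1⟩ := hcon
    have hu : IsUnit g := isUnit_iff_exists_inv.2 ⟨⟨_, h1⟩, Subtype.ext (mul_inv_cancel₀ h0)⟩
    have h2 : g ∈ maximalIdeal P := by
      rw [hg]
      exact Ideal.mem_span_singleton_self g
    rw [mem_maximalIdeal] at h2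
    exact h2 hu
  · intro a ha hai
    have h2 : (⟨a, ha⟩ : P) ∈ maximalIdeal P := by
      rw [mem_maximalIdeal, mem_nonunits_iff]
      intro hu
      obtain ⟨c, hc⟩ := isUnit_iff_exists_inv.1 hu
      have h3 : a * c = 1 := congrArg Subtype.val hc
      apply hai
      rw [← eq_inv_of_mul_eq_one_right h3]
      exact c.2
    rw [hg, Ideal.mem_span_singleton'] at h2
    obtain ⟨c, hc⟩ := h2
    exact ⟨c, c.2, (congrArg Subtype.val hc).symm⟩

end GDIM_

/-- Regular local rings of dimension at most two. -/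
theorem t_DIM : S_dim.{u} := by
  intro K _ S P hS hPS hinv hreg hdim hfr
  have h1 : ((maximalIdeal P).spanFinrank : WithBot ℕ∞) ≤ 2 := by
    rw [IsRegularLocalRing.spanFinrank_maximalIdeal (R := P)]
    exact hdim
  have h2 : (maximalIdeal P).spanFinrank ≤ 2 := by exact_mod_cast h1
  have hfg : (maximalIdeal P).FG := IsNoetherian.noetherian _
  have hnc := Submodule.FG.generators_ncard hfg
  have hsp := Submodule.span_generators (maximalIdeal P)
  rcases Nat.lt_or_ge (maximalIdeal P).spanFinrank 2 with h3 | h3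
  · right
    rcases Nat.lt_or_ge (maximalIdeal P).spanFinrank 1 with h4 | h4
    · have h5 : (maximalIdeal P).spanFinrank = 0 := by omega
      rw [h5, Set.ncard_eq_zero (Submodule.FG.finite_generators hfg)] at hnc
      rw [hnc, Submodule.span_empty] at hsp
      refine GDIM_.lw_of P 0 ?_
      rw [← hsp]
      simp
    · have h5 : (maximalIdeal P).spanFinrank = 1 := by omega
      rw [h5] at hnc
      obtain ⟨g, hg⟩ := Set.ncard_eq_one.1 hnc
      rw [hg] at hsp
      exact GDIM_.lw_of P g hsp.symm
  · left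
    have h4 : (maximalIdeal P).spanFinrank = 2 := by omega
    have hd : ringKrullDim P = 2 := by
      rw [← IsRegularLocalRing.spanFinrank_maximalIdeal (R := P), h4]
      rfl
    have hF : IsFractionRing P K := IsFractionRing.of_field P K fun y => by
      obtain ⟨c, hc, d, hd, hd0, e⟩ := hfr y
      exact ⟨⟨c, hc⟩, ⟨d, hd⟩, by rw [e, div_eq_mul_inv]; rfl⟩
    obtain ⟨V, hV1, hV2⟩ := exists_dom hS
    obtain ⟨x, y, hxy⟩ := par_of_regular (k := P) (E := K) hd V (fun a => hV1 _ (hPS a.2)) (by
      intro a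
      rw [mem_nonunits_iff]
      constructor
      · intro ha
        by_cases h0 : (a : K) = 0
        · change V.valuation (a : K) < 1
          rw [h0, map_zero]
          exact zero_lt_one
        · refine hV2 _ (hPS a.2) fun hi => ha ?_
          exact isUnit_iff_exists_inv.2 ⟨⟨_, hinv _ a.2 hi⟩, Subtype.ext (mul_inv_cancel₀ h0)⟩
      · intro ha hu
        obtain ⟨c, hc⟩ := isUnit_iff_exists_inv.1 hu
        have h5 : (a : K) * c = 1 := congrArg Subtype.val hc
        have h6 : V.valuation ((a : K) * c) < 1 :=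
          val_mul_lt_left ha (hV1 _ (hPS c.2))
        rw [h5, map_one] at h6
        exact lt_irrefl _ h6)
    have hr : (algebraMap P K).range = P := by
      ext z
      constructor
      · rintro ⟨a, rfl⟩
        exact a.2
      · intro hz
        exact ⟨⟨z, hz⟩, rfl⟩
    rw [hr] at hxy
    exact ⟨V, x, y, hxy⟩

/-- Curves are one-dimensional. -/
theorem t_DLE : S_dle.{u} := by
  intro K _ A hA hloc 𝔭 h𝔭 h𝔭0
  refine ⟨fun {q'} hq'0 hq'p => ?_⟩
  obtain ⟨m', hm', hle'⟩ := Ideal.exists_le_maximal q' hq'p.ne_top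
  have hsurj : Function.Surjective (Ideal.Quotient.mk 𝔭) := Ideal.Quotient.mk_surjective
  set q : Ideal A := q'.comap (Ideal.Quotient.mk 𝔭) with hq
  set m : Ideal A := m'.comap (Ideal.Quotient.mk 𝔭) with hm
  have hqp : q.IsPrime := Ideal.comap_isPrime _ _
  have hmp : m.IsPrime := Ideal.comap_isPrime _ _
  have hqm : q ≤ m := Ideal.comap_mono hle'
  have hpq : 𝔭 ≤ q := by
    intro a ha
    rw [hq, Ideal.mem_comap, Ideal.Quotient.eq_zero_iff_mem.2 ha]
    exact q'.zero_mem
  have hpq' : ¬ q ≤ 𝔭 := by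
    intro hcon
    apply hq'0
    rw [eq_bot_iff]
    intro a ha
    obtain ⟨b, rfl⟩ := hsurj a
    have : b ∈ 𝔭 := hcon ha
    rw [Ideal.Quotient.eq_zero_iff_mem.2 this]
    exact Ideal.zero_mem _
  -- it is enough that `m ≤ q`
  suffices hmq : m ≤ q by
    have : m' ≤ q' := by
      intro a ha
      obtain ⟨b, rfl⟩ := hsurj a
      exact hmq ha
    rw [le_antisymm hle' this]
    exact hm'
  set S := (LocalSubring.ofPrime A m).toSubring with hS
  have hSloc : Loc S := loc_ofPrime A m
  have hAS : A ≤ S := LocalSubring.le_ofPrime A m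
  have hlo : lo S A = S := lo_ofPrime A m
  have hnoe : IsNoetherianRing S := by
    rw [← hlo]
    exact noeth_lo hA hSloc hAS
  have hloR : IsLocalRing S := (LocalSubring.ofPrime A m).isLocalRing
  have hdis : ∀ r : Ideal A, r ≤ m → Disjoint (m.primeCompl : Set A) (r : Set A) := by
    intro r hr
    rw [Set.disjoint_left]
    intro a ha ha'
    exact ha (hr ha')
  set pS : Ideal S := 𝔭.map (algebraMap A S) with hpS
  set qS : Ideal S := q.map (algebraMap A S) with hqS
  have hpSp : pS.IsPrime :=
    IsLocalization.isPrime_of_isPrime_disjoint m.primeCompl S 𝔭 h𝔭 (hdis _ (hpq.trans hqm))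
  have hqSp : qS.IsPrime :=
    IsLocalization.isPrime_of_isPrime_disjoint m.primeCompl S q hqp (hdis _ hqm)
  have hpSc : pS.comap (algebraMap A S) = 𝔭 :=
    IsLocalization.under_map_of_isPrime_disjoint m.primeCompl S h𝔭 (hdis _ (hpq.trans hqm))
  have hqSc : qS.comap (algebraMap A S) = q :=
    IsLocalization.under_map_of_isPrime_disjoint m.primeCompl S hqp (hdis _ hqm)
  have hpqS : pS ≤ qS := Ideal.map_mono hpq
  have hpqS' : ¬ qS ≤ pS := by
    intro hcon
    apply hpq'
    rw [← hqSc, ← hpSc]
    exact Ideal.comap_mono hcon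
  have hpS0 : pS ≠ ⊥ := by
    intro hcon
    apply h𝔭0
    rw [eq_bot_iff]
    intro a ha
    have h1 : algebraMap A S a ∈ pS := Ideal.mem_map_of_mem _ ha
    rw [hcon, Ideal.mem_bot] at h1
    have h2 : (a : K) = 0 := congrArg Subtype.val h1
    rw [Ideal.mem_bot]
    exact Subtype.ext h2
  have hmS : ∀ a ∈ m, algebraMap A S a ∈ maximalIdeal S := by
    intro a ha
    rw [mem_maximalIdeal, mem_nonunits_iff, IsLocalization.AtPrime.isUnit_to_map_iff S m]
    exact fun h => h ha
  have hfin : maximalIdeal S ≤ qS → m ≤ q := by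
    intro h1 a ha
    rw [← hqSc, Ideal.mem_comap]
    exact h1 (hmS a ha)
  have hcase := hloc S hSloc hAS
  rw [hlo] at hcase
  rcases hcase with ⟨V, x, y, hpar⟩ | ⟨g, hgS, hg, hgen⟩
  · rcases hpar.prime_ideal qS with ⟨g', hg'⟩ | ⟨h1, h2⟩
    · exfalso
      rcases hpar.prime_ideal pS with ⟨g, hg⟩ | ⟨h1, h2⟩
      · have h3 : g ∈ qS := hpqS (by rw [hg]; exact Ideal.mem_span_singleton_self g)
        rw [hg', Ideal.mem_span_singleton'] at h3
        obtain ⟨c, hc⟩ := h3
        have h4 : c * g' ∈ pS := by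
          rw [hc, hg]
          exact Ideal.mem_span_singleton_self g
        rcases hpSp.mem_or_mem h4 with h5 | h5
        · rw [hg, Ideal.mem_span_singleton'] at h5
          obtain ⟨d, hd⟩ := h5
          have hg0 : g ≠ 0 := by
            rintro rfl
            apply hpS0
            rw [hg]
            simp
          have h6 : g * (1 - d * g') = 0 := by
            linear_combination (-1 : S) * hc - g' * hd
          rcases mul_eq_zero.1 h6 with h7 | h7
          · exact hg0 h7
          · apply hqSp.ne_top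
            rw [Ideal.eq_top_iff_one]
            have h8 : (1 : S) = d * g' := by linear_combination h7
            rw [h8, hg']
            exact Ideal.mul_mem_left _ _ (Ideal.mem_span_singleton_self g')
        · apply hpqS'
          rw [hg', Ideal.span_singleton_le_iff_mem]
          exact h5
      · apply hpqS'
        intro a ha
        refine hpar.mem_of_both h1 h2 ?_
        refine (lt_or_one (hpar.le a a.2)).resolve_right fun h3 => ?_
        exact hqSp.ne_top (Ideal.eq_top_of_isUnit_mem _ ha ((hpar.isUnit_iff a).2 h3))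
    · apply hfin
      intro a ha
      refine hpar.mem_of_both h1 h2 ?_
      refine (lt_or_one (hpar.le a a.2)).resolve_right fun h3 => ?_
      rw [mem_maximalIdeal] at ha
      exact ha ((hpar.isUnit_iff a).2 h3)
  · apply hfin
    -- in dimension one
    have hg1 : (⟨g, hgS⟩ : S) ∈ maximalIdeal S := by
      rw [mem_maximalIdeal, mem_nonunits_iff]
      intro hu
      obtain ⟨c, hc⟩ := isUnit_iff_exists_inv.1 hu
      have h3 : g * c = 1 := congrArg Subtype.val hc
      rcases hg with h0 | h0
      · rw [h0, zero_mul] at h3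
        exact zero_ne_one h3
      · apply h0
        rw [← eq_inv_of_mul_eq_one_right h3]
        exact c.2
    have hdivg : ∀ a ∈ maximalIdeal S, ∃ c : S, a = c * ⟨g, hgS⟩ := by
      intro a ha
      rw [mem_maximalIdeal, mem_nonunits_iff] at ha
      by_cases h0 : (a : K) = 0
      · exact ⟨0, Subtype.ext (by rw [h0]; simp)⟩
      · obtain ⟨c, hc, e⟩ := hgen a a.2 (fun hi => ha
          (isUnit_iff_exists_inv.2 ⟨⟨_, hi⟩, Subtype.ext (mul_inv_cancel₀ h0)⟩))
        exact ⟨⟨c, hc⟩, Subtype.ext e⟩
    have hgq : (⟨g, hgS⟩ : S) ∈ pS := by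
      by_contra hgp
      apply hpS0
      rw [eq_bot_iff]
      have h1 : pS ≤ Ideal.span {(0 : S)} := by
        refine nak (IsNoetherian.noetherian pS) hg1 fun a ha => ?_
        have ha' : a ∈ maximalIdeal S := by
          rw [mem_maximalIdeal, mem_nonunits_iff]
          intro hu
          exact hpSp.ne_top (Ideal.eq_top_of_isUnit_mem _ ha hu)
        obtain ⟨c, hc⟩ := hdivg a ha'
        refine ⟨0, c, ?_, by rw [hc]; ring⟩
        have h2 : c * ⟨g, hgS⟩ ∈ pS := by rw [← hc]; exact ha
        exact (hpSp.mem_or_mem h2).resolve_right hgp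
      simpa using h1
    intro a ha
    obtain ⟨c, rfl⟩ := hdivg a ha
    exact Ideal.mul_mem_left _ _ (hpqS hgq)

namespace GDIM_

/-- A subfield of a two-dimensional regular local ring: the parameters are algebraically
independent. -/
lemma alg_ind {F K : Type u} [Field F] [Field K] [Algebra F K] {V : ValuationSubring K}
    {P : Subring K} {x y : K} (h : Par V P x y) (hF : ∀ a : F, algebraMap F K a ∈ P) :
    AlgebraicIndependent F ![x, y] := by
  classical
  rw [algebraicIndependent_iff]
  intro f hf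
  by_contra hf0
  have hne : f.support.Nonempty := MvPolynomial.support_nonempty.2 hf0
  obtain ⟨d₀, hd₀, hmin⟩ := Finset.exists_min_image f.support (fun d => d 0 + d 1) hne
  set n : ℕ := d₀ 0 + d₀ 1 with hn
  have hx0 := h.x0
  have hwx : y / x * x = y := h.wx
  set w : K := y / x with hw
  let X' : P := ⟨x, h.xP⟩
  let c : (Fin 2 →₀ ℕ) → P := fun d => ⟨algebraMap F K (f.coeff d), hF _⟩
  have hc : ∀ d, (c d : K) = algebraMap F K (f.coeff d) := fun d => rfl
  let F₁ : P[X] := ∑ d ∈ f.support.filter (fun d => d 0 + d 1 = n), monomial (d 1) (c d)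
  let G : P[X] := -∑ d ∈ f.support.filter (fun d => ¬ d 0 + d 1 = n),
    monomial (d 1) (c d * X' ^ (d 0 + d 1 - n - 1))
  have hev : ∀ (i : ℕ) (a : P), ev P w (monomial i a) = a * w ^ i := by
    intro i a
    rw [← C_mul_X_pow_eq_monomial, map_mul, map_pow, ev_C, ev_X]
  have e1 : ev P w F₁ = ∑ d ∈ f.support.filter (fun d => d 0 + d 1 = n), (c d : K) * w ^ (d 1) := by
    change ev P w (∑ d ∈ f.support.filter (fun d => d 0 + d 1 = n), monomial (d 1) (c d)) = _
    rw [map_sum]
    exact Finset.sum_congr rfl fun d _ => hev _ _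
  have e2 : ev P w G = -∑ d ∈ f.support.filter (fun d => ¬ d 0 + d 1 = n),
      (c d : K) * x ^ (d 0 + d 1 - n - 1) * w ^ (d 1) := by
    change ev P w (-∑ d ∈ f.support.filter (fun d => ¬ d 0 + d 1 = n),
      monomial (d 1) (c d * X' ^ (d 0 + d 1 - n - 1))) = _
    rw [map_neg, map_sum]
    congr 1
    refine Finset.sum_congr rfl fun d _ => ?_
    rw [hev]
    rfl
  have e3 : ∑ d ∈ f.support, (c d : K) * (x ^ (d 0) * y ^ (d 1)) = 0 := by
    rw [MvPolynomial.aeval_def, MvPolynomial.eval₂_eq'] at hf
    rw [← hf]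
    refine Finset.sum_congr rfl fun d _ => ?_
    rw [Fin.prod_univ_two]
    rfl
  have e4 : ∀ d : Fin 2 →₀ ℕ, x ^ (d 0) * y ^ (d 1) = x ^ (d 0 + d 1) * w ^ (d 1) := by
    intro d
    rw [← hwx, mul_pow, pow_add]
    ring
  have e5 : ev P w F₁ = x * ev P w G := by
    have hxn : x ^ n ≠ 0 := pow_ne_zero _ hx0
    apply mul_left_cancel₀ hxn
    rw [e1, e2]
    rw [← Finset.sum_filter_add_sum_filter_not f.support (fun d => d 0 + d 1 = n)] at e3
    have k1 : ∑ d ∈ f.support.filter (fun d => d 0 + d 1 = n), (c d : K) * (x ^ (d 0) * y ^ (d 1)) =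
        x ^ n * ∑ d ∈ f.support.filter (fun d => d 0 + d 1 = n), (c d : K) * w ^ (d 1) := by
      rw [Finset.mul_sum]
      refine Finset.sum_congr rfl fun d hd => ?_
      rw [e4, (Finset.mem_filter.1 hd).2]
      ring
    have k2 : ∑ d ∈ f.support.filter (fun d => ¬ d 0 + d 1 = n), (c d : K) * (x ^ (d 0) * y ^ (d 1)) =
        x ^ n * (x * ∑ d ∈ f.support.filter (fun d => ¬ d 0 + d 1 = n),
          (c d : K) * x ^ (d 0 + d 1 - n - 1) * w ^ (d 1)) := by
      rw [Finset.mul_sum, Finset.mul_sum]
      refine Finset.sum_congr rfl fun d hd => ?_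
      have hd1 := hmin d (Finset.mem_filter.1 hd).1
      have hd2 := (Finset.mem_filter.1 hd).2
      have hd3 : d 0 + d 1 = n + 1 + (d 0 + d 1 - n - 1) := by
        omega
      rw [e4]
      conv_lhs => rw [hd3]
      rw [pow_add, pow_succ]
      ring
    rw [k1, k2] at e3
    linear_combination e3
  have h6 := h.ker' e5 (d₀ 1)
  have h7 : F₁.coeff (d₀ 1) = c d₀ := by
    change (∑ d ∈ f.support.filter (fun d => d 0 + d 1 = n), monomial (d 1) (c d)).coeff (d₀ 1) = _
    rw [finsetSum_coeff]
    rw [Finset.sum_eq_single d₀]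
    · rw [coeff_monomial, if_pos rfl]
    · intro d hd hdne
      rw [coeff_monomial, if_neg]
      intro h1
      apply hdne
      have h2 := (Finset.mem_filter.1 hd).2
      ext i
      fin_cases i
      · change d 0 = d₀ 0
        omega
      · exact h1
    · intro h1
      exact absurd (Finset.mem_filter.2 ⟨hd₀, hn.symm⟩) h1
  rw [h7] at h6
  have h8 : f.coeff d₀ ≠ 0 := MvPolynomial.mem_support_iff.1 hd₀
  have h9 : (c d₀ : K) * algebraMap F K (f.coeff d₀)⁻¹ = 1 := by
    rw [hc, ← map_mul, mul_inv_cancel₀ h8, map_one]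
  have h10 : V.valuation ((c d₀ : K) * algebraMap F K (f.coeff d₀)⁻¹) < 1 :=
    val_mul_lt_left h6 (h.le _ (hF _))
  rw [h9, map_one] at h10
  exact lt_irrefl _ h10

end GDIM_

/-- Two-dimensional points are closed points of fibres over closed points of the base. -/
theorem t_PFO : S_pfo.{u} := by
  intro O F K _ _ _ _ _ _ _ _ _ htr V P x y hpar hO
  by_contra hcon
  push Not at hcon
  have hF : ∀ a : F, algebraMap F K a ∈ P := by
    intro a
    obtain ⟨b, c, hc, rfl⟩ := IsFractionRing.div_surjective O a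
    have hc0 : c ≠ 0 := nonZeroDivisors.ne_zero hc
    rw [map_div₀, div_eq_mul_inv, ← IsScalarTower.algebraMap_apply, ← IsScalarTower.algebraMap_apply]
    exact P.mul_mem (hO b) (hcon c hc0)
  have h1 := (GDIM_.alg_ind hpar hF).lift_cardinalMk_le_trdeg
  rw [Cardinal.mk_fin, Cardinal.lift_natCast, Cardinal.lift_uzero] at h1
  have h2 : ((2 : ℕ) : Cardinal.{u}) ≤ ((1 : ℕ) : Cardinal.{u}) := by
    rw [Nat.cast_one]
    exact h1.trans htr
  rw [Nat.cast_le] at h2
  omega

end Pool.Agent.N808.AS
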