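import Pool.Agent.N808.AS.Stm

/-!
GOOD: the points at which all functions are monomials are not bad.
-/

set_option autoImplicit false
set_option linter.unusedVariables false
set_option linter.unusedSectionVars false

universe u

open Pool.Agent.W418.LU2 Pool.Agent.N98.T2 Pool.Agent.N98.RM Polynomial

namespace Pool.Agent.N808.AS

namespace GOOD_

open IsLocalRing

section indn

variable {B : Type u} [CommRing B] [IsLocalRing B] {ι : Type} [Fintype ι] {z : ι → B}

/-- The nonunits of the family are not in the square of the maximal ideal. -/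
lemma not_sq (hz : IndN z) (i : ι) (hi : z i ∈ maximalIdeal B) : z i ∉ maximalIdeal B ^ 2 := by
  classical
  intro h2
  have h1 := hz (Pi.single i 1) (fun l hl => by
    have hli : l ≠ i := fun h => hl (by rw [h]; exact hi)
    exact Pi.single_eq_of_ne hli _) (by
    rw [Finset.sum_eq_single i]
    · rw [Pi.single_eq_same, one_mul]
      exact h2
    · intro l _ hl
      rw [Pi.single_eq_of_ne hl, zero_mul]
    · intro h
      exact absurd (Finset.mem_univ _) h) i
  rw [Pi.single_eq_same] at h1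
  exact (Ideal.ne_top_iff_one _).1 (maximalIdeal.isMaximal _).ne_top h1

/-- Distinct nonunits of the family are not associated. -/
lemma not_two (hz : IndN z) {i j : ι} (hij : i ≠ j) {u v w : B} (hu : IsUnit u) (hv : IsUnit v)
    (hw : w ∈ maximalIdeal B) (hi : z i = u * w) (hj : z j = v * w) : False := by
  classical
  have hi' : z i ∈ maximalIdeal B := by
    rw [hi]
    exact Ideal.mul_mem_left _ _ hw
  have hj' : z j ∈ maximalIdeal B := by
    rw [hj]
    exact Ideal.mul_mem_left _ _ hw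
  have h1 := hz (Pi.single i v + Pi.single j (-u)) (fun l hl => by
    have hli : l ≠ i := fun h => hl (by rw [h]; exact hi')
    have hlj : l ≠ j := fun h => hl (by rw [h]; exact hj')
    rw [Pi.add_apply, Pi.single_eq_of_ne hli, Pi.single_eq_of_ne hlj, add_zero]) (by
    have h2 : ∑ l, (Pi.single i v + Pi.single j (-u) : ι → B) l * z l = v * z i + -u * z j := by
      simp only [Pi.add_apply, add_mul, Finset.sum_add_distrib]
      congr 1
      · rw [Finset.sum_eq_single i]
        · rw [Pi.single_eq_same]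
        · intro l _ hl
          rw [Pi.single_eq_of_ne hl, zero_mul]
        · intro h
          exact absurd (Finset.mem_univ _) h
      · rw [Finset.sum_eq_single j]
        · rw [Pi.single_eq_same]
        · intro l _ hl
          rw [Pi.single_eq_of_ne hl, zero_mul]
        · intro h
          exact absurd (Finset.mem_univ _) h
    rw [h2, hi, hj]
    have h3 : v * (u * w) + -u * (v * w) = 0 := by ring
    rw [h3]
    exact Ideal.zero_mem _) i
  rw [Pi.add_apply, Pi.single_eq_same, Pi.single_eq_of_ne hij, add_zero] at h1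
  exact (IsLocalRing.mem_maximalIdeal _).1 h1 hv

end indn

variable {K : Type u} [Field K]

lemma regP_not_sq {A P : Subring K} {ι : Type} [Fintype ι] {x : ι → K} (h : RegP A P x) (i : ι)
    (hi : (x i)⁻¹ ∉ A) {a b c : K} (ha : a ∈ P) (hb : b ∈ P) (hc : c ∈ P) (hbA : b⁻¹ ∉ A)
    (hcA : c⁻¹ ∉ A) (e : x i = a * (b * c)) : False := by
  have hreg := h.reg
  have hm : ∀ d : P, (d : K)⁻¹ ∉ A → d ∈ maximalIdeal P := fun d hd => by
    rw [h.mem_max]
    exact fun h1 => hd h1.2
  refine not_sq h.ind i (hm _ hi) ?_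
  have e' : (⟨x i, h.mem i⟩ : P) = ⟨a, ha⟩ * (⟨b, hb⟩ * ⟨c, hc⟩) := Subtype.ext e
  rw [e', pow_two]
  exact Ideal.mul_mem_left _ _ (Ideal.mul_mem_mul (hm _ hbA) (hm _ hcA))

lemma regP_not_two {A P : Subring K} {ι : Type} [Fintype ι] {x : ι → K} (h : RegP A P x)
    {i j : ι} (hij : i ≠ j) {u v w : K} (hu : u ∈ P) (hv : v ∈ P) (hw : w ∈ P) (hu0 : u ≠ 0)
    (hv0 : v ≠ 0) (hu1 : u⁻¹ ∈ A) (hv1 : v⁻¹ ∈ A) (hwA : w⁻¹ ∉ A) (hi : x i = u * w)
    (hj : x j = v * w) : False := by
  have hreg := h.reg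
  refine not_two h.ind hij (u := ⟨u, hu⟩) (v := ⟨v, hv⟩) (w := ⟨w, hw⟩)
    ((h.isUnit _).2 ⟨hu0, hu1⟩) ((h.isUnit _).2 ⟨hv0, hv1⟩) ?_ (Subtype.ext hi) (Subtype.ext hj)
  rw [h.mem_max]
  exact fun h1 => hwA h1.2

section atq

variable {P : Subring K} {q : P} {hq : Prime q}

lemma ne_of_not_dvd {b : P} (hb : ¬ q ∣ b) : (b : K) ≠ 0 := by
  intro h0
  apply hb
  have : b = 0 := Subtype.ext h0
  rw [this]
  exact dvd_zero _

lemma inv_mem_atq {b : P} (hb : ¬ q ∣ b) : (b : K)⁻¹ ∈ atq P q hq :=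
  ⟨1, b, hb, by push_cast; rw [one_mul]⟩

lemma not_inv_mem_atq {b : P} (hb0 : (b : K) ≠ 0) (hb : q ∣ b) : (b : K)⁻¹ ∉ atq P q hq := by
  rintro ⟨a, c, hc, e⟩
  have hc0 := ne_of_not_dvd hc
  have h1 : (c : K) = a * b := by
    field_simp at e
    rw [e]
    ring
  have h2 : c = a * b := Subtype.ext h1
  exact hc (h2 ▸ hb.mul_left a)

lemma loc_atq : Loc (atq P q hq) := by
  rintro e ⟨a, b, hb, rfl⟩
  have hb0 := ne_of_not_dvd hb
  by_cases ha : q ∣ a
  · right
    have h1 : ¬ q ∣ b - a := fun h => hb (by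
      have := dvd_add h ha
      rwa [sub_add_cancel] at this)
    have h2 := ne_of_not_dvd h1
    have e : 1 - (a : K) * (b : K)⁻¹ = ((b - a : P) : K) * (b : K)⁻¹ := by
      push_cast
      rw [sub_mul, mul_inv_cancel₀ hb0]
    rw [e]
    refine ⟨mul_ne_zero h2 (inv_ne_zero hb0), b, b - a, h1, ?_⟩
    rw [mul_inv, inv_inv, mul_comm]
  · left
    have h2 := ne_of_not_dvd ha
    refine ⟨mul_ne_zero h2 (inv_ne_zero hb0), b, a, ha, ?_⟩
    rw [mul_inv, inv_inv, mul_comm]

end atq

variable {k : Type u} [CommRing k] [Algebra k K] {T I Γ : Type} [Fintype I] [Fintype Γ]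
  {Δ : K} {G : Γ → K} {M : PM k K T I} {b : I → Prop} {t : T} {S : Subring K}
  {V : ValuationSubring K} {x y : K}

/-- The main case: the first parameter is a boundary equation. -/
theorem main (h0 : St0 Δ G M b) (hOn : M.On t S) (h : Par V (M.P t S) x y)
    (hm : ∀ k, ∃ u ∈ M.P t S, V.valuation u = 1 ∧ ∃ i j : ℕ, M.x t k = u * x ^ i * y ^ j)
    {i0 : I} (hb : b i0) {u0 : K} (hu0 : u0 ∈ M.P t S) (hu01 : V.valuation u0 = 1)
    (he : M.x t i0 = u0 * x) {j0 : I} (hj0 : ¬ b j0) (hjS : (M.x t j0)⁻¹ ∉ S) :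
    RegP S (M.P t S) (M.x t) := by
  classical
  have hAS := hOn.2
  have hPS : M.P t S ≤ S := lo_le hAS
  have hAP : (M.A t).toSubring ≤ M.P t S := le_lo _ _
  have hxP : ∀ i, M.x t i ∈ M.P t S := fun i => hAP (M.xA t i)
  have hU1 : ∀ a ∈ M.P t S, V.valuation a = 1 → a⁻¹ ∈ S := fun a ha h1 => hPS (h.inv a ha h1)
  have hU2 : ∀ a ∈ M.P t S, a ≠ 0 → a⁻¹ ∈ S → V.valuation a = 1 := fun a ha ha0 h1 =>
    one_of_inv (h.le a ha) ha0 (h.le _ (inv_mem_lo hAS ha ha0 h1))
  have hxS : x⁻¹ ∉ S := fun h1 => by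
    have := hU2 x h.xP h.x0 h1
    exact absurd h.xV (by rw [this]; exact lt_irrefl _)
  have hyS : y⁻¹ ∉ S := fun h1 => by
    have := hU2 y h.yP h.y0 h1
    exact absurd h.yV (by rw [this]; exact lt_irrefl _)
  have hu00 := ne_zero_of_one hu01
  have hi0S : (M.x t i0)⁻¹ ∉ S := by
    intro h1
    apply hxS
    have e : x⁻¹ = u0 * (M.x t i0)⁻¹ := by
      rw [he]
      have := h.x0
      field_simp
    rw [e]
    exact S.mul_mem (hPS hu0) h1
  -- curves
  have hcur : ∀ j, ¬ b j → (M.x t j)⁻¹ ∉ S → ∃ v ∈ M.P t S, V.valuation v = 1 ∧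
      ∃ n : ℕ, M.x t j = v * y ^ (n + 1) := by
    intro j hj hjS
    obtain ⟨v, hv, hv1, a, c, e⟩ := hm j
    have ha : a = 0 := by
      by_contra ha
      obtain ⟨a', rfl⟩ := Nat.exists_eq_succ_of_ne_zero ha
      apply h0.hv t S hOn i0 j hb hj hi0S
      have e1 : M.x t j / M.x t i0 = v * u0⁻¹ * x ^ a' * y ^ c := by
        rw [e, he, Nat.succ_eq_add_one, pow_succ]
        have := h.x0
        field_simp
      rw [e1]
      exact Subring.mul_mem _ (Subring.mul_mem _ (Subring.mul_mem _ hv (h.inv u0 hu0 hu01))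
        (Subring.pow_mem _ h.xP _)) (Subring.pow_mem _ h.yP _)
    rw [ha, pow_zero, mul_one] at e
    rcases Nat.eq_zero_or_pos c with hc | hc
    · exfalso
      apply hjS
      rw [hc, pow_zero, mul_one] at e
      rw [e]
      exact hU1 v hv hv1
    · obtain ⟨n, rfl⟩ := Nat.exists_eq_add_of_lt hc
      exact ⟨v, hv, hv1, n, by rw [e, zero_add]⟩
  obtain ⟨v0, hv0, hv01, n0, ev0⟩ := hcur j0 hj0 hjS
  have hv00 := ne_zero_of_one hv01
  -- boundary
  have hbd : ∀ i, b i → (M.x t i)⁻¹ ∉ S → i = i0 := by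
    intro i hi hiS
    obtain ⟨v, hv, hv1, a, c, e⟩ := hm i
    have hvn := ne_zero_of_one hv1
    by_contra hne
    have hR := h0.reg t
    have hR1 := hR.reg S hOn.1 hAS Unit (fun _ => ⟨i, hi⟩) (fun _ _ _ => rfl)
    -- the exponent of y is zero
    have hc : c = 0 := by
      by_contra hc
      obtain ⟨c', rfl⟩ := Nat.exists_eq_succ_of_ne_zero hc
      have ha : a = 0 := by
        by_contra ha
        obtain ⟨a', rfl⟩ := Nat.exists_eq_succ_of_ne_zero ha
        refine regP_not_sq hR1 () hiS (a := v * x ^ a' * y ^ c') (b := x) (c := y) ?_ h.xP h.yP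
          hxS hyS ?_
        · exact Subring.mul_mem _ (Subring.mul_mem _ hv (Subring.pow_mem _ h.xP _))
            (Subring.pow_mem _ h.yP _)
        · change M.x t i = _
          simp only [e, Nat.succ_eq_add_one]
          ring
      have hc' : c' = 0 := by
        by_contra hc'
        obtain ⟨c'', rfl⟩ := Nat.exists_eq_succ_of_ne_zero hc'
        refine regP_not_sq hR1 () hiS (a := v * x ^ a * y ^ c'') (b := y) (c := y) ?_ h.yP h.yP
          hyS hyS ?_
        · exact Subring.mul_mem _ (Subring.mul_mem _ hv (Subring.pow_mem _ h.xP _))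
            (Subring.pow_mem _ h.yP _)
        · change M.x t i = _
          simp only [e, Nat.succ_eq_add_one]
          ring
      subst ha
      subst hc'
      apply h0.hv t S hOn i j0 hi hj0 hiS
      have e1 : M.x t j0 / M.x t i = v0 * v⁻¹ * y ^ n0 := by
        rw [e, ev0]
        have := h.y0
        rw [pow_zero, Nat.succ_eq_add_one, zero_add, pow_one, pow_succ]
        field_simp
      rw [e1]
      exact Subring.mul_mem _ (Subring.mul_mem _ hv0 (h.inv v hv hv1)) (Subring.pow_mem _ h.yP _)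
    subst hc
    have ha : a = 1 := by
      rcases Nat.lt_or_ge a 2 with ha | ha
      · interval_cases a
        · exfalso
          apply hiS
          rw [pow_zero, pow_zero, mul_one, mul_one] at e
          rw [e]
          exact hU1 v hv hv1
        · rfl
      · exfalso
        obtain ⟨a', rfl⟩ := Nat.exists_eq_add_of_le ha
        refine regP_not_sq hR1 () hiS (a := v * x ^ a') (b := x) (c := x) ?_ h.xP h.xP
          hxS hxS ?_
        · exact Subring.mul_mem _ hv (Subring.pow_mem _ h.xP _)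
        · change M.x t i = _
          rw [e]
          ring
    subst ha
    rw [pow_one, pow_zero, mul_one] at e
    have hR2 := hR.reg S hOn.1 hAS Bool (fun c => if c then ⟨i, hi⟩ else ⟨i0, hb⟩) (by
      intro c d hcd
      cases c <;> cases d
      · rfl
      · exact absurd (congrArg Subtype.val hcd).symm hne
      · exact absurd (congrArg Subtype.val hcd) hne
      · rfl)
    exact regP_not_two hR2 (i := true) (j := false) (by decide) hv hu0 h.xP hvn hu00
      (hU1 v hv hv1) (hU1 u0 hu0 hu01) hxS e he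
  -- the local ring of the curve
  let q : M.P t S := ⟨y, h.yP⟩
  have hq : Prime q := h.prime_right
  let S1 : Subring K := atq (M.P t S) q hq
  have hPS1 : M.P t S ≤ S1 := le_atq _ _ _
  have hOn1 : M.On t S1 := ⟨loc_atq, hAP.trans hPS1⟩
  have hyx : ¬ q ∣ ⟨x, h.xP⟩ := by
    rintro ⟨d, hd⟩
    exact h.symm.not_dvd d.2 (by rw [mul_comm]; exact congrArg Subtype.val hd)
  have hxS1 : x⁻¹ ∈ S1 := inv_mem_atq (b := ⟨x, h.xP⟩) hyx
  have hyS1 : y⁻¹ ∉ S1 := not_inv_mem_atq (b := q) h.y0 dvd_rfl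
  have hΔ1 : Δ⁻¹ ∈ S1 := by
    by_contra hcon
    obtain ⟨i, hi, hiS1⟩ := h0.cov t S1 hOn1 hcon
    have hiS : (M.x t i)⁻¹ ∉ S := fun h1 =>
      hiS1 (hPS1 (inv_mem_lo hAS (hxP i) (M.x0 t i) h1))
    have hii := hbd i hi hiS
    subst hii
    apply hiS1
    rw [he, mul_inv]
    exact S1.mul_mem (hPS1 (h.inv u0 hu0 hu01)) hxS1
  have hR := h0.out t S1 hOn1 hΔ1
  have hPP : M.P t S ≤ M.P t S1 := by
    rintro _ ⟨a, ha, d, hd, hd0, hdS, rfl⟩
    exact ⟨a, ha, d, hd, hd0, hPS1 (inv_mem_lo hAS (hAP hd) hd0 hdS), rfl⟩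
  -- curves again
  have hunS1 : ∀ v ∈ M.P t S, V.valuation v = 1 → v⁻¹ ∈ S1 := fun v hv hv1 =>
    hPS1 (h.inv v hv hv1)
  have hcur1 : ∀ j, ¬ b j → (M.x t j)⁻¹ ∉ S → ∃ v ∈ M.P t S, V.valuation v = 1 ∧
      M.x t j = v * y := by
    intro j hj hjS
    obtain ⟨v, hv, hv1, n, e⟩ := hcur j hj hjS
    rcases Nat.eq_zero_or_pos n with hn | hn
    · exact ⟨v, hv, hv1, by rw [e, hn, zero_add, pow_one]⟩
    · exfalso
      obtain ⟨m, rfl⟩ := Nat.exists_eq_add_of_lt hn
      refine regP_not_sq hR j ?_ (a := v * y ^ m) (b := y) (c := y) ?_ (hPP h.yP) (hPP h.yP)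
        hyS1 hyS1 ?_
      · intro h1
        apply hyS1
        have e1 : y⁻¹ = v * y ^ (m + 1) * (M.x t j)⁻¹ := by
          rw [e]
          have := h.y0
          have := ne_zero_of_one hv1
          rw [zero_add, pow_succ _ (m + 1)]
          field_simp
        rw [e1]
        exact S1.mul_mem (S1.mul_mem (hPS1 hv) (S1.pow_mem (hPS1 h.yP) _)) h1
      · exact hPP (Subring.mul_mem _ hv (Subring.pow_mem _ h.yP _))
      · rw [e]
        ring
  have huniq : ∀ i j, ¬ b i → ¬ b j → (M.x t i)⁻¹ ∉ S → (M.x t j)⁻¹ ∉ S → i = j := by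
    intro i j hi hj hiS hjS
    obtain ⟨v, hv, hv1, e⟩ := hcur1 i hi hiS
    obtain ⟨w, hw, hw1, f⟩ := hcur1 j hj hjS
    by_contra hne
    exact regP_not_two hR hne (hPP hv) (hPP hw) (hPP h.yP) (ne_zero_of_one hv1)
      (ne_zero_of_one hw1) (hunS1 v hv hv1) (hunS1 w hw hw1) hyS1 e f
  obtain ⟨v1, hv1, hv11, ev1⟩ := hcur1 j0 hj0 hjS
  have h' : Par V (M.P t S) (M.x t i0) (M.x t j0) := by
    rw [he, ev1]
    exact (h.unit_left hu0 hu01).unit_right hv1 hv11
  have hne : ∀ i : Fin 2, ![M.x t i0, M.x t j0] i ≠ 0 := by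
    intro i
    fin_cases i
    · exact h'.x0
    · exact h'.y0
  have hmem : ∀ i : Fin 2, ![M.x t i0, M.x t j0] i ∈ M.P t S := by
    intro i
    fin_cases i
    · exact h'.xP
    · exact h'.yP
  have hreg := h'.isRegular
  have hfin : RegP S (M.P t S) ![M.x t i0, M.x t j0] := by
    refine ⟨hPS, hne, hmem, hreg, fun a ha ha0 haS => inv_mem_lo hAS ha ha0 haS, ?_⟩
    have := h'.indN
    convert this using 1
    funext i
    fin_cases i <;> rfl
  refine regP_reindex hfin (M.x t) (M.x0 t) hxP (fun k => if b k.1 then 0 else 1) ?_ ?_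
  · rintro ⟨k, hk⟩ ⟨l, hl⟩ hkl
    apply Subtype.ext
    change (if b k then (0 : Fin 2) else 1) = if b l then 0 else 1 at hkl
    change k = l
    by_cases hbk : b k
    · by_cases hbl : b l
      · rw [hbd k hbk hk, hbd l hbl hl]
      · rw [if_pos hbk, if_neg hbl] at hkl
        exact absurd hkl (by decide)
    · by_cases hbl : b l
      · rw [if_neg hbk, if_pos hbl] at hkl
        exact absurd hkl (by decide)
      · exact huniq k l hbk hbl hk hl
  · rintro ⟨k, hk⟩
    change M.x t k = ![M.x t i0, M.x t j0] (if b k then 0 else 1)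
    by_cases hbk : b k
    · rw [if_pos hbk, hbd k hbk hk]
      rfl
    · rw [if_neg hbk, huniq k j0 hbk hj0 hk hjS]
      rfl

lemma Mo_prod (h : Par V (M.P t S) x y) {ι : Type} (s : Finset ι) (f : ι → K)
    (hf : ∀ i ∈ s, Mo V (M.P t S) x y (f i)) : Mo V (M.P t S) x y (∏ i ∈ s, f i) := by
  classical
  induction s using Finset.induction_on with
  | empty =>
    rw [Finset.prod_empty]
    exact Mo.unit h (Subring.one_mem _) (map_one _)
  | insert a s ha ih =>
    rw [Finset.prod_insert ha]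
    exact Mo.mul h (hf a (Finset.mem_insert_self a s))
      (ih fun i hi => hf i (Finset.mem_insert_of_mem hi))

end GOOD_

open GOOD_

/-- GOOD: points at which all functions are monomials are not bad. -/
theorem t_GOOD : S_good.{u} := by
  classical
  intro k K _ _ _ _ T I Γ _ _ _ Δ G M b h0 t S hOn hΔ hj hG
  obtain ⟨V, x, y, h, hmΔ, hmG⟩ := hG
  obtain ⟨j0, hj0, hjS⟩ := hj
  have hAS := hOn.2
  have hPS : M.P t S ≤ S := lo_le hAS
  have hAP : (M.A t).toSubring ≤ M.P t S := le_lo _ _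
  have hxP : ∀ i, M.x t i ∈ M.P t S := fun i => hAP (M.xA t i)
  have hbm : ∀ i, b i → ∃ u ∈ M.P t S, V.valuation u = 1 ∧
      ∃ a c : ℕ, M.x t i = u * x ^ a * y ^ c := by
    intro i hi
    refine mono_of_dvd h (hxP i) (b := Δ / M.x t i) (hAP (h0.dv t i hi)) ?_
    have e : M.x t i * (Δ / M.x t i) = Δ := by
      have := M.x0 t i
      field_simp
    rw [e]
    exact hmΔ
  have hMo : ∀ i, b i → Mo V (M.P t S) x y (M.x t i) := by
    intro i hi
    obtain ⟨u, hu, hu1, a, c, e⟩ := hbm i hi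
    exact ⟨u, hu, hu1, a, c, by rw [e, zpow_natCast, zpow_natCast]⟩
  have hm : ∀ i, ∃ u ∈ M.P t S, V.valuation u = 1 ∧
      ∃ a c : ℕ, M.x t i = u * x ^ a * y ^ c := by
    intro i
    by_cases hi : b i
    · exact hbm i hi
    · refine mono_of_dvd h (hxP i) (b := 1) (Subring.one_mem _) ?_
      rw [mul_one]
      obtain ⟨e, c, hc, hx⟩ := h0.mon t i hi
      rw [hx]
      refine Mo.mul h (Mo_prod h _ _ fun a _ => Mo.zpow h (hmG a) _) (Mo_prod h _ _ fun l _ => ?_)
      by_cases hl : b l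
      · exact Mo.zpow h (hMo l hl) _
      · rw [hc l hl, zpow_zero]
        exact Mo.unit h (Subring.one_mem _) (map_one _)
  obtain ⟨i0, hb, hi0S⟩ := h0.cov t S hOn hΔ
  obtain ⟨u, hu, hu1, a, c, e⟩ := hm i0
  have hU2 : ∀ a ∈ M.P t S, a ≠ 0 → a⁻¹ ∈ S → V.valuation a = 1 := fun a ha ha0 h1 =>
    one_of_inv (h.le a ha) ha0 (h.le _ (inv_mem_lo hAS ha ha0 h1))
  have hxS : x⁻¹ ∉ S := fun h1 => by
    have := hU2 x h.xP h.x0 h1
    exact absurd h.xV (by rw [this]; exact lt_irrefl _)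
  have hyS : y⁻¹ ∉ S := fun h1 => by
    have := hU2 y h.yP h.y0 h1
    exact absurd h.yV (by rw [this]; exact lt_irrefl _)
  have hR1 := (h0.reg t).reg S hOn.1 hAS Unit (fun _ => ⟨i0, hb⟩) (fun _ _ _ => rfl)
  rcases Nat.eq_zero_or_pos a with ha | ha
  · rcases Nat.eq_zero_or_pos c with hc | hc
    · exfalso
      apply hi0S
      rw [ha, hc, pow_zero, pow_zero, mul_one, mul_one] at e
      rw [e]
      exact hPS (h.inv u hu hu1)
    · obtain ⟨c', rfl⟩ := Nat.exists_eq_add_of_lt hc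
      rcases Nat.eq_zero_or_pos c' with hc' | hc'
      · -- the second parameter
        refine main h0 hOn h.symm (fun l => ?_) hb hu hu1 ?_ hj0 hjS
        · obtain ⟨w, hw, hw1, a', c'', f⟩ := hm l
          exact ⟨w, hw, hw1, c'', a', by rw [f]; ring⟩
        · rw [e, ha, hc']
          ring
      · exfalso
        obtain ⟨d, rfl⟩ := Nat.exists_eq_add_of_lt hc'
        refine regP_not_sq hR1 () hi0S (a := u * y ^ d) (b := y) (c := y) ?_ h.yP h.yP
          hyS hyS ?_
        · exact Subring.mul_mem _ hu (Subring.pow_mem _ h.yP _)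
        · change M.x t i0 = _
          rw [e, ha]
          ring
  · obtain ⟨a', rfl⟩ := Nat.exists_eq_add_of_lt ha
    rcases Nat.eq_zero_or_pos c with hc | hc
    · rcases Nat.eq_zero_or_pos a' with ha' | ha'
      · refine main h0 hOn h hm hb hu hu1 ?_ hj0 hjS
        rw [e, ha', hc]
        ring
      · exfalso
        obtain ⟨d, rfl⟩ := Nat.exists_eq_add_of_lt ha'
        refine regP_not_sq hR1 () hi0S (a := u * x ^ d) (b := x) (c := x) ?_ h.xP h.xP
          hxS hxS ?_
        · exact Subring.mul_mem _ hu (Subring.pow_mem _ h.xP _)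
        · change M.x t i0 = _
          rw [e, hc]
          ring
    · exfalso
      obtain ⟨d, rfl⟩ := Nat.exists_eq_add_of_lt hc
      refine regP_not_sq hR1 () hi0S (a := u * x ^ a' * y ^ d) (b := x) (c := y) ?_ h.xP h.yP
        hxS hyS ?_
      · exact Subring.mul_mem _ (Subring.mul_mem _ hu (Subring.pow_mem _ h.xP _))
          (Subring.pow_mem _ h.yP _)
      · change M.x t i0 = _
        rw [e]
        ring

end Pool.Agent.N808.AS
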