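import Pool.Agent.N808.AS.GStm
import Pool.Agent.N808.AS.GOOD

/-!
GGOOD: the boundary points at which all functions are monomials are not bad (general surfaces).
By helper456 (subtask 7934), adapted from GOOD.lean of helper262.
-/

set_option autoImplicit false
set_option linter.unusedVariables false
set_option linter.unusedSectionVars false

universe u

open Pool.Agent.W418.LU2 Pool.Agent.N98.T2 Pool.Agent.N98.RM Polynomial

namespace Pool.Agent.N808.AS

namespace GGOOD_

open IsLocalRing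
open GOOD_ hiding main

variable {K : Type u} [Field K]

variable {k : Type u} [CommRing k] [Algebra k K] {T I Γ : Type} [Fintype I] [Fintype Γ]
  {Δ : K} {G : Γ → K} {M : PM k K T I} {b : I → Prop} {t : T} {S : Subring K}
  {V : ValuationSubring K} {x y : K}

/-- The main case: the first parameter is a boundary equation. -/
theorem main (h0 : GS Δ G M b) (hOn : M.On t S) (h : Par V (M.P t S) x y)
    (hm : ∀ k, ∃ u ∈ M.P t S, V.valuation u = 1 ∧ ∃ i j : ℕ, M.x t k = u * x ^ i * y ^ j)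
    {i0 : I} (hb : b i0) {u0 : K} (hu0 : u0 ∈ M.P t S) (hu01 : V.valuation u0 = 1)
    (he : M.x t i0 = u0 * x) {j0 : I} (hj0 : ¬ b j0) (hjS : (M.x t j0)⁻¹ ∉ S) :
    RegP S (M.P t S) (M.x t) := by
  classical
  have hAS := hOn.2
  have hPS : M.P t S ≤ S := lo_le hAS
  have hAP : (M.A t).toSubring ≤ M.P t S := le_lo _ _
  have hxP : ∀ i, M.x t i ∈ M.P t S := fun i => hAP (M.xA t i)
  have hU1 : ∀ a ∈ M.P t S, V.valuation a = 1 → a⁻¹ ∈ S := fun a ha h1 => hPS (h.inv a ha h1)
  have hU2 : ∀ a ∈ M.P t S, a ≠ 0 → a⁻¹ ∈ S → V.valuation a = 1 := fun a ha ha0 h1 =>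
    one_of_inv (h.le a ha) ha0 (h.le _ (inv_mem_lo hAS ha ha0 h1))
  have hxS : x⁻¹ ∉ S := fun h1 => by
    have := hU2 x h.xP h.x0 h1
    exact absurd h.xV (by rw [this]; exact lt_irrefl _)
  have hyS : y⁻¹ ∉ S := fun h1 => by
    have := hU2 y h.yP h.y0 h1
    exact absurd h.yV (by rw [this]; exact lt_irrefl _)
  have hu00 := ne_zero_of_one hu01
  have hi0S : (M.x t i0)⁻¹ ∉ S := by
    intro h1
    apply hxS
    have e : x⁻¹ = u0 * (M.x t i0)⁻¹ := by
      rw [he]
      have := h.x0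
      field_simp
    rw [e]
    exact S.mul_mem (hPS hu0) h1
  -- curves
  have hcur : ∀ j, ¬ b j → (M.x t j)⁻¹ ∉ S → ∃ v ∈ M.P t S, V.valuation v = 1 ∧
      ∃ n : ℕ, M.x t j = v * y ^ (n + 1) := by
    intro j hj hjS
    obtain ⟨v, hv, hv1, a, c, e⟩ := hm j
    have ha : a = 0 := by
      by_contra ha
      obtain ⟨a', rfl⟩ := Nat.exists_eq_succ_of_ne_zero ha
      apply h0.hv t S hOn i0 j hb hj hi0S
      have e1 : M.x t j / M.x t i0 = v * u0⁻¹ * x ^ a' * y ^ c := by
        rw [e, he, Nat.succ_eq_add_one, pow_succ]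
        have := h.x0
        field_simp
      rw [e1]
      exact Subring.mul_mem _ (Subring.mul_mem _ (Subring.mul_mem _ hv (h.inv u0 hu0 hu01))
        (Subring.pow_mem _ h.xP _)) (Subring.pow_mem _ h.yP _)
    rw [ha, pow_zero, mul_one] at e
    rcases Nat.eq_zero_or_pos c with hc | hc
    · exfalso
      apply hjS
      rw [hc, pow_zero, mul_one] at e
      rw [e]
      exact hU1 v hv hv1
    · obtain ⟨n, rfl⟩ := Nat.exists_eq_add_of_lt hc
      exact ⟨v, hv, hv1, n, by rw [e, zero_add]⟩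
  obtain ⟨v0, hv0, hv01, n0, ev0⟩ := hcur j0 hj0 hjS
  have hv00 := ne_zero_of_one hv01
  -- boundary
  have hbd : ∀ i, b i → (M.x t i)⁻¹ ∉ S → i = i0 := by
    intro i hi hiS
    obtain ⟨v, hv, hv1, a, c, e⟩ := hm i
    have hvn := ne_zero_of_one hv1
    by_contra hne
    have hR := h0.reg t
    have hR1 := hR.reg S hOn.1 hAS Unit (fun _ => ⟨i, hi⟩) (fun _ _ _ => rfl)
    -- the exponent of y is zero
    have hc : c = 0 := by
      by_contra hc
      obtain ⟨c', rfl⟩ := Nat.exists_eq_succ_of_ne_zero hc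
      have ha : a = 0 := by
        by_contra ha
        obtain ⟨a', rfl⟩ := Nat.exists_eq_succ_of_ne_zero ha
        refine regP_not_sq hR1 () hiS (a := v * x ^ a' * y ^ c') (b := x) (c := y) ?_ h.xP h.yP
          hxS hyS ?_
        · exact Subring.mul_mem _ (Subring.mul_mem _ hv (Subring.pow_mem _ h.xP _))
            (Subring.pow_mem _ h.yP _)
        · change M.x t i = _
          simp only [e, Nat.succ_eq_add_one]
          ring
      have hc' : c' = 0 := by
        by_contra hc'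
        obtain ⟨c'', rfl⟩ := Nat.exists_eq_succ_of_ne_zero hc'
        refine regP_not_sq hR1 () hiS (a := v * x ^ a * y ^ c'') (b := y) (c := y) ?_ h.yP h.yP
          hyS hyS ?_
        · exact Subring.mul_mem _ (Subring.mul_mem _ hv (Subring.pow_mem _ h.xP _))
            (Subring.pow_mem _ h.yP _)
        · change M.x t i = _
          simp only [e, Nat.succ_eq_add_one]
          ring
      subst ha
      subst hc'
      apply h0.hv t S hOn i j0 hi hj0 hiS
      have e1 : M.x t j0 / M.x t i = v0 * v⁻¹ * y ^ n0 := by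
        rw [e, ev0]
        have := h.y0
        rw [pow_zero, Nat.succ_eq_add_one, zero_add, pow_one, pow_succ]
        field_simp
      rw [e1]
      exact Subring.mul_mem _ (Subring.mul_mem _ hv0 (h.inv v hv hv1)) (Subring.pow_mem _ h.yP _)
    subst hc
    have ha : a = 1 := by
      rcases Nat.lt_or_ge a 2 with ha | ha
      · interval_cases a
        · exfalso
          apply hiS
          rw [pow_zero, pow_zero, mul_one, mul_one] at e
          rw [e]
          exact hU1 v hv hv1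
        · rfl
      · exfalso
        obtain ⟨a', rfl⟩ := Nat.exists_eq_add_of_le ha
        refine regP_not_sq hR1 () hiS (a := v * x ^ a') (b := x) (c := x) ?_ h.xP h.xP
          hxS hxS ?_
        · exact Subring.mul_mem _ hv (Subring.pow_mem _ h.xP _)
        · change M.x t i = _
          rw [e]
          ring
    subst ha
    rw [pow_one, pow_zero, mul_one] at e
    have hR2 := hR.reg S hOn.1 hAS Bool (fun c => if c then ⟨i, hi⟩ else ⟨i0, hb⟩) (by
      intro c d hcd
      cases c <;> cases d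
      · rfl
      · exact absurd (congrArg Subtype.val hcd).symm hne
      · exact absurd (congrArg Subtype.val hcd) hne
      · rfl)
    exact regP_not_two hR2 (i := true) (j := false) (by decide) hv hu0 h.xP hvn hu00
      (hU1 v hv hv1) (hU1 u0 hu0 hu01) hxS e he
  -- the local ring of the curve
  let q : M.P t S := ⟨y, h.yP⟩
  have hq : Prime q := h.prime_right
  let S1 : Subring K := atq (M.P t S) q hq
  have hPS1 : M.P t S ≤ S1 := le_atq _ _ _
  have hOn1 : M.On t S1 := ⟨loc_atq, hAP.trans hPS1⟩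
  have hyx : ¬ q ∣ ⟨x, h.xP⟩ := by
    rintro ⟨d, hd⟩
    exact h.symm.not_dvd d.2 (by rw [mul_comm]; exact congrArg Subtype.val hd)
  have hxS1 : x⁻¹ ∈ S1 := inv_mem_atq (b := ⟨x, h.xP⟩) hyx
  have hyS1 : y⁻¹ ∉ S1 := not_inv_mem_atq (b := q) h.y0 dvd_rfl
  have hPP : M.P t S ≤ M.P t S1 := by
    rintro _ ⟨a, ha, d, hd, hd0, hdS, rfl⟩
    exact ⟨a, ha, d, hd, hd0, hPS1 (inv_mem_lo hAS (hAP hd) hd0 hdS), rfl⟩
  have hAS1 : (M.A t).toSubring ≤ S1 := hOn1.2
  have hP1 : M.P t S1 ≤ S1 := lo_le hAS1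
  have hLw : Lw (M.P t S1) := by
    refine ⟨y, hPP h.yP, Or.inr fun h1 => hyS1 (hP1 h1), ?_⟩
    intro a ha haP
    by_cases ha0 : a = 0
    · exact ⟨0, Subring.zero_mem _, by rw [ha0, zero_mul]⟩
    have haS1 : a⁻¹ ∉ S1 := fun h1 => haP (inv_mem_lo hAS1 ha ha0 h1)
    obtain ⟨c, d, hd, e⟩ := hP1 ha
    have hd0 := ne_of_not_dvd hd
    have hqc : q ∣ c := by
      by_contra hqc
      apply haS1
      rw [e, mul_inv, inv_inv, mul_comm]
      exact ⟨d, c, hqc, rfl⟩
    obtain ⟨w, hw⟩ := hqc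
    have hdP1 : (d : K)⁻¹ ∈ M.P t S1 := inv_mem_lo hAS1 (hPP d.2) hd0 (inv_mem_atq hd)
    refine ⟨(w : K) * (d : K)⁻¹, Subring.mul_mem _ (hPP w.2) hdP1, ?_⟩
    have hw' : (c : K) = y * w := congrArg Subtype.val hw
    rw [e, hw']
    ring
  have hR := h0.one t S1 hOn1 hLw
  -- curves again
  have hunS1 : ∀ v ∈ M.P t S, V.valuation v = 1 → v⁻¹ ∈ S1 := fun v hv hv1 =>
    hPS1 (h.inv v hv hv1)
  have hcur1 : ∀ j, ¬ b j → (M.x t j)⁻¹ ∉ S → ∃ v ∈ M.P t S, V.valuation v = 1 ∧
      M.x t j = v * y := by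
    intro j hj hjS
    obtain ⟨v, hv, hv1, n, e⟩ := hcur j hj hjS
    rcases Nat.eq_zero_or_pos n with hn | hn
    · exact ⟨v, hv, hv1, by rw [e, hn, zero_add, pow_one]⟩
    · exfalso
      obtain ⟨m, rfl⟩ := Nat.exists_eq_add_of_lt hn
      refine regP_not_sq hR j ?_ (a := v * y ^ m) (b := y) (c := y) ?_ (hPP h.yP) (hPP h.yP)
        hyS1 hyS1 ?_
      · intro h1
        apply hyS1
        have e1 : y⁻¹ = v * y ^ (m + 1) * (M.x t j)⁻¹ := by
          rw [e]
          have := h.y0
          have := ne_zero_of_one hv1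
          rw [zero_add, pow_succ _ (m + 1)]
          field_simp
        rw [e1]
        exact S1.mul_mem (S1.mul_mem (hPS1 hv) (S1.pow_mem (hPS1 h.yP) _)) h1
      · exact hPP (Subring.mul_mem _ hv (Subring.pow_mem _ h.yP _))
      · rw [e]
        ring
  have huniq : ∀ i j, ¬ b i → ¬ b j → (M.x t i)⁻¹ ∉ S → (M.x t j)⁻¹ ∉ S → i = j := by
    intro i j hi hj hiS hjS
    obtain ⟨v, hv, hv1, e⟩ := hcur1 i hi hiS
    obtain ⟨w, hw, hw1, f⟩ := hcur1 j hj hjS
    by_contra hne
    exact regP_not_two hR hne (hPP hv) (hPP hw) (hPP h.yP) (ne_zero_of_one hv1)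
      (ne_zero_of_one hw1) (hunS1 v hv hv1) (hunS1 w hw hw1) hyS1 e f
  obtain ⟨v1, hv1, hv11, ev1⟩ := hcur1 j0 hj0 hjS
  have h' : Par V (M.P t S) (M.x t i0) (M.x t j0) := by
    rw [he, ev1]
    exact (h.unit_left hu0 hu01).unit_right hv1 hv11
  have hne : ∀ i : Fin 2, ![M.x t i0, M.x t j0] i ≠ 0 := by
    intro i
    fin_cases i
    · exact h'.x0
    · exact h'.y0
  have hmem : ∀ i : Fin 2, ![M.x t i0, M.x t j0] i ∈ M.P t S := by
    intro i
    fin_cases i
    · exact h'.xP
    · exact h'.yP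
  have hreg := h'.isRegular
  have hfin : RegP S (M.P t S) ![M.x t i0, M.x t j0] := by
    refine ⟨hPS, hne, hmem, hreg, fun a ha ha0 haS => inv_mem_lo hAS ha ha0 haS, ?_⟩
    have := h'.indN
    convert this using 1
    funext i
    fin_cases i <;> rfl
  refine regP_reindex hfin (M.x t) (M.x0 t) hxP (fun k => if b k.1 then 0 else 1) ?_ ?_
  · rintro ⟨k, hk⟩ ⟨l, hl⟩ hkl
    apply Subtype.ext
    change (if b k then (0 : Fin 2) else 1) = if b l then 0 else 1 at hkl
    change k = l
    by_cases hbk : b k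
    · by_cases hbl : b l
      · rw [hbd k hbk hk, hbd l hbl hl]
      · rw [if_pos hbk, if_neg hbl] at hkl
        exact absurd hkl (by decide)
    · by_cases hbl : b l
      · rw [if_neg hbk, if_pos hbl] at hkl
        exact absurd hkl (by decide)
      · exact huniq k l hbk hbl hk hl
  · rintro ⟨k, hk⟩
    change M.x t k = ![M.x t i0, M.x t j0] (if b k then 0 else 1)
    by_cases hbk : b k
    · rw [if_pos hbk, hbd k hbk hk]
      rfl
    · rw [if_neg hbk, huniq k j0 hbk hj0 hk hjS]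
      rfl

end GGOOD_

open GOOD_ hiding main
open GGOOD_

/-- GGOOD: boundary points at which all functions are monomials are not bad. -/
theorem t_GGOOD : S_ggood.{u} := by
  classical
  intro k K _ _ _ _ T I Γ _ _ _ Δ G M b h0 t S hOn hbdy hG
  obtain ⟨V, x, y, h, hmΔ, hmG⟩ := hG
  by_cases hj : ∃ j, ¬ b j ∧ (M.x t j)⁻¹ ∉ S
  swap
  · -- only boundary components
    have hjb : ∀ j, (M.x t j)⁻¹ ∉ S → b j := fun j hjS => by
      by_contra hbj
      exact hj ⟨j, hbj, hjS⟩
    have hR0 := (h0.reg t).reg S hOn.1 hOn.2 {i // b i} id Function.injective_id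
    refine regP_reindex hR0 (M.x t) (M.x0 t) (fun i => le_lo _ _ (M.xA t i))
      (fun l => ⟨l.1, hjb l.1 l.2⟩) ?_ fun l => rfl
    intro l l' hll
    have h9 := Subtype.ext_iff.1 hll
    exact Subtype.ext h9
  obtain ⟨j0, hj0, hjS⟩ := hj
  have hAS := hOn.2
  have hPS : M.P t S ≤ S := lo_le hAS
  have hAP : (M.A t).toSubring ≤ M.P t S := le_lo _ _
  have hxP : ∀ i, M.x t i ∈ M.P t S := fun i => hAP (M.xA t i)
  have hbm : ∀ i, b i → ∃ u ∈ M.P t S, V.valuation u = 1 ∧
      ∃ a c : ℕ, M.x t i = u * x ^ a * y ^ c := by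
    intro i hi
    refine mono_of_dvd h (hxP i) (b := Δ / M.x t i) (hAP (h0.dv t i hi)) ?_
    have e : M.x t i * (Δ / M.x t i) = Δ := by
      have := M.x0 t i
      field_simp
    rw [e]
    exact hmΔ
  have hMo : ∀ i, b i → Mo V (M.P t S) x y (M.x t i) := by
    intro i hi
    obtain ⟨u, hu, hu1, a, c, e⟩ := hbm i hi
    exact ⟨u, hu, hu1, a, c, by rw [e, zpow_natCast, zpow_natCast]⟩
  have hm : ∀ i, ∃ u ∈ M.P t S, V.valuation u = 1 ∧
      ∃ a c : ℕ, M.x t i = u * x ^ a * y ^ c := by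
    intro i
    by_cases hi : b i
    · exact hbm i hi
    · refine mono_of_dvd h (hxP i) (b := 1) (Subring.one_mem _) ?_
      rw [mul_one]
      obtain ⟨e, c, hc, hx⟩ := h0.mon t i hi
      rw [hx]
      refine Mo.mul h (Mo_prod h _ _ fun a _ => Mo.zpow h (hmG a) _) (Mo_prod h _ _ fun l _ => ?_)
      by_cases hl : b l
      · exact Mo.zpow h (hMo l hl) _
      · rw [hc l hl, zpow_zero]
        exact Mo.unit h (Subring.one_mem _) (map_one _)
  obtain ⟨i0, hb, hi0S⟩ := hbdy
  obtain ⟨u, hu, hu1, a, c, e⟩ := hm i0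
  have hU2 : ∀ a ∈ M.P t S, a ≠ 0 → a⁻¹ ∈ S → V.valuation a = 1 := fun a ha ha0 h1 =>
    one_of_inv (h.le a ha) ha0 (h.le _ (inv_mem_lo hAS ha ha0 h1))
  have hxS : x⁻¹ ∉ S := fun h1 => by
    have := hU2 x h.xP h.x0 h1
    exact absurd h.xV (by rw [this]; exact lt_irrefl _)
  have hyS : y⁻¹ ∉ S := fun h1 => by
    have := hU2 y h.yP h.y0 h1
    exact absurd h.yV (by rw [this]; exact lt_irrefl _)
  have hR1 := (h0.reg t).reg S hOn.1 hAS Unit (fun _ => ⟨i0, hb⟩) (fun _ _ _ => rfl)
  rcases Nat.eq_zero_or_pos a with ha | ha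
  · rcases Nat.eq_zero_or_pos c with hc | hc
    · exfalso
      apply hi0S
      rw [ha, hc, pow_zero, pow_zero, mul_one, mul_one] at e
      rw [e]
      exact hPS (h.inv u hu hu1)
    · obtain ⟨c', rfl⟩ := Nat.exists_eq_add_of_lt hc
      rcases Nat.eq_zero_or_pos c' with hc' | hc'
      · -- the second parameter
        refine main h0 hOn h.symm (fun l => ?_) hb hu hu1 ?_ hj0 hjS
        · obtain ⟨w, hw, hw1, a', c'', f⟩ := hm l
          exact ⟨w, hw, hw1, c'', a', by rw [f]; ring⟩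
        · rw [e, ha, hc']
          ring
      · exfalso
        obtain ⟨d, rfl⟩ := Nat.exists_eq_add_of_lt hc'
        refine regP_not_sq hR1 () hi0S (a := u * y ^ d) (b := y) (c := y) ?_ h.yP h.yP
          hyS hyS ?_
        · exact Subring.mul_mem _ hu (Subring.pow_mem _ h.yP _)
        · change M.x t i0 = _
          rw [e, ha]
          ring
  · obtain ⟨a', rfl⟩ := Nat.exists_eq_add_of_lt ha
    rcases Nat.eq_zero_or_pos c with hc | hc
    · rcases Nat.eq_zero_or_pos a' with ha' | ha'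
      · refine main h0 hOn h hm hb hu hu1 ?_ hj0 hjS
        rw [e, ha', hc]
        ring
      · exfalso
        obtain ⟨d, rfl⟩ := Nat.exists_eq_add_of_lt ha'
        refine regP_not_sq hR1 () hi0S (a := u * x ^ d) (b := x) (c := x) ?_ h.xP h.xP
          hxS hxS ?_
        · exact Subring.mul_mem _ hu (Subring.pow_mem _ h.xP _)
        · change M.x t i0 = _
          rw [e, hc]
          ring
    · exfalso
      obtain ⟨d, rfl⟩ := Nat.exists_eq_add_of_lt hc
      refine regP_not_sq hR1 () hi0S (a := u * x ^ a' * y ^ d) (b := x) (c := y) ?_ h.xP h.yP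
        hxS hyS ?_
      · exact Subring.mul_mem _ (Subring.mul_mem _ hu (Subring.pow_mem _ h.xP _))
          (Subring.pow_mem _ h.yP _)
      · change M.x t i0 = _
        rw [e]
        ring

end Pool.Agent.N808.AS
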