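import Pool.Agent.N808.AS.GStm

/-!
Log resolution on regular arithmetic surfaces, the general case: regular local rings of dimension
at most one, and points on at most one prime divisor.
-/

set_option autoImplicit false
set_option linter.unusedVariables false
set_option linter.unusedSectionVars false

universe u

open Pool.Agent.W418.LU2 Pool.Agent.N98.T2 Pool.Agent.N98.RM Polynomial IsLocalRing

namespace Pool.Agent.N808.AS

/-- The local ring `P` is dominated by the local ring `S`. -/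
structure Dom {K : Type u} [Field K] (S P : Subring K) : Prop where
  loc : Loc S
  le : P ≤ S
  inv : ∀ a ∈ P, a ≠ 0 → a⁻¹ ∈ S → a⁻¹ ∈ P

namespace Dom

variable {K : Type u} [Field K] {S P : Subring K} (h : Dom S P)

include h

lemma isUnit_iff (a : P) : IsUnit a ↔ (a : K) ≠ 0 ∧ (a : K)⁻¹ ∈ S := by
  constructor
  · intro hu
    obtain ⟨y, hy⟩ := isUnit_iff_exists_inv.1 hu
    have h1 : (a : K) * y = 1 := congrArg Subtype.val hy
    refine ⟨left_ne_zero_of_mul_eq_one h1, ?_⟩
    rw [← eq_inv_of_mul_eq_one_right h1]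
    exact h.le y.2
  · rintro ⟨h0, h1⟩
    exact isUnit_iff_exists_inv.2 ⟨⟨_, h.inv _ a.2 h0 h1⟩, Subtype.ext (mul_inv_cancel₀ h0)⟩

lemma isLocalRing : IsLocalRing P := by
  refine IsLocalRing.of_isUnit_or_isUnit_one_sub_self fun a => ?_
  rcases h.loc a (h.le a.2) with h1 | h1
  · exact Or.inl ((h.isUnit_iff a).2 h1)
  · exact Or.inr ((h.isUnit_iff (1 - a)).2 h1)

lemma mem_max [IsLocalRing P] (a : P) : a ∈ maximalIdeal P ↔ (a : K)⁻¹ ∉ S ∨ (a : K) = 0 := by
  rw [mem_maximalIdeal, mem_nonunits_iff, h.isUnit_iff]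
  constructor
  · intro h1
    by_contra hcon
    push Not at hcon
    exact h1 ⟨hcon.2, hcon.1⟩
  · rintro (h1 | h1) ⟨h2, h3⟩
    · exact h1 h3
    · exact h2 h1

/-- Elements whose inverse is not in `S`. -/
lemma inv_iff {a : K} (ha : a ∈ P) : a⁻¹ ∉ S ↔ a⁻¹ ∉ P := by
  constructor
  · intro h1 h2
    exact h1 (h.le h2)
  · intro h1 h2
    by_cases h0 : a = 0
    · apply h1
      rw [h0, inv_zero]
      exact P.zero_mem
    · exact h1 (h.inv a ha h0 h2)

/-- The maximal ideal is generated by `g`. -/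
lemma max_eq [IsLocalRing P] {g : K} (hg : g ∈ P) (hg0 : g = 0 ∨ g⁻¹ ∉ P)
    (hgen : ∀ a ∈ P, a⁻¹ ∉ P → ∃ c ∈ P, a = c * g) :
    maximalIdeal P = Ideal.span {(⟨g, hg⟩ : P)} := by
  apply le_antisymm
  · intro a ha
    rw [Ideal.mem_span_singleton']
    rcases (h.mem_max a).1 ha with h1 | h1
    · obtain ⟨c, hc, e⟩ := hgen a a.2 ((h.inv_iff a.2).1 h1)
      exact ⟨⟨c, hc⟩, Subtype.ext e.symm⟩
    · refine ⟨0, ?_⟩
      rw [zero_mul]
      exact Subtype.ext h1.symm
  · rw [Ideal.span_singleton_le_iff_mem, h.mem_max]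
    rcases hg0 with h1 | h1
    · exact Or.inr h1
    · exact Or.inl ((h.inv_iff hg).2 h1)

theorem lw_regular (hN : IsNoetherianRing P) (hl : Lw P) : IsRegularLocalRing P := by
  classical
  have hloc := h.isLocalRing
  obtain ⟨g, hg, hg0, hgen⟩ := hl
  have hm := h.max_eq hg hg0 hgen
  apply IsRegularLocalRing.of_spanFinrank_maximalIdeal_le
  by_cases h0 : g = 0
  · have h1 : maximalIdeal P = ⊥ := by
      rw [hm]
      rw [Ideal.span_singleton_eq_bot]
      exact Subtype.ext h0
    rw [h1]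
    have h2 : (⊥ : Ideal P).spanFinrank = 0 := Submodule.spanFinrank_bot
    rw [h2]
    exact ringKrullDim_nonneg_of_nontrivial
  · have h1 : (maximalIdeal P).spanFinrank ≤ 1 := by
      rw [hm]
      refine (Submodule.spanFinrank_span_le_ncard_of_finite (Set.toFinite _)).trans ?_
      rw [Set.ncard_singleton]
    have h2 : (1 : WithBot ℕ∞) ≤ ringKrullDim P := by
      let p0 : PrimeSpectrum P := ⟨⊥, Ideal.isPrime_bot⟩
      let p1 : PrimeSpectrum P := ⟨maximalIdeal P, inferInstance⟩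
      have h01 : p0 < p1 := by
        rw [← PrimeSpectrum.asIdeal_lt_asIdeal]
        refine bot_lt_iff_ne_bot.2 fun h3 => ?_
        change maximalIdeal P = ⊥ at h3
        rw [hm, Ideal.span_singleton_eq_bot] at h3
        exact h0 (congrArg Subtype.val h3)
      let L : LTSeries (PrimeSpectrum P) :=
        { length := 1
          toFun := ![p0, p1]
          step := by
            intro i
            fin_cases i
            exact h01 }
      exact Order.LTSeries.length_le_krullDim L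
    refine le_trans ?_ h2
    exact_mod_cast h1

variable {ι : Type} [Fintype ι] {x : ι → K}

/-- Points at which all components are units. -/
theorem regP_none (hreg : IsRegularLocalRing P) (hx0 : ∀ i, x i ≠ 0) (hxP : ∀ i, x i ∈ P)
    (hu : ∀ i, (x i)⁻¹ ∈ S) : RegP S P x := by
  refine ⟨h.le, hx0, hxP, hreg, h.inv, ?_⟩
  intro c hc _ i
  have h1 : (⟨x i, hxP i⟩ : P) ∉ maximalIdeal P := by
    rw [h.mem_max]
    rintro (h2 | h2)
    · exact h2 (hu i)
    · exact hx0 i h2
  rw [hc i h1]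
  exact Ideal.zero_mem _

/-- Points of dimension one on one component. -/
theorem regP_single (hreg : IsRegularLocalRing P) (hx0 : ∀ i, x i ≠ 0) (hxP : ∀ i, x i ∈ P)
    (j : ι) (hj : (x j)⁻¹ ∉ S) (hgen : ∀ a ∈ P, a⁻¹ ∉ P → ∃ c ∈ P, a = c * x j)
    (hu : ∀ i, (x i)⁻¹ ∉ S → i = j) : RegP S P x := by
  have hloc := h.isLocalRing
  have hm := h.max_eq (hxP j) (Or.inr ((h.inv_iff (hxP j)).1 hj)) hgen
  refine ⟨h.le, hx0, hxP, hreg, h.inv, ?_⟩
  intro c hc hs
  have hun : ∀ i, i ≠ j → (⟨x i, hxP i⟩ : P) ∉ maximalIdeal P := by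
    intro i hi h1
    rcases (h.mem_max _).1 h1 with h2 | h2
    · exact hi (hu i h2)
    · exact hx0 i h2
  have hjj : c j ∈ maximalIdeal P := by
    rw [Finset.sum_eq_single j] at hs
    · rw [hm, Ideal.span_singleton_pow, Ideal.mem_span_singleton] at hs
      obtain ⟨d, hd⟩ := hs
      have h1 : c j = d * ⟨x j, hxP j⟩ := by
        have h2 : (⟨x j, hxP j⟩ : P) ≠ 0 := fun h3 => hx0 j (congrArg Subtype.val h3)
        apply mul_right_cancel₀ h2
        rw [hd]
        ring
      rw [h1, hm]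
      exact Ideal.mul_mem_left _ _ (Ideal.mem_span_singleton_self _)
    · intro i _ hi
      rw [hc i (hun i hi), zero_mul]
    · intro h1
      exact absurd (Finset.mem_univ _) h1
  intro i
  by_cases hi : i = j
  · rw [hi]
    exact hjj
  · rw [hc i (hun i hi)]
    exact Ideal.zero_mem _

end Dom

section pm

variable {k K : Type u} [CommRing k] [IsNoetherianRing k] [Field K] [Algebra k K] {T J : Type}
  {M : PM k K T J}

omit [IsNoetherianRing k] in
lemma PM.dom {t : T} {S : Subring K} (hS : M.On t S) : Dom S (M.P t S) :=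
  ⟨hS.1, M.P_le hS, fun a ha h0 h1 => inv_mem_lo hS.2 ha h0 h1⟩

lemma PM.noethA (M : PM k K T J) (t : T) : IsNoetherianRing (M.A t).toSubring := by
  have := M.ft t
  have h1 : IsNoetherianRing (M.A t) := Algebra.FiniteType.isNoetherianRing k (M.A t)
  exact h1

lemma PM.noethP {t : T} {S : Subring K} (hS : M.On t S) : IsNoetherianRing (M.P t S) :=
  noeth_lo (M.noethA t) hS.1 hS.2

lemma PM.regular {t : T} {S : Subring K} (hS : M.On t S)
    (hd : (∃ V x y, Par V (M.P t S) x y) ∨ Lw (M.P t S)) : IsRegularLocalRing (M.P t S) := by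
  rcases hd with ⟨V, x, y, h1⟩ | h1
  · exact h1.isRegular
  · exact (M.dom hS).lw_regular (M.noethP hS) h1

/-- Prime divisors at one-dimensional points. -/
theorem Prd.one [Fintype J] (hp : Prd M) {t : T} {S : Subring K} (hS : M.On t S)
    (hl : Lw (M.P t S)) : RegP S (M.P t S) (M.x t) := by
  have hd := M.dom hS
  have hreg := hd.lw_regular (M.noethP hS) hl
  have hxP : ∀ i, M.x t i ∈ M.P t S := fun i => M.le_P t S (M.xA t i)
  by_cases hu : ∀ i, (M.x t i)⁻¹ ∈ S
  · exact hd.regP_none hreg (M.x0 t) hxP hu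
  push Not at hu
  obtain ⟨j, hj⟩ := hu
  obtain ⟨g, hg, hg0, hgen⟩ := hl
  have hjP : (M.x t j)⁻¹ ∉ M.P t S := (hd.inv_iff (hxP j)).1 hj
  obtain ⟨c, hc, e⟩ := hgen _ (hxP j) hjP
  have hg0' : g ≠ 0 := by
    rintro rfl
    apply M.x0 t j
    rw [e, mul_zero]
  have hgP : g⁻¹ ∉ M.P t S := hg0.resolve_left hg0'
  have hc0 : c ≠ 0 := by
    rintro rfl
    apply M.x0 t j
    rw [e, zero_mul]
  have h1 : c * g / M.x t j ∈ M.P t S := by
    rw [← e, div_self (M.x0 t j)]
    exact (M.P t S).one_mem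
  have h2 : g / M.x t j ∈ M.P t S := by
    rcases hp.prm t S j hS hj c hc g hg h1 with h3 | h3
    · exfalso
      apply hgP
      have e2 : g⁻¹ = c / M.x t j := by
        rw [e]
        field_simp
      rw [e2]
      exact h3
    · exact h3
  have hgen' : ∀ a ∈ M.P t S, a⁻¹ ∉ M.P t S → ∃ c ∈ M.P t S, a = c * M.x t j := by
    intro a ha ha'
    obtain ⟨d, hd1, e1⟩ := hgen a ha ha'
    refine ⟨d * (g / M.x t j), (M.P t S).mul_mem hd1 h2, ?_⟩
    rw [mul_assoc, div_mul_cancel₀ _ (M.x0 t j)]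
    exact e1
  refine hd.regP_single hreg (M.x0 t) hxP j hj hgen' ?_
  intro i hi
  by_contra hij
  obtain ⟨d, hd1, e1⟩ := hgen' _ (hxP i) ((hd.inv_iff (hxP i)).1 hi)
  apply hp.dist t S j i hS (Ne.symm hij) hj
  rw [e1, mul_div_assoc, div_self (M.x0 t j), mul_one]
  exact hd1

end pm

end Pool.Agent.N808.AS
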