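import Pool.Agent.N808.AS.Stm
import Pool.Agent.W973.TERM

/-!
Log resolution on arithmetic surfaces: from the initial state and the step to the resolution.
-/

set_option autoImplicit false
set_option linter.unusedVariables false
set_option linter.unusedSectionVars false

universe u

open Pool.Agent.W418.LU2 Pool.Agent.N98.T2 Pool.Agent.N98.RM Polynomial IsLocalRing

namespace Pool.Agent.N808.AS

section wf

variable {α : Type u} {r : α → α → Prop}

lemma wf_acc : WellFounded (fun a b => r a b ∧ Acc r b) := by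
  have key : ∀ a, Acc r a → Acc (fun a b => r a b ∧ Acc r b) a := by
    intro a ha
    induction ha with
    | intro a _ ih => exact Acc.intro a fun b hb => ih b hb.1
  refine ⟨fun a => Acc.intro a fun b hb => key b (hb.2.inv hb.1)⟩

end wf

/-- The states. -/
structure Sta (k K : Type u) [CommRing k] [Field K] [Algebra k K] where
  T : Type
  I : Type
  fT : Finite T
  fI : Fintype I
  M : PM k K T I
  b : I → Prop

variable {k K : Type u} [CommRing k] [Field K] [Algebra k K]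

/-- The bad points of a state. -/
def Sta.Bad (s : Sta k K) : Set (Subring K) := letI := s.fI; s.M.BadSet

/-- Boundary functions. -/
def Sta.Bf (s : Sta k K) (g : K) : Prop :=
  letI := s.fI; ∃ γ : s.I → ℤ, ∀ t, IsM (s.M.A t) (s.M.x t) g γ

/-- The state `s'` lies over `s`. -/
def Sta.le (s s' : Sta k K) : Prop :=
  (∃ π : s'.T → s.T, ∀ t, s.M.A (π t) ≤ s'.M.A t) ∧ ∀ g, s.Bf g → s'.Bf g

/-- The states of the resolution process. -/
def Sta.Ok {Γ : Type} [Fintype Γ] (Δ : K) (G : Γ → K) (s : Sta k K) : Prop :=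
  letI := s.fI; St Δ G s.M s.b

/-- The final state. -/
theorem exists_final [IsNoetherianRing k] (hSTEP : S_step.{u}) (hFIN : S_fin.{u}) {Γ : Type}
    [Fintype Γ] (Δ : K) (G : Γ → K) (s : Sta k K) (hs : s.Ok Δ G) :
    ∃ s' : Sta k K, s.le s' ∧ s'.Ok Δ G ∧ s'.Bad = ∅ := by
  refine Pool.Agent.W973.TERM.main (Sta k K) (Subring K) (Subring K) Sta.le Sta.Bad
    (fun _ a => a) (fun a b => rr Δ G a b ∧ Acc (rr Δ G) b) (fun s => s.Ok Δ G)
    ?_ ?_ wf_acc ?_ ?_ s hs
  · exact fun s => ⟨⟨id, fun _ => le_rfl⟩, fun _ h => h⟩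
  · rintro s s' s'' ⟨⟨π, h1⟩, h2⟩ ⟨⟨π', h1'⟩, h2'⟩
    exact ⟨⟨π ∘ π', fun t => (h1 _).trans (h1' t)⟩, fun g hg => h2' g (h2 g hg)⟩
  · rintro ⟨T, I, fT, fI, M, b⟩ hs
    exact (hFIN k K T I Γ Δ G M b hs.st0).1
  · rintro ⟨T, I, fT, fI, M, b⟩ hs P hP
    obtain ⟨T', I', fT', fI', M', b', π, h1, h2, h3, h4⟩ :=
      hSTEP k K T I Γ Δ G M b hs P hP
    refine ⟨⟨T', I', fT', fI', M', b'⟩, ⟨⟨π, h2⟩, h3⟩, h1, fun P' hP' => ?_⟩
    rcases h4 P' hP' with ⟨h5, h6⟩ | h5
    · exact Or.inl ⟨h5, h6, rfl⟩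
    · exact Or.inr ⟨h5, hs.acc P hP⟩

/-- The model without bad points. -/
theorem exists_lm {T I : Type} [Fintype I] (M : PM k K T I) (hM : M.BadSet = ∅) :
    ∃ M' : LM (⊥ : Subalgebra k K) ⊤ T I, M'.A = M.A ∧ M'.x = M.x := by
  have hreg : ∀ t S, M.On t S → RegP S (M.P t S) (M.x t) := by
    intro t S hS
    by_contra h
    have h1 : M.P t S ∈ M.BadSet := ⟨t, S, hS, rfl, h⟩
    rw [hM] at h1
    exact h1
  exact ⟨{
    A := M.A
    H := M.H
    x := M.x
    ft := M.ft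
    base := fun t => bot_le
    H0 := M.H0
    HR := fun t => Algebra.mem_top
    rt := M.rt
    gl := M.gl
    dn := fun t f hf => ⟨0, Algebra.mem_top⟩
    cv := fun V hV => M.cv V fun a => hV _ (Subalgebra.algebraMap_mem _ a)
    xA := M.xA
    x0 := M.x0
    gi := M.gi
    rg := fun t => ⟨M.x0 t, M.xA t, fun W hW hAW ι _ f hf =>
      regP_comp (hreg t W ⟨hW, hAW⟩) f hf⟩ }, rfl, rfl⟩

/-- Log resolution from the initial states. -/
theorem hasRM_of [IsNoetherianRing k] (hSTEP : S_step.{u}) (hFIN : S_fin.{u})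
    (h0 : ∀ (H : Type) [Finite H] (h : H → K), (∀ a, h a ≠ 0) → HasState k K H h) :
    HasRM k K := by
  intro H _ h hh
  obtain ⟨T, I, Γ, fT, fI, fΓ, Δ, G, M, b, h1, h2, h3⟩ := h0 H h hh
  obtain ⟨⟨T', I', fT', fI', M', b'⟩, ⟨⟨π, hπ⟩, h4⟩, h5, h6⟩ :=
    exists_final hSTEP hFIN Δ G ⟨T, I, fT, fI, M, b⟩ h1
  obtain ⟨L, hA, hx⟩ := exists_lm M' h6
  refine ⟨T', I', fT', fI', L, fun a => ?_, fun t y => ?_⟩
  · obtain ⟨γ, hγ⟩ := h4 (h a) (h2 a)
    refine ⟨γ, fun t => ?_⟩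
    rw [hA, hx]
    exact hγ t
  · obtain ⟨c, hc, d, hd, hd0, e⟩ := h3 (π t) y
    rw [hA]
    exact ⟨c, hπ t hc, d, hπ t hd, hd0, e⟩

/-- Rational function fields in one variable over Dedekind domains. -/
theorem hasRM_p1 (hSTEP : S_step.{u}) (hFIN : S_fin.{u}) (hINIT : S_init.{u})
    (O F K : Type u) [CommRing O] [IsDedekindDomain O] [Field F] [CharZero F]
    [Algebra O F] [IsFractionRing O F] [Field K] [Algebra F K] [Algebra O K]
    [IsScalarTower O F K] (z : K) (hz : Transcendental F z)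
    (hz' : IntermediateField.adjoin F {z} = ⊤) : HasRM O K :=
  hasRM_of hSTEP hFIN fun H _ h hh => hINIT O F K z hz hz' H h hh

end Pool.Agent.N808.AS
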