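import Pool.Agent.N808.AS.GSTEP
import Pool.Agent.N808.AS.MAIN

/-!
Log resolution on regular arithmetic surfaces, the general case: from the initial state and the step
to the resolution.
-/

set_option autoImplicit false
set_option linter.unusedVariables false
set_option linter.unusedSectionVars false

universe u

open Pool.Agent.W418.LU2 Pool.Agent.N98.T2 Pool.Agent.N98.RM Polynomial IsLocalRing

namespace Pool.Agent.N808.AS

variable {k K : Type u} [CommRing k] [Field K] [Algebra k K]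

/-- The states of the resolution process. -/
def Sta.GOk {Γ : Type} [Fintype Γ] (Δ : K) (G : Γ → K) (s : Sta k K) : Prop :=
  letI := s.fI; GSt Δ G s.M s.b

/-- The final state. -/
theorem exists_gfinal [IsNoetherianRing k] (hSTEP : S_gstep.{u}) {Γ : Type}
    [Fintype Γ] (Δ : K) (G : Γ → K) (s : Sta k K) (hs : s.GOk Δ G) :
    ∃ s' : Sta k K, s.le s' ∧ s'.GOk Δ G ∧ s'.Bad = ∅ := by
  refine Pool.Agent.W973.TERM.main (Sta k K) (Subring K) (Subring K) Sta.le Sta.Bad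
    (fun _ a => a) (fun a b => rr Δ G a b ∧ Acc (rr Δ G) b) (fun s => s.GOk Δ G)
    ?_ ?_ wf_acc ?_ ?_ s hs
  · exact fun s => ⟨⟨id, fun _ => le_rfl⟩, fun _ h => h⟩
  · rintro s s' s'' ⟨⟨π, h1⟩, h2⟩ ⟨⟨π', h1'⟩, h2'⟩
    exact ⟨⟨π ∘ π', fun t => (h1 _).trans (h1' t)⟩, fun g hg => h2' g (h2 g hg)⟩
  · rintro ⟨T, I, fT, fI, M, b⟩ hs
    exact hs.gs.fin
  · rintro ⟨T, I, fT, fI, M, b⟩ hs P hP
    obtain ⟨T', I', fT', fI', M', b', π, h1, h2, h3, h4⟩ :=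
      hSTEP k K T I Γ Δ G M b hs P hP
    refine ⟨⟨T', I', fT', fI', M', b'⟩, ⟨⟨π, h2⟩, h3⟩, h1, fun P' hP' => ?_⟩
    rcases h4 P' hP' with ⟨h5, h6⟩ | h5
    · exact Or.inl ⟨h5, h6, rfl⟩
    · exact Or.inr ⟨h5, hs.acc P hP⟩

/-- Initial states. -/
def HasGState (k K : Type u) [CommRing k] [Field K] [Algebra k K] (H : Type) (h : H → K) : Prop :=
  ∃ (T I Γ : Type) (_ : Finite T) (_ : Fintype I) (_ : Fintype Γ) (Δ : K) (G : Γ → K)
    (M : PM k K T I) (b : I → Prop), GSt Δ G M b ∧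
    (∀ a, ∃ γ : I → ℤ, ∀ t, IsM (M.A t) (M.x t) (h a) γ) ∧
    ∀ t (y : K), ∃ c ∈ M.A t, ∃ d ∈ M.A t, d ≠ 0 ∧ y = c * d⁻¹

/-- Log resolution from the initial states. -/
theorem hasRM_of_gstate [IsNoetherianRing k] (hSTEP : S_gstep.{u})
    (h0 : ∀ (H : Type) [Finite H] (h : H → K), (∀ a, h a ≠ 0) → HasGState k K H h) :
    HasRM k K := by
  intro H _ h hh
  obtain ⟨T, I, Γ, fT, fI, fΓ, Δ, G, M, b, h1, h2, h3⟩ := h0 H h hh
  obtain ⟨⟨T', I', fT', fI', M', b'⟩, ⟨⟨π, hπ⟩, h4⟩, h5, h6⟩ :=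
    exists_gfinal hSTEP Δ G ⟨T, I, fT, fI, M, b⟩ h1
  obtain ⟨L, hA, hx⟩ := exists_lm M' h6
  refine ⟨T', I', fT', fI', L, fun a => ?_, fun t y => ?_⟩
  · obtain ⟨γ, hγ⟩ := h4 (h a) (h2 a)
    refine ⟨γ, fun t => ?_⟩
    rw [hA, hx]
    exact hγ t
  · obtain ⟨c, hc, d, hd, hd0, e⟩ := h3 (π t) y
    rw [hA]
    exact ⟨c, hπ t hc, d, hπ t hd, hd0, e⟩

end Pool.Agent.N808.AS
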