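import Pool.Agent.N808.AS.Stm
import Pool.Agent.N98.RM.Tor

/-!
Log resolution on arithmetic surfaces: statements of the parts of the initial state.
-/

set_option autoImplicit false
set_option linter.unusedVariables false
set_option linter.unusedSectionVars false

universe u

open Pool.Agent.W418.LU2 Pool.Agent.N98.T2 Pool.Agent.N98.RM Polynomial

namespace Pool.Agent.N808.AS

section cw

variable {O F K : Type u} [CommRing O] [Field F] [Field K] [Algebra O F] [Algebra O K]
  [Algebra F K] [IsScalarTower O F K]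

/-- The ring `R[w]`, for `R` a subalgebra of `F`. -/
noncomputable def Cw (R : Subalgebra O F) (w : K) : Subalgebra O K := adj (R.map (Pool.Agent.N98.RM.em O F K)) w

lemma Cw_const (R : Subalgebra O F) (w : K) {a : F} (ha : a ∈ R) : algebraMap F K a ∈ Cw R w :=
  le_adj _ _ ⟨a, ha, rfl⟩

lemma Cw_self (R : Subalgebra O F) (w : K) : w ∈ Cw R w := self_mem_adj _ _

lemma mem_Cw (R : Subalgebra O F) (w : K) {a : K} :
    a ∈ Cw R w ↔ ∃ f : F[X], (∀ l, f.coeff l ∈ R) ∧ aeval w f = a := by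
  constructor
  · intro ha
    refine adj_induction _ _ (p := fun a => ∃ f : F[X], (∀ l, f.coeff l ∈ R) ∧ aeval w f = a)
      ?_ ?_ ?_ a ha
    · rintro _ ⟨a, ha, rfl⟩
      refine ⟨C a, fun l => ?_, aeval_C _ _⟩
      rw [coeff_C]
      split_ifs
      · exact ha
      · exact R.zero_mem
    · rintro _ _ ⟨f, hf, rfl⟩ ⟨g, hg, rfl⟩
      exact ⟨f + g, fun l => by rw [coeff_add]; exact R.add_mem (hf l) (hg l), map_add _ _ _⟩
    · rintro _ ⟨f, hf, rfl⟩
      refine ⟨f * X, fun l => ?_, by rw [map_mul, aeval_X]⟩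
      rcases l with _ | l
      · rw [mul_coeff_zero, coeff_X_zero, mul_zero]
        exact R.zero_mem
      · rw [coeff_mul_X]
        exact hf l
  · rintro ⟨f, hf, rfl⟩
    rw [aeval_eq_sum_range]
    refine Subalgebra.sum_mem _ fun l _ => ?_
    rw [Algebra.smul_def]
    exact Subalgebra.mul_mem _ (Cw_const R w (hf l)) (Subalgebra.pow_mem _ (Cw_self R w) _)

end cw

/-- TWO: the points on a curve and on a vertical divisor are two-dimensional. -/
def S_two : Prop := ∀ (O F K : Type u) [CommRing O] [Field F] [Field K] [Algebra O F]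
  [Algebra O K] [Algebra F K] [IsScalarTower O F K] (w : K), Transcendental F w →
  ∀ (R : Subalgebra O F), IsNoetherianRing R → ∀ (S : Subring K), Loc S →
  (Cw R w : Subalgebra O K).toSubring ≤ S → ∀ π ∈ R, π ≠ 0 → (algebraMap F K π)⁻¹ ∉ S →
  (∀ a ∈ R, (algebraMap F K a)⁻¹ ∉ S → a / π ∈ R) →
  (∀ a ∈ R, a / π ∉ R → ∃ c ∈ R, ∃ d ∈ R, a * c + π * d = 1) →
  ∀ f : F[X], (∀ l, f.coeff l ∈ R) → (∃ l, f.coeff l / π ∉ R) → (aeval w f)⁻¹ ∉ S →
  ∃ V y, Par V (lo S (Cw R w : Subalgebra O K).toSubring) (algebraMap F K π) y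

/-- HFIN: the curves through the points have finite normalization. -/
def S_hfin : Prop := ∀ (O F K : Type u) [CommRing O] [IsDedekindDomain O] [Field F] [CharZero F]
  [Algebra O F] [IsFractionRing O F] [Field K] [Algebra F K] [Algebra O K] [IsScalarTower O F K]
  (w : K), Transcendental F w → ∀ (R : Subalgebra O F) (S : Subring K), Loc S →
  (Cw R w : Subalgebra O K).toSubring ≤ S → ∀ π ∈ R, ∀ (V : ValuationSubring K) (y : K),
  Par V (lo S (Cw R w : Subalgebra O K).toSubring) (algebraMap F K π) y →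
  ∀ (𝔭 : Ideal (lo S (Cw R w : Subalgebra O K).toSubring)) [𝔭.IsPrime], 𝔭 ≠ ⊥ →
  Module.Finite (lo S (Cw R w : Subalgebra O K).toSubring ⧸ 𝔭)
    (integralClosure (lo S (Cw R w : Subalgebra O K).toSubring ⧸ 𝔭)
      (FractionRing (lo S (Cw R w : Subalgebra O K).toSubring ⧸ 𝔭)))

/-- ETD: functions with an etale zero divisor. -/
def S_etd : Prop := ∀ (K : Type u) [Field K] (A S : Subring K), Loc S → A ≤ S →
  IsRegularLocalRing (lo S A) → ∀ D : Derivation ℤ K K, (∀ a ∈ A, D a ∈ A) →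
  ∀ (ι : Type) [Fintype ι] (x : ι → K), (∀ i, x i ≠ 0) → (∀ i, x i ∈ A) →
  (∃ U ∈ lo S A, ∃ W ∈ lo S A, U * ∏ i, x i + W * D (∏ i, x i) = 1) → RegP S (lo S A) x

/-- ADDF: adding a family of divisors to a model. -/
def S_addf : Prop := ∀ (k K : Type u) [CommRing k] [Field K] [Algebra k K] (T I J : Type)
  [Finite T] [Fintype I] [Finite J] (M : LM (⊥ : Subalgebra k K) ⊤ T I) (g : J → K)
  (c : J → I → ℤ), (∀ j, g j ≠ 0) → (∀ t j, g j * ∏ i, M.x t i ^ c j i ∈ M.A t) →
  ∃ M' : PM k K T (I ⊕ J), M'.A = M.A ∧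
    M'.x = fun t => Sum.elim (M.x t) (fun j => g j * ∏ i, M.x t i ^ c j i)

end Pool.Agent.N808.AS
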