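import Pool.Agent.N808.AS.GINA
import Pool.Agent.N808.AS.GMAIN
import Pool.Agent.N808.AS.Stm2

/-!
Log resolution on regular arithmetic surfaces, the general case: the initial state.
-/

set_option autoImplicit false
set_option linter.unusedVariables false
set_option linter.unusedSectionVars false

universe u

open Pool.Agent.W418.LU2 Pool.Agent.N98.T2 Pool.Agent.N98.RM Polynomial IsLocalRing

namespace Pool.Agent.N808.AS

section fin

variable {k K : Type u} [CommRing k] [IsNoetherianRing k] [Field K] [Algebra k K] {T J : Type}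
  {M : PM k K T J}

/-- Finiteness of the points at which the divisor has not normal crossings. -/
theorem Prd.fin [Finite T] [Fintype J] (hGFIN : S_gfin.{u}) (hSNG : S_sng.{u}) (hp : Prd M)
    (hd : ∀ t S, M.On t S → (∃ V x y, Par V (M.P t S) x y) ∨ Lw (M.P t S))
    (hn : ∀ t (𝔭 : Ideal (M.A t).toSubring) [𝔭.IsPrime], 𝔭 ≠ ⊥ →
      Module.Finite ((M.A t).toSubring ⧸ 𝔭)
        (integralClosure ((M.A t).toSubring ⧸ 𝔭) (FractionRing ((M.A t).toSubring ⧸ 𝔭)))) :
    M.BadSet.Finite := by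
  classical
  let D : T → J → J → Set (Subring K) := fun t i j =>
    if i = j then ∅ else {P | ∃ S, Loc S ∧ (M.A t).toSubring ≤ S ∧ (M.x t i)⁻¹ ∉ S ∧
      (M.x t j)⁻¹ ∉ S ∧ P = lo S (M.A t).toSubring}
  let E : T → J → Set (Subring K) := fun t j =>
    {P | ∃ S, Loc S ∧ (M.A t).toSubring ≤ S ∧ (M.x t j)⁻¹ ∉ S ∧ P = lo S (M.A t).toSubring ∧
      (∃ V x y, Par V P x y) ∧ ¬ RegP S P (fun _ : Unit => M.x t j)}
  have hD : ∀ t i j, (D t i j).Finite := by
    intro t i j
    by_cases hij : i = j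
    · change (if i = j then (∅ : Set (Subring K)) else _).Finite
      rw [if_pos hij]
      exact Set.finite_empty
    · change (if i = j then (∅ : Set (Subring K)) else _).Finite
      rw [if_neg hij]
      refine hGFIN K (M.A t).toSubring (M.noethA t) _ (M.xA t i) _ (M.xA t j) ?_
      intro S hS hAS hi hj
      have hon : M.On t S := ⟨hS, hAS⟩
      refine ⟨?_, ?_, ?_⟩
      · rcases hd t S hon with h1 | h1
        · exact h1
        · exfalso
          have h2 := hp.one hon h1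
          obtain ⟨g, hg, hg0, hgen⟩ := h1
          have hxP : ∀ i, M.x t i ∈ M.P t S := fun i => M.le_P t S (M.xA t i)
          have hdm := M.dom hon
          have hiP : (M.x t i)⁻¹ ∉ M.P t S := (hdm.inv_iff (hxP i)).1 hi
          have hjP : (M.x t j)⁻¹ ∉ M.P t S := (hdm.inv_iff (hxP j)).1 hj
          obtain ⟨c, hc, e⟩ := hgen _ (hxP i) hiP
          obtain ⟨c', hc', e'⟩ := hgen _ (hxP j) hjP
          have hg0' : g ≠ 0 := by
            rintro rfl
            apply M.x0 t i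
            rw [e, mul_zero]
          have hc0 : c ≠ 0 := by
            rintro rfl
            apply M.x0 t i
            rw [e, zero_mul]
          have hgP : g⁻¹ ∉ M.P t S := hg0.resolve_left hg0'
          have h3 : c * g / M.x t i ∈ M.P t S := by
            rw [← e, div_self (M.x0 t i)]
            exact (M.P t S).one_mem
          rcases hp.prm t S i hon hi c hc g hg h3 with h4 | h4
          · apply hgP
            have e2 : g⁻¹ = c / M.x t i := by
              rw [e]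
              field_simp
            rw [e2]
            exact h4
          · apply hp.dist t S i j hon hij hi
            rw [e', mul_div_assoc]
            exact (M.P t S).mul_mem hc' h4
      · intro a ha c hc e
        have ha0 : a ≠ 0 := by
          rintro rfl
          apply M.x0 t i
          rw [e, zero_mul]
        have hc0 : c ≠ 0 := by
          rintro rfl
          apply M.x0 t i
          rw [e, mul_zero]
        have h3 : a * c / M.x t i ∈ M.P t S := by
          rw [← e, div_self (M.x0 t i)]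
          exact (M.P t S).one_mem
        rcases hp.prm t S i hon hi a ha c hc h3 with h4 | h4
        · right
          have e2 : c⁻¹ = a / M.x t i := by
            rw [e]
            field_simp
          rw [e2]
          exact M.P_le hon h4
        · left
          have e2 : a⁻¹ = c / M.x t i := by
            rw [e]
            field_simp
          rw [e2]
          exact M.P_le hon h4
      · exact hp.dist t S i j hon hij hi
  have hE : ∀ t j, (E t j).Finite := by
    intro t j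
    refine hSNG K (M.A t).toSubring (M.noethA t) _ (M.xA t j) (M.x0 t j) ?_ ?_
    · intro S hS hAS hj
      exact hp.prm t S j ⟨hS, hAS⟩ hj
    · intro 𝔭 _ h𝔭
      exact hn t 𝔭 h𝔭
  have hfin : ((⋃ t, ⋃ i, ⋃ j, D t i j) ∪ ⋃ t, ⋃ j, E t j).Finite :=
    (Set.finite_iUnion fun t => Set.finite_iUnion fun i => Set.finite_iUnion fun j =>
      hD t i j).union (Set.finite_iUnion fun t => Set.finite_iUnion fun j => hE t j)
  refine hfin.subset ?_
  rintro _ ⟨t, S, hS, rfl, hb⟩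
  have hdm := M.dom hS
  have hreg := M.regular hS (hd t S hS)
  have hxP : ∀ i, M.x t i ∈ M.P t S := fun i => M.le_P t S (M.xA t i)
  by_cases hu : ∀ i, (M.x t i)⁻¹ ∈ S
  · exact absurd (hdm.regP_none hreg (M.x0 t) hxP hu) hb
  push Not at hu
  obtain ⟨i, hi⟩ := hu
  by_cases hj : ∃ j, j ≠ i ∧ (M.x t j)⁻¹ ∉ S
  · left
    obtain ⟨j, hji, hj⟩ := hj
    refine Set.mem_iUnion.2 ⟨t, Set.mem_iUnion.2 ⟨i, Set.mem_iUnion.2 ⟨j, ?_⟩⟩⟩
    change _ ∈ (if i = j then (∅ : Set (Subring K)) else _)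
    rw [if_neg (Ne.symm hji)]
    exact ⟨S, hS.1, hS.2, hi, hj, rfl⟩
  · right
    push Not at hj
    refine Set.mem_iUnion.2 ⟨t, Set.mem_iUnion.2 ⟨i, S, hS.1, hS.2, hi, rfl, ?_, fun h1 => ?_⟩⟩
    · rcases hd t S hS with h1 | h1
      · exact h1
      · exact absurd (hp.one hS h1) hb
    · apply hb
      refine regP_reindex h1 (M.x t) (M.x0 t) hxP (fun _ => ()) ?_ ?_
      · rintro ⟨a, ha⟩ ⟨c, hc⟩ -
        have ha' : a = i := by
          by_contra h2
          exact ha (hj a h2)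
        have hc' : c = i := by
          by_contra h2
          exact hc (hj c h2)
        exact Subtype.ext (ha'.trans hc'.symm)
      · rintro ⟨a, ha⟩
        have ha' : a = i := by
          by_contra h2
          exact ha (hj a h2)
        exact congrArg (M.x t) ha'

end fin

section init

variable {O F K : Type u} [CommRing O] [IsDedekindDomain O] [Field F] [CharZero F]
  [Algebra O F] [IsFractionRing O F] [Field K] [Algebra F K] [Algebra O K] [IsScalarTower O F K]
  {T T0 J : Type} [Finite T] [Fintype J]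

/-- The initial state. -/
theorem Prd.state (hGFIN : S_gfin.{u}) (hSNG : S_sng.{u}) (hDLE : S_dle.{u}) (hNRM : S_nrm.{u})
    (hNRL : S_nrl.{u}) (hPFO : S_pfo.{u}) (hACC : S_acc.{u})
    (hfin : ∀ 𝔮 : Ideal O, 𝔮.IsMaximal → Finite (O ⧸ 𝔮)) (htr : Algebra.trdeg F K ≤ 1)
    {M : PM O K T J} (hp : Prd M)
    (hd : ∀ t S, M.On t S → (∃ V x y, Par V (M.P t S) x y) ∨ Lw (M.P t S))
    (hfr : ∀ t (y : K), ∃ c ∈ M.A t, ∃ d ∈ M.A t, d ≠ 0 ∧ y = c * d⁻¹) :
    ∃ (Γ : Type) (_ : Fintype Γ) (Δ : K) (G : Γ → K), GSt Δ G M (fun _ => False) := by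
  classical
  have hn : ∀ t (𝔭 : Ideal (M.A t).toSubring) [𝔭.IsPrime], 𝔭 ≠ ⊥ →
      Module.Finite ((M.A t).toSubring ⧸ 𝔭)
        (integralClosure ((M.A t).toSubring ⧸ 𝔭) (FractionRing ((M.A t).toSubring ⧸ 𝔭))) := by
    intro t 𝔭 _ h𝔭
    refine hNRM O F K hfin htr (M.A t) (M.ft t) 𝔭 h𝔭 ?_
    exact hDLE K (M.A t).toSubring (M.noethA t) (fun S hS hAS => hd t S ⟨hS, hAS⟩) 𝔭 h𝔭
  have hB := hp.fin hGFIN hSNG hd hn
  have hpar : ∀ P ∈ M.BadSet, ∃ V x y, Par V P x y := by
    rintro _ ⟨t, S, hS, rfl, hb⟩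
    rcases hd t S hS with h1 | h1
    · exact h1
    · exact absurd (hp.one hS h1) hb
  have hOP : ∀ P ∈ M.BadSet, ∀ a : O, algebraMap O K a ∈ P := by
    rintro _ ⟨t, S, hS, rfl, hb⟩ a
    exact M.le_P t S ((M.A t).algebraMap_mem a)
  have h1 : ∀ P ∈ M.BadSet, ∃ a : O, a ≠ 0 ∧ (algebraMap O K a)⁻¹ ∉ P := by
    intro P hP
    obtain ⟨V, x, y, h⟩ := hpar P hP
    exact hPFO O F K htr V P x y h (hOP P hP)
  let δ : Subring K → O := fun P => if h : P ∈ M.BadSet then (h1 P h).choose else 1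
  have hδ0 : ∀ P, δ P ≠ 0 := by
    intro P
    change (if h : P ∈ M.BadSet then (h1 P h).choose else 1) ≠ 0
    split_ifs with h
    · exact (h1 P h).choose_spec.1
    · exact one_ne_zero
  have hδ : ∀ P ∈ M.BadSet, (algebraMap O K (δ P))⁻¹ ∉ P := by
    intro P h
    have e : δ P = (h1 P h).choose := dif_pos h
    rw [e]
    exact (h1 P h).choose_spec.2
  have hinj : Function.Injective (algebraMap O K) := by
    rw [IsScalarTower.algebraMap_eq O F K]
    exact (algebraMap F K).injective.comp (IsFractionRing.injective O F)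
  have hK0 : ∀ a : O, a ≠ 0 → algebraMap O K a ≠ 0 := fun a ha h =>
    ha (hinj (h.trans (map_zero _).symm))
  let Δ : K := algebraMap O K (∏ P ∈ hB.toFinset, δ P)
  have hΔ0 : Δ ≠ 0 := hK0 _ (Finset.prod_ne_zero_iff.2 fun P _ => hδ0 P)
  have hΔ : ∀ P ∈ M.BadSet, Δ⁻¹ ∉ P := by
    intro P hP h2
    apply hδ P hP
    have e : ∏ Q ∈ hB.toFinset, δ Q = δ P * ∏ Q ∈ hB.toFinset.erase P, δ Q :=
      (Finset.mul_prod_erase _ _ (hB.mem_toFinset.2 hP)).symm
    have e2 : (algebraMap O K (δ P))⁻¹ =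
        algebraMap O K (∏ Q ∈ hB.toFinset.erase P, δ Q) * Δ⁻¹ := by
      change _ = _ * (algebraMap O K (∏ Q ∈ hB.toFinset, δ Q))⁻¹
      rw [e, map_mul]
      have h3 := hK0 _ (hδ0 P)
      have h4 := hK0 (∏ Q ∈ hB.toFinset.erase P, δ Q)
        (Finset.prod_ne_zero_iff.2 fun Q _ => hδ0 Q)
      field_simp
    rw [e2]
    exact P.mul_mem (hOP P hP _) h2
  have : Fintype T := Fintype.ofFinite T
  let G : T × J → K := fun a => M.x a.1 a.2
  refine ⟨T × J, inferInstance, Δ, G, ?_, ?_⟩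
  · refine
    { reg := ?_
      dm := hd
      one := fun t S hS h => hp.one hS h
      hv := fun t S hS i j hi => hi.elim
      out := ?_
      dA := fun t => (M.A t).algebraMap_mem _
      dv := fun t i hi => hi.elim
      mon := ?_
      fin := hB }
    · intro t
      refine ⟨fun i => i.2.elim, fun i => i.2.elim, fun W hW hAW ι _ f hf => ?_⟩
      exact (M.dom ⟨hW, hAW⟩).regP_none (M.regular ⟨hW, hAW⟩ (hd t W ⟨hW, hAW⟩))
        (fun i => (f i).2.elim) (fun i => (f i).2.elim) (fun i => (f i).2.elim)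
    · intro t S hS h2
      by_contra hb
      have hP : M.P t S ∈ M.BadSet := ⟨t, S, hS, rfl, hb⟩
      exact hΔ _ hP ((M.dom hS).inv _ (M.le_P t S ((M.A t).algebraMap_mem _)) hΔ0 h2)
    · intro t j _
      refine ⟨Pi.single (t, j) 1, 0, fun i _ => rfl, ?_⟩
      have e1 : ∏ i, M.x t i ^ (0 : J → ℤ) i = 1 :=
        Finset.prod_eq_one fun i _ => zpow_zero _
      rw [e1, mul_one, Finset.prod_eq_single (t, j)]
      · rw [Pi.single_eq_same, zpow_one]
      · intro a _ ha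
        rw [Pi.single_eq_of_ne ha, zpow_zero]
      · intro h2
        exact absurd (Finset.mem_univ _) h2
  · rintro _ ⟨t, S, hS, rfl, hb⟩
    refine hACC K (T × J) Δ G hΔ0 (fun a => M.x0 _ _) (M.P t S) (M.noethP hS) ?_ ?_
    · refine IsFractionRing.of_field _ K fun y => ?_
      obtain ⟨c, hc, d, hd, hd0, e⟩ := hfr t y
      exact ⟨⟨c, M.le_P t S hc⟩, ⟨d, M.le_P t S hd⟩, by
        rw [e, div_eq_mul_inv]
        rfl⟩
    · intro 𝔭 h𝔭p h𝔭
      exact @hNRL K _ (M.A t).toSubring S hS.1 hS.2 (fun 𝔮 _ h𝔮 => hn t 𝔮 h𝔮) 𝔭 h𝔭p h𝔭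

/-- The initial state on the model obtained from a regular surface. -/
theorem hasGState_of (hPRD : S_prd.{u}) (hGFIN : S_gfin.{u}) (hSNG : S_sng.{u})
    (hDLE : S_dle.{u}) (hNRM : S_nrm.{u}) (hNRL : S_nrl.{u}) (hPFO : S_pfo.{u})
    (hACC : S_acc.{u}) (hfin : ∀ 𝔮 : Ideal O, 𝔮.IsMaximal → Finite (O ⧸ 𝔮))
    (htr : Algebra.trdeg F K ≤ 1) (M : PM O K T Empty)
    (hd : ∀ t S, M.On t S → (∃ V x y, Par V (M.P t S) x y) ∨ Lw (M.P t S))
    (hfr : ∀ t (y : K), ∃ c ∈ M.A t, ∃ d ∈ M.A t, d ≠ 0 ∧ y = c * d⁻¹)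
    (H : Type) [Finite H] (h : H → K) (hh : ∀ a, h a ≠ 0) : HasGState O K H h := by
  obtain ⟨T', J', hT', hJ', M', π, h1, h2, hp, h3⟩ := hPRD O K T M hd hfr H h hh
  have hd' : ∀ t S, M'.On t S → (∃ V x y, Par V (M'.P t S) x y) ∨ Lw (M'.P t S) := by
    intro t S hS
    rw [h2 t S hS]
    exact hd _ S ⟨hS.1, fun a ha => hS.2 (h1 t ha)⟩
  have hfr' : ∀ t (y : K), ∃ c ∈ M'.A t, ∃ d ∈ M'.A t, d ≠ 0 ∧ y = c * d⁻¹ := by
    intro t y
    obtain ⟨c, hc, d, hd, hd0, e⟩ := hfr (π t) y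
    exact ⟨c, h1 t hc, d, h1 t hd, hd0, e⟩
  obtain ⟨Γ, hΓ, Δ, G, hs⟩ := hp.state hGFIN hSNG hDLE hNRM hNRL hPFO hACC hfin htr hd' hfr'
  exact ⟨T', J', Γ, hT', hJ', hΓ, Δ, G, M', fun _ => False, hs, h3, hfr'⟩

/-- Log resolution on regular arithmetic surfaces. -/
theorem hasRM_of_surface (hSTEP : S_gstep.{u}) (hPRD : S_prd.{u}) (hGFIN : S_gfin.{u})
    (hSNG : S_sng.{u}) (hDLE : S_dle.{u}) (hNRM : S_nrm.{u}) (hNRL : S_nrl.{u})
    (hPFO : S_pfo.{u}) (hACC : S_acc.{u})
    (hfin : ∀ 𝔮 : Ideal O, 𝔮.IsMaximal → Finite (O ⧸ 𝔮))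
    (htr : Algebra.trdeg F K ≤ 1) (M : PM O K T Empty)
    (hd : ∀ t S, M.On t S → (∃ V x y, Par V (M.P t S) x y) ∨ Lw (M.P t S))
    (hfr : ∀ t (y : K), ∃ c ∈ M.A t, ∃ d ∈ M.A t, d ≠ 0 ∧ y = c * d⁻¹) : HasRM O K :=
  hasRM_of_gstate hSTEP fun H _ h hh =>
    hasGState_of hPRD hGFIN hSNG hDLE hNRM hNRL hPFO hACC hfin htr M hd hfr H h hh

end init

end Pool.Agent.N808.AS
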