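import Pool.Agent.N808.AS.GStm

/-!
Log resolution on regular arithmetic surfaces, the general case: a statement on dimensions.
-/

set_option autoImplicit false

universe u

namespace Pool.Agent.N808.AS

/-- KDIM: rings between a Dedekind domain `O` and an extension of its fraction field of
transcendence degree at most one have dimension at most two. -/
def S_kdim : Prop := ∀ (O F K : Type u) [CommRing O] [IsDedekindDomain O] [Field F]
  [Algebra O F] [IsFractionRing O F] [Field K] [Algebra F K] [Algebra O K] [IsScalarTower O F K],
  Algebra.trdeg F K ≤ 1 → ∀ A : Subalgebra O K, ringKrullDim A ≤ 2

end Pool.Agent.N808.AS
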