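import Pool.Agent.N808.AS.GKDA
import Pool.Agent.N808.AS.GStm2

/-!
Log resolution on regular arithmetic surfaces, KDIM (helper547); the proof is in `GKDA.lean`.
-/

set_option autoImplicit false

universe u

namespace Pool.Agent.N808.AS

/-- **KDIM.** -/
theorem t_KDIM : S_kdim.{u} := by
  intro O F K _ _ _ _ _ _ _ _ _ htr A
  exact GKD_.kdim O F K htr A

end Pool.Agent.N808.AS
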