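import Mathlib

/-!
Log resolution on regular arithmetic surfaces, KDIM: rings between a Dedekind domain and an
extension of its fraction field of transcendence degree at most one have dimension at most two
(helper547). The proof uses only relations with coefficients in the Dedekind domain: for a prime
`P` of the ring, any `n` elements are dependent modulo `P` (`Dn n P`). If this holds for `P` and
`n + 1`, then for `n` and every larger prime with the same contraction; it passes to all larger
primes; and it does not hold for `n = 0`. In a chain of primes the contraction changes at most once.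
-/

set_option autoImplicit false

universe u

namespace Pool.Agent.N808.AS

namespace GKD_

open MvPolynomial

section prim

variable {O : Type u} [CommRing O] [IsDedekindDomain O]

/-- a family of elements, not all zero, can be divided so that not all of its members are in the
prime ideal `q` -/
theorem prim {ι : Type} (x : ι → O) (hx : ∃ i, x i ≠ 0) (q : Ideal O) (hq : q ≠ ⊤) :
    ∃ c j : O, c ≠ 0 ∧ (∀ i, c ∣ j * x i) ∧ ∃ i, ∀ y, j * x i = c * y → y ∉ q := by
  obtain ⟨i₀, hi₀⟩ := hx
  set I : Ideal O := Ideal.span (Set.range x) with hI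
  have hc : x i₀ ∈ I := Ideal.subset_span ⟨i₀, rfl⟩
  obtain ⟨J, hJ⟩ := (Ideal.dvd_span_singleton (I := I) (x := x i₀)).mpr hc
  have h1 : ¬ I * J ≤ Ideal.span {x i₀} * q := by
    rw [← hJ]
    intro h
    have h2 := h (Ideal.mem_span_singleton_self (x i₀))
    rw [Ideal.mem_span_singleton_mul] at h2
    obtain ⟨z, hz, hz'⟩ := h2
    have h3 : z = 1 := by
      apply mul_left_cancel₀ hi₀
      rw [hz', mul_one]
    exact hq ((Ideal.eq_top_iff_one q).mpr (h3 ▸ hz))
  have h2 : ∃ j ∈ J, ∃ i, j * x i ∉ Ideal.span {x i₀} * q := by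
    by_contra hcon
    push Not at hcon
    apply h1
    rw [Ideal.mul_le]
    intro a ha b hb
    rw [hI] at ha
    induction ha using Submodule.span_induction with
    | mem a ha =>
      obtain ⟨i, rfl⟩ := ha
      rw [mul_comm (x i) b]
      exact hcon b hb i
    | zero => rw [zero_mul]; exact zero_mem _
    | add a a' _ _ h h' => rw [add_mul]; exact add_mem h h'
    | smul r a _ h =>
      rw [smul_eq_mul, mul_assoc]
      exact Ideal.mul_mem_left _ r h
  obtain ⟨j, hj, i, hji⟩ := h2
  refine ⟨x i₀, j, hi₀, fun i' => ?_, i, fun y hy hyq => hji ?_⟩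
  · rw [← Ideal.mem_span_singleton, hJ, mul_comm j (x i')]
    exact Ideal.mul_mem_mul (Ideal.subset_span ⟨i', rfl⟩) hj
  · rw [hy]
    exact Ideal.mul_mem_mul (Ideal.mem_span_singleton_self _) hyq

/-- the same for the coefficients of a polynomial -/
theorem prim_poly {σ : Type} (f : MvPolynomial σ O) (hf : f ≠ 0) (q : Ideal O) (hq : q ≠ ⊤) :
    ∃ (c j : O) (g : MvPolynomial σ O), c ≠ 0 ∧ C j * f = C c * g ∧ ∃ m, coeff m g ∉ q := by
  obtain ⟨m, hm⟩ := MvPolynomial.ne_zero_iff.mp hf
  obtain ⟨c, j, hc, hd, i, hi⟩ := prim (fun m => coeff m f) ⟨m, hm⟩ q hq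
  have h1 : C c ∣ C j * f := by
    rw [C_dvd_iff_dvd_coeff]
    intro m
    rw [coeff_C_mul]
    exact hd m
  obtain ⟨g, hg⟩ := h1
  refine ⟨c, j, g, hc, hg, i, hi _ ?_⟩
  have h2 := congrArg (coeff i) hg
  rwa [coeff_C_mul, coeff_C_mul] at h2

end prim

section ring

variable {O A : Type u} [CommRing O] [CommRing A] [Algebra O A]

/-- any `n` elements are dependent modulo `P` -/
def Dn (n : ℕ) (P : Ideal A) : Prop :=
  ∀ x : Fin n → A, ∃ f : MvPolynomial (Fin n) O,
    (∃ m, coeff m f ∉ P.comap (algebraMap O A)) ∧ aeval x f ∈ P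

theorem aeval_mem {n : ℕ} (P : Ideal A) (x : Fin n → A) (g : MvPolynomial (Fin n) O)
    (hg : ∀ m, coeff m g ∈ P.comap (algebraMap O A)) : aeval x g ∈ P := by
  rw [aeval_def, eval₂_eq]
  refine Ideal.sum_mem _ fun m _ => ?_
  exact Ideal.mul_mem_right _ _ (hg m)

theorem peel {R : Type u} [CommRing R] (φ : R →+* A) (P : Ideal A) [hP : P.IsPrime] (S : R → Prop)
    (hS : ∀ r, S r → φ r ∈ P) (t : A) (ht : t ∉ P) : ∀ (k : ℕ) (f : Polynomial R),
    ¬ S (f.coeff k) → f.eval₂ φ t ∈ P → ∃ k', ¬ S (f.coeff k') ∧ ∃ z, φ (f.coeff k') + t * z ∈ P := by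
  have h0 : ∀ f : Polynomial R, f.eval₂ φ t = φ (f.coeff 0) + t * f.divX.eval₂ φ t := by
    intro f
    conv_lhs => rw [← Polynomial.divX_mul_X_add f]
    rw [Polynomial.eval₂_add, Polynomial.eval₂_mul_X, Polynomial.eval₂_C]
    ring
  intro k
  induction k with
  | zero =>
    intro f hf hev
    exact ⟨0, hf, _, by rwa [h0] at hev⟩
  | succ k ih =>
    intro f hf hev
    by_cases hf0 : S (f.coeff 0)
    · rw [h0] at hev
      have h1 : t * f.divX.eval₂ φ t ∈ P := (Ideal.add_mem_iff_right P (hS _ hf0)).mp hev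
      have h2 : f.divX.eval₂ φ t ∈ P := (hP.mem_or_mem h1).resolve_left ht
      obtain ⟨k', hk', z, hz⟩ := ih f.divX (by rwa [Polynomial.coeff_divX]) h2
      rw [Polynomial.coeff_divX] at hk' hz
      exact ⟨k' + 1, hk', z, hz⟩
    · exact ⟨0, hf0, _, by rwa [h0] at hev⟩

theorem aeval_cons {n : ℕ} (t : A) (x : Fin n → A) (f : MvPolynomial (Fin (n + 1)) O) :
    aeval (Fin.cons t x : Fin (n + 1) → A) f =
      (finSuccEquiv O n f).eval₂ ((aeval x : MvPolynomial (Fin n) O →ₐ[O] A) :
        MvPolynomial (Fin n) O →+* A) t := by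
  induction f using MvPolynomial.induction_on with
  | C a =>
    rw [aeval_C]
    have h1 : finSuccEquiv O n (C a) = Polynomial.C (C a) := by
      rw [← MvPolynomial.algebraMap_eq, AlgEquiv.commutes]
      rfl
    rw [h1, Polynomial.eval₂_C]
    show _ = aeval x (C a)
    rw [aeval_C]
  | add p q hp hq => rw [map_add, map_add, Polynomial.eval₂_add, hp, hq]
  | mul_X p i hp =>
    rw [map_mul, map_mul, Polynomial.eval₂_mul, hp, aeval_X]
    congr 1
    refine Fin.cases ?_ (fun j => ?_) i
    · rw [finSuccEquiv_X_zero, Polynomial.eval₂_X, Fin.cons_zero]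
    · rw [finSuccEquiv_X_succ, Polynomial.eval₂_C, Fin.cons_succ]
      show _ = aeval x (X j)
      rw [aeval_X]

theorem step {n : ℕ} (P P' : Ideal A) [hP : P.IsPrime] (hlt : P < P')
    (hc : P.comap (algebraMap O A) = P'.comap (algebraMap O A)) (h : Dn (O := O) (n + 1) P) :
    Dn (O := O) n P' := by
  obtain ⟨hle, t, ht', ht⟩ := SetLike.lt_iff_le_and_exists.mp hlt
  intro x
  obtain ⟨f, ⟨m, hm⟩, hf⟩ := h (Fin.cons t x)
  rw [aeval_cons] at hf
  let S : MvPolynomial (Fin n) O → Prop := fun g => ∀ m, coeff m g ∈ P.comap (algebraMap O A)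
  have h1 : ¬ S ((finSuccEquiv O n f).coeff (m 0)) := by
    intro hS
    apply hm
    have h2 := hS m.tail
    rwa [finSuccEquiv_coeff_coeff, Finsupp.cons_tail] at h2
  obtain ⟨k', hk', z, hz⟩ := peel ((aeval x : MvPolynomial (Fin n) O →ₐ[O] A) :
        MvPolynomial (Fin n) O →+* A) P S (fun g hg => aeval_mem P x g hg) t ht _ _ h1 hf
  refine ⟨(finSuccEquiv O n f).coeff k', ?_, ?_⟩
  · rw [← hc]
    by_contra hcon
    push Not at hcon
    exact hk' hcon
  · exact (Ideal.add_mem_iff_left P' (Ideal.mul_mem_right z P' ht')).mp (hle hz)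

theorem not_zero (P : Ideal A) : ¬ Dn (O := O) 0 P := by
  intro h
  obtain ⟨f, ⟨m, hm⟩, hf⟩ := h (fun i => i.elim0)
  apply hm
  rw [eq_C_of_isEmpty f, aeval_C] at hf
  rw [Subsingleton.elim m 0]
  exact hf

variable [IsDedekindDomain O]

theorem up {n : ℕ} (P P' : Ideal A) [hP : P.IsPrime] [hP' : P'.IsPrime] (hle : P ≤ P')
    (h : Dn (O := O) n P) : Dn (O := O) n P' := by
  by_cases hc : P.comap (algebraMap O A) = P'.comap (algebraMap O A)
  · intro x
    obtain ⟨f, hm, hf⟩ := h x
    rw [hc] at hm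
    exact ⟨f, hm, hle hf⟩
  · have hbot : P.comap (algebraMap O A) = ⊥ := by
      by_contra hne
      have h1 : (P.comap (algebraMap O A)).IsMaximal := (hP.comap _).isMaximal hne
      exact hc (h1.eq_of_le (hP'.comap _).ne_top (Ideal.comap_mono hle))
    intro x
    obtain ⟨f, ⟨m, hm⟩, hf⟩ := h x
    have hf0 : f ≠ 0 := by
      rintro rfl
      exact hm (by rw [coeff_zero]; exact zero_mem _)
    obtain ⟨c, j, g, hc0, hg, hm'⟩ := prim_poly f hf0 (P'.comap (algebraMap O A))
      (hP'.comap _).ne_top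
    refine ⟨g, hm', hle ?_⟩
    have h1 := congrArg (aeval x) hg
    rw [map_mul, map_mul, aeval_C, aeval_C] at h1
    have h2 : algebraMap O A c * aeval x g ∈ P := by
      rw [← h1]
      exact Ideal.mul_mem_left _ _ hf
    refine (hP.mem_or_mem h2).resolve_left fun hcP => hc0 ?_
    have h3 : c ∈ P.comap (algebraMap O A) := hcP
    rwa [hbot, Ideal.mem_bot] at h3

theorem chain (P : Fin 4 → Ideal A) (hP : ∀ i, (P i).IsPrime) (h01 : P 0 < P 1) (h12 : P 1 < P 2)
    (h23 : P 2 < P 3) : ¬ Dn (O := O) 2 (P 0) := by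
  intro h
  have := hP 0
  have := hP 1
  have := hP 2
  have := hP 3
  have hmax : ∀ Q Q' : Ideal A, Q.IsPrime → Q'.IsPrime → Q ≤ Q' →
      Q.comap (algebraMap O A) ≠ ⊥ → Q.comap (algebraMap O A) = Q'.comap (algebraMap O A) := by
    intro Q Q' hQ hQ' hle hne
    have h1 : (Q.comap (algebraMap O A)).IsMaximal := (hQ.comap _).isMaximal hne
    exact h1.eq_of_le (hQ'.comap _).ne_top (Ideal.comap_mono hle)
  have hfin : ∀ Q Q' : Ideal A, Q.IsPrime → Q < Q' →
      Q.comap (algebraMap O A) = Q'.comap (algebraMap O A) → Dn (O := O) 1 Q → False := by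
    intro Q Q' hQ hlt he hD
    exact not_zero Q' (step Q Q' hlt he hD)
  have hne : ∀ Q Q' : Ideal A, Q ≤ Q' →
      Q.comap (algebraMap O A) ≠ Q'.comap (algebraMap O A) → Q'.comap (algebraMap O A) ≠ ⊥ := by
    intro Q Q' hle hne hbot
    apply hne
    have h1 := Ideal.comap_mono (f := algebraMap O A) hle
    rw [hbot] at h1 ⊢
    exact le_bot_iff.mp h1
  by_cases e01 : (P 0).comap (algebraMap O A) = (P 1).comap (algebraMap O A)
  · have h1 := step (P 0) (P 1) h01 e01 h
    by_cases e12 : (P 1).comap (algebraMap O A) = (P 2).comap (algebraMap O A)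
    · exact hfin _ _ (hP 1) h12 e12 h1
    · exact hfin _ _ (hP 2) h23 (hmax _ _ (hP 2) (hP 3) h23.le (hne _ _ h12.le e12))
        (up (P 1) (P 2) h12.le h1)
  · have hb := hne _ _ h01.le e01
    have e12 := hmax _ _ (hP 1) (hP 2) h12.le hb
    have h1 := step (P 1) (P 2) h12 e12 (up (P 0) (P 1) h01.le h)
    have hb2 : (P 2).comap (algebraMap O A) ≠ ⊥ := by rwa [← e12]
    exact hfin _ _ (hP 2) h23 (hmax _ _ (hP 2) (hP 3) h23.le hb2) h1

end ring

theorem kdim (O F K : Type u) [CommRing O] [IsDedekindDomain O] [Field F]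
    [Algebra O F] [IsFractionRing O F] [Field K] [Algebra F K] [Algebra O K] [IsScalarTower O F K]
    (htr : Algebra.trdeg F K ≤ 1) (A : Subalgebra O K) : ringKrullDim A ≤ 2 := by
  have hinj : Function.Injective (algebraMap O K) := by
    rw [IsScalarTower.algebraMap_eq O F K]
    exact (algebraMap F K).injective.comp (IsFractionRing.injective O F)
  have hdep : Dn (O := O) 2 (⊥ : Ideal A) := by
    intro x
    have h1 : ¬ AlgebraicIndependent O x := by
      intro hx
      have h2 : AlgebraicIndependent O (fun i => (x i : K)) :=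
        hx.map' (f := A.val) Subtype.val_injective
      have h3 : AlgebraicIndependent F (fun i => (x i : K)) := by
        have : Algebra.IsAlgebraic O F := IsLocalization.isAlgebraic F (nonZeroDivisors O)
        exact h2.extendScalars F
      have h4 := h3.lift_cardinalMk_le_trdeg
      rw [Cardinal.mk_fin, Cardinal.lift_natCast] at h4
      have h5 : Cardinal.lift.{0} (Algebra.trdeg F K) ≤ 1 := by
        rw [Cardinal.lift_uzero]
        exact htr
      have h6 : ((2 : ℕ) : Cardinal.{u}) ≤ ((1 : ℕ) : Cardinal.{u}) := by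
        rw [Nat.cast_one]
        exact h4.trans h5
      rw [Nat.cast_le] at h6
      omega
    rw [algebraicIndependent_iff] at h1
    push Not at h1
    obtain ⟨f, hf, hne⟩ := h1
    obtain ⟨m, hm⟩ := MvPolynomial.ne_zero_iff.mp hne
    refine ⟨f, ⟨m, ?_⟩, by rw [hf]; exact zero_mem _⟩
    intro hmem
    apply hm
    have h2 : algebraMap O A (MvPolynomial.coeff m f) = 0 := hmem
    apply hinj
    rw [map_zero]
    exact congrArg Subtype.val h2
  have hprime : (⊥ : Ideal A).IsPrime := Ideal.isPrime_bot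
  refine iSup_le fun l => ?_
  by_contra hcon
  push Not at hcon
  have hlen : 3 ≤ l.length := by
    have h1 : ((2 : ℕ) : WithBot ℕ∞) < ((l.length : ℕ) : WithBot ℕ∞) := hcon
    have h2 : 2 < l.length := by exact_mod_cast h1
    omega
  let e : Fin 4 → Ideal A := fun i => (l.toFun ⟨i, by omega⟩).asIdeal
  refine chain (O := O) e (fun i => (l.toFun ⟨i, by omega⟩).isPrime) ?_ ?_ ?_
    (up (⊥ : Ideal A) (e 0) bot_le hdep)
  · exact l.strictMono (show ((0 : Fin 4) : ℕ) < ((1 : Fin 4) : ℕ) by decide)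
  · exact l.strictMono (show ((1 : Fin 4) : ℕ) < ((2 : Fin 4) : ℕ) by decide)
  · exact l.strictMono (show ((2 : Fin 4) : ℕ) < ((3 : Fin 4) : ℕ) by decide)

end GKD_

end Pool.Agent.N808.AS
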