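import Pool.Agent.N808.AS.Stm

/-!
# Project AS (helper808), part NAG: finiteness of the normalization over Dedekind domains

Written by helper681. An overring of a Dedekind domain (inside its field of fractions) is integrally closed.
-/

set_option autoImplicit false

universe u

open Polynomial

namespace Pool.Agent.N808.AS

/-- the fractional ideal `(1, y)` of a Dedekind domain is invertible -/
theorem NAG_.pair {B L : Type*} [CommRing B] [IsDedekindDomain B] [Field L] [Algebra B L]
    [IsFractionRing B L] (y : L) : ∃ a b p q : B, algebraMap B L a * y = algebraMap B L p ∧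
      algebraMap B L b * y = algebraMap B L q ∧ a + q = 1 := by
  obtain ⟨r, s, hs, rfl⟩ := IsFractionRing.div_surjective (A := B) y
  have hs0 : s ≠ 0 := nonZeroDivisors.ne_zero hs
  have hsL : algebraMap B L s ≠ 0 := by
    rw [Ne, FaithfulSMul.algebraMap_eq_zero_iff]
    exact hs0
  have hle : Ideal.span {s} ≤ Ideal.span {r} ⊔ Ideal.span {s} := le_sup_right
  obtain ⟨J, hJ⟩ := Ideal.dvd_iff_le.2 hle
  have h1 : s ∈ (Ideal.span {r} ⊔ Ideal.span {s}) * J := hJ ▸ Ideal.mem_span_singleton_self s
  rw [Ideal.sup_mul] at h1
  obtain ⟨u, hu, v, hv, huv⟩ := Submodule.mem_sup.1 h1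
  obtain ⟨b, hb, rfl⟩ := Ideal.mem_span_singleton_mul.1 hu
  obtain ⟨a, ha, rfl⟩ := Ideal.mem_span_singleton_mul.1 hv
  have key : ∀ c ∈ J, ∃ p, c * r = s * p := by
    intro c hc
    have h2 : r * c ∈ Ideal.span {s} := by
      rw [hJ]
      exact Ideal.mul_mem_mul (Ideal.mem_sup_left (Ideal.mem_span_singleton_self r)) hc
    obtain ⟨p, hp⟩ := Ideal.mem_span_singleton'.1 h2
    exact ⟨p, by rw [mul_comm c r, ← hp, mul_comm]⟩
  obtain ⟨p, hp⟩ := key a ha
  obtain ⟨q, hq⟩ := key b hb
  refine ⟨a, b, p, q, ?_, ?_, ?_⟩
  · rw [mul_div_assoc', div_eq_iff hsL, ← map_mul, hp, map_mul, mul_comm]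
  · rw [mul_div_assoc', div_eq_iff hsL, ← map_mul, hq, map_mul, mul_comm]
  · apply mul_left_cancel₀ hs0
    rw [mul_add, ← hq, mul_one, mul_comm b r, add_comm]
    exact huv

/-- an overring of a Dedekind domain is integrally closed -/
theorem NAG_.closed {B L : Type*} [CommRing B] [IsDedekindDomain B] [Field L] [Algebra B L]
    [IsFractionRing B L] (C : Subring L) (hC : ∀ b : B, algebraMap B L b ∈ C) (y : L)
    (hy : IsIntegral C y) : y ∈ C := by
  obtain ⟨a, b, p, q, h1, h2, h3⟩ := NAG_.pair (B := B) y
  obtain ⟨f, hf, hfy⟩ := hy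
  have hn : f.natDegree ≠ 0 := by
    intro h0
    rw [hf.natDegree_eq_zero.1 h0, eval₂_one] at hfy
    exact one_ne_zero hfy
  obtain ⟨m, hm⟩ := Nat.exists_eq_succ_of_ne_zero hn
  rw [eval₂_eq_sum_range, hm, Finset.sum_range_succ] at hfy
  have hl : f.coeff m.succ = 1 := by rw [← hm]; exact hf
  rw [hl, map_one, one_mul] at hfy
  have key : algebraMap B L b ^ m * y ^ (m + 1) ∈ C := by
    have e : y ^ (m + 1) = -∑ i ∈ Finset.range m.succ, (algebraMap C L) (f.coeff i) * y ^ i := by
      linear_combination hfy
    rw [e, mul_neg, Finset.mul_sum]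
    refine C.neg_mem (C.sum_mem fun i hi => ?_)
    have hi' : i ≤ m := by
      have := Finset.mem_range.1 hi
      omega
    have e2 : algebraMap B L b ^ m * ((algebraMap C L) (f.coeff i) * y ^ i) =
        (f.coeff i : L) * (algebraMap B L b ^ (m - i) * algebraMap B L q ^ i) := by
      rw [← h2, mul_pow, show (algebraMap B L b ^ m : L) =
        algebraMap B L b ^ (m - i) * algebraMap B L b ^ i by rw [← pow_add]; congr 1; omega]
      change _ * ((f.coeff i : L) * _) = _
      ring
    rw [e2]
    exact C.mul_mem (f.coeff i).2 (C.mul_mem (C.pow_mem (hC b) _) (C.pow_mem (hC q) _))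
  have key2 : ∀ k, algebraMap B L q ^ k * y ∈ C → y ∈ C := by
    intro k
    induction k with
    | zero => intro h; simpa using h
    | succ k ih =>
      intro h
      apply ih
      have e : algebraMap B L q ^ k * y = algebraMap B L q ^ k * algebraMap B L p +
          algebraMap B L q ^ (k + 1) * y := by
        have e1 : algebraMap B L a + algebraMap B L q = 1 := by rw [← map_add, h3, map_one]
        rw [← h1]
        linear_combination (-(algebraMap B L q ^ k * y)) * e1
      rw [e]
      exact C.add_mem (C.mul_mem (C.pow_mem (hC q) _) (hC p)) h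
  apply key2 m
  rw [← h2, mul_pow]
  have e : (algebraMap B L b ^ m * y ^ m) * y = algebraMap B L b ^ m * y ^ (m + 1) := by ring
  rw [e]
  exact key

theorem t_NAG : S_nag.{u} := by
  intro O F D L _ _ _ _ _ _ _ _ _ _ _ _ _ _ _ _ hfin
  have : Algebra.IsSeparable F L := inferInstance
  have hB1 : IsDedekindDomain (integralClosure O L) := integralClosure.isDedekindDomain O F L
  have hB2 : IsFractionRing (integralClosure O L) L :=
    integralClosure.isFractionRing_of_finite_extension F L
  have hB3 : Module.Finite O (integralClosure O L) :=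
    IsIntegralClosure.finite O F L (integralClosure O L)
  obtain ⟨S, hS⟩ := hB3.fg_top
  let S' : Set L := (fun b : integralClosure O L => (b : L)) '' (S : Set (integralClosure O L))
  have hint : ∀ x ∈ S', IsIntegral D x := by
    rintro x ⟨b, -, rfl⟩
    have h : IsIntegral O (b : L) := b.2
    exact h.tower_top
  have hfg : (Algebra.adjoin D S').toSubmodule.FG :=
    fg_adjoin_of_finite (S.finite_toSet.image _) hint
  have hBC : ∀ b : integralClosure O L, (b : L) ∈ Algebra.adjoin D S' := by
    intro b
    have hb : b ∈ Submodule.span O (S : Set (integralClosure O L)) := by rw [hS]; trivial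
    refine Submodule.span_induction
      (p := fun (x : integralClosure O L) _ => (x : L) ∈ Algebra.adjoin D S') ?_ ?_ ?_ ?_ hb
    · intro x hx
      exact Algebra.subset_adjoin ⟨x, hx, rfl⟩
    · exact (Algebra.adjoin D S').zero_mem
    · intro x z _ _ hx hz
      exact (Algebra.adjoin D S').add_mem hx hz
    · intro c x _ hx
      have e : ((c • x : integralClosure O L) : L) = algebraMap O D c • (x : L) := by
        rw [algebraMap_smul]
        rfl
      rw [e]
      exact (Algebra.adjoin D S').smul_mem hx _
  have heq : integralClosure D L = Algebra.adjoin D S' := by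
    apply le_antisymm
    · intro y hy
      have hy' : IsIntegral (Algebra.adjoin D S').toSubring y := by
        have h1 : IsIntegral D y := hy
        have h2 : IsIntegral (Algebra.adjoin D S') y := h1.tower_top
        exact h2
      exact NAG_.closed (B := integralClosure O L) (Algebra.adjoin D S').toSubring
        (fun b => hBC b) y hy'
    · rw [Algebra.adjoin_le_iff]
      exact hint
  rw [heq]
  exact Module.Finite.of_fg hfg

end Pool.Agent.N808.AS
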