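import Pool.Agent.N808.AS.GStm
import Pool.Agent.N808.AS.NAG

/-!
# Project AS-G (helper808), part GNRM: finiteness of the normalization of curves on surfaces

Written by helper265. Horizontal curves are finite separable over the Dedekind base of
characteristic zero; vertical curves are curves over finite fields, where a separating
transcendental element exists (a `p`-th power times it lies in the coordinate ring).
-/

set_option autoImplicit false
set_option linter.unusedVariables false
set_option linter.unusedSectionVars false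

universe u

open Pool.Agent.W418.LU2 Pool.Agent.N98.T2 Pool.Agent.N98.RM Polynomial

namespace Pool.Agent.N808.AS


/-- finiteness of the normalization, separable case -/
theorem GNRM_.sep (O F D L : Type u) [CommRing O] [IsDedekindDomain O] [Field F]
    [Algebra O F] [IsFractionRing O F] [CommRing D] [Algebra O D] [Field L]
    [Algebra O L] [Algebra F L] [Algebra D L] [IsScalarTower O D L]
    [IsScalarTower O F L] [FiniteDimensional F L] [Algebra.IsSeparable F L] :
    Module.Finite D (integralClosure D L) := by
  have hB1 : IsDedekindDomain (integralClosure O L) := integralClosure.isDedekindDomain O F L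
  have hB2 : IsFractionRing (integralClosure O L) L :=
    integralClosure.isFractionRing_of_finite_extension F L
  have hB3 : Module.Finite O (integralClosure O L) :=
    IsIntegralClosure.finite O F L (integralClosure O L)
  obtain ⟨S, hS⟩ := hB3.fg_top
  let S' : Set L := (fun b : integralClosure O L => (b : L)) '' (S : Set (integralClosure O L))
  have hint : ∀ x ∈ S', IsIntegral D x := by
    rintro x ⟨b, -, rfl⟩
    have h : IsIntegral O (b : L) := b.2
    exact h.tower_top
  have hfg : (Algebra.adjoin D S').toSubmodule.FG :=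
    fg_adjoin_of_finite (S.finite_toSet.image _) hint
  have hBC : ∀ b : integralClosure O L, (b : L) ∈ Algebra.adjoin D S' := by
    intro b
    have hb : b ∈ Submodule.span O (S : Set (integralClosure O L)) := by rw [hS]; trivial
    refine Submodule.span_induction
      (p := fun (x : integralClosure O L) _ => (x : L) ∈ Algebra.adjoin D S') ?_ ?_ ?_ ?_ hb
    · intro x hx
      exact Algebra.subset_adjoin ⟨x, hx, rfl⟩
    · exact (Algebra.adjoin D S').zero_mem
    · intro x z _ _ hx hz
      exact (Algebra.adjoin D S').add_mem hx hz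
    · intro c x _ hx
      have e : ((c • x : integralClosure O L) : L) = algebraMap O D c • (x : L) := by
        rw [algebraMap_smul]
        rfl
      rw [e]
      exact (Algebra.adjoin D S').smul_mem hx _
  have heq : integralClosure D L = Algebra.adjoin D S' := by
    apply le_antisymm
    · intro y hy
      have hy' : IsIntegral (Algebra.adjoin D S').toSubring y := by
        have h1 : IsIntegral D y := hy
        have h2 : IsIntegral (Algebra.adjoin D S') y := h1.tower_top
        exact h2
      exact NAG_.closed (B := integralClosure O L) (Algebra.adjoin D S').toSubring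
        (fun b => hBC b) y hy'
    · rw [Algebra.adjoin_le_iff]
      exact hint
  rw [heq]
  exact Module.Finite.of_fg hfg

/-- separability by derivations -/
theorem GNRM_.separable (κ F L : Type u) [Field κ] [Field F] [Field L] [Algebra κ F] [Algebra κ L]
    [Algebra F L] [IsScalarTower κ F L] [Algebra.EssFiniteType κ L] (s : Set L)
    [Algebra.IsSeparable (IntermediateField.adjoin κ s) L]
    (hs : ∀ t ∈ s, KaehlerDifferential.D F L t = 0) : Algebra.IsSeparable F L := by
  have : Algebra.EssFiniteType F L := Algebra.EssFiniteType.of_comp κ F L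
  rw [← Algebra.FormallyUnramified.iff_isSeparable]
  have h0 : ∀ x ∈ IntermediateField.adjoin κ s, KaehlerDifferential.D F L x = 0 := by
    intro x hx
    induction hx using IntermediateField.adjoin_induction with
    | mem x hx => exact hs x hx
    | algebraMap c =>
      rw [IsScalarTower.algebraMap_apply κ F L]
      exact Derivation.map_algebraMap _ _
    | add x y _ _ hx hy => rw [map_add, hx, hy, add_zero]
    | inv x _ hx => rw [Derivation.leibniz_inv, hx, smul_zero]
    | mul x y _ _ hx hy => rw [Derivation.leibniz, hx, hy, smul_zero, smul_zero, add_zero]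
  have : Algebra.FormallyUnramified (IntermediateField.adjoin κ s) L :=
    Algebra.FormallyUnramified.of_isSeparable _ _
  have hsub : Subsingleton (Ω[L⁄(IntermediateField.adjoin κ s)]) := this.subsingleton_kaehlerDifferential
  let δ : Derivation (IntermediateField.adjoin κ s) L (Ω[L⁄F]) :=
    { toFun := fun x => KaehlerDifferential.D F L x
      map_add' := fun x y => map_add _ x y
      map_smul' := fun c x => by
        have e : c • x = (c : L) * x := rfl
        rw [e, Derivation.leibniz, h0 c c.2, smul_zero, add_zero]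
        rfl
      map_one_eq_zero' := Derivation.map_one_eq_zero _
      leibniz' := fun x y => Derivation.leibniz _ x y }
  have h1 : ∀ x, δ x = 0 := by
    intro x
    have h2 := Derivation.liftKaehlerDifferential_comp_D δ x
    rw [← h2, Subsingleton.elim (KaehlerDifferential.D (IntermediateField.adjoin κ s) L x) 0, map_zero]
  refine ⟨?_⟩
  have h3 : (⊤ : Submodule L (Ω[L⁄F])) ≤ ⊥ := by
    rw [← KaehlerDifferential.span_range_derivation, Submodule.span_le]
    rintro _ ⟨x, rfl⟩
    exact h1 x
  refine subsingleton_of_forall_eq 0 fun x => ?_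
  exact h3 (Submodule.mem_top (x := x))

/-- Noether normalization: at most one variable -/
theorem GNRM_.card_le {κ D : Type u} [Field κ] [CommRing D] [IsDomain D] [Algebra κ D]
    [Ring.DimensionLEOne D] {n : ℕ} (g : MvPolynomial (Fin n) κ →ₐ[κ] D)
    (hg : Function.Injective g) (hi : g.IsIntegral) : n ≤ 1 := by
  by_contra hn
  rw [not_le] at hn
  let i0 : Fin n := ⟨0, by omega⟩
  let i1 : Fin n := ⟨1, by omega⟩
  have h01 : i1 ≠ i0 := by
    intro h
    have := congrArg Fin.val h
    simp [i0, i1] at this
  let _ : Algebra (MvPolynomial (Fin n) κ) D := g.toRingHom.toAlgebra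
  have hint : Algebra.IsIntegral (MvPolynomial (Fin n) κ) D := ⟨fun x => hi x⟩
  have hp : (Ideal.span {(MvPolynomial.X i0 : MvPolynomial (Fin n) κ)}).IsPrime := by
    rw [Ideal.span_singleton_prime (MvPolynomial.X_ne_zero i0)]
    exact MvPolynomial.X_prime
  obtain ⟨Q, hQ, hQp⟩ := Ideal.exists_ideal_over_prime_of_isIntegral_of_isDomain (S := D)
    (Ideal.span {(MvPolynomial.X i0 : MvPolynomial (Fin n) κ)}) (by
      have hk : RingHom.ker (algebraMap (MvPolynomial (Fin n) κ) D) = ⊥ :=
        (RingHom.injective_iff_ker_eq_bot _).1 hg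
      rw [hk]
      exact bot_le)
  have hQ0 : Q ≠ ⊥ := by
    rintro rfl
    have hk : (⊥ : Ideal D).comap (algebraMap (MvPolynomial (Fin n) κ) D) = ⊥ :=
      (RingHom.injective_iff_ker_eq_bot _).1 hg
    rw [hk] at hQp
    have : (MvPolynomial.X i0 : MvPolynomial (Fin n) κ) ∈ (⊥ : Ideal (MvPolynomial (Fin n) κ)) := by
      rw [hQp]
      exact Ideal.mem_span_singleton_self _
    exact MvPolynomial.X_ne_zero i0 this
  have hQm : Q.IsMaximal := hQ.isMaximal hQ0
  have hm : (Ideal.span {(MvPolynomial.X i0 : MvPolynomial (Fin n) κ)}).IsMaximal := by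
    rw [← hQp]
    exact Ideal.isMaximal_comap_of_isIntegral_of_isMaximal Q
  have h1 : (MvPolynomial.X i1 : MvPolynomial (Fin n) κ) ∉
      Ideal.span {(MvPolynomial.X i0 : MvPolynomial (Fin n) κ)} := by
    intro h
    obtain ⟨c, hc⟩ := Ideal.mem_span_singleton'.1 h
    have h2 := congrArg (MvPolynomial.eval (fun i => if i = i1 then (1 : κ) else 0)) hc
    rw [map_mul, MvPolynomial.eval_X, MvPolynomial.eval_X, if_neg h01.symm, if_pos rfl, mul_zero] at h2
    exact zero_ne_one h2
  obtain ⟨y, z, hz, hyz⟩ := hm.exists_inv h1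
  obtain ⟨c, hc⟩ := Ideal.mem_span_singleton'.1 hz
  have h2 := congrArg (MvPolynomial.eval (fun _ => (0 : κ))) hyz
  rw [← hc, map_add, map_mul, map_mul, MvPolynomial.eval_X, MvPolynomial.eval_X, mul_zero,
    mul_zero, add_zero, map_one] at h2
  exact zero_ne_one h2

/-- the transcendence degree of a curve is at most one -/
theorem GNRM_.trdeg_le {κ D L : Type u} [Field κ] [CommRing D] [IsDomain D] [Algebra κ D]
    [Ring.DimensionLEOne D] [Algebra.FiniteType κ D] [Field L] [Algebra D L] [IsFractionRing D L]
    [Algebra κ L] [IsScalarTower κ D L] : Algebra.trdeg κ L ≤ 1 := by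
  obtain ⟨n, g, hg, hi⟩ := exists_integral_inj_algHom_of_fg κ D
  have hn : n ≤ 1 := GNRM_.card_le g hg hi
  let _ : Algebra (MvPolynomial (Fin n) κ) D := g.toRingHom.toAlgebra
  let _ : Algebra (MvPolynomial (Fin n) κ) L := ((algebraMap D L).comp g.toRingHom).toAlgebra
  have ht1 : IsScalarTower (MvPolynomial (Fin n) κ) D L := IsScalarTower.of_algebraMap_eq fun x => rfl
  have ht2 : IsScalarTower κ (MvPolynomial (Fin n) κ) L := IsScalarTower.of_algebraMap_eq fun x => by
    change algebraMap κ L x = algebraMap D L (g (algebraMap κ _ x))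
    rw [g.commutes, ← IsScalarTower.algebraMap_apply]
  have hint : Algebra.IsIntegral (MvPolynomial (Fin n) κ) D := ⟨fun x => hi x⟩
  have hinj : Function.Injective (algebraMap (MvPolynomial (Fin n) κ) L) :=
    (IsFractionRing.injective D L).comp hg
  have hinj' : Function.Injective (algebraMap (MvPolynomial (Fin n) κ) D) := hg
  have hf : FaithfulSMul (MvPolynomial (Fin n) κ) L := (faithfulSMul_iff_algebraMap_injective _ _).2 hinj
  have hf' : FaithfulSMul (MvPolynomial (Fin n) κ) D := (faithfulSMul_iff_algebraMap_injective _ _).2 hinj'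
  have ha1 : Algebra.IsAlgebraic D L := IsLocalization.isAlgebraic L (nonZeroDivisors D)
  have ha : Algebra.IsAlgebraic (MvPolynomial (Fin n) κ) L := Algebra.IsAlgebraic.trans _ D _
  rw [← trdeg_add_eq κ (MvPolynomial (Fin n) κ) (A := L), trdeg_eq_zero (R := MvPolynomial (Fin n) κ) (A := L), add_zero,
    MvPolynomial.trdeg_of_isDomain, Cardinal.mk_fin]
  simpa using hn

/-- finiteness of the normalization of curves over finite fields -/
theorem GNRM_.fin (κ D : Type u) [Field κ] [Finite κ] [CommRing D] [IsDomain D] [Algebra κ D]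
    [Ring.DimensionLEOne D] [Algebra.FiniteType κ D] :
    Module.Finite D (integralClosure D (FractionRing D)) := by
  classical
  have hess : Algebra.EssFiniteType κ (FractionRing D) :=
    have : Algebra.EssFiniteType D (FractionRing D) :=
      Algebra.EssFiniteType.of_isLocalization _ (nonZeroDivisors D)
    Algebra.EssFiniteType.comp κ D (FractionRing D)
  obtain ⟨s, hs, hsep⟩ := exists_isTranscendenceBasis_and_isSeparable_of_perfectField κ (FractionRing D)
  have htr : Algebra.trdeg κ (FractionRing D) ≤ 1 := GNRM_.trdeg_le (D := D)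
  have hc : s.card ≤ 1 := by
    have h1 := hs.cardinalMk_eq_trdeg
    rw [← h1] at htr
    simpa using htr
  obtain ⟨t, hst⟩ : ∃ t : FractionRing D, (s : Set (FractionRing D)) ⊆ {t} := by
    rcases Finset.card_le_one_iff_subset_singleton.1 hc with ⟨t, ht⟩
    exact ⟨t, by exact_mod_cast ht⟩
  -- clear the denominator by a `p`-th power
  obtain ⟨p, hp⟩ := CharP.exists κ
  have hp0 : p ≠ 0 := CharP.char_ne_zero_of_finite κ p
  obtain ⟨a, b, hb, rfl⟩ := IsFractionRing.div_surjective (A := D) t
  have hb0 : algebraMap D (FractionRing D) b ≠ 0 := by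
    rw [Ne, FaithfulSMul.algebraMap_eq_zero_iff]
    exact nonZeroDivisors.ne_zero hb
  obtain ⟨d, hd⟩ : ∃ d : D, d = b ^ (p - 1) * a := ⟨_, rfl⟩
  -- the base
  let O' : Subalgebra κ D := Algebra.adjoin κ {d}
  have hsurj : Function.Surjective (Polynomial.aeval (R := κ)
      (⟨d, Algebra.subset_adjoin rfl⟩ : O')) := by
    rintro ⟨x, hx⟩
    have hx' : x ∈ (Polynomial.aeval (R := κ) d).range := by
      rw [← Algebra.adjoin_singleton_eq_range_aeval]
      exact hx
    obtain ⟨f, hf⟩ := hx'
    refine ⟨f, Subtype.ext ?_⟩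
    have h1 := Polynomial.aeval_algebraMap_apply D (⟨d, Algebra.subset_adjoin rfl⟩ : O') f
    exact h1.symm.trans hf
  have hpid : IsPrincipalIdealRing O' :=
    IsPrincipalIdealRing.of_surjective _ hsurj
  have hded : IsDedekindDomain O' := inferInstance
  let F := FractionRing O'
  have hinj : Function.Injective (algebraMap O' (FractionRing D)) :=
    (IsFractionRing.injective D (FractionRing D)).comp Subtype.val_injective
  have hfa : FaithfulSMul O' (FractionRing D) := (faithfulSMul_iff_algebraMap_injective _ _).2 hinj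
  let _ : Algebra F (FractionRing D) := FractionRing.liftAlgebra O' (FractionRing D)
  have ht : IsScalarTower O' F (FractionRing D) := FractionRing.isScalarTower_liftAlgebra O' _
  have ht2 : IsScalarTower κ F (FractionRing D) := by
    refine IsScalarTower.of_algebraMap_eq fun x => ?_
    rw [IsScalarTower.algebraMap_apply κ O' F, ← IsScalarTower.algebraMap_apply O' F,
      ← IsScalarTower.algebraMap_apply κ O' (FractionRing D)]
  have hsep' : Algebra.IsSeparable F (FractionRing D) := by
    refine GNRM_.separable κ F (FractionRing D) (s : Set (FractionRing D)) ?_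
    intro t hts
    have h1 := hst hts
    rw [Set.mem_singleton_iff] at h1
    subst h1
    have hd1 : algebraMap D (FractionRing D) d = algebraMap D (FractionRing D) b ^ p *
        (algebraMap D (FractionRing D) a / algebraMap D (FractionRing D) b) := by
      obtain ⟨q, rfl⟩ := Nat.exists_eq_succ_of_ne_zero hp0
      rw [hd, map_mul, map_pow]
      simp only [Nat.succ_eq_add_one, Nat.add_sub_cancel]
      field_simp
      ring
    have h2 : KaehlerDifferential.D F (FractionRing D) (algebraMap D (FractionRing D) d) = 0 := by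
      have h3 : algebraMap D (FractionRing D) d = algebraMap F (FractionRing D)
          (algebraMap O' F ⟨d, Algebra.subset_adjoin rfl⟩) := by
        rw [← IsScalarTower.algebraMap_apply O' F]
        rfl
      rw [h3]
      exact Derivation.map_algebraMap _ _
    have hch : CharP (FractionRing D) p :=
      charP_of_injective_algebraMap (algebraMap κ (FractionRing D)).injective p
    have h4 : KaehlerDifferential.D F (FractionRing D) (algebraMap D (FractionRing D) b ^ p) = 0 := by
      rw [Derivation.leibniz_pow, ← Nat.cast_smul_eq_nsmul (FractionRing D), CharP.cast_eq_zero,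
        zero_smul]
    rw [hd1, Derivation.leibniz, h4, smul_zero, add_zero] at h2
    exact (smul_eq_zero.1 h2).resolve_left (pow_ne_zero _ hb0)
  have hess2 : Algebra.EssFiniteType F (FractionRing D) := Algebra.EssFiniteType.of_comp κ F _
  have hfd : FiniteDimensional F (FractionRing D) := Algebra.finite_of_essFiniteType_of_isAlgebraic
  exact GNRM_.sep O' F D (FractionRing D)

/-- curves on a surface are algebraic over the base -/
theorem GNRM_.alg {O A : Type u} [CommRing O] [IsDomain O] [CommRing A] [IsDomain A] [Algebra O A]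
    (ht : Algebra.trdeg O A ≤ 1) (𝔭 : Ideal A) (h𝔭 : 𝔭 ≠ ⊥) : Algebra.IsAlgebraic O (A ⧸ 𝔭) := by
  refine ⟨fun z => ?_⟩
  obtain ⟨t, rfl⟩ := Ideal.Quotient.mk_surjective z
  by_contra hz
  have hz' : Transcendental O t := fun h => hz (h.algHom (Ideal.Quotient.mkₐ O 𝔭))
  have hx : AlgebraicIndependent O (fun _ : PUnit.{u+1} => t) :=
    algebraicIndependent_unique_type_iff.2 hz'
  have hb := hx.isTranscendenceBasis_of_trdeg_le_of_finite (by
    rw [Cardinal.mk_punit]
    exact ht)
  obtain ⟨a, ha, ha0⟩ := Submodule.exists_mem_ne_zero_of_ne_bot h𝔭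
  obtain ⟨q, hq0, hq⟩ := (hb.isAlgebraic.isAlgebraic a).exists_nonzero_coeff_and_aeval_eq_zero
    (mem_nonZeroDivisors_of_ne_zero ha0)
  have hc : ((q.coeff 0 : Algebra.adjoin O (Set.range fun _ : PUnit.{u+1} => t)) : A) ∈ 𝔭 := by
    rw [← Polynomial.divX_mul_X_add q, map_add, map_mul, Polynomial.aeval_X, Polynomial.aeval_C] at hq
    have e : ((q.coeff 0 : Algebra.adjoin O (Set.range fun _ : PUnit.{u+1} => t)) : A) =
        -(Polynomial.aeval a q.divX * a) := by
      rw [eq_neg_iff_add_eq_zero, add_comm]
      exact hq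
    rw [e]
    exact 𝔭.neg_mem (𝔭.mul_mem_left _ ha)
  have hr : ((q.coeff 0 : Algebra.adjoin O (Set.range fun _ : PUnit.{u+1} => t)) : A) ∈
      (Polynomial.aeval (R := O) t).range := by
    rw [← Algebra.adjoin_singleton_eq_range_aeval]
    have hset : Algebra.adjoin O (Set.range fun _ : PUnit.{u+1} => t) = Algebra.adjoin O {t} := by
      rw [Set.range_const]
    exact hset.le (q.coeff 0).2
  obtain ⟨f, hf⟩ := hr
  have hf' : Polynomial.aeval t f =
      ((q.coeff 0 : Algebra.adjoin O (Set.range fun _ : PUnit.{u+1} => t)) : A) := hf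
  refine hz ⟨f, ?_, ?_⟩
  · rintro rfl
    rw [map_zero] at hf'
    exact hq0 (Subtype.ext hf'.symm)
  · have h1 := Polynomial.aeval_algebraMap_apply (A ⧸ 𝔭) t f
    have h2 : (algebraMap A (A ⧸ 𝔭)) t = Ideal.Quotient.mk 𝔭 t := rfl
    rw [h2] at h1
    rw [h1, hf']
    exact Ideal.Quotient.eq_zero_iff_mem.2 hc

/-- the horizontal case -/
theorem GNRM_.hor (O D : Type u) [CommRing O] [IsDedekindDomain O] [CharZero O] [CommRing D] [IsDomain D]
    [Algebra O D] [Algebra.FiniteType O D] [Algebra.IsAlgebraic O D]
    (hinj : Function.Injective (algebraMap O D)) :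
    Module.Finite D (integralClosure D (FractionRing D)) := by
  have hinj' : Function.Injective (algebraMap O (FractionRing D)) := by
    rw [IsScalarTower.algebraMap_eq O D (FractionRing D)]
    exact (IsFractionRing.injective D (FractionRing D)).comp hinj
  have hfa0 : FaithfulSMul O D := (faithfulSMul_iff_algebraMap_injective _ _).2 hinj
  have hfa : FaithfulSMul O (FractionRing D) := (faithfulSMul_iff_algebraMap_injective _ _).2 hinj'
  let _ : Algebra (FractionRing O) (FractionRing D) := FractionRing.liftAlgebra O (FractionRing D)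
  have ht : IsScalarTower O (FractionRing O) (FractionRing D) :=
    FractionRing.isScalarTower_liftAlgebra O _
  have hess : Algebra.EssFiniteType O (FractionRing D) :=
    have : Algebra.EssFiniteType D (FractionRing D) :=
      Algebra.EssFiniteType.of_isLocalization _ (nonZeroDivisors D)
    Algebra.EssFiniteType.comp O D (FractionRing D)
  have hess2 : Algebra.EssFiniteType (FractionRing O) (FractionRing D) :=
    Algebra.EssFiniteType.of_comp O (FractionRing O) _
  have ha1 : Algebra.IsAlgebraic D (FractionRing D) :=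
    IsLocalization.isAlgebraic _ (nonZeroDivisors D)
  have ha2 : Algebra.IsAlgebraic O (FractionRing D) := Algebra.IsAlgebraic.trans _ D _
  have ha3 : Algebra.IsAlgebraic (FractionRing O) (FractionRing D) :=
    Algebra.IsAlgebraic.extendScalars (R := O) (IsFractionRing.injective O (FractionRing O))
  have hcz : CharZero (FractionRing O) := inferInstance
  have hfd : FiniteDimensional (FractionRing O) (FractionRing D) :=
    Algebra.finite_of_essFiniteType_of_isAlgebraic
  exact GNRM_.sep O (FractionRing O) D (FractionRing D)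

/-- both cases -/
theorem GNRM_.nrm {O A : Type u} [CommRing O] [IsDedekindDomain O] [CharZero O] [CommRing A]
    [IsDomain A] [Algebra O A] [Algebra.FiniteType O A]
    (hfin : ∀ 𝔮 : Ideal O, 𝔮.IsMaximal → Finite (O ⧸ 𝔮)) (ht : Algebra.trdeg O A ≤ 1)
    (𝔭 : Ideal A) [𝔭.IsPrime] (h𝔭 : 𝔭 ≠ ⊥) (hdim : Ring.DimensionLEOne (A ⧸ 𝔭)) :
    Module.Finite (A ⧸ 𝔭) (integralClosure (A ⧸ 𝔭) (FractionRing (A ⧸ 𝔭))) := by
  have hft : Algebra.FiniteType O (A ⧸ 𝔭) :=
    Algebra.FiniteType.of_surjective (Ideal.Quotient.mkₐ O 𝔭) (Ideal.Quotient.mkₐ_surjective O 𝔭)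
  by_cases hinj : Function.Injective (algebraMap O (A ⧸ 𝔭))
  · have hal := GNRM_.alg ht 𝔭 h𝔭
    exact GNRM_.hor O (A ⧸ 𝔭) hinj
  · let 𝔮 : Ideal O := RingHom.ker (algebraMap O (A ⧸ 𝔭))
    have h1 : 𝔮.IsPrime := RingHom.ker_isPrime _
    have h2 : 𝔮 ≠ ⊥ := fun h => hinj ((RingHom.injective_iff_ker_eq_bot _).2 h)
    have h3 : 𝔮.IsMaximal := h1.isMaximal h2
    let _ : Field (O ⧸ 𝔮) := Ideal.Quotient.field 𝔮
    have h4 : Finite (O ⧸ 𝔮) := hfin 𝔮 h3
    let _ : Algebra (O ⧸ 𝔮) (A ⧸ 𝔭) :=
      (Ideal.Quotient.lift 𝔮 (algebraMap O (A ⧸ 𝔭)) (fun a ha => ha)).toAlgebra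
    have h5 : IsScalarTower O (O ⧸ 𝔮) (A ⧸ 𝔭) := IsScalarTower.of_algebraMap_eq fun x => rfl
    have h6 : Algebra.FiniteType (O ⧸ 𝔮) (A ⧸ 𝔭) :=
      Algebra.FiniteType.of_restrictScalars_finiteType O (O ⧸ 𝔮) (A ⧸ 𝔭)
    exact GNRM_.fin (O ⧸ 𝔮) (A ⧸ 𝔭)

/-- the transcendence degree of a finitely generated domain in a function field in one variable -/
theorem GNRM_.tr (O F K : Type u) [CommRing O] [IsDedekindDomain O] [Field F] [CharZero F]
    [Algebra O F] [IsFractionRing O F] [Field K] [Algebra F K] [Algebra O K] [IsScalarTower O F K]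
    (h : Algebra.trdeg F K ≤ 1) (A : Subalgebra O K) : Algebra.trdeg O A ≤ 1 := by
  have hinjF : Function.Injective (algebraMap O F) := IsFractionRing.injective O F
  have hinjK : Function.Injective (algebraMap O K) := by
    rw [IsScalarTower.algebraMap_eq O F K]
    exact (algebraMap F K).injective.comp hinjF
  have hf1 : FaithfulSMul O F := (faithfulSMul_iff_algebraMap_injective _ _).2 hinjF
  have hf2 : FaithfulSMul O K := (faithfulSMul_iff_algebraMap_injective _ _).2 hinjK
  have ha : Algebra.IsAlgebraic O F := IsLocalization.isAlgebraic F (nonZeroDivisors O)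
  have h1 : Algebra.trdeg O K ≤ 1 := by
    rw [← trdeg_add_eq O F (A := K), trdeg_eq_zero (R := O) (A := F), zero_add]
    exact h
  refine le_trans ?_ h1
  exact trdeg_le_of_injective A.val Subtype.val_injective

/-- finiteness of the normalization passes to localizations of domains -/
theorem GNRM_.dom (D E : Type u) [CommRing D] [IsDomain D] [CommRing E] [IsDomain E] [Algebra D E]
    (hinj : Function.Injective (algebraMap D E))
    (hs : ∀ e : E, ∃ d m : D, IsUnit (algebraMap D E m) ∧ e * algebraMap D E m = algebraMap D E d)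
    (h : Module.Finite D (integralClosure D (FractionRing D))) :
    Module.Finite E (integralClosure E (FractionRing E)) := by
  classical
  have hinjE : Function.Injective (algebraMap E (FractionRing E)) :=
    IsFractionRing.injective E (FractionRing E)
  have hinjD : Function.Injective (algebraMap D (FractionRing E)) := by
    rw [IsScalarTower.algebraMap_eq D E (FractionRing E)]
    exact hinjE.comp hinj
  have hf : FaithfulSMul D (FractionRing E) := (faithfulSMul_iff_algebraMap_injective _ _).2 hinjD
  have hfr : IsFractionRing D (FractionRing E) := by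
    refine IsFractionRing.of_field D (FractionRing E) fun z => ?_
    obtain ⟨a, b, hb, rfl⟩ := IsFractionRing.div_surjective (A := E) z
    obtain ⟨d, m, hm, hd⟩ := hs a
    obtain ⟨d', m', hm', hd'⟩ := hs b
    have hb0 : algebraMap E (FractionRing E) b ≠ 0 := by
      rw [Ne, FaithfulSMul.algebraMap_eq_zero_iff]
      exact nonZeroDivisors.ne_zero hb
    have hm0 : algebraMap D (FractionRing E) m ≠ 0 := by
      rw [IsScalarTower.algebraMap_apply D E (FractionRing E)]
      exact (hm.map (algebraMap E (FractionRing E))).ne_zero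
    have hm0' : algebraMap D (FractionRing E) m' ≠ 0 := by
      rw [IsScalarTower.algebraMap_apply D E (FractionRing E)]
      exact (hm'.map (algebraMap E (FractionRing E))).ne_zero
    have e1 : algebraMap E (FractionRing E) a * algebraMap D (FractionRing E) m =
        algebraMap D (FractionRing E) d := by
      rw [IsScalarTower.algebraMap_apply D E (FractionRing E), ← map_mul, hd,
        ← IsScalarTower.algebraMap_apply]
    have e2 : algebraMap E (FractionRing E) b * algebraMap D (FractionRing E) m' =
        algebraMap D (FractionRing E) d' := by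
      rw [IsScalarTower.algebraMap_apply D E (FractionRing E), ← map_mul, hd',
        ← IsScalarTower.algebraMap_apply]
    refine ⟨d * m', d' * m, ?_⟩
    rw [map_mul, map_mul, ← e1, ← e2]
    field_simp
  have h1 : Module.Finite D (integralClosure D (FractionRing E)) :=
    Module.Finite.equiv
      (AlgEquiv.mapIntegralClosure (FractionRing.algEquiv D (FractionRing E))).toLinearEquiv
  let M : Submonoid D := (IsUnit.submonoid E).comap (algebraMap D E)
  have hloc : IsLocalization M E := by
    refine ⟨fun m => m.2, fun e => ?_, fun {x y} hxy => ⟨1, by rw [hinj hxy]⟩⟩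
    obtain ⟨d, m, hm, hd⟩ := hs e
    exact ⟨(d, ⟨m, hm⟩), hd⟩
  obtain ⟨S, hS⟩ := h1.fg_top
  have hint : ∀ b : integralClosure D (FractionRing E), IsIntegral E (b : FractionRing E) := by
    intro b
    have h2 : IsIntegral D (b : FractionRing E) := b.2
    exact h2.tower_top
  have hspan : ∀ b : integralClosure D (FractionRing E), (b : FractionRing E) ∈ Submodule.span E
      ((S.image (fun b : integralClosure D (FractionRing E) => (b : FractionRing E)) : Finset _) :
        Set (FractionRing E)) := by
    intro b
    have hb : b ∈ Submodule.span D (S : Set (integralClosure D (FractionRing E))) := by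
      rw [hS]; trivial
    refine Submodule.span_induction
      (p := fun (x : integralClosure D (FractionRing E)) _ => (x : FractionRing E) ∈
        Submodule.span E ((S.image (fun b : integralClosure D (FractionRing E) =>
          (b : FractionRing E)) : Finset _) : Set (FractionRing E))) ?_ ?_ ?_ ?_ hb
    · intro x hx
      refine Submodule.subset_span ?_
      rw [Finset.coe_image]
      exact ⟨x, hx, rfl⟩
    · exact Submodule.zero_mem _
    · intro x z _ _ hx hz
      exact Submodule.add_mem _ hx hz
    · intro c x _ hx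
      have e : ((c • x : integralClosure D (FractionRing E)) : FractionRing E) =
          algebraMap D E c • (x : FractionRing E) := by
        rw [algebraMap_smul]
        rfl
      rw [e]
      exact Submodule.smul_mem _ _ hx
  refine Module.Finite.of_fg (N := (integralClosure E (FractionRing E)).toSubmodule)
    ⟨S.image (fun b : integralClosure D (FractionRing E) => (b : FractionRing E)), ?_⟩
  apply le_antisymm
  · rw [Submodule.span_le]
    intro x hx
    rw [Finset.coe_image] at hx
    obtain ⟨b, -, rfl⟩ := hx
    exact hint b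
  · intro x hx
    have hx' : IsIntegral E x := hx
    obtain ⟨m, hm⟩ := IsIntegral.exists_multiple_integral_of_isLocalization M x hx'
    have hu : IsUnit (algebraMap D E m) := m.2
    obtain ⟨u, hu'⟩ := hu
    have e : x = (↑u⁻¹ : E) • (m • x) := by
      have e1 : m • x = (u : E) • x := by
        rw [hu', Submonoid.smul_def, algebraMap_smul]
      rw [e1, smul_smul, Units.inv_mul, one_smul]
    rw [e]
    exact Submodule.smul_mem _ _ (hspan ⟨m • x, hm⟩)

/-- finiteness of the normalization localizes -/
theorem GNRM_.loc {A B : Type u} [CommRing A] [CommRing B] [Algebra A B]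
    (hs : ∀ e : B, ∃ d m : A, IsUnit (algebraMap A B m) ∧ e * algebraMap A B m = algebraMap A B d)
    (𝔭 : Ideal B) [𝔭.IsPrime]
    (h : Module.Finite (A ⧸ 𝔭.comap (algebraMap A B))
      (integralClosure (A ⧸ 𝔭.comap (algebraMap A B)) (FractionRing (A ⧸ 𝔭.comap (algebraMap A B))))) :
    Module.Finite (B ⧸ 𝔭) (integralClosure (B ⧸ 𝔭) (FractionRing (B ⧸ 𝔭))) := by
  let _ : Algebra (A ⧸ 𝔭.comap (algebraMap A B)) (B ⧸ 𝔭) :=
    (Ideal.quotientMap 𝔭 (algebraMap A B) le_rfl).toAlgebra
  have hcomm : ∀ a : A, algebraMap (A ⧸ 𝔭.comap (algebraMap A B)) (B ⧸ 𝔭)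
      (Ideal.Quotient.mk _ a) = Ideal.Quotient.mk 𝔭 (algebraMap A B a) := fun a =>
    Ideal.quotientMap_mk
  refine GNRM_.dom (A ⧸ 𝔭.comap (algebraMap A B)) (B ⧸ 𝔭) ?_ ?_ h
  · exact Ideal.quotientMap_injective' (le_refl _)
  · intro e
    obtain ⟨e, rfl⟩ := Ideal.Quotient.mk_surjective e
    obtain ⟨d, m, hm, hd⟩ := hs e
    refine ⟨Ideal.Quotient.mk _ d, Ideal.Quotient.mk _ m, ?_, ?_⟩
    · rw [hcomm]
      exact hm.map (Ideal.Quotient.mk 𝔭)
    · rw [hcomm, hcomm, ← hd, map_mul]

/-- NRM: finiteness of the normalization of curves on arithmetic surfaces. -/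
theorem t_NRM : S_nrm.{u} := by
  intro O F K _ _ _ _ _ _ _ _ _ _ hfin htr A hA 𝔭 h𝔭 h0 hdim
  have hinjF : Function.Injective (algebraMap O F) := IsFractionRing.injective O F
  have hcz : CharZero O := by
    refine ⟨fun a b hab => ?_⟩
    have h1 := congrArg (algebraMap O F) hab
    rw [map_natCast, map_natCast] at h1
    exact_mod_cast h1
  exact GNRM_.nrm (O := O) (A := A) hfin (GNRM_.tr O F K htr A) 𝔭 h0 hdim

/-- NRL: finiteness of the normalization localizes. -/
theorem t_NRL : S_nrl.{u} := by
  intro K _ A S hS hAS h 𝔭 h𝔭 h0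
  let _ : Algebra A (lo S A) := (Subring.inclusion (le_lo S A)).toAlgebra
  have hmap : ∀ a : A, ((algebraMap A (lo S A) a : lo S A) : K) = a := fun a => rfl
  have hs : ∀ e : lo S A, ∃ d m : A, IsUnit (algebraMap A (lo S A) m) ∧
      e * algebraMap A (lo S A) m = algebraMap A (lo S A) d := by
    rintro ⟨e, a, ha, b, hb, hb0, hbS, rfl⟩
    refine ⟨⟨a, ha⟩, ⟨b, hb⟩, ?_, ?_⟩
    · refine IsUnit.of_mul_eq_one ⟨b⁻¹, 1, A.one_mem, b, hb, hb0, hbS, (one_mul _).symm⟩ ?_
      exact Subtype.ext (mul_inv_cancel₀ hb0)
    · refine Subtype.ext ?_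
      change a * b⁻¹ * b = a
      rw [mul_assoc, inv_mul_cancel₀ hb0, mul_one]
  refine GNRM_.loc hs 𝔭 (h _ ?_)
  intro hbot
  obtain ⟨e, he, he0⟩ := Submodule.exists_mem_ne_zero_of_ne_bot h0
  obtain ⟨d, m, hm, hd⟩ := hs e
  have h1 : d ∈ 𝔭.comap (algebraMap A (lo S A)) := by
    rw [Ideal.mem_comap, ← hd]
    exact 𝔭.mul_mem_right _ he
  rw [hbot, Ideal.mem_bot] at h1
  rw [h1, map_zero] at hd
  exact he0 ((mul_eq_zero.1 hd).resolve_right hm.ne_zero)

end Pool.Agent.N808.AS
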