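import Pool.Agent.N808.AS.Stm

/-!
Log resolution on arithmetic surfaces: localization of the charts, isolation of a point (helper322).
-/

set_option autoImplicit false
set_option linter.unusedVariables false

universe u

open Pool.Agent.W418.LU2 Pool.Agent.N98.T2 Pool.Agent.N98.RM Polynomial

namespace Pool.Agent.N808.AS

namespace ISO_

section pm

variable {k K : Type u} [CommRing k] [Field K] [Algebra k K] {T I : Type} (M : PM k K T I)

lemma gl_mono {t t' : T} {f : K} {n m : ℕ} (hnm : n ≤ m)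
    (h : (M.H t' / M.H t) ^ n * f ∈ M.A t) : (M.H t' / M.H t) ^ m * f ∈ M.A t := by
  obtain ⟨e, rfl⟩ := Nat.exists_eq_add_of_le hnm
  rw [add_comm, pow_add, mul_assoc]
  exact (M.A t).mul_mem ((M.A t).pow_mem (M.rt t t') e) h

/-- A common exponent. -/
lemma exists_N [Finite T] [Finite I] : ∃ N : ℕ, ∀ n, N ≤ n →
    ∀ t t' i, (M.H t' / M.H t) ^ n * (M.x t' i / M.x t i) ∈ M.A t := by
  classical
  have : Fintype T := Fintype.ofFinite T
  have : Fintype I := Fintype.ofFinite I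
  choose n hn using M.gi
  refine ⟨Finset.univ.sup fun p : T × T × I => n p.1 p.2.1 p.2.2, fun N hN t t' i => ?_⟩
  refine gl_mono M ?_ (hn t t' i)
  have h1 : n t t' i ≤ Finset.univ.sup fun p : T × T × I => n p.1 p.2.1 p.2.2 :=
    Finset.le_sup (f := fun p : T × T × I => n p.1 p.2.1 p.2.2) (Finset.mem_univ (t, t', i))
  omega

/-- A common exponent for a family of elements. -/
lemma exists_N' [Finite T] {Q : Type} [Finite Q] (π : Q → T) (h : Q → K)
    (hh : ∀ q, h q ∈ M.A (π q)) :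
    ∃ N : ℕ, ∀ n, N ≤ n → ∀ t q, (M.H (π q) / M.H t) ^ n * h q ∈ M.A t := by
  classical
  have : Fintype T := Fintype.ofFinite T
  have : Fintype Q := Fintype.ofFinite Q
  choose n hn using fun t q => M.gl t (π q) _ (hh q)
  refine ⟨Finset.univ.sup fun p : T × Q => n p.1 p.2, fun N hN t q => ?_⟩
  refine gl_mono M ?_ (hn t q)
  have h1 : n t q ≤ Finset.univ.sup fun p : T × Q => n p.1 p.2 :=
    Finset.le_sup (f := fun p : T × Q => n p.1 p.2) (Finset.mem_univ (t, q))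
  omega

variable {Q : Type} (π : Q → T) (h : Q → K)

/-- The charts. -/
noncomputable def qA (p : Q) : Subalgebra k K := adj (M.A (π p)) (h p)⁻¹

lemma le_qA (p : Q) : M.A (π p) ≤ qA M π h p := le_adj _ _

lemma inv_mem_qA (p : Q) : (h p)⁻¹ ∈ qA M π h p := self_mem_adj _ _

/-- The homogeneous coordinates. -/
noncomputable def qH (N : ℕ) (p : Q) : K := M.H (π p) ^ N * h p

end pm

end ISO_

open ISO_ in
/-- LOC -/
theorem t_LOC : S_loc.{u} := by
  intro k K _ _ _ T I _ _ M Q _ π h hmem hne hcov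
  obtain ⟨N1, hN1⟩ := exists_N M
  obtain ⟨N2, hN2⟩ := exists_N' M π h hmem
  let N0 := N1 + N2
  let N : ℕ := N0 + 1
  have hH0 : ∀ p : Q, qH M π h N p ≠ 0 := fun p =>
    mul_ne_zero (pow_ne_zero _ (M.H0 _)) (hne _)
  have hinv := inv_mem_qA M π h
  have hq : ∀ (p p' : Q) (n : ℕ), N0 ≤ n →
      (M.H (π p') / M.H (π p)) ^ n * (h p' / h p) ∈ qA M π h p := by
    intro p p' n hn
    rw [div_eq_mul_inv (h p'), ← mul_assoc]
    exact (qA M π h p).mul_mem (le_qA M π h p (hN2 n (by omega) _ _)) (hinv p)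
  have hρ : ∀ p p' : Q, qH M π h N p' / qH M π h N p =
      (M.H (π p') / M.H (π p)) * ((M.H (π p') / M.H (π p)) ^ N0 * (h p' / h p)) := by
    intro p p'
    rw [qH, qH, show N = N0 + 1 from rfl, pow_succ, pow_succ]
    have h1 := M.H0 (π p)
    have h2 := hne p
    rw [div_pow]
    field_simp
  have hρmem : ∀ p p' : Q, qH M π h N p' / qH M π h N p ∈ qA M π h p := by
    intro p p'
    rw [hρ]
    exact (qA M π h p).mul_mem (le_qA M π h p (M.rt _ _)) (hq p p' _ le_rfl)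
  have hgl : ∀ p p' : Q, ∀ f ∈ qA M π h p', ∃ n : ℕ,
      (qH M π h N p' / qH M π h N p) ^ n * f ∈ qA M π h p := by
    intro p p' f hf
    refine adj_induction (M.A (π p')) (h p')⁻¹
      (p := fun f => ∃ n : ℕ, (qH M π h N p' / qH M π h N p) ^ n * f ∈ qA M π h p) ?_ ?_ ?_ f hf
    · intro a ha
      obtain ⟨n, hn⟩ := M.gl (π p) (π p') a ha
      refine ⟨n, ?_⟩
      rw [hρ, mul_pow, mul_right_comm]
      exact (qA M π h p).mul_mem (le_qA M π h p hn) ((qA M π h p).pow_mem (hq p p' _ le_rfl) n)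
    · rintro a b ⟨n, hn⟩ ⟨m, hm⟩
      refine ⟨n + m, ?_⟩
      have h1 : (qH M π h N p' / qH M π h N p) ^ (n + m) * (a + b) =
          (qH M π h N p' / qH M π h N p) ^ m * ((qH M π h N p' / qH M π h N p) ^ n * a) +
          (qH M π h N p' / qH M π h N p) ^ n * ((qH M π h N p' / qH M π h N p) ^ m * b) := by
        ring
      rw [h1]
      exact (qA M π h p).add_mem
        ((qA M π h p).mul_mem ((qA M π h p).pow_mem (hρmem p p') m) hn)
        ((qA M π h p).mul_mem ((qA M π h p).pow_mem (hρmem p p') n) hm)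
    · rintro a ⟨n, hn⟩
      refine ⟨n + 1, ?_⟩
      have h1 : (qH M π h N p' / qH M π h N p) ^ (n + 1) * (a * (h p')⁻¹) =
          (qH M π h N p' / qH M π h N p) ^ n * a *
          (qH M π h N p' / qH M π h N p * (h p')⁻¹) := by ring
      rw [h1]
      refine (qA M π h p).mul_mem hn ?_
      have h2 : qH M π h N p' / qH M π h N p * (h p')⁻¹ =
          (M.H (π p') / M.H (π p)) ^ N * (h p)⁻¹ := by
        rw [qH, qH]
        have h1 := M.H0 (π p)
        have h2 := hne p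
        have h4 := hne p'
        rw [div_pow]
        field_simp
      rw [h2]
      exact (qA M π h p).mul_mem ((qA M π h p).pow_mem (le_qA M π h p (M.rt _ _)) _) (hinv p)
  refine ⟨{ A := qA M π h, H := qH M π h N, x := fun p => M.x (π p),
            ft := fun p => ?_, H0 := hH0,
            rt := hρmem, gl := hgl, cv := ?_,
            xA := fun p i => le_qA M π h p (M.xA (π p) i),
            x0 := fun p => M.x0 (π p), gi := ?_ }, rfl, rfl, N, fun p => rfl⟩
  · exact ft_adj (M.ft (π p)) _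
  · intro V hV
    obtain ⟨q, hq1, hq2⟩ := hcov V hV
    exact ⟨q, adj_induction (M.A (π q)) (h q)⁻¹ hq1 (fun a b ha hb => V.add_mem _ _ ha hb)
        (fun a ha => V.mul_mem _ _ ha hq2)⟩
  · intro p p' i
    refine ⟨N1, ?_⟩
    rw [hρ, mul_pow, mul_right_comm]
    exact (qA M π h p).mul_mem (le_qA M π h p (hN1 N1 le_rfl _ _ _))
      ((qA M π h p).pow_mem (hq p p' _ le_rfl) N1)

namespace ISO_

section nu

variable {K : Type u} [Field K]

/-- `x` is an element of the local ring `S` and not a unit. -/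
def Nu (S : Subring K) (x : K) : Prop := x ∈ S ∧ (x = 0 ∨ x⁻¹ ∉ S)

lemma Nu.zero (S : Subring K) : Nu S 0 := ⟨S.zero_mem, Or.inl rfl⟩

lemma ne_of_inv {S : Subring K} {x : K} (h : x⁻¹ ∉ S) : x ≠ 0 := by
  rintro rfl
  rw [inv_zero] at h
  exact h S.zero_mem

lemma Nu.mul {S : Subring K} {r x : K} (hr : r ∈ S) (hx : Nu S x) : Nu S (r * x) := by
  refine ⟨S.mul_mem hr hx.1, ?_⟩
  rcases hx.2 with rfl | h
  · left; rw [mul_zero]
  · by_cases h0 : r * x = 0
    · exact Or.inl h0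
    · right
      intro h1
      apply h
      have hr0 : r ≠ 0 := left_ne_zero_of_mul h0
      have hx0 : x ≠ 0 := right_ne_zero_of_mul h0
      have e : x⁻¹ = r * (r * x)⁻¹ := by field_simp
      rw [e]
      exact S.mul_mem hr h1

lemma Nu.add {S : Subring K} (hS : Loc S) {x y : K} (hx : Nu S x) (hy : Nu S y) :
    Nu S (x + y) := by
  refine ⟨S.add_mem hx.1 hy.1, ?_⟩
  by_cases h0 : x + y = 0
  · exact Or.inl h0
  right
  intro h1
  have hxs : x * (x + y)⁻¹ ∈ S := S.mul_mem hx.1 h1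
  rcases hS _ hxs with ⟨h2, h3⟩ | ⟨h2, h3⟩
  · have hx0 : x ≠ 0 := left_ne_zero_of_mul h2
    rcases hx.2 with h4 | h4
    · exact hx0 h4
    · apply h4
      have e : x⁻¹ = (x * (x + y)⁻¹)⁻¹ * (x + y)⁻¹ := by field_simp
      rw [e]
      exact S.mul_mem h3 h1
  · have e1 : 1 - x * (x + y)⁻¹ = y * (x + y)⁻¹ := by field_simp; ring
    rw [e1] at h2 h3
    have hy0 : y ≠ 0 := left_ne_zero_of_mul h2
    rcases hy.2 with h4 | h4
    · exact hy0 h4
    · apply h4
      have e : y⁻¹ = (y * (x + y)⁻¹)⁻¹ * (x + y)⁻¹ := by field_simp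
      rw [e]
      exact S.mul_mem h3 h1

lemma Nu.inv {S : Subring K} {x : K} (hx : Nu S x) (h0 : x ≠ 0) : x⁻¹ ∉ S :=
  hx.2.resolve_left h0

variable {k : Type u} [CommRing k] [Algebra k K]

/-- Generators of the prime ideal of a centre. -/
lemma gens [IsNoetherianRing k] (A : Subalgebra k K) (hft : Algebra.FiniteType k A)
    {S0 : Subring K} (hS0 : Loc S0) (hle : A.toSubring ≤ S0) :
    ∃ (n : ℕ) (a : Fin n → K), (∀ l, a l ∈ A ∧ (a l)⁻¹ ∉ S0) ∧
      ∀ p : K → Prop, p 0 → (∀ x y, p x → p y → p (x + y)) →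
        (∀ r ∈ A, ∀ x, p x → p (r * x)) → (∀ l, p (a l)) → ∀ c ∈ A, c⁻¹ ∉ S0 → p c := by
  classical
  have hN : IsNoetherianRing A := Algebra.FiniteType.isNoetherianRing k A
  let J : Ideal A :=
    { carrier := {a | Nu S0 (a : K)}
      add_mem' := fun {a b} ha hb => Nu.add hS0 ha hb
      zero_mem' := Nu.zero S0
      smul_mem' := fun r a ha => Nu.mul (hle r.2) ha }
  obtain ⟨s, hs⟩ : J.FG := IsNoetherian.noetherian J
  let s' : Finset A := s.filter fun a => a ≠ 0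
  have hs' : Ideal.span (s' : Set A) = J := by
    rw [← hs]
    apply le_antisymm
    · exact Ideal.span_mono (by
        intro a ha
        exact (Finset.mem_filter.1 ha).1)
    · rw [Ideal.span_le]
      intro a ha
      by_cases h0 : a = 0
      · rw [h0]
        exact Ideal.zero_mem _
      · exact Ideal.subset_span (Finset.mem_filter.2 ⟨ha, h0⟩)
  have hJ : ∀ a ∈ s', a ∈ J := fun a ha => by
    rw [← hs']
    exact Ideal.subset_span ha
  refine ⟨s'.card, fun l => ((s'.equivFin.symm l : s') : A), fun l => ⟨?_, ?_⟩, ?_⟩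
  · exact ((s'.equivFin.symm l : s') : A).2
  · have h1 : Nu S0 ((((s'.equivFin.symm l : s') : A)) : K) := hJ _ (s'.equivFin.symm l).2
    apply h1.inv
    intro h0
    have h2 := (Finset.mem_filter.1 (s'.equivFin.symm l).2).2
    exact h2 (Subtype.ext h0)
  · intro p h0 hadd hmul hp c hc hcS
    have hcJ : (⟨c, hc⟩ : A) ∈ J := ⟨hle hc, Or.inr hcS⟩
    rw [← hs'] at hcJ
    have key : ∀ x : A, x ∈ Ideal.span (s' : Set A) → p (x : K) := by
      intro x hx
      induction hx using Submodule.span_induction with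
      | mem x hx =>
        have h1 := hp (s'.equivFin ⟨x, hx⟩)
        change p (((s'.equivFin.symm (s'.equivFin ⟨x, hx⟩) : s') : A) : K) at h1
        rw [Equiv.symm_apply_apply] at h1
        exact h1
      | zero => exact h0
      | add x y _ _ hx hy => exact hadd _ _ hx hy
      | smul r x _ hx => exact hmul _ r.2 _ hx
    exact key _ hcJ

/-- A common denominator. -/
lemma common (A : Subalgebra k K) (S0 : Subring K) {J : Type} [Finite J] (p : J → K)
    (hp : ∀ j, p j ∈ lo S0 A.toSubring) :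
    ∃ g ∈ A, g ≠ 0 ∧ g⁻¹ ∈ S0 ∧ ∀ j, p j ∈ adj A g⁻¹ := by
  classical
  have : Fintype J := Fintype.ofFinite J
  choose c hc d hd hd0 hdS hcd using hp
  refine ⟨∏ j, d j, A.prod_mem fun j _ => hd j, Finset.prod_ne_zero_iff.2 fun j _ => hd0 j, ?_, ?_⟩
  · rw [← Finset.prod_inv_distrib]
    exact S0.prod_mem fun j _ => hdS j
  · intro j
    have h1 : ∏ i, d i = d j * ∏ i ∈ Finset.univ.erase j, d i :=
      (Finset.mul_prod_erase _ _ (Finset.mem_univ j)).symm
    have h2 : ∏ i ∈ Finset.univ.erase j, d i ≠ 0 := Finset.prod_ne_zero_iff.2 fun i _ => hd0 i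
    have e : p j = c j * (∏ i ∈ Finset.univ.erase j, d i) * (∏ i, d i)⁻¹ := by
      rw [hcd j, h1]
      have := hd0 j
      field_simp
    rw [e]
    exact (adj A _).mul_mem (le_adj _ _ (A.mul_mem (hc j) (A.prod_mem fun i _ => hd i)))
      (self_mem_adj _ _)

lemma adj_le_sub (A : Subalgebra k K) {S : Subring K} {g : K} (hA : A.toSubring ≤ S)
    (hg : g ∈ S) : (adj A g).toSubring ≤ S := by
  rw [adj_toSubring, Subring.closure_le]
  rintro a (rfl | ha)
  · exact hg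
  · exact hA ha

/-- The local rings of a localization. -/
lemma lo_adj (A : Subalgebra k K) {S : Subring K} {g : K} (hg : g ∈ A) (hg0 : g ≠ 0)
    (hS : (adj A g⁻¹).toSubring ≤ S) : lo S (adj A g⁻¹).toSubring = lo S A.toSubring := by
  have hA : A.toSubring ≤ S := le_trans (le_adj A g⁻¹) hS
  refine lo_eq_of hA (le_adj A g⁻¹) ?_
  rw [adj_toSubring]
  exact closure_le_lo (inv_mem_lo hA (le_lo _ _ hg) hg0 (hS (self_mem_adj _ _)))

end nu

section pm2

variable {k K : Type u} [CommRing k] [Field K] [Algebra k K] {T I : Type} (M : PM k K T I)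

/-- If the ratio is a unit then the centre is on the chart. -/
lemma le_of_unit {t t' : T} {S : Subring K} (ht : (M.A t).toSubring ≤ S)
    (hu : (M.H t' / M.H t)⁻¹ ∈ S) : (M.A t').toSubring ≤ S := by
  intro f hf
  obtain ⟨n, hn⟩ := M.gl t t' f hf
  have h0 : M.H t' / M.H t ≠ 0 := div_ne_zero (M.H0 _) (M.H0 _)
  have e : f = (M.H t' / M.H t)⁻¹ ^ n * ((M.H t' / M.H t) ^ n * f) := by
    rw [← mul_assoc, ← mul_pow, inv_mul_cancel₀ h0, one_pow, one_mul]
  rw [e]
  exact S.mul_mem (S.pow_mem hu n) (ht hn)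

lemma P_le {t t' : T} {S : Subring K} (ht : (M.A t).toSubring ≤ S)
    (ht' : (M.A t').toSubring ≤ S) : M.P t S ≤ M.P t' S := by
  have h1 : (M.A t).toSubring ≤ lo S (M.A t').toSubring := by
    intro f hf
    obtain ⟨n, hn⟩ := M.gl t' t f hf
    have h0 : M.H t / M.H t' ≠ 0 := div_ne_zero (M.H0 _) (M.H0 _)
    refine ⟨_, hn, (M.H t / M.H t') ^ n, (M.A t').pow_mem (M.rt t' t) n, pow_ne_zero _ h0, ?_, ?_⟩
    · rw [← inv_pow, inv_div]
      exact S.pow_mem (ht (M.rt t t')) n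
    · rw [mul_comm ((M.H t / M.H t') ^ n) f, mul_assoc, mul_inv_cancel₀ (pow_ne_zero _ h0), mul_one]
  exact (lo_mono h1).trans (lo_lo ht').le

lemma P_eq {t t' : T} {S : Subring K} (ht : (M.A t).toSubring ≤ S)
    (ht' : (M.A t').toSubring ≤ S) : M.P t S = M.P t' S :=
  le_antisymm (P_le M ht ht') (P_le M ht' ht)

end pm2

end ISO_

open ISO_ in
/-- ISO -/
theorem t_ISO (hloc : S_loc.{u}) : S_iso.{u} := by
  classical
  intro k K _ _ _ _ T I _ _ M b S0 t1 hon u v hu hv hu0 hv0 huS hvS hgen hcl hbd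
  obtain ⟨hL, hle⟩ := hon
  -- the generators
  have hG : ∀ t : T, ∃ (n : ℕ) (a : Fin n → K), (∀ l, a l ∈ M.A t ∧ a l ≠ 0) ∧
      (∀ l, ¬ ((adj (M.A t) (a l)⁻¹).toSubring ≤ S0)) ∧
      (∀ V : ValuationSubring K, (M.A t).toSubring ≤ V.toSubring → (∃ l, (a l)⁻¹ ∈ V) ∨
        M.P t1 S0 ≤ V.toSubring) ∧
      (t = t1 → (∀ l, (a l)⁻¹ ∉ S0) ∧ ∀ p : K → Prop, p 0 → (∀ x y, p x → p y → p (x + y)) →
        (∀ r ∈ M.A t, ∀ x, p x → p (r * x)) → (∀ l, p (a l)) → ∀ c ∈ M.A t, c⁻¹ ∉ S0 → p c) := by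
    intro t
    by_cases ht : (M.A t).toSubring ≤ S0
    · obtain ⟨n, a, ha, hp⟩ := gens (M.A t) (M.ft t) hL ht
      refine ⟨n, a, fun l => ⟨(ha l).1, ne_of_inv (ha l).2⟩, fun l h1 => ?_, fun V hV => ?_,
        fun _ => ⟨fun l => (ha l).2, hp⟩⟩
      · exact (ha l).2 (h1 (self_mem_adj _ _))
      · by_cases hex : ∃ l, (a l)⁻¹ ∈ V
        · exact Or.inl hex
        right
        push Not at hex
        have hLV : Loc V.toSubring := loc_val V
        have h1 : ∀ c ∈ M.A t, c⁻¹ ∉ S0 → Nu V.toSubring c :=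
          hp (Nu V.toSubring) (Nu.zero _) (fun x y hx hy => hx.add hLV hy)
            (fun r hr x hx => hx.mul (hV hr))
            (fun l => ⟨hV (ha l).1, Or.inr (hex l)⟩)
        have h2 := hcl t ⟨hL, ht⟩ V.toSubring ⟨hLV, hV⟩
          (fun c hc hcS => (h1 c hc hcS).inv (ne_of_inv hcS))
        have h3 : M.P t1 S0 = M.P t V.toSubring := by
          rw [h2]
          exact P_eq M hle ht
        rw [h3]
        exact lo_le hV
    · refine ⟨1, fun _ => 1, fun _ => ⟨(M.A t).one_mem, one_ne_zero⟩, fun _ h1 => ?_,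
        fun V hV => ?_, fun h1 => ?_⟩
      · exact ht (le_trans (le_adj _ _) h1)
      · left
        refine ⟨0, ?_⟩
        rw [inv_one]
        exact V.one_mem
      · rw [h1] at ht
        exact absurd hle ht
  choose n a ha1 ha2 ha3 ha4 using hG
  obtain ⟨hb1, hb2⟩ := ha4 t1 rfl
  -- the denominator
  have hle' : M.P t1 S0 ≤ S0 := lo_le hle
  have hcoef : ∀ l : Fin (n t1), ∃ α ∈ M.P t1 S0, ∃ β ∈ M.P t1 S0, a t1 l = α * u + β * v :=
    fun l => hgen _ (le_lo _ _ (ha1 t1 l).1) (hb1 l)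
  choose α hα β hβ hαβ using hcoef
  obtain ⟨g, hgA, hg0, hgS, hg⟩ := common (M.A t1) S0
    (J := (Fin (n t1) ⊕ Fin (n t1)) ⊕ {i : I // (M.x t1 i)⁻¹ ∈ S0})
    (Sum.elim (Sum.elim α β) fun i => (M.x t1 i.1)⁻¹) (by
      rintro ((l | l) | i)
      · exact hα l
      · exact hβ l
      · exact inv_mem_lo hle (le_lo _ _ (M.xA t1 i.1)) (M.x0 t1 i.1) i.2)
  have hgα : ∀ l, α l ∈ adj (M.A t1) g⁻¹ := fun l => hg (Sum.inl (Sum.inl l))
  have hgβ : ∀ l, β l ∈ adj (M.A t1) g⁻¹ := fun l => hg (Sum.inl (Sum.inr l))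
  have hgx : ∀ i, (M.x t1 i)⁻¹ ∈ S0 → (M.x t1 i)⁻¹ ∈ adj (M.A t1) g⁻¹ :=
    fun i hi => hg (Sum.inr ⟨i, hi⟩)
  -- the charts
  let Q : Type := Option (Σ t : T, Fin (n t))
  have hQ : Finite Q := inferInstanceAs (Finite (Option (Σ t : T, Fin (n t))))
  let π : Q → T := fun q => q.elim t1 fun s => s.1
  let h : Q → K := fun q => q.elim g fun s => a s.1 s.2
  obtain ⟨M', hA, hx, -⟩ := hloc k K T I M Q π h
    (by
      rintro (_ | s)
      · exact hgA
      · exact (ha1 s.1 s.2).1)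
    (by
      rintro (_ | s)
      · exact hg0
      · exact (ha1 s.1 s.2).2)
    (by
      intro V hV
      obtain ⟨t, ht⟩ := M.cv V hV
      rcases ha3 t V ht with ⟨l, hl⟩ | h1
      · exact ⟨some ⟨t, l⟩, ht, hl⟩
      · refine ⟨none, fun f hf => h1 (le_lo _ _ hf), h1 ?_⟩
        exact inv_mem_lo hle (le_lo _ _ hgA) hg0 hgS)
  have hAn : M'.A none = adj (M.A t1) g⁻¹ := by rw [hA]; rfl
  have hAs : ∀ s : Σ t : T, Fin (n t), M'.A (some s) = adj (M.A s.1) (a s.1 s.2)⁻¹ := by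
    intro s
    rw [hA]; rfl
  have hAq : ∀ q, M'.A q = adj (M.A (π q)) (h q)⁻¹ := fun q => by rw [hA]
  have hnot : ∀ q : Q, q ≠ none → ¬ ((M'.A q).toSubring ≤ S0) := by
    rintro (_ | s) hq
    · exact absurd rfl hq
    · rw [hAs]
      exact ha2 s.1 s.2
  have hhA : ∀ q, h q ∈ M.A (π q) := by
    rintro (_ | s)
    · exact hgA
    · exact (ha1 s.1 s.2).1
  have hh0 : ∀ q, h q ≠ 0 := by
    rintro (_ | s)
    · exact hg0
    · exact (ha1 s.1 s.2).2
  have hRlo : ∀ p S, M'.On p S → M'.P p S = M.P (π p) S := by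
    intro p S hS
    have h1 := hS.2
    unfold PM.P
    rw [hAq] at h1 ⊢
    exact lo_adj (M.A (π p)) (hhA p) (hh0 p) h1
  have hon' : M'.On none S0 := by
    refine ⟨hL, ?_⟩
    rw [hAn]
    exact adj_le_sub _ hle hgS
  -- the ideal of the point
  have hgen' : ∀ c ∈ M'.A none, c⁻¹ ∉ S0 → ∃ x ∈ M'.A none, ∃ y ∈ M'.A none,
      c = x * u + y * v := by
    rw [hAn]
    intro c hc hcS
    obtain ⟨m, hm⟩ := (mem_adj_inv hgA hg0).1 hc
    have hgm : g ^ m ≠ 0 := pow_ne_zero _ hg0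
    have h1 : (c * g ^ m)⁻¹ ∉ S0 := by
      intro h1
      apply hcS
      have e : c⁻¹ = g ^ m * (c * g ^ m)⁻¹ := by
        have := ne_of_inv hcS
        field_simp
      rw [e]
      exact S0.mul_mem (S0.pow_mem (hle hgA) m) h1
    have h2 := hb2 (fun c => ∃ x ∈ adj (M.A t1) g⁻¹, ∃ y ∈ adj (M.A t1) g⁻¹, c = x * u + y * v)
      ⟨0, Subalgebra.zero_mem _, 0, Subalgebra.zero_mem _, by ring⟩
      (by
        rintro _ _ ⟨x, hx, y, hy, rfl⟩ ⟨x', hx', y', hy', rfl⟩
        exact ⟨x + x', Subalgebra.add_mem _ hx hx', y + y', Subalgebra.add_mem _ hy hy',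
          by ring⟩)
      (by
        rintro r hr _ ⟨x, hx, y, hy, rfl⟩
        exact ⟨r * x, Subalgebra.mul_mem _ (le_adj _ _ hr) hx, r * y,
          Subalgebra.mul_mem _ (le_adj _ _ hr) hy, by ring⟩)
      (fun l => ⟨α l, hgα l, β l, hgβ l, hαβ l⟩) (c * g ^ m) hm h1
    obtain ⟨x, hx, y, hy, hxy⟩ := h2
    have hgi : g⁻¹ ^ m ∈ adj (M.A t1) g⁻¹ := Subalgebra.pow_mem _ (self_mem_adj _ _) m
    refine ⟨x * g⁻¹ ^ m, Subalgebra.mul_mem _ hx hgi, y * g⁻¹ ^ m, Subalgebra.mul_mem _ hy hgi, ?_⟩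
    have e : c = (c * g ^ m) * g⁻¹ ^ m := by
      rw [mul_assoc, ← mul_pow, mul_inv_cancel₀ hg0, one_pow, mul_one]
    rw [e, hxy]
    ring
  have hule : M.A t1 ≤ M'.A none := by
    rw [hAn]
    exact le_adj _ _
  refine ⟨Q, hQ, M', π, none, ⟨fun p i => by rw [hx], fun p => ?_, hRlo⟩, rfl, ?_⟩
  · rw [hAq]
    exact le_adj _ _
  refine ⟨hon', hule hu, hule hv, hu0, hv0, huS, hvS, hgen', ?_, ?_, ?_, ?_⟩
  · intro t ht
    refine hgen' _ (M'.rt none t) fun h1 => ?_
    exact hnot t ht (le_of_unit M' hon'.2 h1)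
  · intro i hi
    rw [hx, hAn]
    rcases hbd i hi with h1 | h1 | h1
    · exact Or.inl h1
    · exact Or.inr (Or.inl h1)
    · exact Or.inr (Or.inr (hgx i h1))
  · intro S hS huS' hvS'
    rw [hRlo none S hS, hRlo none S0 hon']
    refine hcl t1 ⟨hL, hle⟩ S ⟨hS.1, le_trans hule hS.2⟩ fun c hc hcS => ?_
    obtain ⟨x, hx, y, hy, hxy⟩ := hgen' c (hule hc) hcS
    have h1 : Nu S c := by
      rw [hxy]
      refine Nu.add hS.1 (Nu.mul (hS.2 hx) ⟨hS.2 (hule hu), Or.inr huS'⟩)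
        (Nu.mul (hS.2 hy) ⟨hS.2 (hule hv), Or.inr hvS'⟩)
    exact h1.inv (ne_of_inv hcS)
  · intro t S hS h1
    by_contra hne
    refine hnot t hne ?_
    have h2 : (M'.A t).toSubring ≤ M'.P t S := le_lo _ _
    rw [h1] at h2
    exact h2.trans (lo_le hon'.2)

end Pool.Agent.N808.AS
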