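import Pool.Agent.N808.AS.GStm
import Pool.Agent.N808.AS.ISO
import Pool.Agent.N98.RM.Loc
import Pool.Agent.N98.RM.Reg2

/-!
Log resolution on regular arithmetic surfaces: the divisors of finitely many functions
(helper614, for the project of helper808).
-/

set_option autoImplicit false
set_option linter.unusedVariables false
set_option linter.unusedSectionVars false

universe u

open Pool.Agent.W418.LU2 Pool.Agent.N98.T2 Pool.Agent.N98.RM Polynomial

namespace Pool.Agent.N808.AS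

namespace GPRD_

section dvr

variable {K : Type u} [Field K]

/-- discrete valuation rings of `K` -/
def Dr (W : Subring K) : Prop := ∃ π ∈ W, π ≠ 0 ∧ π⁻¹ ∉ W ∧ ∀ y : K, y ≠ 0 →
  ∃ (n : ℤ) (v : K), v ≠ 0 ∧ v ∈ W ∧ v⁻¹ ∈ W ∧ y = v * π ^ n

lemma zpow_mem_sub {S : Subring K} {y : K} (h : y ∈ S) {n : ℤ} (hn : 0 ≤ n) : y ^ n ∈ S := by
  obtain ⟨m, rfl⟩ := Int.eq_ofNat_of_zero_le hn
  rw [zpow_natCast]
  exact S.pow_mem h m

lemma zpow_mem_sub' {S : Subring K} {y : K} (h : y ∈ S) (h' : y⁻¹ ∈ S) (n : ℤ) : y ^ n ∈ S := by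
  rcases le_total 0 n with hn | hn
  · exact zpow_mem_sub h hn
  · have := zpow_mem_sub h' (show 0 ≤ -n by omega)
    rwa [inv_zpow, zpow_neg, inv_inv] at this

lemma Dr.max {W W' : Subring K} (h : Dr W) (hle : W ≤ W') (hne : W' ≠ ⊤) : W' = W := by
  obtain ⟨π, hπ, hπ0, hπi, hall⟩ := h
  have hπ' : π⁻¹ ∉ W' := by
    intro hi
    apply hne
    rw [eq_top_iff]
    intro y _
    by_cases hy : y = 0
    · rw [hy]; exact W'.zero_mem
    · obtain ⟨n, v, _, hv, _, rfl⟩ := hall y hy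
      exact W'.mul_mem (hle hv) (zpow_mem_sub' (hle hπ) hi n)
  refine le_antisymm ?_ hle
  intro y hy
  by_cases hy0 : y = 0
  · rw [hy0]; exact W.zero_mem
  · obtain ⟨n, v, hv0, hv, hvi, rfl⟩ := hall y hy0
    rcases le_or_gt 0 n with hn | hn
    · exact W.mul_mem hv (zpow_mem_sub hπ hn)
    · exfalso
      apply hπ'
      have e : π⁻¹ = v⁻¹ * (v * π ^ n) * π ^ (-n - 1) := by
        rw [← mul_assoc, inv_mul_cancel₀ hv0, one_mul, ← zpow_add₀ hπ0,
          show n + (-n - 1) = -1 by ring, zpow_neg_one]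
      rw [e]
      exact W'.mul_mem (W'.mul_mem (hle hvi) hy) (zpow_mem_sub (hle hπ) (by omega))

lemma Dr.ne_top {W : Subring K} (h : Dr W) : W ≠ ⊤ := by
  obtain ⟨π, hπ, hπ0, hπi, -⟩ := h
  rintro rfl
  exact hπi trivial

lemma Dr.exists_val {W : Subring K} (h : Dr W) {y : K} (hy : y ≠ 0) : ∃ γ : ℤ, ∀ f, f ≠ 0 →
    f ∈ W → f⁻¹ ∉ W → (∀ b ∈ W, b⁻¹ ∉ W → b / f ∈ W) →
    ∃ v, v ≠ 0 ∧ v ∈ W ∧ v⁻¹ ∈ W ∧ y = v * f ^ γ := by
  obtain ⟨π, hπ, hπ0, hπi, hall⟩ := h
  obtain ⟨n, v, hv0, hv, hvi, rfl⟩ := hall y hy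
  refine ⟨n, fun f hf0 hf hfi hgen => ?_⟩
  have h1 : π / f ∈ W := hgen π hπ hπi
  have h2 : f / π ∈ W := by
    obtain ⟨m, w, hw0, hw, hwi, e⟩ := hall f hf0
    have hm : 0 < m := by
      by_contra hm
      apply hfi
      rw [e, mul_inv, ← zpow_neg]
      exact W.mul_mem hwi (zpow_mem_sub hπ (by omega))
    have e2 : f / π = w * π ^ (m - 1) := by
      rw [e, zpow_sub₀ hπ0, zpow_one]
      ring
    rw [e2]
    exact W.mul_mem hw (zpow_mem_sub hπ (by omega))
  have h3 : π / f ≠ 0 := div_ne_zero hπ0 hf0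
  refine ⟨v * (π / f) ^ n, mul_ne_zero hv0 (zpow_ne_zero _ h3), ?_, ?_, ?_⟩
  · exact W.mul_mem hv (zpow_mem_sub' h1 (by rw [inv_div]; exact h2) n)
  · rw [mul_inv, ← inv_zpow, inv_div]
    exact W.mul_mem hvi (zpow_mem_sub' h2 (by rw [inv_div]; exact h1) n)
  · rw [div_zpow, mul_assoc, div_mul_cancel₀]
    exact zpow_ne_zero _ hf0

/-- the localization of a factorial ring at a prime element -/
lemma dr_ofPrime (P : Subring K) [UniqueFactorizationMonoid P]
    (hfr : ∀ y : K, ∃ c ∈ P, ∃ d ∈ P, d ≠ 0 ∧ y = c * d⁻¹) (f : P) (hf : Prime f)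
    [hp : (Ideal.span {f}).IsPrime] :
    Dr (LocalSubring.ofPrime P (Ideal.span {f})).toSubring := by
  have hf0 : (f : K) ≠ 0 := fun h => hf.ne_zero (Subtype.ext h)
  refine ⟨f, LocalSubring.le_ofPrime P _ f.2, hf0,
    not_inv_mem_ofPrime (Ideal.mem_span_singleton_self f) hf0, ?_⟩
  intro y hy
  obtain ⟨c, hc, d, hd, hd0, rfl⟩ := hfr y
  have hc0 : (⟨c, hc⟩ : P) ≠ 0 := by
    intro h
    apply hy
    have : c = 0 := congrArg Subtype.val h
    rw [this, zero_mul]
  have hd0' : (⟨d, hd⟩ : P) ≠ 0 := fun h => hd0 (congrArg Subtype.val h)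
  obtain ⟨i, c', hc', e1⟩ := WfDvdMonoid.max_power_factor hc0 hf.irreducible
  obtain ⟨j, d', hd', e2⟩ := WfDvdMonoid.max_power_factor hd0' hf.irreducible
  have e1' : c = (f : K) ^ i * c' := congrArg Subtype.val e1
  have e2' : d = (f : K) ^ j * d' := congrArg Subtype.val e2
  have hc'' : c' ∉ Ideal.span {f} := fun h => hc' (Ideal.mem_span_singleton.1 h)
  have hd'' : d' ∉ Ideal.span {f} := fun h => hd' (Ideal.mem_span_singleton.1 h)
  have hc'0 : (c' : K) ≠ 0 := by
    intro h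
    apply hc''
    have : c' = 0 := Subtype.ext h
    rw [this]
    exact Ideal.zero_mem _
  have hd'0 : (d' : K) ≠ 0 := by
    intro h
    apply hd''
    have : d' = 0 := Subtype.ext h
    rw [this]
    exact Ideal.zero_mem _
  refine ⟨(i : ℤ) - j, c' * (d' : K)⁻¹, mul_ne_zero hc'0 (inv_ne_zero hd'0), ?_, ?_, ?_⟩
  · exact Subring.mul_mem _ (LocalSubring.le_ofPrime P _ c'.2) (inv_mem_ofPrime hd'')
  · rw [mul_inv, inv_inv]
    exact Subring.mul_mem _ (inv_mem_ofPrime hc'') (LocalSubring.le_ofPrime P _ d'.2)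
  · rw [zpow_sub₀ hf0, zpow_natCast, zpow_natCast, e1', e2']
    field_simp

/-- `a` is zero or a nonunit of `W` (if `A ≤ W`) -/
def idl (A W : Subring K) (hW : Loc W) : Ideal A where
  carrier := {a | A ≤ W → (a : K) = 0 ∨ (a : K)⁻¹ ∉ W}
  zero_mem' := fun _ => Or.inl rfl
  add_mem' := by
    intro a b ha hb hA
    by_cases h0 : ((a + b : A) : K) = 0
    · exact Or.inl h0
    right
    intro h1
    have h0' : (a : K) + b ≠ 0 := h0
    have h1' : ((a : K) + b)⁻¹ ∈ W := h1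
    rcases hW ((a : K) * ((a : K) + b)⁻¹) (W.mul_mem (hA a.2) h1') with ⟨h2, h3⟩ | ⟨h2, h3⟩
    · have ha0 : (a : K) ≠ 0 := left_ne_zero_of_mul h2
      apply (ha hA).resolve_left ha0
      have e : (a : K)⁻¹ = ((a : K) * ((a : K) + b)⁻¹)⁻¹ * ((a : K) + b)⁻¹ := by field_simp
      rw [e]
      exact W.mul_mem h3 h1'
    · have e1 : 1 - (a : K) * ((a : K) + b)⁻¹ = b * ((a : K) + b)⁻¹ := by field_simp; ring
      rw [e1] at h2 h3
      have hb0 : (b : K) ≠ 0 := left_ne_zero_of_mul h2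
      apply (hb hA).resolve_left hb0
      have e : (b : K)⁻¹ = ((b : K) * ((a : K) + b)⁻¹)⁻¹ * ((a : K) + b)⁻¹ := by field_simp
      rw [e]
      exact W.mul_mem h3 h1'
  smul_mem' := by
    intro c a ha hA
    by_cases h0 : ((c • a : A) : K) = 0
    · exact Or.inl h0
    right
    intro h1
    have h0' : (c : K) * a ≠ 0 := h0
    have h1' : ((c : K) * a)⁻¹ ∈ W := h1
    have hc0 : (c : K) ≠ 0 := left_ne_zero_of_mul h0'
    have ha0 : (a : K) ≠ 0 := right_ne_zero_of_mul h0'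
    apply (ha hA).resolve_left ha0
    have e : (a : K)⁻¹ = c * ((c : K) * a)⁻¹ := by field_simp
    rw [e]
    exact W.mul_mem (hA c.2) h1'

lemma mem_idl {A W : Subring K} {hW : Loc W} {a : A} :
    a ∈ idl A W hW ↔ (A ≤ W → (a : K) = 0 ∨ (a : K)⁻¹ ∉ W) := Iff.rfl

lemma idl_prime {A W : Subring K} (hW : Loc W) (h : A ≤ W) : (idl A W hW).IsPrime := by
  refine ⟨?_, ?_⟩
  · intro h1
    have h2 : (1 : A) ∈ idl A W hW := by rw [h1]; exact Submodule.mem_top
    rcases h2 h with h3 | h3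
    · exact one_ne_zero (α := K) h3
    · apply h3
      change (1 : K)⁻¹ ∈ W
      rw [inv_one]
      exact W.one_mem
  · intro a b hab
    by_contra hcon
    push Not at hcon
    obtain ⟨ha, hb⟩ := hcon
    rw [mem_idl] at ha hb
    push Not at ha hb
    obtain ⟨-, ha0, ha1⟩ := ha
    obtain ⟨-, hb0, hb1⟩ := hb
    rcases hab h with h3 | h3
    · exact mul_ne_zero ha0 hb0 h3
    · apply h3
      change ((a : K) * b)⁻¹ ∈ W
      rw [mul_inv]
      exact W.mul_mem ha1 hb1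

/-- the generator of the prime ideal of a discrete valuation ring in a factorial ring -/
lemma exists_gen {P W : Subring K} [UniqueFactorizationMonoid P] (hPW : P ≤ W) (hW : Dr W)
    (hl : Loc W) (hlo : lo W P = W) : ∃ f : P, Prime f ∧ (f : K)⁻¹ ∉ W ∧
      ∀ c : P, ((c : K) = 0 ∨ (c : K)⁻¹ ∉ W) → f ∣ c := by
  have hq := idl_prime hl hPW
  have hne : idl P W hl ≠ ⊥ := by
    obtain ⟨π, hπ, hπ0, hπi, -⟩ := hW
    have h1 : π ∈ lo W P := by rw [hlo]; exact hπ
    obtain ⟨a, ha, b, hb, hb0, hbW, e⟩ := h1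
    have ha' : a = π * b := by rw [e]; field_simp
    have h2 : (⟨a, ha⟩ : P) ∈ idl P W hl := by
      intro _
      right
      intro h3
      apply hπi
      have e2 : π⁻¹ = b * a⁻¹ := by rw [ha']; field_simp
      rw [e2]
      exact W.mul_mem (hPW hb) h3
    intro h3
    rw [h3] at h2
    have h4 : a = 0 := congrArg Subtype.val (Ideal.mem_bot.1 h2)
    rw [ha'] at h4
    exact mul_ne_zero hπ0 hb0 h4
  obtain ⟨f, hfq, hf⟩ := hq.exists_mem_prime_of_ne_bot hne
  have hf0 : (f : K) ≠ 0 := fun h => hf.ne_zero (Subtype.ext h)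
  have hp : (Ideal.span {f}).IsPrime := (Ideal.span_singleton_prime hf.ne_zero).2 hf
  have hle : Ideal.span {f} ≤ idl P W hl := (Ideal.span_singleton_le_iff_mem _).2 hfq
  have h1 : W ≤ (LocalSubring.ofPrime P (Ideal.span {f})).toSubring := by
    intro w hw
    rw [← hlo] at hw
    obtain ⟨a, ha, b, hb, hb0, hbW, rfl⟩ := hw
    refine Subring.mul_mem _ (LocalSubring.le_ofPrime P _ ha) ?_
    refine inv_mem_ofPrime (a := (⟨b, hb⟩ : P)) fun h2 => ?_
    rcases hle h2 hPW with h3 | h3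
    · exact hb0 h3
    · exact h3 hbW
  have h2 : (LocalSubring.ofPrime P (Ideal.span {f})).toSubring ≠ ⊤ := by
    intro h2
    apply not_inv_mem_ofPrime (Ideal.mem_span_singleton_self f) hf0
    rw [h2]
    trivial
  have h3 := hW.max h1 h2
  refine ⟨f, hf, (hfq hPW).resolve_left hf0, ?_⟩
  intro c hc
  rw [← Ideal.mem_span_singleton]
  by_contra h4
  have h5 := inv_mem_ofPrime h4
  rw [h3] at h5
  rcases hc with hc | hc
  · apply h4
    have : c = 0 := Subtype.ext hc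
    rw [this]
    exact Ideal.zero_mem _
  · exact hc h5

/-- elements of the localizations at all prime elements -/
lemma mem_of_primes (P : Subring K) [UniqueFactorizationMonoid P] (d : P) : ∀ (c : P), d ≠ 0 →
    (∀ f : P, Prime f → ∃ a b : P, ¬ f ∣ b ∧ (c : K) / d = a / b) → ∃ e : P, c = d * e := by
  induction d using UniqueFactorizationMonoid.induction_on_prime with
  | h₁ => intro c h; exact absurd rfl h
  | h₂ d hd =>
    intro c _ _
    exact hd.dvd
  | h₃ d f hd hf ih =>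
    intro c hfd h
    obtain ⟨a, b, hb, e⟩ := h f hf
    have hf0 : (f : K) ≠ 0 := fun h => hf.ne_zero (Subtype.ext h)
    have hd0 : (d : K) ≠ 0 := fun h => hd (Subtype.ext h)
    have hb0 : (b : K) ≠ 0 := by
      intro h0
      apply hb
      have : b = 0 := Subtype.ext h0
      rw [this]
      exact dvd_zero f
    have e2 : c * b = f * (a * d) := by
      apply Subtype.ext
      change (c : K) * b = f * (a * d)
      have e3 : (c : K) / ((f : K) * d) = a / b := e
      field_simp at e3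
      linear_combination e3
    have h2 : f ∣ c := (hf.dvd_or_dvd ⟨_, e2⟩).resolve_right hb
    obtain ⟨c', rfl⟩ := h2
    have h3 : ∀ g : P, Prime g → ∃ a b : P, ¬ g ∣ b ∧ (c' : K) / d = a / b := by
      intro g hg
      obtain ⟨a, b, hb, e⟩ := h g hg
      refine ⟨a, b, hb, ?_⟩
      rw [← e]
      change (c' : K) / d = ((f : K) * c') / ((f : K) * d)
      field_simp
    obtain ⟨e, he⟩ := ih c' hd h3
    exact ⟨e, by rw [he]; ring⟩

end dvr


section loc1

variable {K : Type u} [Field K]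

lemma inv_of_inv_mul {S : Subring K} {a b : K} (hb : b ≠ 0) (hbS : b ∈ S) (h : (a * b)⁻¹ ∈ S) :
    a⁻¹ ∈ S := by
  have e : a⁻¹ = b * (a * b)⁻¹ := by
    by_cases ha : a = 0
    · rw [ha]; simp
    · field_simp
  rw [e]
  exact S.mul_mem hbS h

/-- `W` is the local ring of its own centre. -/
lemma lo_of_lo {A P W : Subring K} (hA : A ≤ P) (hP : P ≤ W) (h : lo W A = W) : lo W P = W := by
  refine le_antisymm (lo_le hP) ?_
  conv_lhs => rw [← h]
  exact lo_mono hA

/-- local generators of the ideal of a curve -/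
lemma exists_f (A S W : Subring K) (hAS : A ≤ S)
    (hufd : UniqueFactorizationMonoid (lo S A)) (hW : Dr W) (hl : Loc W)
    (hlo : A ≤ W → lo W A = W) : ∃ f ∈ A, f ≠ 0 ∧ (A ≤ W → f⁻¹ ∉ W) ∧
      ∀ a ∈ A, (A ≤ W → a = 0 ∨ a⁻¹ ∉ W) → a / f ∈ lo S A := by
  by_cases hAW : A ≤ W
  · by_cases hPW : lo S A ≤ W
    · obtain ⟨g, hg, hgi, hgen⟩ := exists_gen hPW hW hl (lo_of_lo (le_lo S A) hPW (hlo hAW))
      have hg0 : (g : K) ≠ 0 := fun h => hg.ne_zero (Subtype.ext h)
      obtain ⟨a, ha, b, hb, hb0, hbS, e⟩ := g.2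
      have ea : a = g * b := by rw [e]; field_simp
      refine ⟨a, ha, by rw [ea]; exact mul_ne_zero hg0 hb0, fun _ h => hgi ?_, ?_⟩
      · rw [ea] at h
        exact inv_of_inv_mul hb0 (hAW hb) h
      · intro c hc hcI
        obtain ⟨d, hd⟩ := hgen ⟨c, le_lo S A hc⟩ (hcI hAW)
        have hd' : c = g * d := congrArg Subtype.val hd
        have e2 : c / a = d * b⁻¹ := by rw [hd', ea]; field_simp
        rw [e2]
        exact (lo S A).mul_mem d.2 (inv_mem_lo hAS (le_lo S A hb) hb0 hbS)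
    · obtain ⟨x, hx, hxW⟩ := SetLike.not_le_iff_exists.1 hPW
      obtain ⟨a, ha, b, hb, hb0, hbS, rfl⟩ := hx
      refine ⟨b, hb, hb0, fun _ h => hxW (W.mul_mem (hAW ha) h), ?_⟩
      intro c hc _
      rw [div_eq_mul_inv]
      exact (lo S A).mul_mem (le_lo S A hc) (inv_mem_lo hAS (le_lo S A hb) hb0 hbS)
  · refine ⟨1, A.one_mem, one_ne_zero, fun h => absurd h hAW, fun c hc _ => ?_⟩
    rw [div_one]
    exact le_lo S A hc

/-- a common denominator -/
lemma exists_s (A S W : Subring K) (hN : IsNoetherianRing A) (hl : Loc W) {f : K}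
    (h : ∀ a ∈ A, (A ≤ W → a = 0 ∨ a⁻¹ ∉ W) → a / f ∈ lo S A) :
    ∃ s ∈ A, s ≠ 0 ∧ s⁻¹ ∈ S ∧ ∀ a ∈ A, (A ≤ W → a = 0 ∨ a⁻¹ ∉ W) → s * (a / f) ∈ A := by
  classical
  obtain ⟨F, hF⟩ : (idl A W hl).FG := IsNoetherian.noetherian _
  have h1 : ∀ a : A, a ∈ F → ∃ b : K, b ∈ A ∧ b ≠ 0 ∧ b⁻¹ ∈ S ∧ b * ((a : K) / f) ∈ A := by
    intro a ha
    have h2 : a ∈ idl A W hl := by rw [← hF]; exact Ideal.subset_span ha
    obtain ⟨c, hc, b, hb, hb0, hbS, e⟩ := h a a.2 h2
    refine ⟨b, hb, hb0, hbS, ?_⟩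
    rw [e]
    have : b * (c * b⁻¹) = c := by field_simp
    rw [this]
    exact hc
  choose! b hb hb0 hbS hbf using h1
  refine ⟨∏ a ∈ F, b a, A.prod_mem fun a ha => hb a ha,
    Finset.prod_ne_zero_iff.2 fun a ha => hb0 a ha, ?_, ?_⟩
  · rw [← Finset.prod_inv_distrib]
    exact S.prod_mem fun a ha => hbS a ha
  · intro a ha haI
    have h2 : (⟨a, ha⟩ : A) ∈ Ideal.span (F : Set A) := by
      rw [hF]
      exact haI
    have key : ∀ x : A, x ∈ Ideal.span (F : Set A) → (∏ a ∈ F, b a) * ((x : K) / f) ∈ A := by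
      intro x hx
      induction hx using Submodule.span_induction with
      | mem x hx =>
        rw [← Finset.mul_prod_erase F b hx]
        have e : b x * ∏ a ∈ F.erase x, b a = (∏ a ∈ F.erase x, b a) * b x := mul_comm _ _
        rw [e, mul_assoc]
        exact A.mul_mem (A.prod_mem fun a ha => hb a (Finset.mem_of_mem_erase ha)) (hbf x hx)
      | zero =>
        change (∏ a ∈ F, b a) * ((0 : K) / f) ∈ A
        rw [zero_div, mul_zero]
        exact A.zero_mem
      | add x y _ _ hx hy =>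
        have e : (∏ a ∈ F, b a) * (((x + y : A) : K) / f) =
            (∏ a ∈ F, b a) * ((x : K) / f) + (∏ a ∈ F, b a) * ((y : K) / f) := by
          change (∏ a ∈ F, b a) * (((x : K) + y) / f) = _
          ring
        rw [e]
        exact A.add_mem hx hy
      | smul r x _ hx =>
        have e : (∏ a ∈ F, b a) * (((r • x : A) : K) / f) =
            r * ((∏ a ∈ F, b a) * ((x : K) / f)) := by
          change (∏ a ∈ F, b a) * (((r : K) * x) / f) = _
          ring
        rw [e]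
        exact A.mul_mem r.2 hx
    exact key _ h2

/-- `s` and local equations `f j` of the curves `W j`, valid where `s` is a unit -/
def Dat (A : Subring K) {J : Type} (W : J → Subring K) (s : K) (f : J → K) : Prop :=
  s ∈ A ∧ s ≠ 0 ∧ ∀ j, f j ≠ 0 ∧ f j ∈ A ∧ (A ≤ W j → (f j)⁻¹ ∉ W j) ∧
    ∀ a ∈ A, (A ≤ W j → a = 0 ∨ a⁻¹ ∉ W j) → s * (a / f j) ∈ A

lemma exists_dat (A S : Subring K) (hN : IsNoetherianRing A) (hAS : A ≤ S)
    (hufd : UniqueFactorizationMonoid (lo S A)) {J : Type} [Finite J] (W : J → Subring K)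
    (hW : ∀ j, Dr (W j)) (hl : ∀ j, Loc (W j)) (hlo : ∀ j, A ≤ W j → lo (W j) A = W j) :
    ∃ s f, Dat A W s f ∧ s⁻¹ ∈ S := by
  classical
  have : Fintype J := Fintype.ofFinite J
  have h1 : ∀ j, ∃ f s : K, s ∈ A ∧ s ≠ 0 ∧ s⁻¹ ∈ S ∧ f ≠ 0 ∧ f ∈ A ∧ (A ≤ W j → f⁻¹ ∉ W j) ∧
      ∀ a ∈ A, (A ≤ W j → a = 0 ∨ a⁻¹ ∉ W j) → s * (a / f) ∈ A := by
    intro j
    obtain ⟨f, hf, hf0, hfi, hfg⟩ := exists_f A S (W j) hAS hufd (hW j) (hl j) (hlo j)
    obtain ⟨s, hs, hs0, hsS, hsf⟩ := exists_s A S (W j) hN (hl j) hfg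
    exact ⟨f, s, hs, hs0, hsS, hf0, hf, hfi, hsf⟩
  choose f s hs hs0 hsS hf0 hf hfi hsf using h1
  refine ⟨∏ j, s j, f, ⟨A.prod_mem fun j _ => hs j, Finset.prod_ne_zero_iff.2 fun j _ => hs0 j,
    fun j => ⟨hf0 j, hf j, hfi j, ?_⟩⟩, ?_⟩
  · intro a ha haI
    rw [← Finset.mul_prod_erase Finset.univ s (Finset.mem_univ j)]
    have e : s j * ∏ i ∈ Finset.univ.erase j, s i = (∏ i ∈ Finset.univ.erase j, s i) * s j :=
      mul_comm _ _
    rw [e, mul_assoc]
    exact A.mul_mem (A.prod_mem fun i _ => hs i) (hsf j a ha haI)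
  · rw [← Finset.prod_inv_distrib]
    exact S.prod_mem fun j _ => hsS j

/-- factoriality -/
lemma ufm_of_lw {P : Subring K} (hN : IsNoetherianRing P) (hl : IsLocalRing P)
    (h : ∃ g ∈ P, (g = 0 ∨ g⁻¹ ∉ P) ∧ ∀ a ∈ P, a⁻¹ ∉ P → ∃ c ∈ P, a = c * g) :
    UniqueFactorizationMonoid P := by
  obtain ⟨g, hg, hg1, hgen⟩ := h
  have hun : ∀ a : P, IsUnit a → (a : K) ≠ 0 ∧ (a : K)⁻¹ ∈ P := by
    intro a ha
    obtain ⟨c, hc⟩ := isUnit_iff_exists_inv.1 ha
    have h1 : (a : K) * c = 1 := congrArg Subtype.val hc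
    refine ⟨left_ne_zero_of_mul_eq_one h1, ?_⟩
    rw [← eq_inv_of_mul_eq_one_right h1]
    exact c.2
  have h1 : (IsLocalRing.maximalIdeal P).IsPrincipal := by
    refine ⟨⟨g, hg⟩, ?_⟩
    apply le_antisymm
    · intro a ha
      by_cases ha0 : a = 0
      · rw [ha0]; exact Submodule.zero_mem _
      · have h2 : (a : K)⁻¹ ∉ P := by
          intro h3
          have h4 : IsUnit a := isUnit_iff_exists_inv.2 ⟨⟨_, h3⟩, Subtype.ext
            (mul_inv_cancel₀ fun h0 => ha0 (Subtype.ext h0))⟩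
          exact ha h4
        obtain ⟨c, hc, e⟩ := hgen a a.2 h2
        exact Ideal.mem_span_singleton'.2 ⟨⟨c, hc⟩, Subtype.ext e.symm⟩
    · change Ideal.span {(⟨g, hg⟩ : P)} ≤ _
      rw [Ideal.span_singleton_le_iff_mem, IsLocalRing.mem_maximalIdeal, mem_nonunits_iff]
      intro hu
      obtain ⟨h2, h3⟩ := hun _ hu
      rcases hg1 with h4 | h4
      · exact h2 h4
      · exact h4 h3
  have h2 : IsPrincipalIdealRing P :=
    ((tfae_of_isNoetherianRing_of_isLocalRing_of_isDomain P).out 0 4).2 h1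
  infer_instance

/-- an element which lies in all local rings -/
lemma mem_of_local (A : Subring K) (z : K)
    (h : ∀ S : Subring K, Loc S → A ≤ S → z ∈ lo S A) : z ∈ A := by
  let D : Ideal A :=
    { carrier := {b | (b : K) * z ∈ A}
      add_mem' := by
        intro a b ha hb
        change ((a : K) + b) * z ∈ A
        rw [add_mul]
        exact A.add_mem ha hb
      zero_mem' := by
        change (0 : K) * z ∈ A
        rw [zero_mul]
        exact A.zero_mem
      smul_mem' := by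
        intro c a ha
        change ((c : K) * a) * z ∈ A
        rw [mul_assoc]
        exact A.mul_mem c.2 ha }
  have hD : D = ⊤ := by
    by_contra hne
    obtain ⟨m, hm, hle⟩ := Ideal.exists_le_maximal _ hne
    have hmp : m.IsPrime := hm.isPrime
    obtain ⟨a, ha, b, hb, hb0, hbS, e⟩ := h _ (loc_ofPrime A m) (LocalSubring.le_ofPrime A m)
    have h1 : (⟨b, hb⟩ : A) ∈ D := by
      change b * z ∈ A
      rw [e]
      have : b * (a * b⁻¹) = a := by field_simp
      rw [this]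
      exact ha
    exact not_inv_mem_ofPrime (hle h1) hb0 hbS
  have h1 : (1 : A) ∈ D := by rw [hD]; exact Submodule.mem_top
  have h2 : ((1 : A) : K) * z ∈ A := h1
  rwa [OneMemClass.coe_one, one_mul] at h2

end loc1

section pm

variable {k K : Type u} [CommRing k] [Field K] [Algebra k K] {T : Type}

/-- curves on the model -/
def Cu (M : PM k K T Empty) (W : Subring K) : Prop :=
  Dr W ∧ Loc W ∧ ∃ t, (M.A t).toSubring ≤ W ∧ lo W (M.A t).toSubring = W

lemma Cu.lo {M : PM k K T Empty} {W : Subring K} (h : Cu M W) {t : T}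
    (ht : (M.A t).toSubring ≤ W) : lo W (M.A t).toSubring = W := by
  obtain ⟨-, -, t', ht', e⟩ := h
  exact (ISO_.P_eq M ht ht').trans e

/-- finiteness -/
lemma fin_cu [IsNoetherianRing k] [Finite T] (M : PM k K T Empty)
    (hfr : ∀ t (y : K), ∃ c ∈ M.A t, ∃ d ∈ M.A t, d ≠ 0 ∧ y = c * d⁻¹) {g : K} (hg : g ≠ 0) :
    {W | Cu M W ∧ (g ∉ W ∨ g⁻¹ ∉ W)}.Finite := by
  classical
  have h1 : {W | Cu M W ∧ (g ∉ W ∨ g⁻¹ ∉ W)} ⊆
      ⋃ t, {W | Cu M W ∧ (g ∉ W ∨ g⁻¹ ∉ W) ∧ (M.A t).toSubring ≤ W} := by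
    rintro W ⟨hW, h⟩
    obtain ⟨t, ht, -⟩ := hW.2.2
    exact Set.mem_iUnion.2 ⟨t, hW, h, ht⟩
  refine (Set.finite_iUnion fun t => ?_).subset h1
  have hN : IsNoetherianRing (M.A t).toSubring := noeth_chart (M.ft t)
  obtain ⟨c, hc, d, hd, hd0, e⟩ := hfr t g
  have hc0 : c ≠ 0 := by
    rintro rfl
    apply hg
    rw [e, zero_mul]
  let z : (M.A t).toSubring := ⟨c * d, (M.A t).mul_mem hc hd⟩
  refine Set.Finite.of_injOn (f := fun W : Subring K =>
      {a : (M.A t).toSubring | (a : K) = 0 ∨ (a : K)⁻¹ ∉ W})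
    (t := (fun I : Ideal (M.A t).toSubring => (I : Set (M.A t).toSubring)) ''
      (Ideal.span {z}).minimalPrimes) ?_ ?_ ?_
  · rintro W ⟨hW, hgW, hAW⟩
    have hq := idl_prime hW.2.1 hAW
    refine ⟨idl _ W hW.2.1, ?_, ?_⟩
    · refine ⟨⟨hq, ?_⟩, ?_⟩
      · rw [Ideal.span_singleton_le_iff_mem]
        intro _
        by_contra hcon
        push Not at hcon
        obtain ⟨-, h2⟩ := hcon
        have h2' : (c * d)⁻¹ ∈ W := h2
        have hci : c⁻¹ ∈ W := inv_of_inv_mul hd0 (hAW hd) h2'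
        have hdi : d⁻¹ ∈ W := inv_of_inv_mul hc0 (hAW hc) (by rw [mul_comm]; exact h2')
        rcases hgW with h3 | h3
        · apply h3
          rw [e]
          exact W.mul_mem (hAW hc) hdi
        · apply h3
          rw [e, mul_inv, inv_inv]
          exact W.mul_mem hci (hAW hd)
      · rintro q ⟨hqp, hzq⟩ hqle
        rw [Ideal.span_singleton_le_iff_mem] at hzq
        have h2 : W ≤ (LocalSubring.ofPrime (M.A t).toSubring q).toSubring := by
          intro w hw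
          rw [← hW.lo hAW] at hw
          obtain ⟨a, ha, b, hb, hb0, hbW, rfl⟩ := hw
          refine Subring.mul_mem _ (LocalSubring.le_ofPrime _ _ ha) ?_
          refine inv_mem_ofPrime (a := (⟨b, hb⟩ : (M.A t).toSubring)) fun h3 => ?_
          rcases hqle h3 hAW with h4 | h4
          · exact hb0 h4
          · exact h4 hbW
        have h3 : (LocalSubring.ofPrime (M.A t).toSubring q).toSubring ≠ ⊤ := by
          intro h3
          apply not_inv_mem_ofPrime hzq (mul_ne_zero hc0 hd0)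
          rw [h3]
          trivial
        have h4 := hW.1.max h2 h3
        intro x hx
        by_contra hxq
        have h5 := inv_mem_ofPrime hxq
        rw [h4] at h5
        rcases hx hAW with h6 | h6
        · apply hxq
          have : x = 0 := Subtype.ext h6
          rw [this]
          exact q.zero_mem
        · exact h6 h5
    · ext a
      change (_ ≤ W → _) ↔ _
      exact ⟨fun h => h hAW, fun h _ => h⟩
  · rintro W ⟨hW, -, hAW⟩ W' ⟨hW', -, hAW'⟩ heq
    have key : ∀ W W' : Subring K, Cu M W → Cu M W' → (M.A t).toSubring ≤ W →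
        (M.A t).toSubring ≤ W' → {a : (M.A t).toSubring | (a : K) = 0 ∨ (a : K)⁻¹ ∉ W} =
        {a : (M.A t).toSubring | (a : K) = 0 ∨ (a : K)⁻¹ ∉ W'} → W ≤ W' := by
      intro W W' hW hW' hAW hAW' heq w hw
      rw [← hW.lo hAW] at hw
      obtain ⟨a, ha, b, hb, hb0, hbW, rfl⟩ := hw
      refine W'.mul_mem (hAW' ha) ?_
      by_contra hcon
      have h3 : (⟨b, hb⟩ : (M.A t).toSubring) ∈
          {a : (M.A t).toSubring | (a : K) = 0 ∨ (a : K)⁻¹ ∉ W'} := Or.inr hcon
      rw [← heq] at h3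
      rcases h3 with h4 | h4
      · exact hb0 h4
      · exact h4 hbW
    exact le_antisymm (key W W' hW hW' hAW hAW' heq) (key W' W hW' hW hAW' hAW heq.symm)
  · exact (Ideal.finite_minimalPrimes_of_isNoetherianRing _ _).image _

end pm

section aux

variable {K : Type u} [Field K]

lemma lo_trans {A S W : Subring K} (hPW : lo S A ≤ W) (h : lo W (lo S A) = W) : lo W A = W := by
  have hA : A ≤ W := (le_lo S A).trans hPW
  refine le_antisymm (lo_le hA) ?_
  have h1 : lo S A ≤ lo W A := by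
    rintro _ ⟨a, ha, b, hb, hb0, hbS, rfl⟩
    refine ⟨a, ha, b, hb, hb0, hPW ?_, rfl⟩
    exact ⟨1, A.one_mem, b, hb, hb0, hbS, by rw [one_mul]⟩
  conv_lhs => rw [← h]
  exact (lo_mono h1).trans (lo_lo hA).le

lemma prod_unit {W : Subring K} {J : Type} (s : Finset J) (f : J → K) (γ : J → ℤ)
    (h : ∀ j ∈ s, f j ∈ W ∧ (f j)⁻¹ ∈ W) :
    ∏ j ∈ s, f j ^ γ j ∈ W ∧ (∏ j ∈ s, f j ^ γ j)⁻¹ ∈ W := by
  refine ⟨W.prod_mem fun j hj => zpow_mem_sub' (h j hj).1 (h j hj).2 _, ?_⟩
  rw [← Finset.prod_inv_distrib]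
  refine W.prod_mem fun j hj => ?_
  rw [← zpow_neg]
  exact zpow_mem_sub' (h j hj).1 (h j hj).2 _

end aux

section sub

variable {K : Type u} [Field K]

/-- the data on a localized chart `B = A[1/s]` -/
structure DB (B W : Subring K) (f : K) : Prop where
  f0 : f ≠ 0
  fB : f ∈ B
  fW : B ≤ W → f⁻¹ ∉ W
  gen : ∀ b ∈ B, (B ≤ W → b = 0 ∨ b⁻¹ ∉ W) → b / f ∈ B

variable {B W S : Subring K} {f : K}

lemma DB.unit (h : DB B W f) (hS : B ≤ S) (hf : f⁻¹ ∉ S) {b : K} (hb : b ∈ B) (hb0 : b ≠ 0)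
    (hbS : b⁻¹ ∈ S) : B ≤ W ∧ b⁻¹ ∈ W := by
  by_contra hcon
  apply hf
  have h1 := hS (h.gen b hb fun h2 => Or.inr fun h3 => hcon ⟨h2, h3⟩)
  have e : f⁻¹ = b⁻¹ * (b / f) := by
    have := h.f0
    field_simp
  rw [e]
  exact S.mul_mem hbS h1

lemma DB.le (h : DB B W f) (hS : B ≤ S) (hf : f⁻¹ ∉ S) : B ≤ W :=
  (h.unit hS hf B.one_mem one_ne_zero (by rw [inv_one]; exact S.one_mem)).1

lemma DB.lo_le (h : DB B W f) (hS : B ≤ S) (hf : f⁻¹ ∉ S) : lo S B ≤ W := by
  rintro _ ⟨a, ha, b, hb, hb0, hbS, rfl⟩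
  exact W.mul_mem (h.le hS hf ha) (h.unit hS hf hb hb0 hbS).2

lemma DB.dvd (h : DB B W f) (hS : B ≤ S) (hf : f⁻¹ ∉ S) {a : K} (ha : a ∈ lo S B)
    (haW : a = 0 ∨ a⁻¹ ∉ W) : a / f ∈ lo S B := by
  obtain ⟨c, hc, b, hb, hb0, hbS, rfl⟩ := ha
  have h1 : c / f ∈ B := by
    refine h.gen c hc fun hBW => ?_
    by_contra hcon
    push Not at hcon
    obtain ⟨hc0, hcW⟩ := hcon
    rcases haW with h2 | h2
    · exact mul_ne_zero hc0 (inv_ne_zero hb0) h2
    · apply h2
      rw [mul_inv, inv_inv]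
      exact W.mul_mem hcW (hBW hb)
  have e : c * b⁻¹ / f = c / f * b⁻¹ := by ring
  rw [e]
  exact (lo S B).mul_mem (le_lo S B h1) (inv_mem_lo hS (le_lo S B hb) hb0 hbS)

lemma DB.of_dvd (h : DB B W f) (hS : B ≤ S) (hf : f⁻¹ ∉ S) {a : K}
    (ha : a / f ∈ lo S B) : a = 0 ∨ a⁻¹ ∉ W := by
  by_contra hcon
  push Not at hcon
  obtain ⟨ha0, haW⟩ := hcon
  apply h.fW (h.le hS hf)
  have e : f⁻¹ = a / f * a⁻¹ := by
    have := h.f0
    field_simp
  rw [e]
  exact W.mul_mem (h.lo_le hS hf ha) haW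

end sub

end GPRD_

open GPRD_ in
/-- PRD: the divisors of finitely many functions on a regular surface. -/
theorem t_PRD : S_prd.{u} := by
  classical
  intro k K _ _ _ _ T _ M hdm hfr H _ h hh
  -- the curves
  have hfin : {W | Cu M W ∧ ∃ a, (h a ∉ W ∨ (h a)⁻¹ ∉ W)}.Finite := by
    have h1 : {W | Cu M W ∧ ∃ a, (h a ∉ W ∨ (h a)⁻¹ ∉ W)} ⊆
        ⋃ a, {W | Cu M W ∧ (h a ∉ W ∨ (h a)⁻¹ ∉ W)} := by
      rintro W ⟨hW, a, ha⟩
      exact Set.mem_iUnion.2 ⟨a, hW, ha⟩
    exact (Set.finite_iUnion fun a => fin_cu M hfr (hh a)).subset h1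
  obtain ⟨n, W, hinj, hran⟩ := hfin.fin_param
  have hWmem : ∀ j, Cu M (W j) ∧ ∃ a, (h a ∉ W j ∨ (h a)⁻¹ ∉ W j) := fun j => by
    have : W j ∈ Set.range W := ⟨j, rfl⟩
    rw [hran] at this
    exact this
  have hWsurj : ∀ W', Cu M W' → ∀ a, (h a ∉ W' ∨ (h a)⁻¹ ∉ W') → ∃ j, W j = W' := by
    intro W' h1 a h2
    have : W' ∈ Set.range W := by
      rw [hran]
      exact ⟨h1, a, h2⟩
    exact this
  have hufd : ∀ t S, M.On t S → UniqueFactorizationMonoid (lo S (M.A t).toSubring) := by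
    intro t S hS
    rcases hdm t S hS with ⟨V, x, y, hp⟩ | hlw
    · exact hp.ufm
    · exact ufm_of_lw (noeth_lo (noeth_chart (M.ft t)) hS.1 hS.2) (isLocalRing_lo hS.1 hS.2) hlw
  -- the covering
  have hcov : ∀ t, ∃ s : Finset K, s.Nonempty ∧ (∀ f ∈ s, f ∈ (M.A t).toSubring ∧ f ≠ 0 ∧
      ∃ g, Dat (M.A t).toSubring W f g) ∧
      ∀ V : ValuationSubring K, (∀ f ∈ (M.A t).toSubring, f ∈ V) → ∃ f ∈ s, f⁻¹ ∈ V := by
    intro t
    refine exists_cover _ (fun s => ∃ g, Dat (M.A t).toSubring W s g) fun m hm => ?_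
    have hmp : m.IsPrime := hm.isPrime
    have hon : M.On t (LocalSubring.ofPrime (M.A t).toSubring m).toSubring :=
      ⟨loc_ofPrime _ m, LocalSubring.le_ofPrime _ m⟩
    obtain ⟨s, f, hd, hsS⟩ := exists_dat (M.A t).toSubring _ (noeth_chart (M.ft t)) hon.2
      (hufd t _ hon) W (fun j => (hWmem j).1.1) (fun j => (hWmem j).1.2.1)
      (fun j hj => (hWmem j).1.lo hj)
    exact ⟨⟨s, hd.1⟩, fun hs => not_inv_mem_ofPrime hs hd.2.1 hsS, f, hd⟩
  choose F hF1 hF2 hF3 using hcov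
  let T' : Type := Σ t : T, Fin (F t).card
  have hT' : Finite T' := inferInstance
  let s : T' → K := fun q => ((F q.1).equivFin.symm q.2 : F q.1)
  have hs : ∀ q : T', s q ∈ F q.1 := fun q => ((F q.1).equivFin.symm q.2).2
  have hdat : ∀ q : T', ∃ g, Dat (M.A q.1).toSubring W (s q) g := fun q =>
    (hF2 q.1 (s q) (hs q)).2.2
  choose f hf using hdat
  obtain ⟨M1, hA, -, N, hH⟩ := t_LOC k K T Empty M T' Sigma.fst s (fun q => (hf q).1)
    (fun q => (hf q).2.1) (by
      intro V hV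
      obtain ⟨t, ht⟩ := M.cv V hV
      obtain ⟨g, hg, hgV⟩ := hF3 t V ht
      refine ⟨⟨t, (F t).equivFin ⟨g, hg⟩⟩, ht, ?_⟩
      change (((F t).equivFin.symm ((F t).equivFin ⟨g, hg⟩) : F t) : K)⁻¹ ∈ V
      rw [Equiv.symm_apply_apply]
      exact hgV)
  have hA' : ∀ q, M1.A q = adj (M.A q.1) (s q)⁻¹ := fun q => by rw [hA]
  have hle : ∀ q, M.A q.1 ≤ M1.A q := fun q => by rw [hA']; exact le_adj _ _
  have hlo : ∀ q S, (M1.A q).toSubring ≤ S →
      lo S (M1.A q).toSubring = lo S (M.A q.1).toSubring := by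
    intro q S hS
    rw [hA'] at hS ⊢
    exact ISO_.lo_adj (M.A q.1) (hf q).1 (hf q).2.1 hS
  -- the equations on the localized charts
  have hDB : ∀ q j, DB (M1.A q).toSubring (W j) (f q j) := by
    intro q j
    obtain ⟨hsA, hs0, hfj⟩ := hf q
    obtain ⟨hf0, hfA, hfW, hfg⟩ := hfj j
    refine ⟨hf0, hle q hfA, fun h1 => hfW (le_trans (hle q) h1), ?_⟩
    intro b hb hbI
    have hb' : b ∈ adj (M.A q.1) (s q)⁻¹ := by rw [← hA']; exact hb
    obtain ⟨m, hm⟩ := (mem_adj_inv hsA hs0).1 hb'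
    have hsi : (s q)⁻¹ ∈ M1.A q := by rw [hA']; exact self_mem_adj _ _
    have ha : b * s q ^ m * s q ∈ M.A q.1 := (M.A q.1).mul_mem hm hsA
    have h2 := hfg (b * s q ^ m * s q) ha (by
      intro hAW
      by_contra hcon
      push Not at hcon
      obtain ⟨h0, h1⟩ := hcon
      have hbm0 : b * s q ^ m ≠ 0 := left_ne_zero_of_mul h0
      have hb0 : b ≠ 0 := left_ne_zero_of_mul hbm0
      have h3 : (s q)⁻¹ ∈ W j := by
        refine inv_of_inv_mul hbm0 (hAW hm) ?_
        rw [mul_comm]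
        exact h1
      have h4 : (M1.A q).toSubring ≤ W j := by
        rw [hA']
        exact ISO_.adj_le_sub _ hAW h3
      refine (hbI h4).resolve_left hb0 ?_
      refine inv_of_inv_mul (b := s q ^ m * s q) (mul_ne_zero (pow_ne_zero _ hs0) hs0)
        (hAW ((M.A q.1).mul_mem ((M.A q.1).pow_mem hsA m) hsA)) ?_
      rw [← mul_assoc]
      exact h1)
    have e : b / f q j = s q * (b * s q ^ m * s q / f q j) * (s q)⁻¹ ^ (m + 2) := by
      rw [inv_pow, eq_mul_inv_iff_mul_eq₀ (pow_ne_zero _ hs0)]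
      ring
    rw [e]
    exact (M1.A q).mul_mem (hle q h2) ((M1.A q).pow_mem hsi _)
  let M' : PM k K T' (Fin n) :=
    { A := M1.A
      H := M1.H
      x := f
      ft := M1.ft
      H0 := M1.H0
      rt := M1.rt
      gl := M1.gl
      cv := M1.cv
      xA := fun q j => (hDB q j).fB
      x0 := fun q j => (hDB q j).f0
      gi := by
        intro q q' j
        obtain ⟨m, hm⟩ := M1.gl q q' (f q' j) (hDB q' j).fB
        refine ⟨m + 1, ?_⟩
        have hρ0 : M1.H q' / M1.H q ≠ 0 := div_ne_zero (M1.H0 _) (M1.H0 _)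
        have e : (M1.H q' / M1.H q) ^ (m + 1) * (f q' j / f q j) =
            (M1.H q' / M1.H q * ((M1.H q' / M1.H q) ^ m * f q' j)) / f q j := by
          rw [pow_succ]; ring
        rw [e]
        refine (hDB q j).gen _ ((M1.A q).mul_mem (M1.rt q q') hm) ?_
        intro hW
        by_contra hcon
        push Not at hcon
        obtain ⟨h0, h1⟩ := hcon
        have h2 : (M1.H q' / M1.H q)⁻¹ ∈ W j :=
          inv_of_inv_mul (right_ne_zero_of_mul h0) (hW hm) h1
        have h3 : (M1.A q').toSubring ≤ W j := ISO_.le_of_unit M1 hW h2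
        refine (hDB q' j).fW h3 ?_
        refine inv_of_inv_mul (b := (M1.H q' / M1.H q) ^ (m + 1)) (pow_ne_zero _ hρ0)
          ((W j).pow_mem (hW (M1.rt q q')) _) ?_
        have e2 : f q' j * (M1.H q' / M1.H q) ^ (m + 1) =
            M1.H q' / M1.H q * ((M1.H q' / M1.H q) ^ m * f q' j) := by
          rw [pow_succ]; ring
        rw [e2]
        exact h1 }
  refine ⟨T', Fin n, hT', inferInstance, M', Sigma.fst, hle, fun q S hS => hlo q S hS.2, ?_, ?_⟩
  · refine ⟨?_, ?_⟩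
    · intro q S j hS hj a ha c hc hac
      have h1 := (hDB q j).of_dvd hS.2 hj hac
      by_contra hcon
      push Not at hcon
      obtain ⟨h2, h3⟩ := hcon
      have h4 : ¬ (a = 0 ∨ a⁻¹ ∉ W j) := fun h => h2 ((hDB q j).dvd hS.2 hj ha h)
      have h5 : ¬ (c = 0 ∨ c⁻¹ ∉ W j) := fun h => h3 ((hDB q j).dvd hS.2 hj hc h)
      push Not at h4 h5
      rcases h1 with h6 | h6
      · exact mul_ne_zero h4.1 h5.1 h6
      · apply h6
        rw [mul_inv]
        exact (W j).mul_mem h4.2 h5.2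
    · intro q S i j hS hij hi hcon
      have hfj : (f q j)⁻¹ ∉ S := by
        intro h1
        apply hi
        have h2 : f q j / f q i ∈ S := lo_le hS.2 hcon
        have e : (M'.x q i)⁻¹ = f q j / f q i * (f q j)⁻¹ := by
          change (f q i)⁻¹ = _
          have := (hDB q i).f0
          have := (hDB q j).f0
          field_simp
        rw [e]
        exact S.mul_mem h2 h1
      have hAi : (M.A q.1).toSubring ≤ W i := le_trans (hle q) ((hDB q i).le hS.2 hi)
      have h1 : W i ≤ W j := by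
        intro w hw
        rw [← (hWmem i).1.lo hAi] at hw
        obtain ⟨a, ha, b, hb, hb0, hbW, rfl⟩ := hw
        refine (W j).mul_mem ((hDB q j).le hS.2 hfj (hle q ha)) ?_
        by_contra hcon2
        have h2 : b / f q j ∈ lo S (M1.A q).toSubring :=
          (hDB q j).dvd hS.2 hfj (le_lo _ _ (hle q hb)) (Or.inr hcon2)
        have h3 : b / f q i ∈ lo S (M1.A q).toSubring := by
          have e : b / f q i = b / f q j * (f q j / f q i) := by
            have := (hDB q j).f0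
            field_simp
          rw [e]
          exact (lo S _).mul_mem h2 hcon
        rcases (hDB q i).of_dvd hS.2 hi h3 with h4 | h4
        · exact hb0 h4
        · exact h4 hbW
      have h2 := (hWmem i).1.1.max h1 (hWmem j).1.1.ne_top
      exact hij (hinj h2.symm)
  · -- the functions are monomials
    have hz : ∀ (q : T') (z : K), (∀ W', Cu M W' → (M1.A q).toSubring ≤ W' → z ∈ W') →
        z ∈ M1.A q := by
      intro q z hz
      refine mem_of_local (M1.A q).toSubring z fun S hS hAS => ?_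
      rw [hlo q S hAS]
      have hon : M.On q.1 S := ⟨hS, le_trans (hle q) hAS⟩
      have hU := hufd q.1 S hon
      obtain ⟨c, hc, d, hd, hd0, rfl⟩ := hfr q.1 z
      have hfrP : ∀ y : K, ∃ c ∈ lo S (M.A q.1).toSubring, ∃ d ∈ lo S (M.A q.1).toSubring,
          d ≠ 0 ∧ y = c * d⁻¹ := by
        intro y
        obtain ⟨c, hc, d, hd, hd0, e⟩ := hfr q.1 y
        exact ⟨c, le_lo _ _ hc, d, le_lo _ _ hd, hd0, e⟩
      obtain ⟨e, he⟩ := mem_of_primes (lo S (M.A q.1).toSubring) ⟨d, le_lo _ _ hd⟩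
        ⟨c, le_lo _ _ hc⟩ (fun h => hd0 (congrArg Subtype.val h)) (by
          intro g hg
          have hgp : (Ideal.span {g}).IsPrime := (Ideal.span_singleton_prime hg.ne_zero).2 hg
          have h1 : lo S (M.A q.1).toSubring ≤
            (LocalSubring.ofPrime (lo S (M.A q.1).toSubring) (Ideal.span {g})).toSubring :=
            LocalSubring.le_ofPrime _ _
          have h2 : Cu M (LocalSubring.ofPrime (lo S (M.A q.1).toSubring)
              (Ideal.span {g})).toSubring :=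
            ⟨dr_ofPrime _ hfrP g hg, loc_ofPrime _ _, q.1, (le_lo _ _).trans h1,
              lo_trans h1 (lo_ofPrime _ _)⟩
          have h3 := hz _ h2 (by
            refine le_trans (le_lo S (M1.A q).toSubring) ?_
            rw [hlo q S hAS]
            exact h1)
          rw [← lo_ofPrime] at h3
          obtain ⟨a, ha, b, hb, hb0, hbW, e⟩ := h3
          refine ⟨⟨a, ha⟩, ⟨b, hb⟩, fun h4 => ?_, ?_⟩
          · exact not_inv_mem_ofPrime (a := (⟨b, hb⟩ : lo S (M.A q.1).toSubring))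
              (Ideal.mem_span_singleton.2 h4) hb0 hbW
          · change c / d = a / b
            rw [div_eq_mul_inv, div_eq_mul_inv]
            exact e)
      have he' : c = d * e := congrArg Subtype.val he
      have e2 : c * d⁻¹ = e := by rw [he']; field_simp
      rw [e2]
      exact e.2
    have hval : ∀ (a : H) (j : Fin n), ∃ γ : ℤ, ∀ f, f ≠ 0 → f ∈ W j → f⁻¹ ∉ W j →
        (∀ b ∈ W j, b⁻¹ ∉ W j → b / f ∈ W j) →
        ∃ v, v ≠ 0 ∧ v ∈ W j ∧ v⁻¹ ∈ W j ∧ h a = v * f ^ γ := fun a j =>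
      (hWmem j).1.1.exists_val (hh a)
    choose γ hγ using hval
    intro a
    refine ⟨γ a, fun q => ?_⟩
    have hP0 : ∏ j, f q j ^ γ a j ≠ 0 :=
      Finset.prod_ne_zero_iff.2 fun j _ => zpow_ne_zero _ (hDB q j).f0
    have key : ∀ W', Cu M W' → (M1.A q).toSubring ≤ W' →
        h a * (∏ j, f q j ^ γ a j)⁻¹ ∈ W' ∧ (h a * (∏ j, f q j ^ γ a j)⁻¹)⁻¹ ∈ W' := by
      intro W' hW' hAW'
      have hloW : lo W' (M1.A q).toSubring = W' := by
        rw [hlo q W' hAW']
        exact hW'.lo (le_trans (hle q) hAW')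
      have hun : ∀ j, W j ≠ W' → f q j ∈ W' ∧ (f q j)⁻¹ ∈ W' := by
        intro j hj
        refine ⟨hAW' (hDB q j).fB, ?_⟩
        by_contra hcon
        have h1 := (hDB q j).lo_le hAW' hcon
        rw [hloW] at h1
        exact hj (hW'.1.max h1 (hWmem j).1.1.ne_top)
      by_cases hex : ∃ j0, W j0 = W'
      · obtain ⟨j0, rfl⟩ := hex
        have hfi : (f q j0)⁻¹ ∉ W j0 := (hDB q j0).fW hAW'
        obtain ⟨v, hv0, hv, hvi, e⟩ := hγ a j0 (f q j0) (hDB q j0).f0 (hAW' (hDB q j0).fB) hfi (by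
          intro b hb hbi
          have h1 := (hDB q j0).dvd (S := W j0) hAW' hfi (a := b) (by rw [hloW]; exact hb)
            (Or.inr hbi)
          rwa [hloW] at h1)
        have h2 := prod_unit (W := W j0) (Finset.univ.erase j0) (f q) (γ a) (by
          intro j hj
          exact hun j fun h => (Finset.mem_erase.1 hj).1 (hinj h))
        rw [← Finset.mul_prod_erase Finset.univ _ (Finset.mem_univ j0)] at hP0 ⊢
        have h3 := left_ne_zero_of_mul hP0
        have h4 := right_ne_zero_of_mul hP0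
        have e2 : h a * (f q j0 ^ γ a j0 * ∏ j ∈ Finset.univ.erase j0, f q j ^ γ a j)⁻¹ =
            v * (∏ j ∈ Finset.univ.erase j0, f q j ^ γ a j)⁻¹ := by
          rw [e]
          field_simp
        rw [e2]
        refine ⟨(W j0).mul_mem hv h2.2, ?_⟩
        rw [mul_inv, inv_inv]
        exact (W j0).mul_mem hvi h2.1
      · push Not at hex
        have h1 : h a ∈ W' ∧ (h a)⁻¹ ∈ W' := by
          by_contra hcon
          have h2 : h a ∉ W' ∨ (h a)⁻¹ ∉ W' := by
            by_contra h3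
            push Not at h3
            exact hcon h3
          obtain ⟨j, hj⟩ := hWsurj W' hW' a h2
          exact hex j hj
        have h2 := prod_unit (W := W') Finset.univ (f q) (γ a) (fun j _ => hun j (hex j))
        refine ⟨W'.mul_mem h1.1 h2.2, ?_⟩
        rw [mul_inv, inv_inv]
        exact W'.mul_mem h1.2 h2.1
    refine ⟨h a * (∏ j, f q j ^ γ a j)⁻¹, mul_ne_zero (hh a) (inv_ne_zero hP0),
      hz q _ fun W' h1 h2 => (key W' h1 h2).1, hz q _ fun W' h1 h2 => (key W' h1 h2).2, ?_⟩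
    change h a = h a * (∏ j, f q j ^ γ a j)⁻¹ * ∏ j, f q j ^ γ a j
    rw [mul_assoc, inv_mul_cancel₀ hP0, mul_one]

end Pool.Agent.N808.AS
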