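import Pool.Agent.N808.AS.Stm

/-!
Finiteness of the residue fields of localizations of rings of integers, and of charts.

helper808
-/

set_option autoImplicit false
set_option linter.unusedVariables false
set_option linter.unusedSectionVars false

open Pool.Agent.W418.LU2 Pool.Agent.N98.T2 Pool.Agent.N98.RM Polynomial IsLocalRing

namespace Pool.Agent.N808.AS

/-- Finiteness of the residue fields of localizations of rings of integers. -/
theorem finite_res {O ON : Type} [CommRing O] [IsDedekindDomain O] [Module.Finite ℤ O]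
    [CharZero O] [CommRing ON] [IsDomain ON] [Algebra O ON]
    (hinj : Function.Injective (algebraMap O ON)) (N : ℕ) (hN : N ≠ 0) (hNu : IsUnit (N : ON))
    (hs : ∀ c : ON, ∃ (n : ℕ) (a : O), (N : ON) ^ n * c = algebraMap O ON a)
    (𝔮 : Ideal ON) (h𝔮 : 𝔮.IsMaximal) : Finite (ON ⧸ 𝔮) := by
  classical
  have hp := h𝔮.isPrime
  let q0 : Ideal O := 𝔮.comap (algebraMap O ON)
  have hq0p : q0.IsPrime := Ideal.IsPrime.comap _
  have hNq : ((N : ℕ) : O) ∉ q0 := by
    intro h
    rw [Ideal.mem_comap, map_natCast] at h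
    exact h𝔮.ne_top (Ideal.eq_top_of_isUnit_mem _ h hNu)
  have hfree : Module.IsTorsionFree ℤ O := inferInstance
  have hint : Algebra.IsIntegral ℤ O := Algebra.IsIntegral.of_finite ℤ O
  have hne : q0 ≠ ⊥ := by
    intro hbot
    obtain ⟨l, hl, hlp⟩ := Nat.exists_infinite_primes (N + 1)
    have hlq : ((l : ℕ) : ON) ∉ 𝔮 := by
      intro h
      have h1 : ((l : ℕ) : O) ∈ q0 := by
        rw [Ideal.mem_comap, map_natCast]
        exact h
      rw [hbot, Ideal.mem_bot, Nat.cast_eq_zero] at h1
      exact hlp.ne_zero h1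
    obtain ⟨c, j, hj, hcj⟩ := h𝔮.exists_inv hlq
    obtain ⟨n, a, ha⟩ := hs c
    have h1 : ((l : ℕ) : O) * a - (N : O) ^ n ∈ q0 := by
      rw [Ideal.mem_comap, map_sub, map_mul, ← ha, map_pow, map_natCast, map_natCast]
      have e : (l : ON) * ((N : ON) ^ n * c) - (N : ON) ^ n = -((N : ON) ^ n * j) := by
        linear_combination (N : ON) ^ n * hcj
      rw [e]
      exact 𝔮.neg_mem (𝔮.mul_mem_left _ hj)
    rw [hbot, Ideal.mem_bot, sub_eq_zero] at h1
    have hcop : Nat.Coprime l (N ^ n) := by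
      apply Nat.Coprime.pow_right
      rw [Nat.Prime.coprime_iff_not_dvd hlp]
      intro h2
      have := Nat.le_of_dvd (Nat.pos_of_ne_zero hN) h2
      omega
    have h2 : IsCoprime (l : ℤ) ((N ^ n : ℕ) : ℤ) := Nat.isCoprime_iff_coprime.2 hcop
    obtain ⟨u, v, huv⟩ := h2
    have h3 : (algebraMap ℤ O (l : ℤ)) * ((algebraMap ℤ O u) + (algebraMap ℤ O v) * a) = 1 := by
      have h4 := congrArg (algebraMap ℤ O) huv
      rw [map_add, map_mul, map_mul, map_one, map_natCast, map_natCast, Nat.cast_pow,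
        ← h1] at h4
      rw [map_natCast]
      linear_combination h4
    have h4 : IsUnit (algebraMap ℤ O (l : ℤ)) := IsUnit.of_mul_eq_one _ h3
    have h5 : IsUnit (l : ℤ) := by
      have hloc : IsLocalHom (algebraMap ℤ O) :=
        RingHom.IsIntegral.isLocalHom (algebraMap_isIntegral_iff.mpr hint)
          (RingHom.injective_int (algebraMap ℤ O))
      exact hloc.map_nonunit _ h4
    rw [Int.isUnit_iff_natAbs_eq, Int.natAbs_natCast] at h5
    exact hlp.one_lt.ne' h5
  have hmax : q0.IsMaximal := hq0p.isMaximal hne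
  have hfin0 : Finite (O ⧸ q0) := Ideal.finiteQuotientOfFreeOfNeBot _ hne
  let f : O ⧸ q0 →+* ON ⧸ 𝔮 := Ideal.quotientMap 𝔮 (algebraMap O ON) le_rfl
  refine Finite.of_surjective f fun y => ?_
  obtain ⟨c, rfl⟩ := Ideal.Quotient.mk_surjective y
  obtain ⟨n, a, ha⟩ := hs c
  have hNn : ((N : ℕ) : O) ^ n ∉ q0 := fun h => hNq (hq0p.mem_of_pow_mem _ h)
  obtain ⟨b, j, hj, hbj⟩ := hmax.exists_inv hNn
  refine ⟨Ideal.Quotient.mk q0 (b * a), ?_⟩
  change Ideal.Quotient.mk 𝔮 (algebraMap O ON (b * a)) = _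
  rw [Ideal.Quotient.mk_eq_mk_iff_sub_mem, map_mul, ← ha]
  have h1 := congrArg (algebraMap O ON) hbj
  rw [map_add, map_mul, map_one, map_pow, map_natCast] at h1
  have e : algebraMap O ON b * ((N : ON) ^ n * c) - c = -(algebraMap O ON j * c) := by
    linear_combination c * h1
  rw [e]
  exact 𝔮.neg_mem (𝔮.mul_mem_right _ hj)

/-- The chart ring `O[H 0 / H i, ..., H m / H i]` of the projective model with the homogeneous
coordinates `H`. -/
def ch (O : Type) {E : Type} [CommRing O] [Field E] [Algebra O E] {m : ℕ} (H : Fin (m + 1) → E)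
    (i : Fin (m + 1)) : Subalgebra O E := Algebra.adjoin O (Set.range fun j => H j / H i)

section chart

variable {O ON E : Type} [CommRing O] [CommRing ON] [Field E] [Algebra O E] [Algebra ON E]
  [Algebra O ON] [IsScalarTower O ON E] {m : ℕ} {H : Fin (m + 1) → E}

lemma ch_le (i : Fin (m + 1)) : (ch O H i).toSubring ≤ (ch ON H i).toSubring := by
  intro a ha
  have h1 : ch O H i ≤ (ch ON H i).restrictScalars O := by
    unfold ch
    rw [Algebra.adjoin_le_iff]
    rintro _ ⟨j, rfl⟩
    exact Algebra.subset_adjoin ⟨j, rfl⟩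
  exact h1 ha

/-- The inverse of `N` in local rings over `ON`. -/
lemma inv_nat_mem {N : ℕ} (hNE : (N : E) ≠ 0) (hNu : IsUnit (N : ON)) (A : Subalgebra ON E) :
    (N : E)⁻¹ ∈ A := by
  obtain ⟨u, hu⟩ := hNu.exists_right_inv
  have h1 : (N : E) * algebraMap ON E u = 1 := by
    rw [← map_natCast (algebraMap ON E), ← map_mul, hu, map_one]
  rw [← eq_inv_of_mul_eq_one_right h1]
  exact A.algebraMap_mem u

/-- The local rings of the chart over `ON` are local rings of the chart over `O`. -/
lemma lo_ch {N : ℕ} (hNE : (N : E) ≠ 0) (hNu : IsUnit (N : ON))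
    (hs : ∀ c : ON, ∃ (n : ℕ) (a : O), (N : ON) ^ n * c = algebraMap O ON a) {i : Fin (m + 1)}
    {S : Subring E} (hS : (ch ON H i).toSubring ≤ S) :
    lo S (ch ON H i).toSubring = lo S (ch O H i).toSubring := by
  have hS0 : (ch O H i).toSubring ≤ S := (ch_le i).trans hS
  refine lo_eq_of hS0 (ch_le i) ?_
  intro a ha
  change a ∈ Algebra.adjoin ON (Set.range fun j => H j / H i) at ha
  have hN : (N : E) ∈ (ch O H i).toSubring := natCast_mem _ N
  have hNS : (N : E)⁻¹ ∈ S := hS (inv_nat_mem hNE hNu (ch ON H i))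
  induction ha using Algebra.adjoin_induction with
  | mem x hx => exact le_lo _ _ (Algebra.subset_adjoin (R := O) hx)
  | algebraMap c =>
    obtain ⟨n, a, h1⟩ := hs c
    have h2 : (N : E) ^ n * algebraMap ON E c = algebraMap O E a := by
      rw [← map_natCast (algebraMap ON E), ← map_pow, ← map_mul, h1,
        ← IsScalarTower.algebraMap_apply]
    refine ⟨algebraMap O E a, (ch O H i).algebraMap_mem a, (N : E) ^ n, pow_mem hN n,
      pow_ne_zero _ hNE, ?_, ?_⟩
    · rw [← inv_pow]
      exact S.pow_mem hNS n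
    · rw [← h2]
      field_simp
  | add x y _ _ hx hy => exact (lo S _).add_mem hx hy
  | mul x y _ _ hx hy => exact (lo S _).mul_mem hx hy

/-- Local rings of the chart over `ON` are regular, if the local rings of the chart over `O` are
regular at all points whose residue characteristic is not small. -/
theorem regular_ch {b N : ℕ} (hNE : (N : E) ≠ 0) (hNu : IsUnit (N : ON)) (hb : b.factorial ∣ N)
    (hs : ∀ c : ON, ∃ (n : ℕ) (a : O), (N : ON) ^ n * c = algebraMap O ON a) (i : Fin (m + 1))
    (hreg : ∀ (𝔭 : Ideal (ch O H i)) [𝔭.IsPrime],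
      (∀ p : ℕ, p.Prime → p ≤ b → ((p : ℕ) : ch O H i) ∉ 𝔭) →
        IsRegularLocalRing (Localization.AtPrime 𝔭))
    {S : Subring E} (hS : Loc S) (hAS : (ch ON H i).toSubring ≤ S) :
    IsRegularLocalRing (lo S (ch ON H i).toSubring) := by
  rw [lo_ch (O := O) hNE hNu hs hAS]
  have hS0 : (ch O H i).toSubring ≤ S := (ch_le i).trans hAS
  obtain ⟨P, hP, hPW, e, he⟩ := Pool.Agent.N98.RV.exists_center' (A := ch O H i)
    (ch O H i).val.toRingHom Subtype.val_injective (S := (ch O H i).toSubring)
    (fun y => ⟨fun hy => ⟨⟨y, hy⟩, rfl⟩, by rintro ⟨a, rfl⟩; exact a.2⟩) hS hS0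
  have h1 : IsRegularLocalRing (Localization.AtPrime P) := by
    refine hreg P fun p hp hpb => (hPW _).2 ?_
    have hpN : p ∣ N := ((Nat.Prime.dvd_factorial hp).2 hpb).trans hb
    obtain ⟨c, hc⟩ := hpN
    have h2 : (N : E) = (p : E) * (c : E) := by rw [hc, Nat.cast_mul]
    have hp0 : (p : E) ≠ 0 := by
      intro h3
      apply hNE
      rw [h2, h3, zero_mul]
    have hc0 : (c : E) ≠ 0 := by
      intro h3
      apply hNE
      rw [h2, h3, mul_zero]
    have hNS : (N : E)⁻¹ ∈ S := hAS (inv_nat_mem hNE hNu (ch ON H i))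
    have e1 : (ch O H i).val.toRingHom ((p : ℕ) : ch O H i) = (p : E) := map_natCast _ _
    rw [e1]
    refine ⟨hp0, ?_⟩
    have e2 : (p : E)⁻¹ = (c : E) * (N : E)⁻¹ := by
      rw [h2]
      field_simp
    rw [e2]
    exact S.mul_mem (natCast_mem S c) hNS
  exact IsRegularLocalRing.of_ringEquiv e

end chart

section frac

variable {O F E : Type} [CommRing O] [IsDomain O] [Field F] [Field E] [Algebra O F]
  [IsFractionRing O F] [Algebra F E] [Algebra O E] [IsScalarTower O F E]

/-- Common denominators. -/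
lemma exists_den (X : Set E) {a : E} (ha : a ∈ Algebra.adjoin F X) :
    ∃ n : O, n ≠ 0 ∧ algebraMap O E n * a ∈ Algebra.adjoin O X := by
  induction ha using Algebra.adjoin_induction with
  | mem x hx => exact ⟨1, one_ne_zero, by
      rw [map_one, one_mul]
      exact Algebra.subset_adjoin hx⟩
  | algebraMap c =>
    obtain ⟨x, y, hy, h1⟩ := IsFractionRing.div_surjective O c
    have hy0 : y ≠ 0 := nonZeroDivisors.ne_zero hy
    have hyF : algebraMap O F y ≠ 0 := fun h => hy0 (IsFractionRing.injective O F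
      (h.trans (map_zero _).symm))
    refine ⟨y, hy0, ?_⟩
    have e : algebraMap O E y * algebraMap F E c = algebraMap O E x := by
      rw [IsScalarTower.algebraMap_apply O F E y, ← map_mul, ← h1, mul_div_cancel₀ _ hyF,
        ← IsScalarTower.algebraMap_apply]
    rw [e]
    exact Subalgebra.algebraMap_mem _ x
  | add x y _ _ hx hy =>
    obtain ⟨n, hn, h1⟩ := hx
    obtain ⟨l, hl, h2⟩ := hy
    refine ⟨n * l, mul_ne_zero hn hl, ?_⟩
    have e : algebraMap O E (n * l) * (x + y) =
        algebraMap O E l * (algebraMap O E n * x) +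
          algebraMap O E n * (algebraMap O E l * y) := by
      rw [map_mul]
      ring
    rw [e]
    exact add_mem (mul_mem (Subalgebra.algebraMap_mem _ l) h1)
      (mul_mem (Subalgebra.algebraMap_mem _ n) h2)
  | mul x y _ _ hx hy =>
    obtain ⟨n, hn, h1⟩ := hx
    obtain ⟨l, hl, h2⟩ := hy
    refine ⟨n * l, mul_ne_zero hn hl, ?_⟩
    have e : algebraMap O E (n * l) * (x * y) =
        (algebraMap O E n * x) * (algebraMap O E l * y) := by
      rw [map_mul]
      ring
    rw [e]
    exact mul_mem h1 h2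

/-- The chart rings have the fraction field `E`. -/
theorem frac_ch {m : ℕ} {H : Fin (m + 1) → E} (hH : ∀ i, H i ≠ 0)
    (hgen : IntermediateField.adjoin F (Set.range fun j => H j / H 0) = ⊤) (i : Fin (m + 1))
    (y : E) : ∃ c ∈ ch O H i, ∃ d ∈ ch O H i, d ≠ 0 ∧ y = c * d⁻¹ := by
  have hgi : IntermediateField.adjoin F (Set.range fun j => H j / H i) = ⊤ := by
    rw [← hgen]
    apply le_antisymm
    · rw [hgen]
      exact le_top
    · rw [IntermediateField.adjoin_le_iff]
      rintro _ ⟨j, rfl⟩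
      change H j / H 0 ∈ IntermediateField.adjoin F (Set.range fun j => H j / H i)
      have e : H j / H 0 = (H j / H i) / (H 0 / H i) := by
        have := hH i
        have := hH 0
        field_simp
      rw [e]
      exact div_mem (IntermediateField.subset_adjoin _ _ ⟨j, rfl⟩)
        (IntermediateField.subset_adjoin _ _ ⟨0, rfl⟩)
  have hy : y ∈ IntermediateField.adjoin F (Set.range fun j => H j / H i) := by
    rw [hgi]
    exact IntermediateField.mem_top
  rw [IntermediateField.mem_adjoin_iff_div] at hy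
  obtain ⟨r, hr, s, hs, rfl⟩ := hy
  have hinj : ∀ n : O, n ≠ 0 → algebraMap O E n ≠ 0 := by
    intro n hn h
    rw [IsScalarTower.algebraMap_apply O F E] at h
    exact hn (IsFractionRing.injective O F (((algebraMap F E).injective
      (h.trans (map_zero _).symm)).trans (map_zero _).symm))
  obtain ⟨n, hn, h1⟩ := exists_den (O := O) _ hr
  obtain ⟨l, hl, h2⟩ := exists_den (O := O) _ hs
  by_cases hs0 : s = 0
  · refine ⟨0, zero_mem _, 1, one_mem _, one_ne_zero, ?_⟩
    rw [hs0, div_zero, zero_mul]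
  · refine ⟨algebraMap O E l * (algebraMap O E n * r), mul_mem (Subalgebra.algebraMap_mem _ l) h1,
      algebraMap O E n * (algebraMap O E l * s), mul_mem (Subalgebra.algebraMap_mem _ n) h2,
      mul_ne_zero (hinj n hn) (mul_ne_zero (hinj l hl) hs0), ?_⟩
    have h3 := hinj n hn
    have h4 := hinj l hl
    field_simp

end frac

/-- Forgetting the divisors. -/
theorem pm_of_lm {k K : Type} [CommRing k] [Field K] [Algebra k K] {T I : Type}
    (M : LM (⊥ : Subalgebra k K) ⊤ T I) : ∃ M' : PM k K T Empty, M'.A = M.A :=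
  ⟨{
    A := M.A
    H := M.H
    x := fun _ i => i.elim
    ft := M.ft
    H0 := M.H0
    rt := M.rt
    gl := M.gl
    cv := fun V hV => M.cv V fun a ha => by
      obtain ⟨c, rfl⟩ := Algebra.mem_bot.1 ha
      exact hV c
    xA := fun _ i => i.elim
    x0 := fun _ i => i.elim
    gi := fun _ _ i => i.elim }, rfl⟩

end Pool.Agent.N808.AS
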