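import Pool.Agent.N808.AS.GStm
import Pool.Agent.N808.AS.FIN

/-!
Finiteness of the singular points of a curve on a regular surface (helper667, for the project of
helper808).
-/

set_option autoImplicit false
set_option linter.unusedVariables false

universe u

open Pool.Agent.W418.LU2 Pool.Agent.N98.T2 Pool.Agent.N98.RM Polynomial

namespace Pool.Agent.N808.AS

namespace GSNG_

open IsLocalRing

/-- A conductor. -/
theorem conductor {D : Type u} [CommRing D] [IsDomain D]
    (h : Module.Finite D (integralClosure D (FractionRing D))) :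
    ∃ c : D, c ≠ 0 ∧ ∀ z : FractionRing D, IsIntegral D z →
      ∃ d : D, algebraMap D (FractionRing D) d = algebraMap D (FractionRing D) c * z := by
  classical
  obtain ⟨s, hs⟩ := h.fg_top
  obtain ⟨b, hb⟩ := IsLocalization.exist_integer_multiples_of_finset (nonZeroDivisors D)
    (s.image fun z : integralClosure D (FractionRing D) => (z : FractionRing D))
  refine ⟨b, nonZeroDivisors.ne_zero b.2, fun z hz => ?_⟩
  have key : ∀ w : integralClosure D (FractionRing D),
      ∃ d : D, algebraMap D (FractionRing D) d = algebraMap D (FractionRing D) b * w := by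
    intro w
    have hw : w ∈ Submodule.span D (s : Set (integralClosure D (FractionRing D))) := by
      rw [hs]
      exact Submodule.mem_top
    induction hw using Submodule.span_induction with
    | mem x hx =>
      obtain ⟨d, hd⟩ := hb x (Finset.mem_image_of_mem _ hx)
      exact ⟨d, by rw [hd, Algebra.smul_def]⟩
    | zero => exact ⟨0, by simp⟩
    | add x y _ _ hx hy =>
      obtain ⟨d, hd⟩ := hx
      obtain ⟨e, he⟩ := hy
      refine ⟨d + e, ?_⟩
      rw [map_add, hd, he]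
      push_cast
      ring
    | smul a x _ hx =>
      obtain ⟨d, hd⟩ := hx
      refine ⟨a * d, ?_⟩
      rw [map_mul, hd]
      have e1 : ((a • x : integralClosure D (FractionRing D)) : FractionRing D) =
          algebraMap D (FractionRing D) a * (x : FractionRing D) := by
        rw [← Algebra.smul_def]
        rfl
      rw [e1]
      ring
  exact key ⟨z, hz⟩

/-- The local ring of a curve at a point outside of the conductor is integrally closed. -/
theorem closed {A P : Type u} [CommRing A] [CommRing P] [Algebra A P] (Q : Ideal A)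
    [Q.IsPrime] [IsLocalization Q.primeCompl P] (J : Ideal P) [J.IsPrime] (𝔭 : Ideal A)
    [𝔭.IsPrime] (h𝔭 : 𝔭 = J.comap (algebraMap A P)) (c : A) (hc : IsUnit (algebraMap A P c))
    (h : ∀ z : FractionRing (A ⧸ 𝔭), IsIntegral (A ⧸ 𝔭) z → ∃ d : A ⧸ 𝔭,
      algebraMap (A ⧸ 𝔭) (FractionRing (A ⧸ 𝔭)) d =
        algebraMap (A ⧸ 𝔭) (FractionRing (A ⧸ 𝔭)) (Ideal.Quotient.mk 𝔭 c) * z) :
    IsIntegrallyClosed (P ⧸ J) := by
  let D := A ⧸ 𝔭
  let R := P ⧸ J
  let L := FractionRing D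
  let j : D →+* R := Ideal.quotientMap J (algebraMap A P) h𝔭.le
  letI : Algebra D R := j.toAlgebra
  have hj : ∀ a : A, algebraMap D R (Ideal.Quotient.mk 𝔭 a) =
      Ideal.Quotient.mk J (algebraMap A P a) := fun a => rfl
  let M : Submonoid D := Q.primeCompl.map (Ideal.Quotient.mk 𝔭)
  haveI hL : IsLocalization M R := by
    refine IsLocalization.of_surjective Q.primeCompl P (Ideal.Quotient.mk 𝔭)
      Ideal.Quotient.mk_surjective (Ideal.Quotient.mk J) Ideal.Quotient.mk_surjective ?_ ?_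
    · ext a
      rfl
    · rw [Ideal.mk_ker, Ideal.mk_ker, h𝔭]
      exact (IsLocalization.map_under Q.primeCompl P J).ge
  have hM : ∀ m : M, (m : D) ≠ 0 := by
    rintro ⟨_, a, ha, rfl⟩ h0
    have h1 : a ∈ 𝔭 := Ideal.Quotient.eq_zero_iff_mem.1 h0
    rw [h𝔭, Ideal.mem_comap] at h1
    exact Ideal.IsPrime.ne_top ‹J.IsPrime› (Ideal.eq_top_of_isUnit_mem _ h1
      (IsLocalization.map_units P (⟨a, ha⟩ : Q.primeCompl)))
  let g : R →+* L := IsLocalization.lift (M := M) (g := algebraMap D L) fun y => by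
    rw [isUnit_iff_ne_zero]
    exact fun h0 => hM y (IsFractionRing.injective D L (h0.trans (map_zero _).symm))
  letI : Algebra R L := g.toAlgebra
  haveI : IsScalarTower D R L := IsScalarTower.of_algebraMap_eq' (by
    change algebraMap D L = g.comp (algebraMap D R)
    exact (IsLocalization.lift_comp _).symm)
  haveI : IsFractionRing R L := IsFractionRing.isFractionRing_of_isDomain_of_isLocalization M R L
  rw [isIntegrallyClosed_iff L]
  intro z hz
  obtain ⟨m, hm⟩ := IsIntegral.exists_multiple_integral_of_isLocalization M z hz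
  obtain ⟨d, hd⟩ := h _ hm
  have hmu : IsUnit (algebraMap D R m) := IsLocalization.map_units R m
  have hcu : IsUnit (algebraMap D R (Ideal.Quotient.mk 𝔭 c)) := by
    rw [hj]
    exact hc.map _
  obtain ⟨v, hv⟩ := (hcu.mul hmu).exists_left_inv
  refine ⟨v * algebraMap D R d, ?_⟩
  have hv' : algebraMap R L v * (algebraMap D L (Ideal.Quotient.mk 𝔭 c) * algebraMap D L m) = 1 := by
    rw [IsScalarTower.algebraMap_apply D R L, IsScalarTower.algebraMap_apply D R L, ← map_mul,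
      ← map_mul, hv, map_one]
  rw [map_mul, ← IsScalarTower.algebraMap_apply D R L, hd]
  have e1 : (m • z : L) = algebraMap D L m * z := by
    rw [← Algebra.smul_def]
    rfl
  rw [e1]
  linear_combination z * hv'

section par

variable {E : Type u} [Field E] {V : ValuationSubring E} {P : Subring E} {x y : E}

lemma mem_max [IsLocalRing P] (h : Par V P x y) {a : P} :
    a ∈ maximalIdeal P ↔ V.valuation (a : E) < 1 := by
  rw [mem_maximalIdeal, mem_nonunits_iff, h.isUnit_iff]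
  constructor
  · intro h1
    exact (lt_or_one (h.le a a.2)).resolve_right h1
  · intro h1 h2
    rw [h2] at h1
    exact lt_irrefl _ h1

/-- A prime element with integrally closed quotient is a parameter. -/
theorem not_sq [IsLocalRing P] (h : Par V P x y) {F : P} (hF : Prime F)
    (hcl : IsIntegrallyClosed (P ⧸ Ideal.span {F})) : F ∉ maximalIdeal P ^ 2 := by
  intro hsq
  have hN := h.noeth
  have hJ : (Ideal.span {F}).IsPrime := (Ideal.span_singleton_prime hF.ne_zero).2 hF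
  have hR : IsLocalRing (P ⧸ Ideal.span {F}) :=
    IsLocalRing.of_surjective' (Ideal.Quotient.mk (Ideal.span {F})) Ideal.Quotient.mk_surjective
  have hdim : ∀ 𝔯 : Ideal (P ⧸ Ideal.span {F}), 𝔯 ≠ ⊥ → 𝔯.IsPrime →
      𝔯 = maximalIdeal (P ⧸ Ideal.span {F}) := by
    intro 𝔯 h0 hp
    have hp' : (𝔯.comap (Ideal.Quotient.mk (Ideal.span {F}))).IsPrime := Ideal.IsPrime.comap _
    have hFm : F ∈ 𝔯.comap (Ideal.Quotient.mk (Ideal.span {F})) := by
      rw [Ideal.mem_comap, Ideal.Quotient.eq_zero_iff_mem.2 (Ideal.mem_span_singleton_self F)]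
      exact 𝔯.zero_mem
    rcases h.prime_ideal (𝔯.comap (Ideal.Quotient.mk (Ideal.span {F}))) with ⟨g, hg⟩ | ⟨h1, h2⟩
    · exfalso
      rw [hg, Ideal.mem_span_singleton] at hFm
      obtain ⟨u, hu⟩ := hFm
      rcases hF.irreducible.isUnit_or_isUnit hu with h3 | h3
      · apply hp'.ne_top
        rw [hg, Ideal.span_singleton_eq_top]
        exact h3
      · apply h0
        rw [eq_bot_iff]
        intro r hr
        obtain ⟨a, rfl⟩ := Ideal.Quotient.mk_surjective r
        have h4 : a ∈ 𝔯.comap (Ideal.Quotient.mk (Ideal.span {F})) := hr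
        rw [hg, Ideal.mem_span_singleton] at h4
        rw [Ideal.mem_bot, Ideal.Quotient.eq_zero_iff_mem, Ideal.mem_span_singleton]
        have h5 : F ∣ g := by
          obtain ⟨v, hv⟩ := h3.exists_right_inv
          exact ⟨v, by rw [hu, mul_assoc, hv, mul_one]⟩
        exact h5.trans h4
    · apply le_antisymm (le_maximalIdeal hp.ne_top)
      intro r hr
      obtain ⟨a, rfl⟩ := Ideal.Quotient.mk_surjective r
      have h3 : a ∈ 𝔯.comap (Ideal.Quotient.mk (Ideal.span {F})) := by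
        refine h.mem_of_both h1 h2 ((lt_or_one (h.le a a.2)).resolve_right fun h4 => ?_)
        rw [mem_maximalIdeal, mem_nonunits_iff] at hr
        exact hr (((h.isUnit_iff a).2 h4).map _)
      exact h3
  have hpr : (maximalIdeal (P ⧸ Ideal.span {F})).IsPrincipal :=
    ((tfae_of_isNoetherianRing_of_isLocalRing_of_isDomain (P ⧸ Ideal.span {F})).out 3 4 :
      (IsIntegrallyClosed (P ⧸ Ideal.span {F}) ∧ ∀ 𝔯 : Ideal (P ⧸ Ideal.span {F}), 𝔯 ≠ ⊥ →
        𝔯.IsPrime → 𝔯 = maximalIdeal (P ⧸ Ideal.span {F})) ↔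
        (maximalIdeal (P ⧸ Ideal.span {F})).IsPrincipal).1 ⟨hcl, hdim⟩
  obtain ⟨g', hg'⟩ := hpr.principal
  obtain ⟨g, rfl⟩ := Ideal.Quotient.mk_surjective g'
  have hgu : ¬ IsUnit g := by
    intro h1
    have h2 : Ideal.Quotient.mk (Ideal.span {F}) g ∈ maximalIdeal (P ⧸ Ideal.span {F}) := by
      rw [hg']
      exact Ideal.mem_span_singleton_self _
    rw [mem_maximalIdeal, mem_nonunits_iff] at h2
    exact h2 (h1.map _)
  have hm : maximalIdeal P ≤ Ideal.span {g} := by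
    refine Submodule.le_of_le_smul_of_le_jacobson_bot (I := maximalIdeal P)
      (IsNoetherian.noetherian _) ?_ ?_
    · rw [IsLocalRing.jacobson_eq_maximalIdeal ⊥ bot_ne_top]
    · intro a ha
      have h1 : Ideal.Quotient.mk (Ideal.span {F}) a ∈ maximalIdeal (P ⧸ Ideal.span {F}) := by
        rw [mem_maximalIdeal, mem_nonunits_iff]
        intro h2
        rw [mem_maximalIdeal, mem_nonunits_iff] at ha
        apply ha
        obtain ⟨b', hb'⟩ := h2.exists_right_inv
        obtain ⟨b, rfl⟩ := Ideal.Quotient.mk_surjective b'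
        rw [← map_mul, ← map_one (Ideal.Quotient.mk (Ideal.span {F})), Ideal.Quotient.eq,
          Ideal.mem_span_singleton] at hb'
        by_contra h3
        have h4 : a * b - 1 ∈ maximalIdeal P := by
          obtain ⟨t, ht⟩ := hb'
          rw [ht]
          exact Ideal.mul_mem_right _ _ ((mem_maximalIdeal _).2 hF.not_isUnit)
        have h5 : a * b ∈ maximalIdeal P := Ideal.mul_mem_right _ _ ((mem_maximalIdeal _).2 h3)
        have h6 : (1 : P) ∈ maximalIdeal P := by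
          have h7 := sub_mem h5 h4
          rwa [sub_sub_cancel] at h7
        exact (Ideal.ne_top_iff_one _).1 (maximalIdeal.isMaximal P).ne_top h6
      rw [hg'] at h1
      obtain ⟨r', hr'⟩ := Ideal.mem_span_singleton'.1 h1
      obtain ⟨r, rfl⟩ := Ideal.Quotient.mk_surjective r'
      rw [← map_mul, Ideal.Quotient.eq, Ideal.mem_span_singleton'] at hr'
      obtain ⟨s, hs⟩ := hr'
      have e : a = r * g + -(s * F) := by
        rw [hs]; ring
      rw [e]
      refine Submodule.add_mem_sup (Ideal.mem_span_singleton'.2 ⟨r, rfl⟩) ?_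
      rw [smul_eq_mul, ← pow_two]
      exact neg_mem (Ideal.mul_mem_left _ _ hsq)
  have hX : g ∣ ⟨x, h.xP⟩ := Ideal.mem_span_singleton.1 (hm ((mem_max h).2 h.xV))
  have hY : g ∣ ⟨y, h.yP⟩ := Ideal.mem_span_singleton.1 (hm ((mem_max h).2 h.yV))
  obtain ⟨u, hu⟩ := hX
  rcases h.prime_left.irreducible.isUnit_or_isUnit hu with h1 | h1
  · exact hgu h1
  · have h2 : (⟨x, h.xP⟩ : P) ∣ g := by
      obtain ⟨v, hv⟩ := h1.exists_right_inv
      exact ⟨v, by rw [hu, mul_assoc, hv, mul_one]⟩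
    obtain ⟨d, hd⟩ := h2.trans hY
    refine h.not_dvd d.2 ?_
    have h3 : y = x * d := congrArg Subtype.val hd
    rw [h3, mul_comm]

theorem regP_of {A S : Subring E} (hAS : A ≤ S) (h : Par V (lo S A) x y) {f : E}
    (hf : f ∈ lo S A) (hf0 : f ≠ 0) (hsq : ∀ [IsLocalRing (lo S A)],
      (⟨f, hf⟩ : lo S A) ∉ maximalIdeal (lo S A) ^ 2) : RegP S (lo S A) (fun _ : Unit => f) := by
  have hloc := h.isLocalRing
  refine ⟨lo_le hAS, fun _ => hf0, fun _ => hf, h.isRegular, fun a ha h0 hS =>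
    inv_mem_lo hAS ha h0 hS, ?_⟩
  intro c hc hs i
  by_contra hci
  have hcu : IsUnit (c i) := by
    by_contra h1
    exact hci ((mem_maximalIdeal _).2 h1)
  apply hsq
  rw [Fintype.sum_unique] at hs
  exact (Ideal.unit_mul_mem_iff_mem _ hcu).1 hs

end par

end GSNG_

open IsLocalRing GSNG_ FIN_

/-- The finiteness of the singular points of a curve. -/
theorem t_SNG : S_sng.{u} := by
  intro K _ A hN f hfA hf0 hprime hfin
  classical
  let fA : A := ⟨f, hfA⟩
  have hfA0 : fA ≠ 0 := fun h0 => hf0 (congrArg Subtype.val h0)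
  -- conductors
  have hcond : ∀ 𝔭 : Ideal A, 𝔭.IsPrime → fA ∈ 𝔭 → ∃ c : A, c ∉ 𝔭 ∧
      ∀ z : FractionRing (A ⧸ 𝔭), IsIntegral (A ⧸ 𝔭) z → ∃ d : A ⧸ 𝔭,
        algebraMap (A ⧸ 𝔭) (FractionRing (A ⧸ 𝔭)) d =
          algebraMap (A ⧸ 𝔭) (FractionRing (A ⧸ 𝔭)) (Ideal.Quotient.mk 𝔭 c) * z := by
    intro 𝔭 hp hf
    have hbot : 𝔭 ≠ ⊥ := by
      rintro rfl
      exact hfA0 (Ideal.mem_bot.1 hf)
    obtain ⟨c, hc0, hc⟩ := conductor (hfin 𝔭 hbot)
    obtain ⟨c, rfl⟩ := Ideal.Quotient.mk_surjective c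
    exact ⟨c, fun h => hc0 (Ideal.Quotient.eq_zero_iff_mem.2 h), hc⟩
  choose! c hc1 hc2 using hcond
  let D : Set (Set K) := ⋃ 𝔭 ∈ (Ideal.span {fA}).minimalPrimes,
    (fun q : Ideal A => {z : K | ∃ a d : A, d ∉ q ∧ z = a * (d : K)⁻¹}) ''
      (𝔭 ⊔ Ideal.span {c 𝔭}).minimalPrimes
  have hD : D.Finite := by
    refine (Ideal.finite_minimalPrimes_of_isNoetherianRing _ _).biUnion fun 𝔭 _ => ?_
    exact (Ideal.finite_minimalPrimes_of_isNoetherianRing _ _).image _
  refine Set.Finite.of_finite_image (f := fun P : Subring K => (P : Set K)) (hD.subset ?_)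
    (fun a _ c _ hac => SetLike.coe_injective hac)
  rintro _ ⟨_, ⟨S, hS, hAS, hfS, rfl, ⟨V, x, y, hV⟩, hreg⟩, rfl⟩
  have hloc := hV.isLocalRing
  obtain ⟨Q, hQ, hQm, -⟩ := Pool.Agent.N98.RV.exists_center hS hAS
  let ι : A →+* lo S A := Subring.inclusion (le_lo S A)
  have hι : ∀ a : A, (ι a : K) = a := fun a => rfl
  have hιu : ∀ a : A, IsUnit (ι a) ↔ a ∉ Q := by
    intro a
    rw [isUnit_lo_iff hAS, hQm]
    rfl
  letI : Algebra A (lo S A) := ι.toAlgebra
  have hL : IsLocalization Q.primeCompl (lo S A) := by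
    refine ⟨?_, ?_, ?_⟩
    · rintro ⟨a, ha⟩
      exact (hιu a).2 ha
    · rintro ⟨z, a, ha, b, hb, hb0, hbS, rfl⟩
      refine ⟨(⟨a, ha⟩, ⟨⟨b, hb⟩, (hQm _).2 ⟨hb0, hbS⟩⟩), Subtype.ext ?_⟩
      change a * b⁻¹ * b = a
      rw [mul_assoc, inv_mul_cancel₀ hb0, mul_one]
    · intro a b hab
      refine ⟨1, ?_⟩
      have h1 : ι a = ι b := hab
      have h2 : (a : K) = b := congrArg (fun t : lo S A => (t : K)) h1
      rw [Subtype.ext h2]
  let F : lo S A := ι fA
  have hF0 : F ≠ 0 := fun h0 => hf0 (congrArg Subtype.val h0)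
  have hFp : Prime F := by
    refine ⟨hF0, ?_, ?_⟩
    · intro h1
      exact hfS ((isUnit_lo_iff hAS F).1 h1).2
    · rintro a b ⟨d, hd⟩
      have h1 : (a : K) * b = f * d := congrArg Subtype.val hd
      rcases hprime S hS hAS hfS a a.2 b b.2 (by
        rw [h1, mul_div_cancel_left₀ _ hf0]
        exact d.2) with h2 | h2
      · exact Or.inl ⟨⟨_, h2⟩, Subtype.ext (by
          change (a : K) = f * (a / f)
          field_simp)⟩
      · exact Or.inr ⟨⟨_, h2⟩, Subtype.ext (by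
          change (b : K) = f * (b / f)
          field_simp)⟩
  have hJ : (Ideal.span {F}).IsPrime := (Ideal.span_singleton_prime hF0).2 hFp
  obtain ⟨𝔭, h𝔭⟩ : ∃ 𝔭 : Ideal A, 𝔭 = (Ideal.span {F}).comap (algebraMap A (lo S A)) := ⟨_, rfl⟩
  have hpp : 𝔭.IsPrime := by
    rw [h𝔭]
    exact Ideal.IsPrime.comap _
  have hmem : ∀ a : A, a ∈ 𝔭 ↔ F ∣ ι a := by
    intro a
    rw [h𝔭, Ideal.mem_comap, Ideal.mem_span_singleton]
    rfl
  have hf𝔭 : fA ∈ 𝔭 := (hmem _).2 dvd_rfl
  have h𝔭Q : 𝔭 ≤ Q := by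
    intro a ha
    by_contra h1
    exact hFp.not_isUnit (isUnit_of_dvd_unit ((hmem a).1 ha) ((hιu a).2 h1))
  -- primes between
  have hmin : ∀ q : Ideal A, q.IsPrime → q ≤ Q → fA ∈ q → 𝔭 ≤ q := by
    intro q hq hqQ hfq a ha
    have hqS : ∀ a : A, (a : K)⁻¹ ∈ S → (a : K) ≠ 0 → a ∉ q := fun a h1 h0 ha =>
      (hQm a).2 ⟨h0, h1⟩ (hqQ ha)
    have h1 := (ext_mem (hAS := hAS) (hq := hq) (hqS := hqS) _).2 hfq
    rw [← ext_mem (hAS := hAS) (hq := hq) (hqS := hqS)]
    obtain ⟨d, hd⟩ := (hmem a).1 ha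
    change ι a ∈ _
    rw [hd]
    exact Ideal.mul_mem_right _ _ h1
  have h𝔭m : 𝔭 ∈ (Ideal.span {fA}).minimalPrimes := by
    refine ⟨⟨hpp, (Ideal.span_singleton_le_iff_mem _).2 hf𝔭⟩, ?_⟩
    rintro q ⟨hq, hqf⟩ hq𝔭
    exact hmin q hq (hq𝔭.trans h𝔭Q) (hqf (Ideal.mem_span_singleton_self _))
  have hcQ : c 𝔭 ∈ Q := by
    by_contra h1
    apply hreg
    refine regP_of hAS hV (le_lo S A hfA) hf0 ?_
    intro _
    refine not_sq hV (F := F) hFp ?_
    exact closed Q (Ideal.span {F}) 𝔭 h𝔭 (c 𝔭) ((hιu _).2 h1) (hc2 𝔭 hpp hf𝔭)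
  refine Set.mem_iUnion₂.2 ⟨𝔭, h𝔭m, Q, ?_, ?_⟩
  · refine ⟨⟨hQ, sup_le h𝔭Q ((Ideal.span_singleton_le_iff_mem _).2 hcQ)⟩, ?_⟩
    rintro q ⟨hq, hqI⟩ hqQ
    have hcq : c 𝔭 ∈ q := hqI (Ideal.mem_sup_right (Ideal.mem_span_singleton_self _))
    have hfq : fA ∈ q := hqI (Ideal.mem_sup_left hf𝔭)
    have hqS : ∀ a : A, (a : K)⁻¹ ∈ S → (a : K) ≠ 0 → a ∉ q := fun a h1 h0 ha =>
      (hQm a).2 ⟨h0, h1⟩ (hqQ ha)
    have hp := ext_prime hAS q hq hqS
    have h1 := (ext_mem (hAS := hAS) (hq := hq) (hqS := hqS) _).2 hfq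
    rcases hV.prime_ideal (ext hAS q hq hqS) with ⟨z, hz⟩ | ⟨h2, h3⟩
    · exfalso
      have h4 := (ext_mem (hAS := hAS) (hq := hq) (hqS := hqS) _).2 hcq
      rw [hz, Ideal.mem_span_singleton] at h1 h4
      obtain ⟨u, hu⟩ := h1
      have hu' : F = z * u := hu
      rcases hFp.irreducible.isUnit_or_isUnit hu' with h5 | h5
      · apply hp.ne_top
        rw [hz, Ideal.span_singleton_eq_top]
        exact h5
      · have h6 : F ∣ z := by
          obtain ⟨v, hv⟩ := h5.exists_right_inv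
          exact ⟨v, by rw [hu', mul_assoc, hv, mul_one]⟩
        exact hc1 𝔭 hpp hf𝔭 ((hmem _).2 (h6.trans h4))
    · intro a ha
      rw [← ext_mem (hAS := hAS) (hq := hq) (hqS := hqS)]
      refine hV.mem_of_both h2 h3 ?_
      refine (lt_or_one (hV.le a (le_lo S A a.2))).resolve_right fun h4 => ?_
      have h5 := (hV.isUnit_iff (⟨a, le_lo S A a.2⟩ : lo S A)).2 h4
      rw [isUnit_lo_iff hAS] at h5
      exact (hQm a).2 h5 ha
  · ext z
    constructor
    · rintro ⟨a, d, hd, rfl⟩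
      have h1 := (hQm d).1 hd
      exact ⟨a, a.2, d, d.2, h1.1, h1.2, rfl⟩
    · rintro ⟨a, ha, d, hd, hd0, hdS, rfl⟩
      exact ⟨⟨a, ha⟩, ⟨d, hd⟩, (hQm _).2 ⟨hd0, hdS⟩, rfl⟩

end Pool.Agent.N808.AS
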