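import Pool.Agent.N808.AS.StA

/-!
Log resolution on regular arithmetic surfaces, the general case: definitions and statements.
-/

set_option autoImplicit false
set_option linter.unusedVariables false
set_option linter.unusedSectionVars false

universe u

open Pool.Agent.W418.LU2 Pool.Agent.N98.T2 Pool.Agent.N98.RM Polynomial

namespace Pool.Agent.N808.AS

section defs

variable {k K : Type u} [CommRing k] [Field K] [Algebra k K] {T T' I Γ : Type} [Fintype Γ]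

/-- The maximal ideal of the local ring `P` is principal. -/
def Lw (P : Subring K) : Prop :=
  ∃ g ∈ P, (g = 0 ∨ g⁻¹ ∉ P) ∧ ∀ a ∈ P, a⁻¹ ∉ P → ∃ c ∈ P, a = c * g

/-- The general state. The components `x i` with `b i` (the boundary) form a divisor with strict
normal crossings contained in `Δ = 0`; the others are curves, which have normal crossings with the
boundary at the points of dimension at most one and outside of `Δ = 0`; no component of the boundary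
is contained in a curve. -/
structure GS (Δ : K) (G : Γ → K) [Fintype I] (M : PM k K T I) (b : I → Prop) : Prop where
  reg : ∀ t, RegC (M.A t).toSubring (fun i : {i // b i} => M.x t i)
  dm : ∀ t S, M.On t S → (∃ V x y, Par V (M.P t S) x y) ∨ Lw (M.P t S)
  one : ∀ t S, M.On t S → Lw (M.P t S) → RegP S (M.P t S) (M.x t)
  hv : ∀ t S, M.On t S → ∀ i j, b i → ¬ b j → (M.x t i)⁻¹ ∉ S → M.x t j / M.x t i ∉ M.P t S
  out : ∀ t S, M.On t S → Δ⁻¹ ∈ S → RegP S (M.P t S) (M.x t)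
  dA : ∀ t, Δ ∈ M.A t
  dv : ∀ t i, b i → Δ / M.x t i ∈ M.A t
  mon : ∀ t j, ¬ b j → ∃ (e : Γ → ℤ) (c : I → ℤ), (∀ i, ¬ b i → c i = 0) ∧
    M.x t j = (∏ a, G a ^ e a) * ∏ i, M.x t i ^ c i
  fin : M.BadSet.Finite

/-- Prime divisors: the components are prime elements or units at all points, and no component is
contained in another one. -/
structure Prd (M : PM k K T I) : Prop where
  prm : ∀ t S j, M.On t S → (M.x t j)⁻¹ ∉ S → ∀ a ∈ M.P t S, ∀ c ∈ M.P t S,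
    a * c / M.x t j ∈ M.P t S → a / M.x t j ∈ M.P t S ∨ c / M.x t j ∈ M.P t S
  dist : ∀ t S i j, M.On t S → i ≠ j → (M.x t i)⁻¹ ∉ S → M.x t j / M.x t i ∉ M.P t S

end defs

/-- GGOOD: points of the boundary at which all functions are monomials are not bad. -/
def S_ggood : Prop := ∀ (k K : Type u) [CommRing k] [IsNoetherianRing k] [Field K] [Algebra k K]
  (T I Γ : Type) [Finite T] [Fintype I] [Fintype Γ] (Δ : K) (G : Γ → K) (M : PM k K T I)
  (b : I → Prop), GS Δ G M b → ∀ t S, M.On t S → (∃ i, b i ∧ (M.x t i)⁻¹ ∉ S) →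
  GoodP Δ G (M.P t S) → RegP S (M.P t S) (M.x t)

/-- GCL: bad points are closed. -/
def S_gcl : Prop := ∀ (k K : Type u) [CommRing k] [IsNoetherianRing k] [Field K] [Algebra k K]
  (T I Γ : Type) [Finite T] [Fintype I] [Fintype Γ] (Δ : K) (G : Γ → K) (M : PM k K T I)
  (b : I → Prop), GS Δ G M b → ∀ t S0, M.On t S0 → ¬ RegP S0 (M.P t S0) (M.x t) →
  ∀ S, M.On t S → (∀ a ∈ M.A t, a⁻¹ ∉ S0 → a⁻¹ ∉ S) → M.P t S = M.P t S0

/-- GTWO: intersections of the boundary with curves are two-dimensional. -/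
def S_gtwo : Prop := ∀ (k K : Type u) [CommRing k] [IsNoetherianRing k] [Field K] [Algebra k K]
  (T I Γ : Type) [Finite T] [Fintype I] [Fintype Γ] (Δ : K) (G : Γ → K) (M : PM k K T I)
  (b : I → Prop), GS Δ G M b → ∀ t S, M.On t S → (∃ i, b i ∧ (M.x t i)⁻¹ ∉ S) →
  (∃ j, ¬ b j ∧ (M.x t j)⁻¹ ∉ S) → ∃ V x y, Par V (M.P t S) x y

/-- GFIN: finiteness of intersections. -/
def S_gfin : Prop := ∀ (K : Type u) [Field K] (A : Subring K), IsNoetherianRing A →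
  ∀ u ∈ A, ∀ f ∈ A, (∀ S, Loc S → A ≤ S → u⁻¹ ∉ S → f⁻¹ ∉ S →
    (∃ V x y, Par V (lo S A) x y) ∧
    (∀ a ∈ lo S A, ∀ c ∈ lo S A, u = a * c → a⁻¹ ∈ S ∨ c⁻¹ ∈ S) ∧ f / u ∉ lo S A) →
  {P | ∃ S, Loc S ∧ A ≤ S ∧ u⁻¹ ∉ S ∧ f⁻¹ ∉ S ∧ P = lo S A}.Finite

/-- SNG: finiteness of the singular points of a curve. -/
def S_sng : Prop := ∀ (K : Type u) [Field K] (A : Subring K), IsNoetherianRing A → ∀ f ∈ A,
  f ≠ 0 → (∀ S, Loc S → A ≤ S → f⁻¹ ∉ S →
    ∀ a ∈ lo S A, ∀ c ∈ lo S A, a * c / f ∈ lo S A → a / f ∈ lo S A ∨ c / f ∈ lo S A) →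
  (∀ (𝔭 : Ideal A) [𝔭.IsPrime], 𝔭 ≠ ⊥ →
    Module.Finite (A ⧸ 𝔭) (integralClosure (A ⧸ 𝔭) (FractionRing (A ⧸ 𝔭)))) →
  {P | ∃ S, Loc S ∧ A ≤ S ∧ f⁻¹ ∉ S ∧ P = lo S A ∧ (∃ V x y, Par V P x y) ∧
    ¬ RegP S P (fun _ : Unit => f)}.Finite

/-- PRD: the divisors of finitely many functions on a regular surface. -/
def S_prd : Prop := ∀ (k K : Type u) [CommRing k] [IsNoetherianRing k] [Field K] [Algebra k K]
  (T : Type) [Finite T] (M : PM k K T Empty),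
  (∀ t S, M.On t S → (∃ V x y, Par V (M.P t S) x y) ∨ Lw (M.P t S)) →
  (∀ t (y : K), ∃ c ∈ M.A t, ∃ d ∈ M.A t, d ≠ 0 ∧ y = c * d⁻¹) →
  ∀ (H : Type) [Finite H] (h : H → K), (∀ a, h a ≠ 0) →
  ∃ (T' J : Type) (_ : Finite T') (_ : Fintype J) (M' : PM k K T' J) (π : T' → T),
    (∀ p, M.A (π p) ≤ M'.A p) ∧ (∀ p S, M'.On p S → M'.P p S = M.P (π p) S) ∧ Prd M' ∧
    ∀ a, ∃ γ : J → ℤ, ∀ p, IsM (M'.A p) (M'.x p) (h a) γ

/-- DLE: curves are one-dimensional. -/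
def S_dle : Prop := ∀ (K : Type u) [Field K] (A : Subring K), IsNoetherianRing A →
  (∀ S, Loc S → A ≤ S → (∃ V x y, Par V (lo S A) x y) ∨ Lw (lo S A)) →
  ∀ (𝔭 : Ideal A) [𝔭.IsPrime], 𝔭 ≠ ⊥ → Ring.DimensionLEOne (A ⧸ 𝔭)

/-- NRM: finiteness of the normalization of curves on arithmetic surfaces. -/
def S_nrm : Prop := ∀ (O F K : Type u) [CommRing O] [IsDedekindDomain O] [Field F] [CharZero F]
  [Algebra O F] [IsFractionRing O F] [Field K] [Algebra F K] [Algebra O K] [IsScalarTower O F K],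
  (∀ 𝔮 : Ideal O, 𝔮.IsMaximal → Finite (O ⧸ 𝔮)) → Algebra.trdeg F K ≤ 1 →
  ∀ (A : Subalgebra O K), Algebra.FiniteType O A →
  ∀ (𝔭 : Ideal A.toSubring) [𝔭.IsPrime], 𝔭 ≠ ⊥ → Ring.DimensionLEOne (A.toSubring ⧸ 𝔭) →
    Module.Finite (A.toSubring ⧸ 𝔭)
      (integralClosure (A.toSubring ⧸ 𝔭) (FractionRing (A.toSubring ⧸ 𝔭)))

/-- NRL: finiteness of the normalization localizes. -/
def S_nrl : Prop := ∀ (K : Type u) [Field K] (A S : Subring K), Loc S → A ≤ S →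
  (∀ (𝔭 : Ideal A) [𝔭.IsPrime], 𝔭 ≠ ⊥ →
    Module.Finite (A ⧸ 𝔭) (integralClosure (A ⧸ 𝔭) (FractionRing (A ⧸ 𝔭)))) →
  ∀ (𝔭 : Ideal (lo S A)) [𝔭.IsPrime], 𝔭 ≠ ⊥ →
    Module.Finite (lo S A ⧸ 𝔭) (integralClosure (lo S A ⧸ 𝔭) (FractionRing (lo S A ⧸ 𝔭)))

/-- PFO: two-dimensional points are closed points of fibres over closed points of the base. -/
def S_pfo : Prop := ∀ (O F K : Type u) [CommRing O] [IsDomain O] [Field F] [Algebra O F]
  [IsFractionRing O F] [Field K] [Algebra F K] [Algebra O K] [IsScalarTower O F K],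
  Algebra.trdeg F K ≤ 1 → ∀ (V : ValuationSubring K) (P : Subring K) (x y : K), Par V P x y →
  (∀ a : O, algebraMap O K a ∈ P) → ∃ a : O, a ≠ 0 ∧ (algebraMap O K a)⁻¹ ∉ P

/-- COO: the model with given homogeneous coordinates. -/
def S_coo : Prop := ∀ (k K : Type u) [CommRing k] [Field K] [Algebra k K] (m : ℕ)
  (H : Fin (m + 1) → K), (∀ i, H i ≠ 0) → ∃ M : PM k K (Fin (m + 1)) Empty,
    ∀ t, M.A t = Algebra.adjoin k (Set.range fun j => H j / H t)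

/-- DIM: regular local rings of dimension at most two. -/
def S_dim : Prop := ∀ (K : Type u) [Field K] (S P : Subring K), Loc S → P ≤ S →
  (∀ a ∈ P, a⁻¹ ∈ S → a⁻¹ ∈ P) → IsRegularLocalRing P → ringKrullDim P ≤ 2 →
  (∀ y : K, ∃ c ∈ P, ∃ d ∈ P, d ≠ 0 ∧ y = c * d⁻¹) →
  (∃ V x y, Par V P x y) ∨ Lw P

end Pool.Agent.N808.AS
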