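import Pool.Agent.N808.AS.IniB

/-!
Log resolution on arithmetic surfaces: the initial state, points outside of `Δ = 0`.
-/

set_option autoImplicit false
set_option linter.unusedVariables false
set_option linter.unusedSectionVars false

universe u

open Pool.Agent.W418.LU2 Pool.Agent.N98.T2 Pool.Agent.N98.RM Polynomial IsLocalRing

namespace Pool.Agent.N808.AS

section un

variable {K : Type u} [Field K]

/-- `a` is a unit of `P`. -/
def Un (P : Subring K) (a : K) : Prop := a ≠ 0 ∧ a ∈ P ∧ a⁻¹ ∈ P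

variable {P : Subring K} {a b : K}

lemma Un.one : Un P (1 : K) := ⟨one_ne_zero, P.one_mem, by rw [inv_one]; exact P.one_mem⟩

lemma Un.mul (ha : Un P a) (hb : Un P b) : Un P (a * b) :=
  ⟨mul_ne_zero ha.1 hb.1, P.mul_mem ha.2.1 hb.2.1, by rw [mul_inv]; exact P.mul_mem ha.2.2 hb.2.2⟩

lemma Un.inv (ha : Un P a) : Un P a⁻¹ := ⟨inv_ne_zero ha.1, ha.2.2, by rw [inv_inv]; exact ha.2.1⟩

lemma Un.pow (ha : Un P a) (n : ℕ) : Un P (a ^ n) :=
  ⟨pow_ne_zero _ ha.1, P.pow_mem ha.2.1 n, by rw [← inv_pow]; exact P.pow_mem ha.2.2 n⟩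

lemma Un.zpow (ha : Un P a) (n : ℤ) : Un P (a ^ n) := by
  obtain ⟨k, rfl | rfl⟩ := Int.eq_nat_or_neg n
  · rw [zpow_natCast]
    exact ha.pow k
  · rw [zpow_neg, zpow_natCast]
    exact (ha.pow k).inv

lemma Un.prod {ι : Type*} (s : Finset ι) {f : ι → K} (hf : ∀ i ∈ s, Un P (f i)) :
    Un P (∏ i ∈ s, f i) := by
  classical
  induction s using Finset.induction_on with
  | empty => rw [Finset.prod_empty]; exact Un.one
  | insert a s ha ih =>
    rw [Finset.prod_insert ha]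
    exact (hf a (Finset.mem_insert_self a s)).mul
      (ih fun i hi => hf i (Finset.mem_insert_of_mem hi))

lemma D_lo {A S : Subring K} (hA : A ≤ S) (D : Derivation ℤ K K) (hD : ∀ a ∈ A, D a ∈ A) :
    ∀ p ∈ lo S A, D p ∈ lo S A := by
  rintro _ ⟨a, ha, b, hb, hb0, hbW, rfl⟩
  have hbP : b⁻¹ ∈ lo S A := inv_mem_lo hA (le_lo _ _ hb) hb0 hbW
  rw [Derivation.leibniz, Derivation.leibniz_inv]
  simp only [smul_eq_mul]
  refine (lo S A).add_mem ((lo S A).mul_mem (le_lo _ _ ha) ((lo S A).mul_mem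
    ((lo S A).neg_mem ((lo S A).pow_mem hbP 2)) (le_lo _ _ (hD _ hb))))
    ((lo S A).mul_mem hbP (le_lo _ _ (hD _ ha)))

end un

section tr

variable {k K : Type u} [CommRing k] [Field K] [Algebra k K] {T I : Type} (M : PM k K T I)

lemma PM.x_ratio_P {t t' : T} {S : Subring K} (h : M.On t S) (h' : M.On t' S) (i : I) :
    M.x t' i / M.x t i ∈ M.P t S := by
  obtain ⟨n, hn⟩ := M.gi t t' i
  have h2 := M.ratio_unit h h'
  have h0 : M.H t' / M.H t ≠ 0 := div_ne_zero (M.H0 _) (M.H0 _)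
  have h3 : (M.H t' / M.H t)⁻¹ ∈ M.P t S := M.P_inv h (M.le_P t S (M.rt t t')) h0 h2.2
  have e : M.x t' i / M.x t i = (M.H t' / M.H t)⁻¹ ^ n *
      ((M.H t' / M.H t) ^ n * (M.x t' i / M.x t i)) := by
    rw [← mul_assoc, ← mul_pow, inv_mul_cancel₀ h0, one_pow, one_mul]
  rw [e]
  exact (M.P t S).mul_mem ((M.P t S).pow_mem h3 n) (M.le_P t S hn)

theorem PM.reg_transfer [Fintype I] {t t' : T} {S : Subring K} (h : M.On t S) (h' : M.On t' S)
    (hr : RegP S (M.P t S) (M.x t)) : RegP S (M.P t' S) (M.x t') := by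
  rw [← M.P_eq h h']
  refine regP_change hr _ (M.x0 t') (fun i => ?_) (fun i => i.1) Subtype.val_injective
    (fun i => ?_)
  · rw [M.P_eq h h']
    exact M.le_P t' S (M.xA t' i)
  · refine ⟨M.x t' i / M.x t i, M.x_ratio_P h h' i, div_ne_zero (M.x0 _ _) (M.x0 _ _), ?_, ?_⟩
    · rw [inv_div]
      exact M.x_ratio h' h i
    · rw [div_mul_cancel₀ _ (M.x0 _ _)]

end tr

section ini

variable {O F K : Type u} [CommRing O] [Field F] [Field K] [Algebra O F] [Algebra O K]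
  [Algebra F K] [IsScalarTower O F K] {T0 : Type} {n : ℕ} {J : Type} [Fintype J]

lemma aeval_mem {P : Subring K} {w : K} (hw : w ∈ P) (f : F[X])
    (hf : ∀ l, algebraMap F K (f.coeff l) ∈ P) : aeval w f ∈ P := by
  rw [aeval_eq_sum_range]
  refine P.sum_mem fun l _ => ?_
  rw [Algebra.smul_def]
  exact P.mul_mem (hf l) (P.pow_mem hw l)

/-- The derivation `∂ / ∂ w`. -/
lemma exists_D {w : K} (hw : Transcendental F w) (htop : IntermediateField.adjoin F {w} = ⊤)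
    (R : Subalgebra O F) : ∃ D : Derivation ℤ K K, D w = 1 ∧
      (∀ f : F[X], D (aeval w f) = aeval w (derivative f)) ∧
      (∀ (c : F) (a : K), D (algebraMap F K c * a) = algebraMap F K c * D a) ∧
      ∀ a ∈ (Cw R w : Subalgebra O K).toSubring, D a ∈ (Cw R w : Subalgebra O K).toSubring := by
  obtain ⟨D, hD⟩ := exists_ddz hw htop
  have h1 : ∀ f : F[X], D (aeval w f) = aeval w (derivative f) := by
    intro f
    rw [Derivation.map_aeval, hD, smul_eq_mul, mul_one]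
  refine ⟨D.restrictScalars ℤ, hD, h1, fun c a => ?_, fun a ha => ?_⟩
  · change D (algebraMap F K c * a) = algebraMap F K c * D a
    rw [← Algebra.smul_def, D.map_smul, Algebra.smul_def]
  · obtain ⟨f, hf, rfl⟩ := (mem_Cw R w).1 ha
    refine (mem_Cw R w).2 ⟨derivative f, fun l => ?_, (h1 f).symm⟩
    rw [coeff_derivative]
    refine R.mul_mem (hf _) (R.add_mem ?_ R.one_mem)
    exact natCast_mem R l

namespace Ini

variable {z : K} {M0 : LM (⊥ : Subalgebra O F) ⊤ T0 (Fin n)} {q : J → F[X]} {Δ : O}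
  {γ : J → Fin n → ℤ} {M : PM O K (T0 × Bool) ((Fin n ⊕ Bool) ⊕ J)} (h : Ini z M0 q Δ γ M)

include h

lemma ztop (b : Bool) : IntermediateField.adjoin F {zz z b} = ⊤ := by
  rw [eq_top_iff, ← h.top, IntermediateField.adjoin_le_iff, Set.singleton_subset_iff]
  have h1 : zz z b ∈ IntermediateField.adjoin F {zz z b} :=
    IntermediateField.subset_adjoin _ _ rfl
  cases b
  · have h2 := inv_mem h1
    have e : (zz z false)⁻¹ = z := inv_inv z
    rwa [e] at h2
  · exact h1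

variable {p : T0 × Bool} {S : Subring K} (hS : M.On p S) (hΔ : (algebraMap O K Δ)⁻¹ ∈ S)

include hS hΔ

lemma un_x (i : Fin n) : Un (M.P p S) (algebraMap F K (M0.x p.1 i)) := by
  have h0 : algebraMap F K (M0.x p.1 i) ≠ 0 := (_root_.map_ne_zero _).2 (M0.x0 _ _)
  have h1 : algebraMap F K (M0.x p.1 i) ∈ M.P p S := by
    rw [h.P']
    exact le_lo _ _ (Cw_const _ _ (M0.xA _ _))
  refine ⟨h0, h1, M.P_inv hS h1 h0 ?_⟩
  have h2 : algebraMap F K (algebraMap O F Δ / M0.x p.1 i) ∈ S :=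
    h.On' hS (Cw_const _ _ (h.dv p.1 i))
  have e : (algebraMap F K (M0.x p.1 i))⁻¹ =
      algebraMap F K (algebraMap O F Δ / M0.x p.1 i) * (algebraMap O K Δ)⁻¹ := by
    have h3 : algebraMap O K Δ ≠ 0 := by
      rw [h.ΔK]
      exact (_root_.map_ne_zero _).2 h.Δ0
    rw [map_div₀, ← h.ΔK]
    field_simp
  rw [e]
  exact S.mul_mem h2 hΔ

lemma un_κ (j : J) : Un (M.P p S) (algebraMap F K (∏ i, M0.x p.1 i ^ (-γ j i))) := by
  rw [map_prod]
  refine Un.prod _ fun i _ => ?_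
  rw [map_zpow₀]
  exact (h.un_x hS hΔ i).zpow _

lemma un_Δ : Un (M.P p S) (algebraMap O K Δ) := by
  have h0 : algebraMap O K Δ ≠ 0 := by
    rw [h.ΔK]
    exact (_root_.map_ne_zero _).2 h.Δ0
  have h1 : algebraMap O K Δ ∈ M.P p S := M.le_P p S ((M.A p).algebraMap_mem Δ)
  exact ⟨h0, h1, M.P_inv hS h1 h0 hΔ⟩

lemma frac_mem {c : F} (hc : ∃ (d : O) (m : ℕ), c = algebraMap O F d / algebraMap O F Δ ^ m) :
    algebraMap F K c ∈ M.P p S := by
  obtain ⟨d, m, rfl⟩ := hc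
  rw [map_div₀, map_pow, ← h.ΔK, ← IsScalarTower.algebraMap_apply, div_eq_mul_inv]
  exact (M.P p S).mul_mem (M.le_P p S ((M.A p).algebraMap_mem d)) ((h.un_Δ hS hΔ).pow m).2.2

/-- The coefficients of the polynomials. -/
lemma coef_mem (j : J) (b : Bool) (l : ℕ) :
    algebraMap F K ((pj (q j) b).coeff l) ∈ M.P p S := by
  obtain ⟨l', e⟩ := pj_coeff (q j) b l
  rw [e]
  have h1 : algebraMap F K ((∏ i, M0.x p.1 i ^ (-γ j i)) * (q j).coeff l') ∈ M.P p S := by
    rw [h.P']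
    exact le_lo _ _ (Cw_const _ _ (h.g1 _ _ _))
  have h2 := h.un_κ hS hΔ j
  have e2 : algebraMap F K ((q j).coeff l') =
      (algebraMap F K (∏ i, M0.x p.1 i ^ (-γ j i)))⁻¹ *
        algebraMap F K ((∏ i, M0.x p.1 i ^ (-γ j i)) * (q j).coeff l') := by
    rw [map_mul, ← mul_assoc, inv_mul_cancel₀ h2.1, one_mul]
  rw [e2]
  exact (M.P p S).mul_mem h2.2.2 h1

lemma w_mem : zz z p.2 ∈ M.P p S := by
  rw [h.P']
  exact le_lo _ _ (Cw_self _ _)

omit hΔ in
lemma isReg (hr : ∀ p, RegC (M.A p).toSubring (fun i : Fin n ⊕ Bool => M.x p (Sum.inl i))) :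
    IsRegularLocalRing (M.P p S) :=
  ((hr p).reg S hS.1 hS.2 Empty (fun e => e.elim) (fun e => e.elim)).reg

omit hS hΔ in
/-- The product of the equations. -/
lemma prod_x (p : T0 × Bool) : ∃ μ : F, (∀ S, M.On p S → (algebraMap O K Δ)⁻¹ ∈ S →
      Un (M.P p S) (algebraMap F K μ)) ∧
    ∏ i, M.x p i = algebraMap F K μ * (zz z p.2 * ∏ j, aeval (zz z p.2) (pj (q j) p.2)) := by
  refine ⟨(∏ i, M0.x p.1 i) * ∏ j, ∏ i, M0.x p.1 i ^ (-γ j i), fun S hS hΔ => ?_, ?_⟩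
  · rw [map_mul, map_prod, map_prod]
    exact (Un.prod _ fun i _ => h.un_x hS hΔ i).mul (Un.prod _ fun j _ => h.un_κ hS hΔ j)
  · rw [Fintype.prod_sum_type, Fintype.prod_sum_type, Fintype.prod_bool]
    have e1 : ∏ i, M.x p (Sum.inl (Sum.inl i)) = algebraMap F K (∏ i, M0.x p.1 i) := by
      rw [map_prod]
      exact Finset.prod_congr rfl fun i _ => h.xv p i
    have e2 : M.x p (Sum.inl (Sum.inr true)) * M.x p (Sum.inl (Sum.inr false)) = zz z p.2 := by
      rw [h.xc, h.xc]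
      cases p.2 <;> simp
    have e3 : ∏ j, M.x p (Sum.inr j) = algebraMap F K (∏ j, ∏ i, M0.x p.1 i ^ (-γ j i)) *
        ∏ j, aeval (zz z p.2) (pj (q j) p.2) := by
      rw [map_prod, ← Finset.prod_mul_distrib]
      refine Finset.prod_congr rfl fun j _ => ?_
      rw [pj_aeval h.z0, h.xj, map_prod]
      simp only [map_zpow₀]
      ring
    rw [e1, e2, e3, map_mul]
    ring

/-- The points outside of `Δ = 0`, on the chart of `0`. -/
lemma out_true (hETD : S_etd.{u}) (hr : ∀ p, RegC (M.A p).toSubring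
    (fun i : Fin n ⊕ Bool => M.x p (Sum.inl i))) (hp : p.2 = true) {U W : F[X]}
    (hB : U * (X * ∏ j, q j) + W * derivative (X * ∏ j, q j) = 1)
    (hU : ∀ l, ∃ (c : O) (m : ℕ), U.coeff l = algebraMap O F c / algebraMap O F Δ ^ m)
    (hW : ∀ l, ∃ (c : O) (m : ℕ), W.coeff l = algebraMap O F c / algebraMap O F Δ ^ m) :
    RegP S (M.P p S) (M.x p) := by
  have hw : zz z p.2 = z := by rw [hp]; rfl
  obtain ⟨D, -, hD2, hD3, hD4⟩ := exists_D (h.hw p.2) (h.ztop p.2) (M0.A p.1)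
  rw [← h.A p] at hD4
  obtain ⟨μ, hμ, e⟩ := h.prod_x p
  have hμ' := hμ S hS hΔ
  refine hETD K (M.A p).toSubring S hS.1 hS.2 (h.isReg hS hr) D hD4 _ (M.x p)
    (M.x0 p) (M.xA p) ⟨(algebraMap F K μ)⁻¹ * aeval z U, ?_, (algebraMap F K μ)⁻¹ * aeval z W,
      ?_, ?_⟩
  · refine (M.P p S).mul_mem hμ'.2.2 (aeval_mem ?_ _ fun l => h.frac_mem hS hΔ (hU l))
    rw [← hw]
    exact h.w_mem hS hΔ
  · refine (M.P p S).mul_mem hμ'.2.2 (aeval_mem ?_ _ fun l => h.frac_mem hS hΔ (hW l))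
    rw [← hw]
    exact h.w_mem hS hΔ
  · have e2 : zz z p.2 * ∏ j, aeval (zz z p.2) (pj (q j) p.2) =
        aeval (zz z p.2) (X * ∏ j, q j) := by
      rw [map_mul, aeval_X, map_prod, hp]
      rfl
    rw [e, e2, hD3, hD2, hw]
    have e3 := congrArg (aeval z) hB
    rw [map_add, map_mul (aeval z) U, map_mul (aeval z) W, map_one] at e3
    have h0 := hμ'.1
    have e4 : (algebraMap F K μ)⁻¹ * aeval z U * (algebraMap F K μ * aeval z (X * ∏ j, q j)) +
        (algebraMap F K μ)⁻¹ * aeval z W *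
          (algebraMap F K μ * aeval z (derivative (X * ∏ j, q j))) =
        aeval z U * aeval z (X * ∏ j, q j) + aeval z W * aeval z (derivative (X * ∏ j, q j)) := by
      field_simp
    rw [e4, e3]

/-- The points outside of `Δ = 0`, at infinity. -/
lemma out_false (hETD : S_etd.{u}) (hr : ∀ p, RegC (M.A p).toSubring
    (fun i : Fin n ⊕ Bool => M.x p (Sum.inl i))) (hp : p.2 = false) (hwS : (zz z p.2)⁻¹ ∉ S) :
    RegP S (M.P p S) (M.x p) := by
  obtain ⟨D, hD1, -, -, hD4⟩ := exists_D (h.hw p.2) (h.ztop p.2) (M0.A p.1)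
  rw [← h.A p] at hD4
  obtain ⟨μ, hμ, e⟩ := h.prod_x p
  have hμ' := hμ S hS hΔ
  have hwP := h.w_mem hS hΔ
  have hw0 : zz z p.2 ≠ 0 := zz_ne h.z0 _
  have hun : ∀ j, Un (M.P p S) (aeval (zz z p.2) (pj (q j) p.2)) := by
    intro j
    have h1 : aeval (zz z p.2) (pj (q j) p.2) =
        1 - -(aeval (zz z p.2) (divX (pj (q j) p.2))) * zz z p.2 := by
      conv_lhs => rw [← divX_mul_X_add (pj (q j) p.2)]
      rw [map_add, map_mul, aeval_X, aeval_C]
      have h2 : (pj (q j) p.2).coeff 0 = 1 := by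
        rw [hp]
        exact pj_zero _ (h.qm j)
      rw [h2, map_one]
      ring
    have h3 : -(aeval (zz z p.2) (divX (pj (q j) p.2))) ∈ M.P p S := by
      refine (M.P p S).neg_mem (aeval_mem hwP _ fun l => ?_)
      rw [coeff_divX]
      exact h.coef_mem hS hΔ j p.2 _
    have h4 : -(aeval (zz z p.2) (divX (pj (q j) p.2))) * zz z p.2 ∈ M.P p S :=
      (M.P p S).mul_mem h3 hwP
    rw [h1]
    rcases hS.1 _ (M.P_le hS h4) with h5 | h5
    · exfalso
      apply hwS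
      exact inv_of_mul (left_ne_zero_of_mul h5.1) hw0 (M.P_le hS h3) h5.2
    · have h6 : 1 - -(aeval (zz z p.2) (divX (pj (q j) p.2))) * zz z p.2 ∈ M.P p S :=
        (M.P p S).sub_mem (M.P p S).one_mem h4
      exact ⟨h5.1, h6, M.P_inv hS h6 h5.1 h5.2⟩
  have hg := hμ'.mul (Un.prod Finset.univ fun j _ => hun j)
  obtain ⟨g, hgd⟩ : ∃ g, g = algebraMap F K μ * ∏ j, aeval (zz z p.2) (pj (q j) p.2) := ⟨_, rfl⟩
  rw [← hgd] at hg
  have e2 : ∏ i, M.x p i = zz z p.2 * g := by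
    rw [e, hgd]
    ring
  have hDg : D g ∈ M.P p S := D_lo hS.2 D hD4 _ hg.2.1
  refine hETD K (M.A p).toSubring S hS.1 hS.2 (h.isReg hS hr) D hD4 _ (M.x p)
    (M.x0 p) (M.xA p) ⟨-(g⁻¹ * g⁻¹ * D g), ?_, g⁻¹, hg.2.2, ?_⟩
  · exact (M.P p S).neg_mem ((M.P p S).mul_mem ((M.P p S).mul_mem hg.2.2 hg.2.2) hDg)
  · rw [e2, Derivation.leibniz, hD1]
    simp only [smul_eq_mul]
    have h0 := hg.1
    field_simp
    ring

end Ini

end ini

end Pool.Agent.N808.AS
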