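import Pool.Agent.N808.AS.STEP
import Pool.Agent.N808.AS.GStm
import Pool.Agent.N808.AS.IniC

/-!
Log resolution on regular arithmetic surfaces, the general case: the blowup of a bad point.
-/

set_option autoImplicit false
set_option linter.unusedVariables false
set_option linter.unusedSectionVars false

universe u

open Pool.Agent.W418.LU2 Pool.Agent.N98.T2 Pool.Agent.N98.RM Polynomial IsLocalRing

namespace Pool.Agent.N808.AS

section lw

variable {K : Type u} [Field K] {V : ValuationSubring K} {P : Subring K} {x y : K}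

/-- Two-dimensional local rings have no principal maximal ideal. -/
lemma not_lw (h : Par V P x y) : ¬ Lw P := by
  rintro ⟨g, hg, hg0, hgen⟩
  have hnu : ∀ a, V.valuation a < 1 → a ≠ 0 → a ∈ P → a⁻¹ ∉ P := by
    intro a ha h0 haP h1
    have h2 := one_of_inv (h.le a haP) h0 (h.le _ h1)
    rw [h2] at ha
    exact lt_irrefl _ ha
  obtain ⟨c, hc, e1⟩ := hgen x h.xP (hnu x h.xV h.x0 h.xP)
  obtain ⟨d, hd, e2⟩ := hgen y h.yP (hnu y h.yV h.y0 h.yP)
  have hg0' : g ≠ 0 := by
    rintro rfl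
    apply h.x0
    rw [e1, mul_zero]
  have hgP : g⁻¹ ∉ P := hg0.resolve_left hg0'
  -- x divides c or g
  rcases h.prime hc hg P.one_mem (by rw [one_mul]; exact e1.symm) with ⟨r, hr, e3⟩ | ⟨r, hr, e3⟩
  · apply hgP
    have e4 : r * g = 1 := by
      have h5 : x * (r * g) = x * 1 := by
        rw [mul_one]
        conv_rhs => rw [e1, e3]
        ring
      exact mul_left_cancel₀ h.x0 h5
    rw [← eq_inv_of_mul_eq_one_left e4]
    exact hr
  · refine h.not_dvd (P.mul_mem hd hr) ?_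
    rw [e2, e3]
    ring

end lw

/-- The general state with the termination condition. -/
structure GSt {k K : Type u} [CommRing k] [Field K] [Algebra k K] {T I Γ : Type} [Fintype Γ]
    (Δ : K) (G : Γ → K) [Fintype I] (M : PM k K T I) (b : I → Prop) : Prop where
  gs : GS Δ G M b
  acc : ∀ P ∈ M.BadSet, Acc (rr Δ G) P

/-- GSTEP: the blowup of a bad point. -/
def S_gstep : Prop := ∀ (k K : Type u) [CommRing k] [IsNoetherianRing k] [Field K] [Algebra k K]
  (T I Γ : Type) [Finite T] [Fintype I] [Fintype Γ] (Δ : K) (G : Γ → K) (M : PM k K T I)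
  (b : I → Prop), GSt Δ G M b → ∀ P ∈ M.BadSet,
  ∃ (T' I' : Type) (_ : Finite T') (_ : Fintype I') (M' : PM k K T' I') (b' : I' → Prop)
    (π : T' → T), GSt Δ G M' b' ∧ (∀ t, M.A (π t) ≤ M'.A t) ∧
    (∀ g : K, (∃ γ : I → ℤ, ∀ t, IsM (M.A t) (M.x t) g γ) →
      ∃ γ : I' → ℤ, ∀ t, IsM (M'.A t) (M'.x t) g γ) ∧
    ∀ P' ∈ M'.BadSet, (P' ∈ M.BadSet ∧ P' ≠ P) ∨ rr Δ G P' P

section refine

variable {k K : Type u} [CommRing k] [Field K] [Algebra k K] {T T' I Γ : Type} [Fintype Γ]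
  [Fintype I] {M : PM k K T I} {M' : PM k K T' I} {π : T' → T} {Δ : K} {G : Γ → K} {b : I → Prop}

theorem GS.refine (hs : GS Δ G M b) (h : Rf M M' π) : GS Δ G M' b where
  reg := by
    intro p
    have h1 := (hs.reg (π p)).of_le (A' := (M'.A p).toSubring) (fun a ha => h.le p ha)
      (fun W hW hAW => by
        have h2 := h.lo p W ⟨hW, hAW⟩
        intro a ha
        have h3 : a ∈ M'.P p W := M'.le_P p W ha
        rw [h2] at h3
        exact h3)
    have e : (fun i : {i // b i} => M'.x p i) = fun i : {i // b i} => M.x (π p) i :=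
      funext fun i => h.x p i
    rw [e]
    exact h1
  dm := by
    intro p S hS
    rw [h.lo p S hS]
    exact hs.dm _ S (h.on hS)
  one := by
    intro p S hS h1
    rw [h.lo p S hS, show M'.x p = M.x (π p) from funext (h.x p)]
    rw [h.lo p S hS] at h1
    exact hs.one _ S (h.on hS) h1
  hv := by
    intro p S hS i j hi hj h1
    rw [h.x, h.x, h.lo p S hS]
    rw [h.x] at h1
    exact hs.hv _ S (h.on hS) i j hi hj h1
  out := by
    intro p S hS h1
    rw [h.lo p S hS, show M'.x p = M.x (π p) from funext (h.x p)]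
    exact hs.out _ S (h.on hS) h1
  dA := fun p => h.le p (hs.dA _)
  dv := by
    intro p i hi
    rw [h.x]
    exact h.le p (hs.dv _ i hi)
  mon := by
    intro p j hj
    obtain ⟨e, c, h1, h2⟩ := hs.mon (π p) j hj
    refine ⟨e, c, h1, ?_⟩
    rw [h.x, h2]
    congr 1
    exact Finset.prod_congr rfl fun i _ => by rw [h.x]
  fin := hs.fin.subset h.bad

theorem GSt.refine (hs : GSt Δ G M b) (h : Rf M M' π) : GSt Δ G M' b :=
  ⟨hs.gs.refine h, fun P hP => hs.acc P (h.bad hP)⟩

end refine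

section bl

variable {k K : Type u} [CommRing k] [Field K] [Algebra k K] {T I Γ : Type} [Fintype I]
  [Fintype Γ] {Δ : K} {G : Γ → K} {M : PM k K T I} {b : I → Prop} {S0 : Subring K} {t0 : T}
  {u v : K} {V : ValuationSubring K} {m : I → ℕ} {M' : PM k K (T × Bool) (Option I)}

/-- A point is good if all curves are units. -/
lemma regP_of_units [Fintype {i // b i}] {t : T} {S : Subring K}
    (hr : RegP S (M.P t S) (fun i : {i // b i} => M.x t i))
    (hu : ∀ j, ¬ b j → (M.x t j)⁻¹ ∈ S) : RegP S (M.P t S) (M.x t) :=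
  regP_reindex hr (M.x t) (M.x0 t) (fun i => M.le_P t S (M.xA t i))
    (fun k => ⟨k.1, by_contra fun h => k.2 (hu _ h)⟩)
    (fun a c hac => Subtype.ext (congrArg (fun z : {i // b i} => (z : I)) hac)) fun k => rfl

namespace Bd

variable (h : Bd M b S0 t0 u v V m M')

include h

/-- Points in the exceptional divisor. -/
structure Near (b : I → Prop) (M : PM k K T I) (S0 : Subring K) (t0 : T) (u v : K)
    (V : ValuationSubring K) (m : I → ℕ)
    (M' : PM k K (T × Bool) (Option I)) (p : T × Bool) (S : Subring K) (u' v' : K) : Prop where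
  hp : p.1 = t0
  ld : Ld (M.A t0).toSubring S0 V u' v' (M.x t0) m b
  be : be t0 u v p = u'
  A : (M'.A p).toSubring = A1 (M.A t0).toSubring u' v'
  nx : ∀ V' : ValuationSubring K, Par V' (M.P t0 S0) u' v' → v' / u' ∈ V' →
      Nx V' (M.P t0 S0) u' (lo V'.toSubring (bl (M.P t0 S0) (v' / u')))
  nu : u'⁻¹ ∉ S

/-- The three types of points. -/
lemma trich {p : T × Bool} {S : Subring K} (hS : M'.On p S) :
    (M'.P p S = M.P p.1 S ∧ (be t0 u v p)⁻¹ ∈ S ∧
      (RegP S (M.P p.1 S) (M.x p.1) → RegP S (M'.P p S) (M'.x p)) ∧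
      (∀ i, (M.x p.1 i)⁻¹ ∉ S → (M'.x p (some i))⁻¹ ∉ S) ∧
      (∀ i, (M'.x p (some i))⁻¹ ∉ S → (M.x p.1 i)⁻¹ ∉ S) ∧
      M'.P p S ≠ M.P t0 S0) ∨
    ∃ u' v', Near b M S0 t0 u v V m M' p S u' v' := by
  by_cases hp : p.1 = t0
  · obtain ⟨u', v', h2, h3, h4, h5⟩ := h.at_pt hp
    have hS' : A1 (M.A t0).toSubring u' v' ≤ S := by rw [← h4]; exact hS.2
    have hP : M'.P p S = lo S (A1 (M.A t0).toSubring u' v') := by
      unfold PM.P
      rw [h4]
    have hon := h.on hS
    rw [hp] at hon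
    by_cases hu : u'⁻¹ ∈ S
    · left
      have e : M'.P p S = M.P t0 S := by
        rw [hP, h2.far hS.1 hS' hu]
        rfl
      refine ⟨by rw [hp]; exact e, by rw [h3]; exact hu, fun h6 => ?_, fun i hi => ?_,
        fun i hi => ?_, fun h6 => ?_⟩
      · rw [hp] at h6
        rw [hP]
        have h7 := h2.far_reg hS.1 hS' hu h6
        convert h7 using 1
        funext o
        rcases o with _ | i
        · rw [h.x_none, h3]
          rfl
        · rw [h.x_some, h3, hp]
          rfl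
      · rw [h.x_some, h3, hp]
        rw [hp] at hi
        exact h2.far_inv hS.1 hS' hu i _ hi
      · rw [h.x_some, h3, hp] at hi
        rw [hp]
        exact h2.inv_of hS.1 hS' i _ hi
      · apply h2.uS0
        have h7 : u'⁻¹ ∈ M.P t0 S := h2.uP hS.1 hS' hu
        rw [← e, h6] at h7
        exact M.P_le h.iso.on h7
    · exact Or.inr ⟨u', v', hp, h2, h3, h4, h5, hu⟩
  · left
    refine ⟨h.out_P hp S, ?_, h.out_reg hp hS, fun i hi => ?_, fun i hi => ?_, fun h6 => ?_⟩
    · rw [h.out_be hp, inv_one]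
      exact S.one_mem
    · rw [h.out_some hp]
      exact hi
    · rw [h.out_some hp] at hi
      exact hi
    · rw [h.out_P hp S] at h6
      exact hp (h.iso.uniq p.1 S (h.on hS) h6)

end Bd

namespace Bd.Near

variable {p : T × Bool} {S : Subring K} {u' v' : K} (hn : Near b M S0 t0 u v V m M' p S u' v')
  (h : Bd M b S0 t0 u v V m M') (hS : M'.On p S)

include hn h hS

lemma le : A1 (M.A t0).toSubring u' v' ≤ S := by rw [← hn.A]; exact hS.2

lemma P : M'.P p S = lo S (A1 (M.A t0).toSubring u' v') := by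
  unfold PM.P
  rw [hn.A]

lemma on0 : M.On t0 S := by
  have := h.on hS
  rwa [hn.hp] at this

omit hS in
lemma xn : M'.x p none = u' := by rw [h.x_none, hn.be]

omit hS in
lemma xs (i : I) : M'.x p (some i) = M.x t0 i / u' ^ m i := by rw [h.x_some, hn.be, hn.hp]

lemma hvn (hSTR : S_str.{u}) {j : I} (hj : ¬ b j) :
    M'.x p (some j) / u' ∉ M'.P p S := by
  rw [hn.xs h, hn.P h hS]
  exact hn.ld.hv_exc hS.1 (hn.le h hS) hSTR hn.nu hj

/-- The local ring is two-dimensional with the parameter `u'`, or its maximal ideal is generated by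
`u'`. -/
lemma dich : (∃ V' z, Par V' (M'.P p S) u' z) ∨
    (u' ∈ M'.P p S ∧ ∀ a ∈ M'.P p S, a⁻¹ ∉ S → ∃ c ∈ M'.P p S, a = c * u') := by
  obtain ⟨V', h2, h3, h4, h5, h6⟩ := hn.ld.nx hS.1 (hn.le h hS) hn.nu
  rcases h2.blow h3 with ⟨z, h7⟩ | h7
  · rw [← h6, ← hn.P h hS] at h7
    exact Or.inl ⟨V', z, h7⟩
  · right
    rw [← h6, ← hn.P h hS] at h7
    exact ⟨h7.xP, fun a ha ha' => h7.gen a ha (h5 a (M'.P_le hS ha) ha')⟩

lemma dm : (∃ V x y, Par V (M'.P p S) x y) ∨ Lw (M'.P p S) := by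
  rcases hn.dich h hS with ⟨V', z, h1⟩ | ⟨h1, h2⟩
  · exact Or.inl ⟨V', u', z, h1⟩
  · refine Or.inr ⟨u', h1, Or.inr fun h3 => hn.nu (M'.P_le hS h3), fun a ha ha' => ?_⟩
    refine h2 a ha fun h3 => ha' ?_
    refine M'.P_inv hS ha ?_ h3
    rintro rfl
    apply ha'
    rw [inv_zero]
    exact (M'.P p S).zero_mem

/-- Points on a curve are two-dimensional. -/
lemma par (hSTR : S_str.{u}) {j : I} (hj : ¬ b j) (hjS : (M'.x p (some j))⁻¹ ∉ S) :
    ∃ V' z, Par V' (M'.P p S) u' z := by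
  rcases hn.dich h hS with h1 | ⟨h1, h2⟩
  · exact h1
  · exfalso
    obtain ⟨c, hc, e⟩ := h2 _ (M'.le_P p S (M'.xA p (some j))) hjS
    apply hn.hvn h hS hSTR hj
    rw [e, mul_div_assoc, div_self hn.ld.u0, mul_one]
    exact hc

/-- Bad points are on curves. -/
lemma curve (hr : RegC (M'.A p).toSubring (fun i : {i // bb b i} => M'.x p i))
    (hbad : ¬ RegP S (M'.P p S) (M'.x p)) : ∃ j, ¬ b j ∧ (M'.x p (some j))⁻¹ ∉ S := by
  classical
  by_contra hcon
  push Not at hcon
  apply hbad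
  refine regP_of_units (b := bb b) (hr.reg S hS.1 hS.2 _ id Function.injective_id) ?_
  rintro (_ | j) hj
  · exact absurd trivial hj
  · exact hcon j hj

end Bd.Near

namespace Bd

variable (h : Bd M b S0 t0 u v V m M') (hs : GS Δ G M b) (hΔ0 : Δ⁻¹ ∉ S0)

include h hs

/-- Boundary functions. -/
lemma gism (g : K) (γ : I → ℤ) (hg : ∀ t, IsM (M.A t) (M.x t) g γ) (p : T × Bool) :
    IsM (M'.A p) (M'.x p) g (fun o => o.elim (∑ i, γ i * m i) γ) := by
  obtain ⟨w, hw0, hw, hw', e⟩ := hg p.1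
  refine ⟨w, hw0, h.le p hw, h.le p hw', ?_⟩
  rw [e, Fintype.prod_option]
  congr 1
  change _ = M'.x p none ^ (∑ i, γ i * (m i : ℤ)) * ∏ i, M'.x p (some i) ^ γ i
  have hE := h.be0 p
  rw [h.x_none]
  have e1 : be t0 u v p ^ (∑ i, γ i * (m i : ℤ)) = ∏ i, be t0 u v p ^ (γ i * (m i : ℤ)) := by
    classical
    generalize (Finset.univ : Finset I) = s
    induction s using Finset.induction_on with
    | empty => simp
    | insert a s ha ih => rw [Finset.sum_insert ha, Finset.prod_insert ha, zpow_add₀ hE, ih]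
  rw [e1, ← Finset.prod_mul_distrib]
  refine Finset.prod_congr rfl fun i _ => ?_
  rw [h.x_some, div_zpow, ← zpow_natCast, ← zpow_mul, mul_comm (γ i) (m i : ℤ)]
  have : be t0 u v p ^ ((m i : ℤ) * γ i) ≠ 0 := zpow_ne_zero _ hE
  field_simp

lemma gmon (p : T × Bool) (o : Option I) (ho : ¬ bb b o) : ∃ (e : Γ → ℤ) (c : Option I → ℤ),
    (∀ i, ¬ bb b i → c i = 0) ∧ M'.x p o = (∏ a, G a ^ e a) * ∏ i, M'.x p i ^ c i := by
  rcases o with _ | j
  · exact absurd trivial ho
  · obtain ⟨e, c, h1, h2⟩ := hs.mon p.1 j ho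
    have hE := h.be0 p
    refine ⟨e, fun o => o.elim (∑ i, c i * m i - m j) c, ?_, ?_⟩
    · rintro (_ | i) hi
      · exact absurd trivial hi
      · exact h1 i hi
    · rw [Fintype.prod_option]
      change _ = _ * (M'.x p none ^ (∑ i, c i * (m i : ℤ) - m j) * ∏ i, M'.x p (some i) ^ c i)
      rw [h.x_none, h.x_some, h2]
      have e1 : be t0 u v p ^ (∑ i, c i * (m i : ℤ)) = ∏ i, be t0 u v p ^ (c i * (m i : ℤ)) := by
        classical
        generalize (Finset.univ : Finset I) = s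
        induction s using Finset.induction_on with
        | empty => simp
        | insert a s ha ih => rw [Finset.sum_insert ha, Finset.prod_insert ha, zpow_add₀ hE, ih]
      have e2 : ∏ i, M.x p.1 i ^ c i = be t0 u v p ^ (∑ i, c i * (m i : ℤ)) *
          ∏ i, M'.x p (some i) ^ c i := by
        rw [e1, ← Finset.prod_mul_distrib]
        refine Finset.prod_congr rfl fun i _ => ?_
        rw [h.x_some, div_zpow, ← zpow_natCast, ← zpow_mul, mul_comm (c i) (m i : ℤ)]
        have : be t0 u v p ^ ((m i : ℤ) * c i) ≠ 0 := zpow_ne_zero _ hE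
        field_simp
      rw [e2, zpow_sub₀ hE, zpow_natCast]
      ring

lemma greg (hREG : S_reg.{u}) (p : T × Bool) :
    RegC (M'.A p).toSubring (fun i : {i // bb b i} => M'.x p i) := by
  by_cases hp : p.1 = t0
  · obtain ⟨u', v', h1, h2, h3, -⟩ := h.at_pt hp
    have h4 := h1.reg hREG (hs.reg t0)
    rw [← h3] at h4
    have h5 := regC_comp h4 (J := {i // bb b i}) (fun o => match o with
      | ⟨none, _⟩ => none
      | ⟨some i, hi⟩ => some ⟨i, hi⟩) (by
      rintro ⟨_ | i, hi⟩ ⟨_ | j, hj⟩ hij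
      · rfl
      · simp at hij
      · simp at hij
      · simp only [Option.some.injEq] at hij
        have hij' : i = j := congrArg Subtype.val hij
        subst hij'
        rfl)
    convert h5 using 1
    funext o
    rcases o with ⟨_ | i, hi⟩
    · change M'.x p none = u'
      rw [h.x_none, h2]
    · change M'.x p (some i) = M.x t0 i / u' ^ m i
      rw [h.x_some, h2, hp]
  · have h1 := hs.reg p.1
    have hn : ∀ o : {i // bb b i}, (M'.x p o)⁻¹ ∉ (M'.A p).toSubring → o.1 ≠ none := by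
      rintro ⟨o, ho⟩ ho' rfl
      apply ho'
      rw [h.out_none hp, inv_one]
      exact Subring.one_mem _
    have h2 := h1.reindex (J := {i // bb b i}) (fun o => M'.x p o) (fun o => M'.x0 p o)
      (fun o => by
        have h3 := M'.xA p o
        rw [h.out_A hp] at h3
        exact h3) (fun o => match o with
      | ⟨⟨none, _⟩, hk⟩ => absurd rfl (hn ⟨none, trivial⟩ (by rw [h.out_A hp]; exact hk))
      | ⟨⟨some i, hi⟩, hk⟩ => ⟨i, hi⟩) (by
      rintro ⟨⟨_ | i, hi⟩, hi'⟩ ⟨⟨_ | j, hj⟩, hj'⟩ hij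
      · rfl
      · exact absurd rfl (hn ⟨none, trivial⟩ (by rw [h.out_A hp]; exact hi'))
      · exact absurd rfl (hn ⟨none, trivial⟩ (by rw [h.out_A hp]; exact hj'))
      · have hij' : i = j := congrArg Subtype.val hij
        subst hij'
        rfl) (by
      rintro ⟨⟨_ | i, hi⟩, hi'⟩
      · exact absurd rfl (hn ⟨none, trivial⟩ (by rw [h.out_A hp]; exact hi'))
      · refine ⟨1, Subring.one_mem _, by rw [inv_one]; exact Subring.one_mem _, ?_⟩
        change M'.x p (some i) = 1 * M.x p.1 i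
        rw [h.out_some hp, one_mul])
    rw [h.out_A hp]
    exact h2

/-- The bad points: old ones, or on the exceptional divisor. -/
lemma gbad {p : T × Bool} {S : Subring K} (hS : M'.On p S)
    (hbad : ¬ RegP S (M'.P p S) (M'.x p)) :
    (M'.P p S ∈ M.BadSet ∧ M'.P p S ≠ M.P t0 S0) ∨
      ∃ u' v', Near b M S0 t0 u v V m M' p S u' v' := by
  rcases h.trich hS with ⟨h1, h2, h3, h4, h5, h6⟩ | h1
  · exact Or.inl ⟨⟨p.1, S, h.on hS, h1, fun h7 => hbad (h3 h7)⟩, h6⟩
  · exact Or.inr h1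

/-- Finiteness of the bad points. -/
lemma gfin [Finite T] [IsNoetherianRing k] (hREG : S_reg.{u}) (hSTR : S_str.{u})
    (hGFIN : S_gfin.{u}) : M'.BadSet.Finite := by
  classical
  let Z : (T × Bool) → I → Set (Subring K) := fun p j =>
    {P | ∃ S, Loc S ∧ (M'.A p).toSubring ≤ S ∧ (be t0 u v p)⁻¹ ∉ S ∧
      (M'.x p (some j))⁻¹ ∉ S ∧ P = lo S (M'.A p).toSubring}
  have hZ : ∀ p j, ¬ b j → (Z p j).Finite := by
    intro p j hj
    have hN : IsNoetherianRing (M'.A p).toSubring := by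
      have h1 := M'.ft p
      exact Algebra.FiniteType.isNoetherianRing k (M'.A p)
    refine hGFIN K (M'.A p).toSubring hN (be t0 u v p) ?_ (M'.x p (some j)) (M'.xA p _) ?_
    · rw [← h.x_none p]
      exact M'.xA p none
    · intro S hS1 hS2 hu hf
      have hS : M'.On p S := ⟨hS1, hS2⟩
      rcases h.trich hS with ⟨-, h2, -⟩ | ⟨u', v', hn⟩
      · exact absurd h2 hu
      · obtain ⟨V', z, h1⟩ := hn.par h hS hSTR hj hf
        rw [hn.be]
        refine ⟨⟨V', u', z, h1⟩, fun a ha c hc e => ?_, hn.hvn h hS hSTR hj⟩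
        rcases h1.prime ha hc (M'.P p S).one_mem (by rw [one_mul]; exact e.symm) with
          ⟨d, hd, e2⟩ | ⟨d, hd, e2⟩
        · right
          have e3 : d * c = 1 := by
            have h5 : u' * (d * c) = u' * 1 := by
              rw [mul_one]
              conv_rhs => rw [e, e2]
              ring
            exact mul_left_cancel₀ h1.x0 h5
          rw [← eq_inv_of_mul_eq_one_left e3]
          exact M'.P_le hS hd
        · left
          have e3 : d * a = 1 := by
            have h5 : u' * (d * a) = u' * 1 := by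
              rw [mul_one]
              conv_rhs => rw [e, e2]
              ring
            exact mul_left_cancel₀ h1.x0 h5
          rw [← eq_inv_of_mul_eq_one_left e3]
          exact M'.P_le hS hd
  have hfin : (M.BadSet ∪ ⋃ p, ⋃ j : {j // ¬ b j}, Z p j).Finite := by
    refine hs.fin.union (Set.finite_iUnion fun p => Set.finite_iUnion fun j => hZ p j j.2)
  refine hfin.subset ?_
  rintro P ⟨p, S, hS, rfl, hbad⟩
  rcases h.gbad hs hS hbad with ⟨h1, -⟩ | ⟨u', v', hn⟩
  · exact Or.inl h1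
  · right
    obtain ⟨j, hj, hj'⟩ := hn.curve h hS (h.greg hs hREG p) hbad
    refine Set.mem_iUnion.2 ⟨p, Set.mem_iUnion.2 ⟨⟨j, hj⟩, S, hS.1, hS.2, ?_, hj', rfl⟩⟩
    rw [hn.be]
    exact hn.nu

include hΔ0

theorem gs [Finite T] [IsNoetherianRing k] (hREG : S_reg.{u}) (hSTR : S_str.{u})
    (hGFIN : S_gfin.{u}) : GS Δ G M' (bb b) where
  reg := h.greg hs hREG
  dm := by
    intro p S hS
    rcases h.trich hS with ⟨h1, -⟩ | ⟨u', v', hn⟩
    · rw [h1]
      exact hs.dm _ S (h.on hS)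
    · exact hn.dm h hS
  one := by
    intro p S hS hl
    rcases h.trich hS with ⟨h1, -, h3, -⟩ | ⟨u', v', hn⟩
    · refine h3 (hs.one _ S (h.on hS) ?_)
      rw [← h1]
      exact hl
    · by_contra hbad
      obtain ⟨j, hj, hj'⟩ := hn.curve h hS (h.greg hs hREG p) hbad
      obtain ⟨V', z, h1⟩ := hn.par h hS hSTR hj hj'
      exact not_lw h1 hl
  hv := by
    intro p S hS o o' ho ho' h1
    rcases o' with _ | j
    · exact absurd trivial ho'
    by_cases hp : p.1 = t0
    · obtain ⟨u', v', h2, h3, h4, -⟩ := h.at_pt hp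
      have hS' : A1 (M.A t0).toSubring u' v' ≤ S := by rw [← h4]; exact hS.2
      have hP : M'.P p S = lo S (A1 (M.A t0).toSubring u' v') := by
        unfold PM.P
        rw [h4]
      rw [hP, h.x_some, h3, hp]
      rcases o with _ | i
      · rw [h.x_none, h3]
        rw [h.x_none, h3] at h1
        exact h2.hv_exc hS.1 hS' hSTR h1 ho'
      · rw [h.x_some, h3, hp]
        rw [h.x_some, h3, hp] at h1
        have hon := h.on hS
        rw [hp] at hon
        exact h2.hv_bd hS.1 hS' hSTR ho ho' (fun h5 => hs.hv t0 S hon i j ho ho' h5)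
          (fun h5 => hs.hv t0 S0 h.iso.on i j ho ho' h5) h1
    · rw [h.out_P hp]
      rcases o with _ | i
      · exfalso
        apply h1
        rw [h.out_none hp, inv_one]
        exact S.one_mem
      · rw [h.out_some hp, h.out_some hp]
        rw [h.out_some hp] at h1
        exact hs.hv _ S (h.on hS) i j ho ho' h1
  out := by
    intro p S hS h1
    rcases h.trich hS with ⟨-, -, h3, -⟩ | ⟨u', v', hn⟩
    · exact h3 (hs.out _ S (h.on hS) h1)
    · exact absurd (hn.ld.unit_of hS.1 (hn.le h hS) (hs.dA t0) hΔ0 h1) hn.nu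
  dA := fun p => h.le p (hs.dA _)
  dv := by
    intro p o ho
    by_cases hp : p.1 = t0
    · obtain ⟨u', v', h2, h3, h4, -⟩ := h.at_pt hp
      rcases o with _ | i
      · rw [h.x_none, h3]
        have h5 := h2.dv (hs.dA t0) hΔ0
        rw [← h4] at h5
        exact h5
      · rw [h.x_some, h3, hp]
        have h5 := hs.dv t0 i ho
        have h0 := h2.u0
        have h0' := M.x0 t0 i
        have e : Δ / (M.x t0 i / u' ^ m i) = Δ / M.x t0 i * u' ^ m i := by field_simp
        rw [e]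
        have hle := h.le p
        rw [hp] at hle
        exact (M'.A p).mul_mem (hle h5) ((M'.A p).pow_mem (hle h2.uA) _)
    · rcases o with _ | i
      · rw [h.out_none hp, div_one]
        exact h.le p (hs.dA _)
      · rw [h.out_some hp]
        exact h.le p (hs.dv _ i ho)
  mon := h.gmon hs
  fin := h.gfin hs hREG hSTR hGFIN

/-- The bad points of the blowup. -/
theorem gbad' [Finite T] [IsNoetherianRing k] (hREG : S_reg.{u}) (hSTR : S_str.{u})
    (hGFIN : S_gfin.{u}) (hGGOOD : S_ggood.{u}) (P' : Subring K) (hP' : P' ∈ M'.BadSet) :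
    (P' ∈ M.BadSet ∧ P' ≠ M.P t0 S0) ∨ rr Δ G P' (M.P t0 S0) := by
  have hs' := h.gs hs hΔ0 hREG hSTR hGFIN
  obtain ⟨p, S, hS, rfl, hbad⟩ := hP'
  rcases h.gbad hs hS hbad with h1 | ⟨u', v', hn⟩
  · exact Or.inl h1
  · right
    obtain ⟨V', h6, h7, h8, h9, h10⟩ := hn.ld.nx hS.1 (hn.le h hS) hn.nu
    refine ⟨⟨V', u', ?_⟩, fun h11 => hbad ?_⟩
    · have h12 := hn.nx V' h6 h7
      rw [hn.P h hS, h10]
      exact h12
    · refine hGGOOD k K (T × Bool) (Option I) Γ Δ G M' (bb b) hs' p S hS ⟨none, trivial, ?_⟩ h11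
      rw [hn.xn h]
      exact hn.nu

end Bd

end bl

/-- The blowup of a bad point. -/
theorem t_GSTEP (hBLOW : S_blow.{u}) (hISO : S_iso.{u}) (hREG : S_reg.{u}) (hORD : S_ord.{u})
    (hSTR : S_str.{u}) (hGCL : S_gcl.{u}) (hGFIN : S_gfin.{u}) (hGGOOD : S_ggood.{u}) :
    S_gstep.{u} := by
  classical
  intro k K _ _ _ _ T I Γ _ _ _ Δ G M b hs P hP
  obtain ⟨t1, S0, hS0, rfl, hbad⟩ := hP
  have hΔ0 : Δ⁻¹ ∉ S0 := fun h1 => hbad (hs.gs.out t1 S0 hS0 h1)
  obtain ⟨V, x, y, hpar⟩ := (hs.gs.dm t1 S0 hS0).resolve_right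
    fun h1 => hbad (hs.gs.one t1 S0 hS0 h1)
  obtain ⟨u, hu, v, hv, hparv, hbd⟩ : ∃ u ∈ M.A t1, ∃ v ∈ M.A t1, Par V (M.P t1 S0) u v ∧
      ∀ i, b i → M.x t1 i = u ∨ M.x t1 i = v ∨ (M.x t1 i)⁻¹ ∈ S0 := by
    by_cases hex : ∃ i, b i ∧ (M.x t1 i)⁻¹ ∉ S0
    · obtain ⟨i0, hi0, hi0'⟩ := hex
      obtain ⟨v, hv, hparv, hbd⟩ := exists_uv (A := (M.A t1).toSubring) hS0.2 hpar (M.x t1)
        (M.xA t1) b (fun ι _ g hg => (hs.gs.reg t1).reg S0 hS0.1 hS0.2 ι g hg) i0 hi0 hi0'
      exact ⟨_, M.xA t1 i0, v, hv, hparv, hbd⟩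
    · push Not at hex
      obtain ⟨v, hv, h1⟩ := par_clear (A := (M.A t1).toSubring) hS0.2 hpar
      obtain ⟨u, hu, h2⟩ := par_clear (A := (M.A t1).toSubring) hS0.2 h1.symm
      exact ⟨u, hu, v, hv, h2.symm, fun i hi => Or.inr (Or.inr (hex i hi))⟩
  have hu0 : u ≠ 0 := hparv.x0
  have hv0 : v ≠ 0 := hparv.y0
  have hvS : v⁻¹ ∉ S0 := by
    rcases (val_of hS0.2 hparv hparv.yP).1 hparv.yV with h1 | h1
    · exact h1
    · exact absurd h1 hv0
  have huS : u⁻¹ ∉ S0 := by
    rcases (val_of hS0.2 hparv hparv.xP).1 hparv.xV with h1 | h1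
    · exact h1
    · exact absurd h1 hu0
  obtain ⟨T', hT', M1, π, t0, hRf, hπ, hiso⟩ := hISO k K T I M b S0 t1 hS0 u v
    hu hv hu0 hv0 huS hvS (fun a ha ha' => hparv.gen a ha
      ((val_of hS0.2 hparv ha).2 (Or.inl ha')))
    (fun t ht S hS h1 => hGCL k K T I Γ Δ G M b hs.gs t S0 ht
      (fun h2 => hbad (M.reg_transfer ht hS0 h2)) S hS h1) (fun i hi => hbd i hi)
  have hs1 := hs.refine hRf
  have hP1 : M1.P t0 S0 = M.P t1 S0 := by rw [hRf.lo t0 S0 hiso.on, hπ]
  have hpar1 : Par V (M1.P t0 S0) u v := by rw [hP1]; exact hparv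
  have hN : IsNoetherianRing (M1.A t0).toSubring := by
    have h1 := M1.ft t0
    exact Algebra.FiniteType.isNoetherianRing k (M1.A t0)
  have hform : ∀ i, ∃ (m : ℕ) (c : ℕ → K), (∀ l, c l ∈ M1.A t0) ∧ M1.x t0 i = form m c u v ∧
      (b i → (m = 1 ∧ (M1.x t0 i = u ∨ M1.x t0 i = v)) ∨
        (m = 0 ∧ (M1.x t0 i)⁻¹ ∈ (M1.A t0).toSubring)) ∧
      (¬ b i → ∃ l ≤ m, c l ≠ 0 ∧ (c l)⁻¹ ∈ S0) := by
    intro i
    by_cases hi : b i
    · rcases hiso.bd i hi with h1 | h1 | h1
      · refine ⟨1, fun l => if l = 0 then 1 else 0, fun l => ?_, ?_, fun _ => Or.inl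
          ⟨rfl, Or.inl h1⟩, fun h2 => absurd hi h2⟩
        · dsimp only
          split_ifs
          · exact (M1.A t0).one_mem
          · exact (M1.A t0).zero_mem
        · rw [h1]
          simp [form, Finset.sum_range_succ]
      · refine ⟨1, fun l => if l = 0 then 0 else 1, fun l => ?_, ?_, fun _ => Or.inl
          ⟨rfl, Or.inr h1⟩, fun h2 => absurd hi h2⟩
        · dsimp only
          split_ifs
          · exact (M1.A t0).zero_mem
          · exact (M1.A t0).one_mem
        · rw [h1]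
          simp [form, Finset.sum_range_succ]
      · refine ⟨0, fun _ => M1.x t0 i, fun l => M1.xA t0 i, ?_, fun _ => Or.inr ⟨rfl, h1⟩,
          fun h2 => absurd hi h2⟩
        simp [form]
    · obtain ⟨m, c, h1, h2, h3⟩ := hORD K (M1.A t0).toSubring S0 hN hiso.on.1 hiso.on.2 u v
        hiso.uA hiso.vA hiso.uS hiso.vS hiso.gen (M1.x t0 i) (M1.xA t0 i) (M1.x0 t0 i)
      exact ⟨m, c, h1, h2, fun h4 => absurd h4 hi, fun _ => h3⟩
  choose m c hc hf hmb hmc using hform
  obtain ⟨M', hA, hx⟩ := hBLOW k K T' I M1 t0 u v hiso.uA hiso.vA hiso.u0 hiso.v0 hiso.H m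
    (fun i => ⟨c i, hc i, hf i⟩)
  have hB : Bd M1 b S0 t0 u v V m M' := {
    iso := hiso
    par := hpar1
    ld := {
      loc := hiso.on.1
      AS := hiso.on.2
      uA := hiso.uA
      vA := hiso.vA
      v0 := hiso.v0
      par := hpar1
      gen := hiso.gen
      pt := fun S h1 h2 h3 h4 => hiso.pt S ⟨h1, h2⟩ h3 h4
      x0 := M1.x0 t0
      xA := M1.xA t0
      bd := hmb
      fm := fun i => ⟨c i, hc i, hf i, hmc i⟩ }
    A := hA
    x := hx }
  have hbadP := hB.gbad' hs1.gs hΔ0 hREG hSTR hGFIN hGGOOD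
  have haccP : Acc (rr Δ G) (M.P t1 S0) := hs.acc _ ⟨t1, S0, hS0, rfl, hbad⟩
  refine ⟨T' × Bool, Option I, inferInstance, inferInstance, M', bb b, fun p => π p.1,
    ⟨hB.gs hs1.gs hΔ0 hREG hSTR hGFIN, ?_⟩, ?_, ?_, ?_⟩
  · intro P' hP'
    rcases hbadP P' hP' with ⟨h1, -⟩ | h1
    · exact hs1.acc P' h1
    · rw [hP1] at h1
      exact haccP.inv h1
  · intro p
    exact (hRf.le p.1).trans (hB.le p)
  · rintro g ⟨γ, hγ⟩
    refine ⟨_, hB.gism hs1.gs g γ fun t => ?_⟩
    obtain ⟨w, h0, h1, h2, h3⟩ := hγ (π t)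
    have e : M1.x t = M.x (π t) := funext (hRf.x t)
    rw [e]
    exact ⟨w, h0, hRf.le t h1, hRf.le t h2, h3⟩
  · intro P' hP'
    rcases hbadP P' hP' with ⟨h1, h2⟩ | h1
    · left
      rw [hP1] at h2
      exact ⟨hRf.bad h1, h2⟩
    · right
      rw [hP1] at h1
      exact h1

end Pool.Agent.N808.AS
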