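import Pool.Agent.N808.AS.Def

/-!
Log resolution on arithmetic surfaces: statements of the parts.
-/

set_option autoImplicit false
set_option linter.unusedVariables false

universe u

open Pool.Agent.W418.LU2 Pool.Agent.N98.T2 Pool.Agent.N98.RM Polynomial

namespace Pool.Agent.N808.AS

/-- BLM: the blowup of a point, for pre-models. -/
def S_blow : Prop := ∀ (k K : Type u) [CommRing k] [Field K] [Algebra k K] (T I : Type) [Finite T]
  [Finite I] (M : PM k K T I) (t0 : T) (u v : K), u ∈ M.A t0 → v ∈ M.A t0 → u ≠ 0 → v ≠ 0 →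
  (∀ t, t ≠ t0 → ∃ α ∈ M.A t0, ∃ β ∈ M.A t0, M.H t / M.H t0 = α * u + β * v) →
  ∀ (m : I → ℕ), (∀ i, ∃ c : ℕ → K, (∀ l, c l ∈ M.A t0) ∧ M.x t0 i = form (m i) c u v) →
  ∃ M' : PM k K (T × Bool) (Option I), M'.A = (fun p => adj (M.A p.1) (bw t0 u v p)) ∧
    M'.x = (fun p o => o.elim (be t0 u v p) fun i => M.x p.1 i / be t0 u v p ^ m i)

/-- LOC: localization of the charts, and choice of finitely many of the charts. -/
def S_loc : Prop := ∀ (k K : Type u) [CommRing k] [Field K] [Algebra k K] (T I : Type) [Finite T]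
  [Finite I] (M : PM k K T I) (Q : Type) [Finite Q] (π : Q → T) (h : Q → K),
  (∀ q, h q ∈ M.A (π q)) → (∀ q, h q ≠ 0) →
  (∀ V : ValuationSubring K, (∀ a : k, algebraMap k K a ∈ V) →
    ∃ q, (∀ f ∈ M.A (π q), f ∈ V) ∧ (h q)⁻¹ ∈ V) →
  ∃ M' : PM k K Q I, M'.A = (fun q => adj (M.A (π q)) (h q)⁻¹) ∧
    M'.x = (fun q => M.x (π q)) ∧ ∃ N : ℕ, ∀ q, M'.H q = M.H (π q) ^ N * h q

/-- ISO: after a localization of the charts the centre of `S0` is on one chart only. -/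
def S_iso : Prop := ∀ (k K : Type u) [CommRing k] [IsNoetherianRing k] [Field K] [Algebra k K]
  (T I : Type) [Finite T] [Finite I] (M : PM k K T I) (b : I → Prop) (S0 : Subring K) (t1 : T),
  M.On t1 S0 → ∀ u v : K, u ∈ M.A t1 → v ∈ M.A t1 → u ≠ 0 → v ≠ 0 → u⁻¹ ∉ S0 → v⁻¹ ∉ S0 →
  (∀ a ∈ M.P t1 S0, a⁻¹ ∉ S0 → ∃ α ∈ M.P t1 S0, ∃ β ∈ M.P t1 S0, a = α * u + β * v) →
  (∀ t, M.On t S0 → ∀ S, M.On t S → (∀ a ∈ M.A t, a⁻¹ ∉ S0 → a⁻¹ ∉ S) → M.P t S = M.P t S0) →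
  (∀ i, b i → M.x t1 i = u ∨ M.x t1 i = v ∨ (M.x t1 i)⁻¹ ∈ S0) →
  ∃ (T' : Type) (_ : Finite T') (M' : PM k K T' I) (π : T' → T) (t0 : T'),
    Rf M M' π ∧ π t0 = t1 ∧ Iso M' b S0 t0 u v

/-- REG: the boundary of the blowup of a point. -/
def S_reg : Prop := ∀ (K : Type u) [Field K] (A : Subring K) (I : Type) (x : I → K), RegC A x →
  ∀ (u v : K) (m : I → ℕ), u ∈ A → v ∈ A → u ≠ 0 → v ≠ 0 →
  (∀ i, (m i = 1 ∧ (x i = u ∨ x i = v)) ∨ (m i = 0 ∧ (x i)⁻¹ ∈ A)) →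
  (∃ S, Loc S ∧ A ≤ S ∧ u⁻¹ ∉ S ∧ v⁻¹ ∉ S) →
  (∀ S, Loc S → A ≤ S → u⁻¹ ∉ S → v⁻¹ ∉ S → RegP S (lo S A) ![u, v]) →
  RegC (Subring.closure (insert (v / u) (A : Set K)))
    (fun o : Option I => o.elim u fun i => x i / u ^ m i)

/-- ORD: the order of a function at a point. -/
def S_ord : Prop := ∀ (K : Type u) [Field K] (A : Subring K) (S0 : Subring K),
  IsNoetherianRing A → Loc S0 → A ≤ S0 → ∀ u v : K, u ∈ A → v ∈ A → u⁻¹ ∉ S0 → v⁻¹ ∉ S0 →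
  (∀ a ∈ A, a⁻¹ ∉ S0 → ∃ α ∈ A, ∃ β ∈ A, a = α * u + β * v) →
  ∀ f ∈ A, f ≠ 0 → ∃ (m : ℕ) (c : ℕ → K), (∀ l, c l ∈ A) ∧ f = form m c u v ∧
    ∃ l ≤ m, c l ≠ 0 ∧ (c l)⁻¹ ∈ S0

/-- STR: the strict transform does not contain the exceptional divisor, nor the strict transform
of `v = 0`. -/
def S_str : Prop := ∀ (K : Type u) [Field K] (A S0 : Subring K), Loc S0 → A ≤ S0 →
  ∀ (V : ValuationSubring K) (u v : K), u ∈ A → v ∈ A → Par V (lo S0 A) u v →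
  (∀ a ∈ A, a⁻¹ ∉ S0 → ∃ α ∈ A, ∃ β ∈ A, a = α * u + β * v) →
  ∀ (m : ℕ) (c : ℕ → K), (∀ l, c l ∈ A) → (∃ l ≤ m, c l ≠ 0 ∧ (c l)⁻¹ ∈ S0) →
  ∀ S, Loc S → Subring.closure (insert (v / u) (A : Set K)) ≤ S → u⁻¹ ∉ S →
  form m c u v / u ^ m ∈ Subring.closure (insert (v / u) (A : Set K)) ∧
  form m c u v / u ^ m / u ∉ lo S (Subring.closure (insert (v / u) (A : Set K))) ∧
  ((v / u)⁻¹ ∉ S → form m c u v / v ∉ lo S0 A →
    form m c u v / u ^ m / (v / u) ∉ lo S (Subring.closure (insert (v / u) (A : Set K))))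

/-- CL: the points above `Δ = 0` on the curves are closed. -/
def S_cl : Prop := ∀ (k K : Type u) [CommRing k] [IsNoetherianRing k] [Field K] [Algebra k K]
  (T I Γ : Type) [Finite T] [Fintype I] [Fintype Γ] (Δ : K) (G : Γ → K) (M : PM k K T I)
  (b : I → Prop), St0 Δ G M b → ∀ t S0, M.On t S0 → Δ⁻¹ ∉ S0 → (∃ j, ¬ b j ∧ (M.x t j)⁻¹ ∉ S0) →
  ∀ S, M.On t S → (∀ a ∈ M.A t, a⁻¹ ∉ S0 → a⁻¹ ∉ S) → M.P t S = M.P t S0

/-- FIN: finiteness of the bad points. -/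
def S_fin : Prop := ∀ (k K : Type u) [CommRing k] [IsNoetherianRing k] [Field K] [Algebra k K]
  (T I Γ : Type) [Finite T] [Fintype I] [Fintype Γ] (Δ : K) (G : Γ → K) (M : PM k K T I)
  (b : I → Prop), St0 Δ G M b → M.BadSet.Finite ∧
  ∀ t S, M.On t S → ¬ RegP S (M.P t S) (M.x t) → Δ⁻¹ ∉ S ∧ ∃ j, ¬ b j ∧ (M.x t j)⁻¹ ∉ S

/-- GOOD: points at which all functions are monomials are not bad. -/
def S_good : Prop := ∀ (k K : Type u) [CommRing k] [IsNoetherianRing k] [Field K] [Algebra k K]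
  (T I Γ : Type) [Finite T] [Fintype I] [Fintype Γ] (Δ : K) (G : Γ → K) (M : PM k K T I)
  (b : I → Prop), St0 Δ G M b → ∀ t S, M.On t S → Δ⁻¹ ∉ S → (∃ j, ¬ b j ∧ (M.x t j)⁻¹ ∉ S) →
  GoodP Δ G (M.P t S) → RegP S (M.P t S) (M.x t)

/-- NAG: finiteness of the normalization, horizontal case. -/
def S_nag : Prop := ∀ (O F D L : Type u) [CommRing O] [IsDedekindDomain O] [Field F] [CharZero F]
  [Algebra O F] [IsFractionRing O F] [CommRing D] [IsDomain D] [Algebra O D] [Field L]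
  [Algebra O L] [Algebra F L] [Algebra D L] [IsFractionRing D L] [IsScalarTower O D L]
  [IsScalarTower O F L], FiniteDimensional F L → Module.Finite D (integralClosure D L)

/-- ACC: no infinite sequences of points at which the functions are not monomials. -/
def S_acc : Prop := ∀ (K : Type u) [Field K] (Γ : Type) [Fintype Γ] (Δ : K) (G : Γ → K),
  Δ ≠ 0 → (∀ a, G a ≠ 0) → ∀ (P0 : Subring K), IsNoetherianRing P0 → IsFractionRing P0 K →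
  (∀ (𝔭 : Ideal P0) [𝔭.IsPrime], 𝔭 ≠ ⊥ →
    Module.Finite (P0 ⧸ 𝔭) (integralClosure (P0 ⧸ 𝔭) (FractionRing (P0 ⧸ 𝔭)))) →
  Acc (rr Δ G) P0

/-- DED: explicit regular model of a Dedekind domain, the boundary consists of the prime divisors
of `Δ`. -/
def S_ded : Prop := ∀ (O F : Type u) [CommRing O] [IsDedekindDomain O] [Field F] [Algebra O F]
  [IsFractionRing O F] (Δ : O), Δ ≠ 0 →
  ∃ (T : Type) (_ : Finite T) (n : ℕ) (M : LM (⊥ : Subalgebra O F) ⊤ T (Fin n)), Frc M ∧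
    (∀ a c : O, ∀ m : ℕ, a * c = Δ ^ m → IsB M (algebraMap O F a)) ∧
    (∀ t i, algebraMap O F Δ / M.x t i ∈ M.A t) ∧
    (∀ t S, Loc S → (M.A t).toSubring ≤ S → (algebraMap O F Δ)⁻¹ ∉ S →
      ∃ i, (M.x t i)⁻¹ ∉ S) ∧
    ∀ t i S, Loc S → (M.A t).toSubring ≤ S → (M.x t i)⁻¹ ∉ S → ∀ a ∈ M.A t, a⁻¹ ∉ S →
      a / M.x t i ∈ M.A t

/-- POL: factorization into irreducible polynomials, and the bad primes. -/
def S_pol : Prop := ∀ (O F K : Type u) [CommRing O] [IsDedekindDomain O] [Field F] [CharZero F]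
  [Algebra O F] [IsFractionRing O F] [Field K] [Algebra F K] (z : K), Transcendental F z →
  IntermediateField.adjoin F {z} = ⊤ → ∀ (H : Type) [Finite H] (h : H → K), (∀ a, h a ≠ 0) →
  ∃ (J : Type) (_ : Fintype J) (q : J → F[X]) (Δ : O) (U W : F[X]),
    (∀ j, (q j).Monic ∧ Irreducible (q j) ∧ q j ≠ X) ∧ Function.Injective q ∧ Δ ≠ 0 ∧
    (∀ a, ∃ (c : F) (n : ℤ) (e : J → ℤ), c ≠ 0 ∧
      h a = algebraMap F K c * z ^ n * ∏ j, (aeval z (q j)) ^ e j ∧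
      ∃ (c1 c2 d1 d2 : O) (m : ℕ), c1 * d1 = Δ ^ m ∧ c2 * d2 = Δ ^ m ∧
        c = algebraMap O F c1 / algebraMap O F c2) ∧
    (∀ j l, (q j).coeff l ≠ 0 → ∃ (c1 c2 d1 d2 : O) (m : ℕ), c1 * d1 = Δ ^ m ∧
      c2 * d2 = Δ ^ m ∧ (q j).coeff l = algebraMap O F c1 / algebraMap O F c2) ∧
    U * (X * ∏ j, q j) + W * derivative (X * ∏ j, q j) = 1 ∧
    (∀ l, ∃ (c : O) (m : ℕ), U.coeff l = algebraMap O F c / algebraMap O F Δ ^ m) ∧
    ∀ l, ∃ (c : O) (m : ℕ), W.coeff l = algebraMap O F c / algebraMap O F Δ ^ m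

/-- The conclusion of the log resolution, for one base ring. -/
def HasState (k K : Type u) [CommRing k] [Field K] [Algebra k K] (H : Type) (h : H → K) : Prop :=
  ∃ (T I Γ : Type) (_ : Finite T) (_ : Fintype I) (_ : Fintype Γ) (Δ : K) (G : Γ → K)
    (M : PM k K T I) (b : I → Prop), St Δ G M b ∧
    (∀ a, ∃ γ : I → ℤ, ∀ t, IsM (M.A t) (M.x t) (h a) γ) ∧
    ∀ t (y : K), ∃ c ∈ M.A t, ∃ d ∈ M.A t, d ≠ 0 ∧ y = c * d⁻¹

/-- INIT: the projective line over a Dedekind domain. -/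
def S_init : Prop := ∀ (O F K : Type u) [CommRing O] [IsDedekindDomain O] [Field F] [CharZero F]
  [Algebra O F] [IsFractionRing O F] [Field K] [Algebra F K] [Algebra O K] [IsScalarTower O F K]
  (z : K), Transcendental F z → IntermediateField.adjoin F {z} = ⊤ →
  ∀ (H : Type) [Finite H] (h : H → K), (∀ a, h a ≠ 0) → HasState O K H h

/-- STEP: the blowup of a bad point. -/
def S_step : Prop := ∀ (k K : Type u) [CommRing k] [IsNoetherianRing k] [Field K] [Algebra k K]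
  (T I Γ : Type) [Finite T] [Fintype I] [Fintype Γ] (Δ : K) (G : Γ → K) (M : PM k K T I)
  (b : I → Prop), St Δ G M b → ∀ P ∈ M.BadSet,
  ∃ (T' I' : Type) (_ : Finite T') (_ : Fintype I') (M' : PM k K T' I') (b' : I' → Prop)
    (π : T' → T), St Δ G M' b' ∧ (∀ t, M.A (π t) ≤ M'.A t) ∧
    (∀ g : K, (∃ γ : I → ℤ, ∀ t, IsM (M.A t) (M.x t) g γ) →
      ∃ γ : I' → ℤ, ∀ t, IsM (M'.A t) (M'.x t) g γ) ∧
    ∀ P' ∈ M'.BadSet, (P' ∈ M.BadSet ∧ P' ≠ P) ∨ rr Δ G P' P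

end Pool.Agent.N808.AS
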