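import Pool.Agent.N808.RC.Num
import Pool.Agent.N808.AS.Stm

/-!
Regular models over the integers of radical extensions of function fields of bounded degree over
a field with log regular models.

helper808; built on the libraries of helper98 and helper762.
-/

set_option autoImplicit false
set_option linter.unusedVariables false
set_option linter.unusedSectionVars false

open AlgebraicGeometry CategoryTheory Pool.Agent.N98 Pool.Agent.N808.RC

namespace Pool.Agent.N808.AS

/-- Radical extensions of function fields of bounded degree over fields with log regular models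
over localizations of rings of integers. -/
theorem exists_num {O F E K0 K : Type} [CommRing O] [IsDedekindDomain O] [Module.Finite ℤ O]
    [Field F] [Algebra O F] [IsFractionRing O F] [CharZero F] [Field E] [Algebra F E]
    (hE : ∀ (ON : Type) [CommRing ON] [IsDedekindDomain ON] [Algebra ON F] [IsFractionRing ON F]
      [Algebra ON E] [IsScalarTower ON F E], RM.HasRM ON E)
    [Field K0] [Algebra E K0] [Field K]
    [Algebra K0 K] {m : ℕ} (x : Fin m → K0)
    (htop : IntermediateField.adjoin E (Set.range x) = ⊤) (r : ℕ)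
    (htr : Algebra.trdeg E K0 = r) (δ C0 d : ℕ) (hd : 1 ≤ d)
    (hδ : ∀ t : ℕ, r.factorial * Module.finrank E (img E x t) ≤ δ * (t + C0) ^ r)
    {s : ℕ} (w : Fin s → K) (hw0 : ∀ j, w j ≠ 0) (n : Fin s → ℕ) (hn : ∀ j, n j ≠ 0)
    (htopw : IntermediateField.adjoin K0 (Set.range w) = ⊤)
    (g : Fin s → K0) (hg : ∀ j, IsProd E x d (g j)) (hw : ∀ j, w j ^ n j = algebraMap K0 K (g j)) :
    ∃ (X' : Scheme.{0}) (_ : IsIntegral X') (γ : X' ⟶ Spec (CommRingCat.of ℤ)),
      IsProper γ ∧
      (∀ x : X', IsUnit ((((d * δ) ^ 2 ^ r).factorial * ∏ j, n j : ℕ) : X'.presheaf.stalk x) →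
        IsRegularLocalRing (X'.presheaf.stalk x)) ∧
      Nonempty (X'.functionField ≃+* K) := by
  classical
  set N := ((d * δ) ^ 2 ^ r).factorial * ∏ j, n j with hN
  have hN0 : N ≠ 0 := mul_ne_zero (Nat.factorial_ne_zero _)
    (Finset.prod_ne_zero_iff.2 fun j _ => hn j)
  let ON := Localization.Away ((N : ℕ) : O)
  have hNF : algebraMap O F ((N : ℕ) : O) ≠ 0 := by
    rw [map_natCast]
    exact Nat.cast_ne_zero.2 hN0
  have hNO : ((N : ℕ) : O) ≠ 0 := fun h => hNF (by rw [h, map_zero])
  have hle : Submonoid.powers ((N : ℕ) : O) ≤ nonZeroDivisors O :=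
    powers_le_nonZeroDivisors_of_noZeroDivisors hNO
  let φ : ON →+* F := IsLocalization.Away.lift (S := ON) ((N : ℕ) : O) (IsUnit.mk0 _ hNF)
  let _ : Algebra ON F := φ.toAlgebra
  have h1 : IsScalarTower O ON F := IsScalarTower.of_algebraMap_eq fun a =>
    (IsLocalization.Away.lift_eq ((N : ℕ) : O) (IsUnit.mk0 _ hNF) a).symm
  have h2 : IsDomain ON := IsLocalization.isDomain_localization hle
  have h3 : IsDedekindDomain ON := IsLocalization.isDedekindDomain O hle ON
  have h4 : IsFractionRing ON F :=
    IsFractionRing.isFractionRing_of_isDomain_of_isLocalization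
      (Submonoid.powers ((N : ℕ) : O)) ON F
  let _ : Algebra ON E := ((algebraMap F E).comp φ).toAlgebra
  have h5e : IsScalarTower ON F E := IsScalarTower.of_algebraMap_eq fun _ => rfl
  let _ : Algebra ON K0 := ((algebraMap E K0).comp (algebraMap ON E)).toAlgebra
  have h5 : IsScalarTower ON E K0 := IsScalarTower.of_algebraMap_eq fun _ => rfl
  let _ : Algebra ON K := ((algebraMap K0 K).comp (algebraMap ON K0)).toAlgebra
  have h5' : IsScalarTower ON K0 K := IsScalarTower.of_algebraMap_eq fun _ => rfl
  let _ : Algebra O K := ((algebraMap ON K).comp (algebraMap O ON)).toAlgebra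
  have h6 : IsScalarTower O ON K := IsScalarTower.of_algebraMap_eq fun _ => rfl
  have h6' : ∀ a : O, algebraMap O K a =
      algebraMap K0 K (algebraMap E K0 (algebraMap F E (algebraMap O F a))) := by
    intro a
    change algebraMap K0 K (algebraMap E K0 (algebraMap F E
      (algebraMap ON F (algebraMap O ON a)))) = _
    rw [← IsScalarTower.algebraMap_apply O ON F]
  have h7 : Infinite E := Infinite.of_injective _ (algebraMap F E).injective
  have hu : IsUnit ((N : ℕ) : ON) := by
    have h8 := IsLocalization.Away.algebraMap_isUnit (S := ON) ((N : ℕ) : O)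
    rwa [map_natCast] at h8
  have hu0 : IsUnit (((((d * δ) ^ 2 ^ r).factorial : ℕ) : ON) * ((∏ j, n j : ℕ) : ON)) := by
    rw [← Nat.cast_mul]
    exact hu
  have hu1 := isUnit_of_mul_isUnit_left hu0
  have hu2 := isUnit_of_mul_isUnit_right hu0
  have hu3 : ∀ j, IsUnit ((n j : ℕ) : ON) := by
    rw [Nat.cast_prod] at hu2
    exact IsUnit.prod_univ_iff.1 hu2
  have hg0 : ∀ j, g j ≠ 0 := by
    intro j h
    apply pow_ne_zero (n j) (hw0 j)
    rw [hw j, h, map_zero]
  obtain ⟨B, hB, P, hPd, hP0, hgP⟩ := exists_family hg hg0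
  obtain ⟨T, I, hT, hI, M, hFr, hM⟩ := rel_models_poly (k := ON) (E := E) x (hE ON) htop
    r htr δ C0 d hd hδ hu1 B P hPd hP0
  have hgM : ∀ j, RM.IsBr M (g j) := by
    intro j
    obtain ⟨q, β, e, he⟩ := hgP j
    rw [he]
    refine IsBr.prod _ _ fun i _ => IsBr.zpow ?_ _
    cases β i with
    | none => exact RM.IsB.one.br
    | some b => exact hM b
  obtain ⟨T', I', hT', hI', M', hFr', -, -⟩ := radical_tower s M hFr w hw0 htopw n hu3 g hgM hw
  refine RM.exists_model_Z (O := O) (ON := ON) ?_ N ?_ ?_ M' hFr'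
  · intro a b hab
    rw [h6', h6'] at hab
    exact IsFractionRing.injective O F ((algebraMap F E).injective
      ((algebraMap E K0).injective ((algebraMap K0 K).injective hab)))
  · intro c
    obtain ⟨n, a, h⟩ := IsLocalization.Away.surj ((N : ℕ) : O) c
    exact ⟨n, a, h⟩
  · rw [h6']
    exact (_root_.map_ne_zero _).2 ((_root_.map_ne_zero _).2 ((_root_.map_ne_zero _).2 hNF))

end Pool.Agent.N808.AS
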