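import Pool.Agent.N808.AS.Stm2
import Pool.Agent.N808.AS.NAG

/-!
# Project AS (helper808), part HFIN: the curves through the points of the arithmetic surface have finite
normalization

Written by helper572.
-/

set_option autoImplicit false

universe u

open Pool.Agent.W418.LU2 Pool.Agent.N98.T2 Pool.Agent.N98.RM Polynomial

namespace Pool.Agent.N808.AS

/-- valuation rings are integrally closed -/
theorem HFIN_.fin_of_total {D : Type u} [CommRing D] [IsDomain D] (h : ∀ a b : D, a ∣ b ∨ b ∣ a) :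
    Module.Finite D (integralClosure D (FractionRing D)) := by
  have hv : ValuationRing D := ValuationRing.iff_dvd_total.2 ⟨h⟩
  have hc : IsIntegrallyClosed D := inferInstance
  rw [IsIntegrallyClosed.integralClosure_eq_bot D (FractionRing D)]
  exact Subalgebra.finite_bot

/-- the vertical curve, and the closed point -/
theorem HFIN_.case1 {K : Type u} [Field K] {V : ValuationSubring K} {P : Subring K} {x y : K}
    (h : Par V P x y) (𝔭 : Ideal P) [𝔭.IsPrime] (hx : (⟨x, h.xP⟩ : P) ∈ 𝔭) :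
    Module.Finite (P ⧸ 𝔭) (integralClosure (P ⧸ 𝔭) (FractionRing (P ⧸ 𝔭))) := by
  apply HFIN_.fin_of_total
  have key : ∀ a : P ⧸ 𝔭, a = 0 ∨ ∃ (n : ℕ) (u : P ⧸ 𝔭), IsUnit u ∧
      a = u * (Ideal.Quotient.mk 𝔭 ⟨y, h.yP⟩) ^ n := by
    intro a
    obtain ⟨a, rfl⟩ := Ideal.Quotient.mk_surjective a
    by_cases ha : ∀ c ∈ P, (a : K) ≠ c * x
    · right
      obtain ⟨n, u, hu, hu1, c, hc, e⟩ := h.rep a.2 ha
      refine ⟨n, Ideal.Quotient.mk 𝔭 ⟨u, hu⟩, ((h.isUnit_iff ⟨u, hu⟩).2 hu1).map _, ?_⟩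
      have e' : a = ⟨u, hu⟩ * ⟨y, h.yP⟩ ^ n + ⟨c, hc⟩ * ⟨x, h.xP⟩ := Subtype.ext e
      rw [e', map_add, map_mul, map_mul, map_pow, Ideal.Quotient.eq_zero_iff_mem.2 hx, mul_zero,
        add_zero]
    · left
      push Not at ha
      obtain ⟨c, hc, e⟩ := ha
      have e' : a = ⟨c, hc⟩ * ⟨x, h.xP⟩ := Subtype.ext e
      rw [e', map_mul, Ideal.Quotient.eq_zero_iff_mem.2 hx, mul_zero]
  intro a b
  rcases key a with rfl | ⟨n, u, hu, rfl⟩
  · exact Or.inr (dvd_zero _)
  rcases key b with rfl | ⟨m, v, hv, rfl⟩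
  · exact Or.inl (dvd_zero _)
  rcases le_total n m with hnm | hnm
  · left
    exact hu.mul_left_dvd.2 ((pow_dvd_pow _ hnm).mul_left _)
  · right
    exact hv.mul_left_dvd.2 ((pow_dvd_pow _ hnm).mul_left _)

/-- NAG, for ring homomorphisms -/
theorem HFIN_.nag_hom (hnag : S_nag.{u}) {O F D L : Type u} [CommRing O] [IsDedekindDomain O]
    [Field F] [CharZero F] [Algebra O F] [IsFractionRing O F] [CommRing D] [IsDomain D] [Field L]
    [Algebra D L] [IsFractionRing D L] (f : O →+* D) (g : F →+* L)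
    (hfg : ∀ a, algebraMap D L (f a) = g (algebraMap O F a)) (w : L) (G : F[X]) (hG : G ≠ 0)
    (h0 : eval₂ g w G = 0) (hgen : ∀ x : L, ∃ A B : F[X], x = eval₂ g w A / eval₂ g w B) :
    Module.Finite D (integralClosure D L) := by
  letI : Algebra O D := f.toAlgebra
  letI : Algebra O L := ((algebraMap D L).comp f).toAlgebra
  letI : Algebra F L := g.toAlgebra
  haveI : IsScalarTower O D L := IsScalarTower.of_algebraMap_eq' rfl
  haveI : IsScalarTower O F L := IsScalarTower.of_algebraMap_eq hfg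
  have halg : IsIntegral F w := by
    rw [← isAlgebraic_iff_isIntegral]
    exact ⟨G, hG, by rw [aeval_def]; exact h0⟩
  have hfd : FiniteDimensional F (IntermediateField.adjoin F {w}) :=
    IntermediateField.adjoin.finiteDimensional halg
  have htop : IntermediateField.adjoin F {w} = ⊤ := by
    rw [eq_top_iff]
    intro x _
    obtain ⟨A, B, rfl⟩ := hgen x
    have hm : ∀ A : F[X], eval₂ g w A ∈ IntermediateField.adjoin F {w} := by
      intro A
      have h1 : eval₂ g w A = aeval w A := rfl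
      rw [h1]
      exact IntermediateField.algebra_adjoin_le_adjoin F {w} (aeval_mem_adjoin_singleton F w)
    exact div_mem (hm A) (hm B)
  rw [htop] at hfd
  have hfin : FiniteDimensional F L :=
    (IntermediateField.topEquiv (F := F) (E := L)).toLinearEquiv.finiteDimensional
  exact hnag O F D L hfin

section

variable {O F K : Type u} [CommRing O] [IsDedekindDomain O] [Field F] [Algebra O F]
  [IsFractionRing O F] [Field K] [Algebra F K] [Algebra O K] [IsScalarTower O F K]

/-- local rings containing a Dedekind domain contain an element of its field of fractions, or its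
inverse -/
theorem HFIN_.total (P : Subring K) (hloc : IsLocalRing P) (hOP : ∀ a : O, algebraMap O K a ∈ P)
    (z : F) : algebraMap F K z ∈ P ∨ z ≠ 0 ∧ algebraMap F K z⁻¹ ∈ P := by
  obtain ⟨a, b, p, q, e1, e2, e3⟩ := NAG_.pair (B := O) (L := F) z
  have h1 : (⟨algebraMap O K a, hOP a⟩ : P) + ⟨algebraMap O K q, hOP q⟩ = 1 := by
    apply Subtype.ext
    change algebraMap O K a + algebraMap O K q = 1
    rw [← map_add, e3, map_one]
  have t : ∀ a : O, algebraMap O K a = algebraMap F K (algebraMap O F a) := fun a =>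
    IsScalarTower.algebraMap_apply O F K a
  rcases IsLocalRing.isUnit_or_isUnit_of_add_one h1 with hu | hu
  · left
    obtain ⟨c, hc⟩ := isUnit_iff_exists_inv.1 hu
    have hc' : algebraMap O K a * c = 1 := congrArg Subtype.val hc
    have e : algebraMap F K z = algebraMap O K p * c := by
      have h2 : algebraMap O K a * algebraMap F K z = algebraMap O K p := by
        rw [t, t, ← map_mul, e1]
      rw [← h2]
      linear_combination (-(algebraMap F K z)) * hc'
    rw [e]
    exact P.mul_mem (hOP p) c.2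
  · right
    obtain ⟨c, hc⟩ := isUnit_iff_exists_inv.1 hu
    have hc' : algebraMap O K q * c = 1 := congrArg Subtype.val hc
    have h2 : algebraMap O K b * algebraMap F K z = algebraMap O K q := by
      rw [t, t, ← map_mul, e2]
    have hz : algebraMap F K z ≠ 0 := by
      intro h3
      rw [← h2, h3, mul_zero, zero_mul] at hc'
      exact zero_ne_one hc'
    refine ⟨fun h3 => hz (by rw [h3, map_zero]), ?_⟩
    have e : algebraMap F K z⁻¹ = algebraMap O K b * c := by
      rw [map_inv₀]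
      rw [← h2] at hc'
      field_simp
      linear_combination -hc'
    rw [e]
    exact P.mul_mem (hOP b) c.2

/-- the horizontal curves -/
theorem HFIN_.case2 [CharZero F] (hnag : S_nag.{u}) (w : K) (R : Subalgebra O F) (P : Subring K)
    (hRP : ∀ r ∈ R, algebraMap F K r ∈ P) (hwP : w ∈ P)
    (hP : ∀ z ∈ P, ∃ A B : F[X], (∀ l, A.coeff l ∈ R) ∧ (∀ l, B.coeff l ∈ R) ∧ aeval w B ≠ 0 ∧
      (aeval w B)⁻¹ ∈ P ∧ z * aeval w B = aeval w A)
    (hN : IsNoetherianRing P) (hloc : IsLocalRing P) {π : F} (hπ : π ∈ R) (hπ0 : π ≠ 0)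
    (hπu : ¬ IsUnit (⟨algebraMap F K π, hRP π hπ⟩ : P)) (𝔭 : Ideal P) [h𝔭 : 𝔭.IsPrime]
    (h𝔭0 : 𝔭 ≠ ⊥) (hπ𝔭 : (⟨algebraMap F K π, hRP π hπ⟩ : P) ∉ 𝔭) :
    Module.Finite (P ⧸ 𝔭) (integralClosure (P ⧸ 𝔭) (FractionRing (P ⧸ 𝔭))) := by
  have t : ∀ a : O, algebraMap O K a = algebraMap F K (algebraMap O F a) := fun a =>
    IsScalarTower.algebraMap_apply O F K a
  have hOP : ∀ a : O, algebraMap O K a ∈ P := fun a => by
    rw [t]
    exact hRP _ (R.algebraMap_mem a)
  let f0 : O →+* P := (algebraMap O K).codRestrict P hOP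
  have hf0 : ∀ a, ((f0 a : P) : K) = algebraMap O K a := fun a => rfl
  have hKinj : Function.Injective (algebraMap F K) := (algebraMap F K).injective
  have hOinj : Function.Injective (algebraMap O F) := IsFractionRing.injective O F
  -- the image of `O` is not in `𝔭`
  have hO𝔭 : ∀ a : O, a ≠ 0 → f0 a ∉ 𝔭 := by
    intro a ha hmem
    have haF : algebraMap O F a ≠ 0 := fun h => ha (hOinj (by rw [h, map_zero]))
    have hdvd : ∀ N : ℕ, (⟨algebraMap F K π, hRP π hπ⟩ : P) ^ N ∣ f0 a := by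
      intro N
      rcases HFIN_.total (O := O) (F := F) P hloc hOP (π ^ N / algebraMap O F a) with h1 | ⟨-, h1⟩
      · exfalso
        apply hπ𝔭
        refine h𝔭.mem_of_pow_mem N ?_
        have e : (⟨algebraMap F K π, hRP π hπ⟩ : P) ^ N =
            ⟨algebraMap F K (π ^ N / algebraMap O F a), h1⟩ * f0 a := by
          apply Subtype.ext
          change (algebraMap F K π) ^ N = algebraMap F K (π ^ N / algebraMap O F a) *
            algebraMap O K a
          rw [t, ← map_mul, ← map_pow]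
          congr 1
          field_simp
        rw [e]
        exact 𝔭.mul_mem_left _ hmem
      · refine ⟨⟨algebraMap F K (π ^ N / algebraMap O F a)⁻¹, h1⟩, ?_⟩
        apply Subtype.ext
        change algebraMap O K a = (algebraMap F K π) ^ N *
          algebraMap F K (π ^ N / algebraMap O F a)⁻¹
        rw [t, ← map_pow, ← map_mul]
        congr 1
        field_simp
    have hfa : f0 a ≠ 0 := by
      intro h
      have h1 : algebraMap O K a = 0 := congrArg Subtype.val h
      rw [t] at h1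
      exact haF (hKinj (by rw [h1, map_zero]))
    obtain ⟨n, hn⟩ := FiniteMultiplicity.of_not_isUnit hπu hfa
    exact hn (hdvd (n + 1))
  let j : P →+* FractionRing (P ⧸ 𝔭) :=
    (algebraMap (P ⧸ 𝔭) (FractionRing (P ⧸ 𝔭))).comp (Ideal.Quotient.mk 𝔭)
  have hj0 : ∀ z : P, j z = 0 ↔ z ∈ 𝔭 := by
    intro z
    change algebraMap (P ⧸ 𝔭) (FractionRing (P ⧸ 𝔭)) (Ideal.Quotient.mk 𝔭 z) = 0 ↔ z ∈ 𝔭
    rw [← Ideal.Quotient.eq_zero_iff_mem]
    constructor
    · intro h
      exact IsFractionRing.injective (P ⧸ 𝔭) (FractionRing (P ⧸ 𝔭)) (by rw [h, map_zero])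
    · intro h
      rw [h, map_zero]
  have hinj : Function.Injective (j.comp f0) := by
    rw [injective_iff_map_eq_zero]
    intro a ha
    by_contra hcon
    exact hO𝔭 a hcon ((hj0 _).1 ha)
  let g : F →+* FractionRing (P ⧸ 𝔭) := IsFractionRing.lift hinj
  have hg : ∀ a : O, g (algebraMap O F a) = j (f0 a) := fun a =>
    IsFractionRing.lift_algebraMap hinj a
  have hjR : ∀ (r : F) (hr : r ∈ R), j ⟨algebraMap F K r, hRP r hr⟩ = g r := by
    intro r hr
    obtain ⟨a, b, hb, hab⟩ := IsFractionRing.div_surjective (A := O) r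
    have hb0 : algebraMap O F b ≠ 0 := by
      have := nonZeroDivisors.ne_zero hb
      exact fun h => this (hOinj (by rw [h, map_zero]))
    have e1 : algebraMap O F b * r = algebraMap O F a := by
      rw [← hab]
      field_simp
    have e2 : f0 b * ⟨algebraMap F K r, hRP r hr⟩ = f0 a := by
      apply Subtype.ext
      change algebraMap O K b * algebraMap F K r = algebraMap O K a
      rw [t, t, ← map_mul, e1]
    have e3 : g (algebraMap O F b) * j ⟨algebraMap F K r, hRP r hr⟩ = g (algebraMap O F a) := by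
      rw [hg, hg, ← map_mul, e2]
    have e4 : g (algebraMap O F b) ≠ 0 := by
      rw [Ne, map_eq_zero]
      exact hb0
    apply mul_left_cancel₀ e4
    rw [e3, ← map_mul, e1]
  have hAP : ∀ A : F[X], (∀ l, A.coeff l ∈ R) → aeval w A ∈ P := by
    intro A hA
    rw [aeval_eq_sum_range]
    refine P.sum_mem fun l _ => ?_
    rw [Algebra.smul_def]
    exact P.mul_mem (hRP _ (hA l)) (P.pow_mem hwP l)
  have hjA : ∀ (A : F[X]) (hA : ∀ l, A.coeff l ∈ R),
      j ⟨aeval w A, hAP A hA⟩ = eval₂ g (j ⟨w, hwP⟩) A := by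
    intro A hA
    have e : (⟨aeval w A, hAP A hA⟩ : P) = ∑ l ∈ Finset.range (A.natDegree + 1),
        ⟨algebraMap F K (A.coeff l), hRP _ (hA l)⟩ * ⟨w, hwP⟩ ^ l := by
      apply Subtype.ext
      rw [AddSubmonoidClass.coe_finsetSum]
      change aeval w A = _
      rw [aeval_eq_sum_range]
      refine Finset.sum_congr rfl fun l _ => ?_
      rw [Algebra.smul_def]
      rfl
    rw [e, map_sum, eval₂_eq_sum_range]
    refine Finset.sum_congr rfl fun l _ => ?_
    rw [map_mul, map_pow, hjR _ (hA l)]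
  have hjz : ∀ z : P, ∃ A B : F[X], (z ≠ 0 → A ≠ 0) ∧
      eval₂ g (j ⟨w, hwP⟩) B ≠ 0 ∧ j z * eval₂ g (j ⟨w, hwP⟩) B = eval₂ g (j ⟨w, hwP⟩) A := by
    intro z
    obtain ⟨A, B, hA, hB, hB0, hBi, e⟩ := hP z z.2
    refine ⟨A, B, ?_, ?_, ?_⟩
    · rintro hz rfl
      rw [map_zero] at e
      rcases mul_eq_zero.1 e with h | h
      · exact hz (Subtype.ext h)
      · exact hB0 h
    · rw [← hjA B hB]
      have hu : IsUnit (⟨aeval w B, hAP B hB⟩ : P) :=
        isUnit_iff_exists_inv.2 ⟨⟨_, hBi⟩, Subtype.ext (mul_inv_cancel₀ hB0)⟩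
      exact (hu.map j).ne_zero
    · rw [← hjA B hB, ← hjA A hA, ← map_mul]
      congr 1
      exact Subtype.ext e
  obtain ⟨z, hz, hz0⟩ := (Submodule.ne_bot_iff 𝔭).1 h𝔭0
  obtain ⟨G, B, hG, hB, e⟩ := hjz z
  rw [(hj0 z).2 hz, zero_mul] at e
  refine HFIN_.nag_hom hnag ((Ideal.Quotient.mk 𝔭).comp f0) g (fun a => (hg a).symm)
    (j ⟨w, hwP⟩) G (hG hz0) e.symm ?_
  intro x
  obtain ⟨d1, d2, hd, rfl⟩ := IsFractionRing.div_surjective (A := P ⧸ 𝔭) x
  obtain ⟨z1, rfl⟩ := Ideal.Quotient.mk_surjective d1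
  obtain ⟨z2, rfl⟩ := Ideal.Quotient.mk_surjective d2
  obtain ⟨A1, B1, -, hB1, e1⟩ := hjz z1
  obtain ⟨A2, B2, -, hB2, e2⟩ := hjz z2
  refine ⟨A1 * B2, B1 * A2, ?_⟩
  change j z1 / j z2 = _
  rw [eval₂_mul, eval₂_mul, ← e1, ← e2]
  by_cases h2 : j z2 = 0
  · rw [h2]
    simp
  · field_simp

end

theorem t_HFIN : S_nag.{u} → S_hfin.{u} := by
  intro hnag O F K _ _ _ _ _ _ _ _ _ _ w hw R S hS hle π hπ V y h 𝔭 h𝔭 h𝔭0
  by_cases hx : (⟨algebraMap F K π, h.xP⟩ : lo S (Cw R w : Subalgebra O K).toSubring) ∈ 𝔭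
  · exact HFIN_.case1 h 𝔭 hx
  · have hπ0 : π ≠ 0 := by
      rintro rfl
      exact h.x0 (map_zero _)
    refine HFIN_.case2 (O := O) hnag w R _ (fun r hr => le_lo S _ (Cw_const R w hr))
      (le_lo S _ (Cw_self R w)) ?_ h.noeth h.isLocalRing hπ hπ0 h.prime_left.not_isUnit 𝔭 h𝔭0 hx
    rintro z ⟨a, ha, b, hb, hb0, hbS, rfl⟩
    obtain ⟨A, hA, rfl⟩ := (mem_Cw R w).1 ha
    obtain ⟨B, hB, rfl⟩ := (mem_Cw R w).1 hb
    refine ⟨A, B, hA, hB, hb0, inv_mem_lo hle (le_lo S _ hb) hb0 hbS, ?_⟩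
    field_simp

end Pool.Agent.N808.AS
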