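import Pool.Agent.N808.AS.IniC

/-!
Log resolution on arithmetic surfaces: the initial state.
-/

set_option autoImplicit false
set_option linter.unusedVariables false
set_option linter.unusedSectionVars false

universe u

open Pool.Agent.W418.LU2 Pool.Agent.N98.T2 Pool.Agent.N98.RM Polynomial IsLocalRing

namespace Pool.Agent.N808.AS

section bdf

variable {k K : Type u} [CommRing k] [Field K] [Algebra k K] {T I : Type} [Fintype I]

/-- Boundary functions. -/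
def Bdf (M : PM k K T I) (g : K) : Prop := ∃ γ : I → ℤ, ∀ t, IsM (M.A t) (M.x t) g γ

variable {M : PM k K T I} {g g' : K}

lemma Bdf.one : Bdf M 1 := ⟨0, fun t => IsM.one⟩

lemma Bdf.mul (h : Bdf M g) (h' : Bdf M g') : Bdf M (g * g') := by
  obtain ⟨γ, h⟩ := h
  obtain ⟨γ', h'⟩ := h'
  exact ⟨γ + γ', fun t => (h t).mul (M.x0 t) (h' t)⟩

lemma Bdf.inv (h : Bdf M g) : Bdf M g⁻¹ := by
  obtain ⟨γ, h⟩ := h
  exact ⟨-γ, fun t => (h t).inv⟩

lemma Bdf.pow (h : Bdf M g) (n : ℕ) : Bdf M (g ^ n) := by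
  obtain ⟨γ, h⟩ := h
  exact ⟨n • γ, fun t => (h t).pow (M.x0 t) n⟩

lemma Bdf.zpow (h : Bdf M g) (n : ℤ) : Bdf M (g ^ n) := by
  obtain ⟨m, rfl | rfl⟩ := Int.eq_nat_or_neg n
  · rw [zpow_natCast]
    exact h.pow m
  · rw [zpow_neg, zpow_natCast]
    exact (h.pow m).inv

lemma Bdf.prod {J : Type} (s : Finset J) {f : J → K} (hf : ∀ j ∈ s, Bdf M (f j)) :
    Bdf M (∏ j ∈ s, f j) := by
  classical
  induction s using Finset.induction_on with
  | empty => rw [Finset.prod_empty]; exact Bdf.one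
  | insert a s ha ih =>
    rw [Finset.prod_insert ha]
    exact (hf a (Finset.mem_insert_self a s)).mul
      (ih fun i hi => hf i (Finset.mem_insert_of_mem hi))

end bdf

section ini

variable {O F K : Type u} [CommRing O] [IsDedekindDomain O] [Field F] [CharZero F] [Field K]
  [Algebra O F] [IsFractionRing O F] [Algebra O K] [Algebra F K] [IsScalarTower O F K]
  {T0 : Type} [Finite T0] {n : ℕ} {J : Type} [Fintype J]

namespace Ini

variable {z : K} {M0 : LM (⊥ : Subalgebra O F) ⊤ T0 (Fin n)} {q : J → F[X]} {Δ : O}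
  {γ : J → Fin n → ℤ} {M : PM O K (T0 × Bool) ((Fin n ⊕ Bool) ⊕ J)} (h : Ini z M0 q Δ γ M)

include h

theorem out' (hETD : S_etd.{u}) (hr : ∀ p, RegC (M.A p).toSubring
    (fun i : Fin n ⊕ Bool => M.x p (Sum.inl i))) {U W : F[X]}
    (hB : U * (X * ∏ j, q j) + W * derivative (X * ∏ j, q j) = 1)
    (hU : ∀ l, ∃ (c : O) (m : ℕ), U.coeff l = algebraMap O F c / algebraMap O F Δ ^ m)
    (hW : ∀ l, ∃ (c : O) (m : ℕ), W.coeff l = algebraMap O F c / algebraMap O F Δ ^ m)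
    {p : T0 × Bool} {S : Subring K} (hS : M.On p S) (hΔ : (algebraMap O K Δ)⁻¹ ∈ S) :
    RegP S (M.P p S) (M.x p) := by
  cases hp : p.2
  · by_cases hwS : (zz z p.2)⁻¹ ∈ S
    · have hon : M.On (p.1, true) S := by
        refine ⟨hS.1, ?_⟩
        rw [h.A (p.1, true)]
        intro a ha
        obtain ⟨f, hf, rfl⟩ := (mem_Cw _ _).1 ha
        refine aeval_mem ?_ _ fun l => ?_
        · rw [hp] at hwS
          have e : (zz z false)⁻¹ = z := inv_inv z
          rw [e] at hwS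
          exact hwS
        · exact h.On' hS (Cw_const _ _ (hf l))
      refine M.reg_transfer hon hS ?_
      exact h.out_true hon hΔ hETD hr rfl hB hU hW
    · exact h.out_false hS hΔ hETD hr hp hwS
  · exact h.out_true hS hΔ hETD hr hp hB hU hW

theorem st0 (hTWO : S_two.{u}) (hETD : S_etd.{u}) (hr : ∀ p, RegC (M.A p).toSubring
    (fun i : Fin n ⊕ Bool => M.x p (Sum.inl i))) {U W : F[X]}
    (hB : U * (X * ∏ j, q j) + W * derivative (X * ∏ j, q j) = 1)
    (hU : ∀ l, ∃ (c : O) (m : ℕ), U.coeff l = algebraMap O F c / algebraMap O F Δ ^ m)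
    (hW : ∀ l, ∃ (c : O) (m : ℕ), W.coeff l = algebraMap O F c / algebraMap O F Δ ^ m) :
    St0 (algebraMap O K Δ) (G0 z q) M (b0 n J) where
  reg := h.reg' hr
  hv := fun p S hS i j hi hj h1 => h.hv hS i j hi hj h1
  out := fun p S hS h1 => h.out' hETD hr hB hU hW hS h1
  dv := h.dv'
  cov := fun p S hS h1 => h.cov' hS h1
  mon := h.mon'
  two := by
    rintro p S hS h1 ⟨j, hj, h2⟩
    obtain ⟨i, V, y, h3⟩ := h.two' hTWO hS h1 hj h2
    rw [← h.P'] at h3
    exact ⟨V, _, y, h3⟩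

lemma frac (p : T0 × Bool) (y : K) : ∃ c ∈ M.A p, ∃ d ∈ M.A p, d ≠ 0 ∧ y = c * d⁻¹ := by
  rw [h.A p]
  exact frc_adj (h.frc p.1) h.top p.2 y

lemma isFrac {p : T0 × Bool} {S : Subring K} (hS : M.On p S) : IsFractionRing (M.P p S) K := by
  refine IsFractionRing.of_field _ K fun y => ?_
  obtain ⟨c, hc, d, hd, hd0, e⟩ := h.frac p y
  exact ⟨⟨c, M.le_P p S hc⟩, ⟨d, M.le_P p S hd⟩, by
    rw [e, div_eq_mul_inv]
    rfl⟩

theorem st (hTWO : S_two.{u}) (hETD : S_etd.{u}) (hHFIN : S_hfin.{u}) (hACC : S_acc.{u})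
    (hFIN : S_fin.{u}) (hr : ∀ p, RegC (M.A p).toSubring
    (fun i : Fin n ⊕ Bool => M.x p (Sum.inl i))) {U W : F[X]}
    (hB : U * (X * ∏ j, q j) + W * derivative (X * ∏ j, q j) = 1)
    (hU : ∀ l, ∃ (c : O) (m : ℕ), U.coeff l = algebraMap O F c / algebraMap O F Δ ^ m)
    (hW : ∀ l, ∃ (c : O) (m : ℕ), W.coeff l = algebraMap O F c / algebraMap O F Δ ^ m) :
    St (algebraMap O K Δ) (G0 z q) M (b0 n J) := by
  have hs := h.st0 hTWO hETD hr hB hU hW
  refine ⟨hs, ?_⟩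
  rintro P ⟨p, S, hS, rfl, hbad⟩
  obtain ⟨h1, j, hj, h2⟩ := (hFIN O K (T0 × Bool) ((Fin n ⊕ Bool) ⊕ J) (Option J)
    (algebraMap O K Δ) (G0 z q) M (b0 n J) hs).2 p S hS hbad
  obtain ⟨i, V, y, h3⟩ := h.two' hTWO hS h1 hj h2
  have hΔ0 : algebraMap O K Δ ≠ 0 := by
    rw [h.ΔK]
    exact (_root_.map_ne_zero _).2 h.Δ0
  have hG0 : ∀ a, G0 z q a ≠ 0 := by
    rintro (_ | j)
    · exact h.z0
    · intro h0
      exact (h.qm j).ne_zero (transcendental_iff.1 h.hz _ h0)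
  have hfr := h.isFrac hS
  rw [h.P'] at hfr ⊢
  refine hACC K (Option J) (algebraMap O K Δ) (G0 z q) hΔ0 hG0 _ h3.noeth hfr ?_
  intro 𝔭 _ h𝔭
  exact hHFIN O F K (zz z p.2) (h.hw p.2) (M0.A p.1) S hS.1 (h.On' hS) _ (M0.xA p.1 i) V y h3
    𝔭 h𝔭

end Ini

end ini

/-- The initial state. -/
theorem t_INIT (hPOL : S_pol.{u}) (hDED : S_ded.{u}) (hADDF : S_addf.{u}) (hTWO : S_two.{u})
    (hHFIN : S_hfin.{u}) (hETD : S_etd.{u}) (hACC : S_acc.{u}) (hFIN : S_fin.{u}) :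
    S_init.{u} := by
  classical
  intro O F K _ _ _ _ _ _ _ _ _ _ z hz htop H _ h hh
  obtain ⟨J, fJ, q, Δ, U, W, hq, -, hΔ, hfac, hcoef, hbez, hU, hW⟩ :=
    hPOL O F K z hz htop H h hh
  obtain ⟨T0, fT0, n, M0, hF, hB, hdv, hcov, hpr⟩ := hDED O F Δ hΔ
  have hpr' : Prm M0 := hpr
  have hz0 : z ≠ 0 := by
    rintro rfl
    exact hz isAlgebraic_zero
  have hIsB : ∀ c : F, (∃ (c1 c2 d1 d2 : O) (m : ℕ), c1 * d1 = Δ ^ m ∧
      c2 * d2 = Δ ^ m ∧ c = algebraMap O F c1 / algebraMap O F c2) → IsB M0 c := by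
    rintro c ⟨c1, c2, d1, d2, m, h1, h2, rfl⟩
    exact (hB c1 d1 m h1).div (hB c2 d2 m h2)
  have hgam : ∀ j, ∃ γ : Fin n → ℤ,
      (∀ t, ∀ l ∈ (q j).support, (∏ i, M0.x t i ^ (-γ i)) * (q j).coeff l ∈ M0.A t) ∧
      ∀ t i S, Loc S → (M0.A t).toSubring ≤ S → (M0.x t i)⁻¹ ∉ S →
        ∃ l ∈ (q j).support, ((∏ i, M0.x t i ^ (-γ i)) * (q j).coeff l)⁻¹ ∈ S := by
    intro j
    refine exists_gam hpr' (q j).support ?_ (fun l => (q j).coeff l) fun l hl => ?_
    · rw [Finset.nonempty_iff_ne_empty, ne_eq, support_eq_empty]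
      exact (hq j).1.ne_zero
    · exact hIsB _ (hcoef j l (mem_support_iff.1 hl))
  choose γ hγ1 hγ2 using hgam
  have hAL : ∀ t, ∀ a ∈ (mapLM (K := K) M0).A t, ∃ l : F, algebraMap F K l = a := by
    rintro t _ ⟨a, ha, rfl⟩
    exact ⟨a, rfl⟩
  have hreg : ∀ t b, RegC (adj ((mapLM (K := K) M0).A t) (zz z b)).toSubring
      (xx ((mapLM (K := K) M0).x t) z b) := fun t b =>
    rg_xx ((mapLM (K := K) M0).rg t) (hAL t) hz b
  let N0 : LM (⊥ : Subalgebra O K) ⊤ (T0 × Bool) (Fin n ⊕ Bool) :=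
    prodLM (mapLM (K := K) M0) hz0 hreg
  have hN0x : ∀ p i, N0.x p (Sum.inl i) = algebraMap F K (M0.x p.1 i) := fun p i => rfl
  have hN0c : ∀ p c, N0.x p (Sum.inr c) = if p.2 = c then zz z p.2 else 1 := fun p c => rfl
  have hN0A : ∀ p, N0.A p = Cw (M0.A p.1) (zz z p.2) := fun p => rfl
  let c : J → Fin n ⊕ Bool → ℤ := fun j =>
    Sum.elim (fun i => -γ j i) (fun b => if b then 0 else ((q j).natDegree : ℤ))
  have hcx : ∀ p j, aeval z (q j) * ∏ i, N0.x p i ^ c j i = aeval z (q j) *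
      ((∏ i, algebraMap F K (M0.x p.1 i) ^ (-γ j i)) *
      (if p.2 = false then z⁻¹ else 1) ^ (q j).natDegree) := by
    intro p j
    rw [Fintype.prod_sum_type, Fintype.prod_bool]
    simp only [c, Sum.elim_inl, Sum.elim_inr, hN0x, hN0c]
    cases hp : p.2
    · simp [zz]
    · simp
  have hcA : ∀ p j, aeval z (q j) * ∏ i, N0.x p i ^ c j i ∈ N0.A p := by
    intro p j
    rw [hcx, hN0A, mem_Cw]
    refine ⟨C (∏ i, M0.x p.1 i ^ (-γ j i)) * pj (q j) p.2, fun l => ?_, ?_⟩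
    · obtain ⟨l', hl'⟩ := pj_coeff (q j) p.2 l
      rw [coeff_C_mul, hl']
      by_cases h0 : (q j).coeff l' = 0
      · rw [h0, mul_zero]
        exact (M0.A p.1).zero_mem
      · exact hγ1 j p.1 l' (mem_support_iff.2 h0)
    · rw [map_mul, aeval_C, pj_aeval hz0, map_prod]
      simp only [map_zpow₀]
      ring
  obtain ⟨M, hMA, hMx⟩ := hADDF O K (T0 × Bool) (Fin n ⊕ Bool) J N0 (fun j => aeval z (q j)) c
    (fun j h0 => (hq j).1.ne_zero (transcendental_iff.1 hz _ h0)) hcA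
  have hMl : ∀ p i, M.x p (Sum.inl i) = N0.x p i := by
    intro p i
    rw [hMx]
    rfl
  have hMr : ∀ p j, M.x p (Sum.inr j) = aeval z (q j) * ∏ i, N0.x p i ^ c j i := by
    intro p j
    rw [hMx]
    rfl
  have hMA' : ∀ p, M.A p = N0.A p := fun p => by rw [hMA]
  have hini : Ini z M0 q Δ γ M := {
    hz := hz
    top := htop
    frc := hF
    Δ0 := by
      rw [ne_eq, FaithfulSMul.algebraMap_eq_zero_iff]
      exact hΔ
    dv := hdv
    cov := hcov
    pr := hpr'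
    qm := fun j => (hq j).1
    g1 := by
      intro t j l
      by_cases h0 : (q j).coeff l = 0
      · rw [h0, mul_zero]
        exact (M0.A t).zero_mem
      · exact hγ1 j t l (mem_support_iff.2 h0)
    g2 := by
      intro j t i S hS hA hi
      obtain ⟨l, hl, hl'⟩ := hγ2 j t i S hS hA hi
      exact ⟨l, mem_support_iff.1 hl, hl'⟩
    A := fun p => by rw [hMA', hN0A]
    xv := fun p i => by rw [hMl, hN0x]
    xc := fun p b => by rw [hMl, hN0c]
    xj := fun p j => by rw [hMr, hcx] }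
  have hr : ∀ p, RegC (M.A p).toSubring (fun i : Fin n ⊕ Bool => M.x p (Sum.inl i)) := by
    intro p
    have h1 := N0.rg p
    have e : (fun i : Fin n ⊕ Bool => M.x p (Sum.inl i)) = N0.x p := funext fun i => hMl p i
    rw [e, hMA']
    exact h1
  -- boundary functions
  have hext : ∀ g : K, (∃ γ : Fin n ⊕ Bool → ℤ, F1 N0 g γ) → Bdf M g := by
    rintro g ⟨δ, hδ⟩
    refine ⟨Sum.elim δ 0, fun p => ?_⟩
    obtain ⟨w, hw0, hw, hw', e⟩ := hδ p
    refine ⟨w, hw0, by rw [hMA']; exact hw, by rw [hMA']; exact hw', ?_⟩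
    have e2 : ∏ i, M.x p i ^ (Sum.elim δ 0 : (Fin n ⊕ Bool) ⊕ J → ℤ) i = ∏ i, N0.x p i ^ δ i := by
      rw [Fintype.prod_sum_type]
      simp only [Sum.elim_inl, Sum.elim_inr, Pi.zero_apply, zpow_zero, Finset.prod_const_one,
        mul_one, hMl]
    rw [e, e2]
  have hconst : ∀ a : F, IsB M0 a → Bdf M (algebraMap F K a) := by
    rintro a ⟨δ, hδ⟩
    exact hext _ ⟨_, f1_prod (mapLM (K := K) M0) hz0 hreg (f1_map (K := K) (M := M0) hδ)⟩
  have hzB : Bdf M z := hext _ ⟨_, f1_self (mapLM (K := K) M0) hz0 hreg⟩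
  have hqB : ∀ j, Bdf M (aeval z (q j)) := by
    intro j
    refine ⟨Sum.elim (fun i => -c j i) (fun j' => if j' = j then 1 else 0), fun p =>
      ⟨1, one_ne_zero, (M.A p).one_mem, by rw [inv_one]; exact (M.A p).one_mem, ?_⟩⟩
    rw [Fintype.prod_sum_type]
    simp only [Sum.elim_inl, Sum.elim_inr, hMl]
    have e1 : ∏ j', M.x p (Sum.inr j') ^ (if j' = j then (1 : ℤ) else 0) =
        M.x p (Sum.inr j) := by
      rw [Finset.prod_eq_single j]
      · rw [if_pos rfl, zpow_one]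
      · intro j' _ hj'
        rw [if_neg hj', zpow_zero]
      · intro h1
        exact absurd (Finset.mem_univ _) h1
    rw [e1, hMr, one_mul]
    have e2 : (∏ i, N0.x p i ^ (-c j i)) * ∏ i, N0.x p i ^ c j i = 1 := by
      rw [← Finset.prod_mul_distrib]
      refine Finset.prod_eq_one fun i _ => ?_
      rw [← zpow_add₀ (N0.x0 p i), neg_add_cancel, zpow_zero]
    calc aeval z (q j) = aeval z (q j) * ((∏ i, N0.x p i ^ (-c j i)) *
          ∏ i, N0.x p i ^ c j i) := by rw [e2, mul_one]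
      _ = _ := by ring
  refine ⟨T0 × Bool, (Fin n ⊕ Bool) ⊕ J, Option J, inferInstance, inferInstance, inferInstance,
    algebraMap O K Δ, G0 z q, M, b0 n J,
    hini.st hTWO hETD hHFIN hACC hFIN hr hbez hU hW, fun a => ?_, hini.frac⟩
  obtain ⟨c', m, e, hc'0, e1, hc'⟩ := hfac a
  rw [e1]
  exact ((hconst c' (hIsB c' hc')).mul (hzB.zpow m)).mul
    (Bdf.prod _ fun j _ => (hqB j).zpow (e j))

end Pool.Agent.N808.AS
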