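import Pool.Agent.N808.AS.Stm

/-!
Log resolution on arithmetic surfaces: the order of a function at a point and the strict
transform under the blowup of the point (helper866, for the project of helper808).
-/

set_option autoImplicit false
set_option linter.unusedVariables false

universe u

open Pool.Agent.W418.LU2 Pool.Agent.N98.T2 Pool.Agent.N98.RM Polynomial

namespace Pool.Agent.N808.AS

namespace ORD_

variable {K : Type u} [Field K]

/-- The nonunits of a local ring in a field. -/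
lemma nonunits {W : Subring K} (hW : Loc W) : ∃ (Q : Ideal W), Q.IsPrime ∧
    ∀ a : W, a ∈ Q ↔ ¬ ((a : K) ≠ 0 ∧ (a : K)⁻¹ ∈ W) := by
  obtain ⟨Q, hQ, h, -⟩ := Pool.Agent.N98.RV.exists_center hW (le_refl W)
  exact ⟨Q, hQ, fun a => by rw [← h a, not_not]⟩

lemma form_add (m : ℕ) (c d : ℕ → K) (u v : K) :
    form m c u v + form m d u v = form m (fun l => c l + d l) u v := by
  unfold form
  rw [← Finset.sum_add_distrib]
  exact Finset.sum_congr rfl fun l _ => by ring

lemma form_mul (m : ℕ) (c : ℕ → K) (u v α β : K) :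
    form m c u v * (α * u + β * v) =
      form (m + 1) (fun l => (if l ≤ m then c l * α else 0) +
        (if 1 ≤ l then c (l - 1) * β else 0)) u v := by
  have h1 : form (m + 1) (fun l => if l ≤ m then c l * α else 0) u v =
      form m c u v * (α * u) := by
    unfold form
    rw [Finset.sum_range_succ]
    beta_reduce
    rw [if_neg (by omega), zero_mul, add_zero, Finset.sum_mul]
    refine Finset.sum_congr rfl fun l hl => ?_
    have hl' : l ≤ m := Nat.lt_succ_iff.1 (Finset.mem_range.1 hl)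
    rw [if_pos hl', Nat.succ_sub hl', pow_succ]
    ring
  have h2 : form (m + 1) (fun l => if 1 ≤ l then c (l - 1) * β else 0) u v =
      form m c u v * (β * v) := by
    unfold form
    rw [Finset.sum_range_succ' _ (m + 1)]
    beta_reduce
    rw [if_neg (by omega), zero_mul, add_zero, Finset.sum_mul]
    refine Finset.sum_congr rfl fun l hl => ?_
    rw [if_pos (by omega), Nat.add_sub_cancel, Nat.add_sub_add_right, pow_succ]
    ring
  rw [← form_add, h1, h2]
  ring

lemma form_eq {u v : K} (hu : u ≠ 0) (m : ℕ) (c : ℕ → K) :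
    form m c u v = u ^ m * ∑ l ∈ Finset.range (m + 1), c l * (v / u) ^ l := by
  unfold form
  rw [Finset.mul_sum]
  refine Finset.sum_congr rfl fun l hl => ?_
  have hl' : l ≤ m := Nat.lt_succ_iff.1 (Finset.mem_range.1 hl)
  obtain ⟨j, rfl⟩ := Nat.exists_eq_add_of_le hl'
  rw [Nat.add_sub_cancel_left, div_pow, pow_add]
  field_simp

lemma form_mem {A : Subring K} {u v : K} (hu : u ∈ A) (hv : v ∈ A) (m : ℕ) {c : ℕ → K}
    (hc : ∀ l, c l ∈ A) : form m c u v ∈ A :=
  A.sum_mem fun l _ => A.mul_mem (hc l) (A.mul_mem (A.pow_mem hu _) (A.pow_mem hv _))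

/-- Elements of the powers of the ideal of a point are forms. -/
lemma pow_form {A : Subring K} {I : Ideal A} {u v : K}
    (hI : ∀ a : A, a ∈ I → ∃ α ∈ A, ∃ β ∈ A, (a : K) = α * u + β * v) (m : ℕ) :
    ∀ a : A, a ∈ I ^ m → ∃ c : ℕ → K, (∀ l, c l ∈ A) ∧ (a : K) = form m c u v := by
  induction m with
  | zero =>
    intro a _
    refine ⟨fun _ => a, fun _ => a.2, ?_⟩
    simp [form]
  | succ m ih =>
    intro a ha
    rw [pow_succ] at ha
    refine Submodule.mul_induction_on ha ?_ ?_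
    · intro x hx y hy
      obtain ⟨c, hc, hxc⟩ := ih x hx
      obtain ⟨α, hα, β, hβ, hyc⟩ := hI y hy
      refine ⟨fun l => (if l ≤ m then c l * α else 0) + (if 1 ≤ l then c (l - 1) * β else 0),
        fun l => ?_, ?_⟩
      · refine A.add_mem ?_ ?_
        · split_ifs
          · exact A.mul_mem (hc l) hα
          · exact A.zero_mem
        · split_ifs
          · exact A.mul_mem (hc _) hβ
          · exact A.zero_mem
      · change (x : K) * (y : K) = _
        rw [hxc, hyc]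
        exact form_mul m c u v α β
    · rintro x y ⟨c, hc, hx⟩ ⟨d, hd, hy⟩
      refine ⟨fun l => c l + d l, fun l => A.add_mem (hc l) (hd l), ?_⟩
      change (x : K) + (y : K) = _
      rw [hx, hy, form_add]

/-- The elements of `A[w]` are values of polynomials. -/
lemma exists_poly {A : Subring K} {w y : K} (hy : y ∈ Subring.closure (insert w (A : Set K))) :
    ∃ F : A[X], ev A w F = y := by
  have h1 : Subring.closure (insert w (A : Set K)) ≤ bl A w := by
    rw [Subring.closure_le]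
    rintro z (rfl | hz)
    · exact self_mem_bl A _
    · exact le_bl A w hz
  obtain ⟨F, hF⟩ := h1 hy
  exact ⟨F, hF⟩

end ORD_

theorem t_ORD : S_ord.{u} := by
  intro K _ A S0 hN hS hAS u v hu hv huS hvS hgen f hf hf0
  obtain ⟨I, hI, hIm, -⟩ := Pool.Agent.N98.RV.exists_center hS hAS
  have hIform : ∀ a : A, a ∈ I → ∃ α ∈ A, ∃ β ∈ A, (a : K) = α * u + β * v := by
    intro a ha
    by_cases h0 : (a : K) = 0
    · exact ⟨0, A.zero_mem, 0, A.zero_mem, by rw [h0]; ring⟩
    · refine hgen a a.2 fun h1 => ?_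
      exact (hIm a).2 ⟨h0, h1⟩ ha
  have huI : (⟨u, hu⟩ : A) ∈ I := by
    by_contra h1
    exact huS ((hIm _).1 h1).2
  have hvI : (⟨v, hv⟩ : A) ∈ I := by
    by_contra h1
    exact hvS ((hIm _).1 h1).2
  have hkr := Ideal.iInf_pow_eq_bot_of_isDomain I hI.ne_top
  have hex : ∃ n : ℕ, (⟨f, hf⟩ : A) ∉ I ^ n := by
    by_contra hcon
    push Not at hcon
    have h1 : (⟨f, hf⟩ : A) ∈ ⨅ n : ℕ, I ^ n := by
      rw [Submodule.mem_iInf]
      exact hcon
    rw [hkr, Ideal.mem_bot] at h1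
    exact hf0 (congrArg Subtype.val h1)
  classical
  have h1 := Nat.find_spec hex
  have h2 : ∀ m < Nat.find hex, (⟨f, hf⟩ : A) ∈ I ^ m := fun m hm =>
    not_not.1 (Nat.find_min hex hm)
  have h3 : Nat.find hex ≠ 0 := by
    intro h0
    rw [h0, pow_zero, Ideal.one_eq_top] at h1
    exact h1 Submodule.mem_top
  obtain ⟨m, hm⟩ := Nat.exists_eq_succ_of_ne_zero h3
  rw [hm] at h1
  obtain ⟨c, hc, hfc⟩ := ORD_.pow_form hIform m _ (h2 m (by omega))
  refine ⟨m, c, hc, hfc, ?_⟩
  by_contra hcon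
  push Not at hcon
  apply h1
  have hcI : ∀ l ≤ m, (⟨c l, hc l⟩ : A) ∈ I := by
    intro l hl
    by_contra h4
    obtain ⟨h5, h6⟩ := (hIm _).1 h4
    exact hcon l hl h5 h6
  have e : (⟨f, hf⟩ : A) = ∑ l ∈ Finset.range (m + 1),
      (⟨c l, hc l⟩ : A) * (⟨u, hu⟩ ^ (m - l) * ⟨v, hv⟩ ^ l) := by
    apply Subtype.ext
    rw [hfc]
    push_cast
    rfl
  rw [e]
  refine Ideal.sum_mem _ fun l hl => ?_
  have hl' : l ≤ m := Nat.lt_succ_iff.1 (Finset.mem_range.1 hl)
  rw [Nat.succ_eq_add_one, pow_succ', ← Nat.sub_add_cancel hl', pow_add I]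
  rw [Nat.sub_add_cancel hl']
  exact Ideal.mul_mem_mul (hcI l hl') (Ideal.mul_mem_mul (Ideal.pow_mem_pow huI _)
    (Ideal.pow_mem_pow hvI _))

namespace ORD_

section str

variable {K : Type u} [Field K] {A S0 S : Subring K} {V : ValuationSubring K} {u v : K}

/-- Polynomials with nonunit coefficients have nonunit values. -/
lemma val_mem (hv : v = v / u * u)
    (hgen : ∀ a ∈ A, a⁻¹ ∉ S0 → ∃ α ∈ A, ∃ β ∈ A, a = α * u + β * v) (huA : u ∈ A)
    (hvA : v ∈ A) (hAS : A ≤ S) (hw : v / u ∈ S) {Q : Ideal S}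
    (hQ : ∀ a : S, a ∈ Q ↔ ¬ ((a : K) ≠ 0 ∧ (a : K)⁻¹ ∈ S)) (huS : u⁻¹ ∉ S) {a : K} (ha : a ∈ A)
    (ha0 : ¬ (a ≠ 0 ∧ a⁻¹ ∈ S0)) : (⟨a, hAS ha⟩ : S) ∈ Q := by
  have huQ : (⟨u, hAS huA⟩ : S) ∈ Q := (hQ _).2 fun h => huS h.2
  have hvQ : (⟨v, hAS hvA⟩ : S) ∈ Q := by
    have e : (⟨v, hAS hvA⟩ : S) = ⟨v / u, hw⟩ * ⟨u, hAS huA⟩ := Subtype.ext hv
    rw [e]
    exact Q.mul_mem_left _ huQ
  by_cases h0 : a = 0
  · have e : (⟨a, hAS ha⟩ : S) = 0 := Subtype.ext h0
    rw [e]
    exact Q.zero_mem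
  · obtain ⟨α, hα, β, hβ, e⟩ := hgen a ha fun h => ha0 ⟨h0, h⟩
    have e' : (⟨a, hAS ha⟩ : S) = ⟨α, hAS hα⟩ * ⟨u, hAS huA⟩ + ⟨β, hAS hβ⟩ * ⟨v, hAS hvA⟩ :=
      Subtype.ext e
    rw [e']
    exact Q.add_mem (Q.mul_mem_left _ huQ) (Q.mul_mem_left _ hvQ)

end str

end ORD_

theorem t_STR : S_str.{u} := by
  intro K _ A S0 hS0 hAS0 V u v hu hv h hgen m c hc hcu S hS hBS huS
  have hu0 : u ≠ 0 := h.x0
  have hvu : v = v / u * u := (div_mul_cancel₀ _ hu0).symm
  have hAS : A ≤ S := le_closure.trans hBS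
  have hw : v / u ∈ S := hBS self_mem_closure
  obtain ⟨Q, hQp, hQ⟩ := ORD_.nonunits hS
  obtain ⟨I, hI, hIm, -⟩ := Pool.Agent.N98.RV.exists_center hS0 hAS0
  -- the strict transform
  have hF : form m c u v / u ^ m = ∑ l ∈ Finset.range (m + 1), c l * (v / u) ^ l := by
    rw [ORD_.form_eq hu0, mul_comm, mul_div_assoc, div_self (pow_ne_zero _ hu0), mul_one]
  let FA : A[X] := ∑ l ∈ Finset.range (m + 1), C (⟨c l, hc l⟩ : A) * X ^ l
  have hFA : ev A (v / u) FA = form m c u v / u ^ m := by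
    rw [hF]
    change ev A (v / u) (∑ l ∈ Finset.range (m + 1), C (⟨c l, hc l⟩ : A) * X ^ l) = _
    rw [map_sum]
    refine Finset.sum_congr rfl fun l _ => ?_
    rw [map_mul, map_pow, ev_C, ev_X]
  have hFAc : ∀ l ≤ m, FA.coeff l = ⟨c l, hc l⟩ := by
    intro l hl
    change (∑ l ∈ Finset.range (m + 1), C (⟨c l, hc l⟩ : A) * X ^ l).coeff l = _
    rw [finsetSum_coeff]
    simp only [coeff_C_mul, coeff_X_pow]
    rw [Finset.sum_eq_single l]
    · simp
    · intro j _ hj
      rw [if_neg (Ne.symm hj), mul_zero]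
    · intro h1
      exact absurd (Finset.mem_range.2 (by omega)) h1
  -- values at `w` of polynomials with nonunit coefficients
  have hnon : ∀ (b : A[X]), (∀ i, b.coeff i ∈ I) → ∀ hb : ev A (v / u) b ∈ S,
      (⟨_, hb⟩ : S) ∈ Q := by
    intro b hb hbS
    have e : (⟨_, hbS⟩ : S) = ∑ i ∈ Finset.range (b.natDegree + 1),
        (⟨(b.coeff i : K), hAS (b.coeff i).2⟩ : S) * ⟨v / u, hw⟩ ^ i := by
      apply Subtype.ext
      change ev A (v / u) b = _
      rw [ev_sum]
      push_cast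
      rfl
    rw [e]
    refine Q.sum_mem fun i _ => Q.mul_mem_right _ ?_
    refine ORD_.val_mem hvu hgen hu hv hAS hw hQ huS (b.coeff i).2 fun h1 => ?_
    exact (hIm (b.coeff i)).2 h1 (hb i)
  refine ⟨?_, ?_, ?_⟩
  · rw [hF]
    exact Subring.sum_mem _ fun l _ => Subring.mul_mem _ (le_closure (hc l))
      (Subring.pow_mem _ self_mem_closure _)
  · rintro ⟨a, ha, d, hd, hd0, hdS, e⟩
    obtain ⟨a', rfl⟩ := ORD_.exists_poly ha
    obtain ⟨d', rfl⟩ := ORD_.exists_poly hd
    let P := lo S0 A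
    let ι : A →+* P := Subring.inclusion (le_lo S0 A)
    have hι : ∀ g : A[X], ev P (v / u) (g.map ι) = ev A (v / u) g := by
      intro g
      change eval₂ P.subtype (v / u) (g.map ι) = eval₂ A.subtype (v / u) g
      rw [eval₂_map]
      rfl
    have h1 : ev P (v / u) ((FA * d').map ι) = u * ev P (v / u) (a'.map ι) := by
      rw [hι, hι, map_mul, hFA]
      have h2 : form m c u v / u ^ m = u * (ev A (v / u) a' * (ev A (v / u) d')⁻¹) := by
        rw [← e, mul_div_cancel₀ _ hu0]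
      rw [h2]
      field_simp
    have h2 := h.ker' h1
    have h3 : ∀ i, (FA * d').coeff i ∈ I := by
      intro i
      by_contra h4
      have h5 := (hIm _).1 h4
      have h6 : IsUnit (((FA * d').map ι).coeff i) := by
        rw [isUnit_lo_iff hAS0, coeff_map]
        exact h5
      have h7 := (h.isUnit_iff _).1 h6
      have h8 := h2 i
      rw [h7] at h8
      exact lt_irrefl _ h8
    have h4 : (FA * d').map (Ideal.Quotient.mk I) = 0 := by
      ext i
      rw [coeff_map, coeff_zero, Ideal.Quotient.eq_zero_iff_mem]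
      exact h3 i
    rw [Polynomial.map_mul] at h4
    rcases mul_eq_zero.1 h4 with h5 | h5
    · obtain ⟨l, hl, hl0, hlS⟩ := hcu
      have h6 := congrArg (fun p => Polynomial.coeff p l) h5
      simp only [coeff_map, coeff_zero] at h6
      rw [Ideal.Quotient.eq_zero_iff_mem, hFAc l hl] at h6
      exact (hIm _).2 ⟨hl0, hlS⟩ h6
    · have h6 : ∀ i, d'.coeff i ∈ I := by
        intro i
        have h7 := congrArg (fun p => Polynomial.coeff p i) h5
        simp only [coeff_map, coeff_zero] at h7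
        rwa [Ideal.Quotient.eq_zero_iff_mem] at h7
      exact (hQ _).1 (hnon d' h6 (hBS hd)) ⟨hd0, hdS⟩
  · rintro hwS hnd ⟨a, ha, d, hd, hd0, hdS, e⟩
    obtain ⟨a', rfl⟩ := ORD_.exists_poly ha
    obtain ⟨d', rfl⟩ := ORD_.exists_poly hd
    have hv0 : v ≠ 0 := h.y0
    have hw0 : v / u ≠ 0 := div_ne_zero hv0 hu0
    have hwQ : (⟨v / u, hw⟩ : S) ∈ Q := (hQ _).2 fun h => hwS h.2
    -- the constant coefficient of the denominator
    have hd1 : ((d'.coeff 0 : A) : K) ≠ 0 ∧ ((d'.coeff 0 : A) : K)⁻¹ ∈ S0 := by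
      by_contra hcon
      have h1 := ORD_.val_mem hvu hgen hu hv hAS hw hQ huS (d'.coeff 0).2 hcon
      have hX : ev A (v / u) d' = ev A (v / u) d'.divX * (v / u) + d'.coeff 0 := by
        conv_lhs => rw [← d'.divX_mul_X_add]
        rw [map_add, map_mul, ev_X, ev_C]
      have hdX : ev A (v / u) d'.divX ∈ S := by
        rw [ev_sum]
        exact S.sum_mem fun i _ => S.mul_mem (hAS (d'.divX.coeff i).2) (S.pow_mem hw i)
      have e' : (⟨_, hBS hd⟩ : S) = ⟨_, hdX⟩ * ⟨v / u, hw⟩ + ⟨_, hAS (d'.coeff 0).2⟩ :=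
        Subtype.ext hX
      refine (hQ ⟨_, hBS hd⟩).1 ?_ ⟨hd0, hdS⟩
      rw [e']
      exact Q.add_mem (Q.mul_mem_left _ hwQ) h1
    let N := max a'.natDegree d'.natDegree
    have hval : ∀ (g : A[X]) (n : ℕ), g.natDegree ≤ n →
        u ^ n * ev A (v / u) g = form n (fun l => (g.coeff l : K)) u v := by
      intro g n hn
      rw [ORD_.form_eq hu0]
      congr 1
      change eval₂ A.subtype (v / u) g = _
      rw [eval₂_eq_sum_range' _ (Nat.lt_succ_of_le hn)]
      rfl
    have h1 : form m c u v * form (N + 1) (fun l => (d'.coeff l : K)) u v =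
        (u ^ m * form N (fun l => (a'.coeff l : K)) u v) * v := by
      rw [← hval d' (N + 1) (le_trans (le_max_right _ _) (Nat.le_succ _)),
        ← hval a' N (le_max_left _ _)]
      have h2 : form m c u v / u ^ m =
          v / u * (ev A (v / u) a' * (ev A (v / u) d')⁻¹) := by
        rw [← e, mul_div_cancel₀ _ hw0]
      have h3 : form m c u v = u ^ m *
          (v / u * (ev A (v / u) a' * (ev A (v / u) d')⁻¹)) := by
        rw [← h2, mul_div_cancel₀ _ (pow_ne_zero _ hu0)]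
      rw [h3, pow_succ]
      field_simp
    have hPA : A ≤ lo S0 A := le_lo S0 A
    rcases h.symm.prime (hPA (ORD_.form_mem hu hv m hc))
      (hPA (ORD_.form_mem hu hv (N + 1) fun l => (d'.coeff l).2))
      ((lo S0 A).mul_mem ((lo S0 A).pow_mem (hPA hu) m)
        (hPA (ORD_.form_mem hu hv N fun l => (a'.coeff l).2))) h1 with ⟨f, hf, h2⟩ | ⟨f, hf, h2⟩
    · apply hnd
      rw [h2, mul_div_assoc, div_self hv0, mul_one]
      exact hf
    · have h3 : form (N + 1) (fun l => (d'.coeff l : K)) u v =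
          d'.coeff 0 * u ^ (N + 1) + form N (fun l => (d'.coeff (l + 1) : K)) u v * v := by
        unfold form
        rw [Finset.sum_range_succ', Finset.sum_mul, add_comm]
        congr 1
        · simp
        · refine Finset.sum_congr rfl fun l _ => ?_
          rw [Nat.add_sub_add_right, pow_succ]
          ring
      have hi : ((d'.coeff 0 : A) : K)⁻¹ ∈ lo S0 A :=
        inv_mem_lo hAS0 (hPA (d'.coeff 0).2) hd1.1 hd1.2
      refine h.nil' (N + 1) (((d'.coeff 0 : A) : K)⁻¹ *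
        (f - form N (fun l => (d'.coeff (l + 1) : K)) u v)) ((lo S0 A).mul_mem hi
        ((lo S0 A).sub_mem hf (hPA (ORD_.form_mem hu hv N fun l => (d'.coeff (l + 1)).2)))) ?_
      have h4 : ((d'.coeff 0 : A) : K) * u ^ (N + 1) =
          (f - form N (fun l => (d'.coeff (l + 1) : K)) u v) * v := by
        rw [h3] at h2
        linear_combination h2
      rw [mul_assoc, ← h4, ← mul_assoc, inv_mul_cancel₀ hd1.1, one_mul]

end Pool.Agent.N808.AS
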