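import Mathlib
import Pool.Agent.N808.AS.Stm

/-!
AS/POL: factorization into irreducible polynomials, and the bad primes (helper999).
-/

set_option autoImplicit false
set_option linter.unusedVariables false

universe u

open Polynomial UniqueFactorizationMonoid

namespace Pool.Agent.N808.AS

namespace POL_

/-- a common multiple of numerators and denominators -/
lemma den {O F : Type u} [CommRing O] [IsDomain O] [Field F] [Algebra O F] [IsFractionRing O F]
    (E : Finset F) : ∃ Δ : O, Δ ≠ 0 ∧ ∀ x ∈ E, x ≠ 0 → ∃ c1 c2 d1 d2 : O, c1 * d1 = Δ ∧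
      c2 * d2 = Δ ∧ x = algebraMap O F c1 / algebraMap O F c2 := by
  classical
  induction E using Finset.induction_on with
  | empty => exact ⟨1, one_ne_zero, fun x hx => absurd hx (Finset.notMem_empty x)⟩
  | insert y E hy ih =>
    obtain ⟨Δ, h0, h⟩ := ih
    by_cases hy0 : y = 0
    · refine ⟨Δ, h0, fun x hx hx0 => ?_⟩
      rcases Finset.mem_insert.1 hx with rfl | hx
      · exact absurd hy0 hx0
      · exact h x hx hx0
    · obtain ⟨a, b, hb, hab⟩ := IsFractionRing.div_surjective (A := O) y
      have hb0 : b ≠ 0 := nonZeroDivisors.ne_zero hb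
      have ha0 : a ≠ 0 := by
        rintro rfl
        rw [map_zero, zero_div] at hab
        exact hy0 hab.symm
      refine ⟨Δ * (a * b), mul_ne_zero h0 (mul_ne_zero ha0 hb0), fun x hx hx0 => ?_⟩
      rcases Finset.mem_insert.1 hx with rfl | hx
      · exact ⟨a, b, Δ * b, Δ * a, by ring, by ring, hab.symm⟩
      · obtain ⟨c1, c2, d1, d2, e1, e2, e3⟩ := h x hx hx0
        exact ⟨c1, c2, d1 * (a * b), d2 * (a * b), by rw [← e1]; ring, by rw [← e2]; ring, e3⟩

/-- factorization of the value of a polynomial -/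
lemma fac {F K : Type u} [Field F] [Field K] [Algebra F K] [DecidableEq F] (z : K) (p : F[X])
    (S : Finset F[X]) (hX : X ∉ S) (hS : ∀ f ∈ normalizedFactors p, f ≠ X → f ∈ S) :
    aeval z p = algebraMap F K p.leadingCoeff * z ^ (normalizedFactors p).count X *
      ∏ f ∈ S, (aeval z f) ^ (normalizedFactors p).count f := by
  have h1 := leadingCoeff_mul_prod_normalizedFactors p
  have h2 : (normalizedFactors p).prod = X ^ (normalizedFactors p).count X *
      ∏ f ∈ S, f ^ (normalizedFactors p).count f := by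
    rw [Finset.prod_multiset_count_of_subset (normalizedFactors p) (insert X S) (by
      intro f hf
      rw [Multiset.mem_toFinset] at hf
      by_cases hfX : f = X
      · rw [hfX]
        exact Finset.mem_insert_self _ _
      · exact Finset.mem_insert_of_mem (hS f hf hfX)), Finset.prod_insert hX]
  rw [h2] at h1
  conv_lhs => rw [← h1]
  simp only [map_mul, map_prod, map_pow, aeval_C, aeval_X, mul_assoc]

end POL_

open POL_ in
/-- AS/POL -/
theorem t_POL : S_pol.{u} := by
  classical
  intro O F K _ _ _ _ _ _ _ _ z hz htop H _ h h0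
  haveI := Fintype.ofFinite H
  have h1 : ∀ a, ∃ p r : F[X], h a = aeval z p / aeval z r := by
    intro a
    rw [← IntermediateField.mem_adjoin_simple_iff, htop]
    exact IntermediateField.mem_top
  choose p r hpr using h1
  have hp0 : ∀ a, p a ≠ 0 := by
    intro a ha
    refine h0 a ?_
    rw [hpr, ha, map_zero, zero_div]
  have hr0 : ∀ a, r a ≠ 0 := by
    intro a ha
    refine h0 a ?_
    rw [hpr, ha, map_zero, div_zero]
  obtain ⟨S, hSd⟩ : ∃ S : Finset F[X], S = (Finset.univ.biUnion fun a =>
    (normalizedFactors (p a)).toFinset ∪ (normalizedFactors (r a)).toFinset).erase X := ⟨_, rfl⟩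
  have hX : X ∉ S := by
    rw [hSd]
    exact Finset.notMem_erase _ _
  have hSp : ∀ a, ∀ f ∈ normalizedFactors (p a), f ≠ X → f ∈ S := by
    intro a f hf hfX
    rw [hSd, Finset.mem_erase, Finset.mem_biUnion]
    exact ⟨hfX, a, Finset.mem_univ _, Finset.mem_union_left _ (Multiset.mem_toFinset.2 hf)⟩
  have hSr : ∀ a, ∀ f ∈ normalizedFactors (r a), f ≠ X → f ∈ S := by
    intro a f hf hfX
    rw [hSd, Finset.mem_erase, Finset.mem_biUnion]
    exact ⟨hfX, a, Finset.mem_univ _, Finset.mem_union_right _ (Multiset.mem_toFinset.2 hf)⟩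
  have hSi : ∀ f ∈ S, f.Monic ∧ Irreducible f ∧ f ≠ X := by
    intro f hf
    rw [hSd, Finset.mem_erase, Finset.mem_biUnion] at hf
    obtain ⟨hfX, a, -, hf⟩ := hf
    have key : ∀ g : F[X], f ∈ normalizedFactors g → f.Monic ∧ Irreducible f ∧ f ≠ X := by
      intro g hg
      have hi := irreducible_of_normalized_factor f hg
      refine ⟨?_, hi, hfX⟩
      have := monic_normalize hi.ne_zero
      rwa [normalize_normalized_factor f hg] at this
    rcases Finset.mem_union.1 hf with hf | hf
    · exact key _ (Multiset.mem_toFinset.1 hf)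
    · exact key _ (Multiset.mem_toFinset.1 hf)
  have hz0 : z ≠ 0 := by
    rintro rfl
    exact hz isAlgebraic_zero
  have hev : ∀ f : F[X], f ≠ 0 → aeval z f ≠ 0 := by
    intro f hf hf0
    exact hz ⟨f, hf, hf0⟩
  -- the separable polynomial
  have hsep : (∏ f ∈ insert X S, f).Separable := by
    have hirr : ∀ f ∈ insert X S, f.Monic ∧ Irreducible f := by
      intro f hf
      rcases Finset.mem_insert.1 hf with rfl | hf
      · exact ⟨monic_X, irreducible_X⟩
      · exact ⟨(hSi f hf).1, (hSi f hf).2.1⟩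
    refine separable_prod' (f := fun f : F[X] => f) (fun f hf g hg hfg => ?_) fun f hf =>
      (hirr f hf).2.separable
    rcases (hirr f hf).2.isCoprime_or_dvd g with h | h
    · exact h
    · exfalso
      exact hfg (eq_of_monic_of_associated (hirr f hf).1 (hirr g hg).1
        ((hirr f hf).2.associated_of_dvd (hirr g hg).2 h))
  rw [Finset.prod_insert hX] at hsep
  obtain ⟨U, W, hUW⟩ := hsep
  -- the index set
  let ε : Fin S.card ≃ S := S.equivFin.symm
  have hprod : ∀ {M : Type u} [CommMonoid M] (g : F[X] → M),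
      ∏ j : Fin S.card, g (ε j : F[X]) = ∏ f ∈ S, g f := by
    intro M _ g
    rw [ε.prod_comp (fun f : S => g f), Finset.prod_coe_sort]
  -- the constants
  obtain ⟨Δ, hΔ0, hΔ⟩ := den (O := O) (F := F)
    ((Finset.univ.image fun a => (p a).leadingCoeff / (r a).leadingCoeff) ∪
      (S.biUnion fun f => f.coeffs) ∪ U.coeffs ∪ W.coeffs)
  have hU : ∀ V : F[X], V.coeffs ⊆ ((Finset.univ.image fun a =>
      (p a).leadingCoeff / (r a).leadingCoeff) ∪ (S.biUnion fun f => f.coeffs) ∪ U.coeffs ∪
      W.coeffs) → ∀ l, ∃ (c : O) (m : ℕ), V.coeff l = algebraMap O F c / algebraMap O F Δ ^ m := by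
    intro V hV l
    by_cases hl : V.coeff l = 0
    · exact ⟨0, 1, by rw [hl, map_zero, zero_div]⟩
    · obtain ⟨c1, c2, d1, d2, e1, e2, e3⟩ := hΔ _ (hV (coeff_mem_coeffs hl)) hl
      refine ⟨c1 * d2, 1, ?_⟩
      have hc2 : algebraMap O F c2 ≠ 0 := by
        intro h
        rw [h, div_zero] at e3
        exact hl e3
      have hd2 : algebraMap O F d2 ≠ 0 := by
        intro h
        have : d2 = 0 := (IsFractionRing.injective O F) (by rw [h, map_zero])
        rw [this, mul_zero] at e2
        exact hΔ0 e2.symm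
      rw [e3, pow_one, ← e2, map_mul, map_mul, mul_div_mul_right _ _ hd2]
  refine ⟨Fin S.card, inferInstance, fun j => (ε j : F[X]), Δ, U, W, fun j => hSi _ (ε j).2,
    fun i j hij => ε.injective (Subtype.ext hij), hΔ0, fun a => ?_, fun j l hl => ?_, ?_, ?_, ?_⟩
  · refine ⟨(p a).leadingCoeff / (r a).leadingCoeff,
      ((normalizedFactors (p a)).count X : ℤ) - ((normalizedFactors (r a)).count X : ℤ),
      fun j => ((normalizedFactors (p a)).count (ε j : F[X]) : ℤ) -
        ((normalizedFactors (r a)).count (ε j : F[X]) : ℤ), ?_, ?_, ?_⟩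
    · exact div_ne_zero (leadingCoeff_ne_zero.2 (hp0 a)) (leadingCoeff_ne_zero.2 (hr0 a))
    · rw [hprod (fun f => (aeval z f) ^ (((normalizedFactors (p a)).count f : ℤ) -
        ((normalizedFactors (r a)).count f : ℤ))), hpr, fac z (p a) S hX (hSp a),
        fac z (r a) S hX (hSr a)]
      have h2 : ∏ f ∈ S, (aeval z f) ^ (((normalizedFactors (p a)).count f : ℤ) -
          ((normalizedFactors (r a)).count f : ℤ)) =
          (∏ f ∈ S, (aeval z f) ^ (normalizedFactors (p a)).count f) /
          ∏ f ∈ S, (aeval z f) ^ (normalizedFactors (r a)).count f := by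
        rw [← Finset.prod_div_distrib]
        refine Finset.prod_congr rfl fun f hf => ?_
        rw [zpow_sub₀ (hev f (hSi f hf).1.ne_zero), zpow_natCast, zpow_natCast]
      rw [h2, zpow_sub₀ hz0, zpow_natCast, zpow_natCast, map_div₀]
      have h3 : algebraMap F K (r a).leadingCoeff ≠ 0 :=
        (_root_.map_ne_zero _).2 (leadingCoeff_ne_zero.2 (hr0 a))
      have h4 : ∏ f ∈ S, (aeval z f) ^ (normalizedFactors (r a)).count f ≠ 0 :=
        Finset.prod_ne_zero_iff.2 fun f hf => pow_ne_zero _ (hev f (hSi f hf).1.ne_zero)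
      field_simp
    · obtain ⟨c1, c2, d1, d2, e1, e2, e3⟩ := hΔ ((p a).leadingCoeff / (r a).leadingCoeff) (by
        refine Finset.mem_union_left _ (Finset.mem_union_left _ (Finset.mem_union_left _ ?_))
        exact Finset.mem_image.2 ⟨a, Finset.mem_univ _, rfl⟩)
        (div_ne_zero (leadingCoeff_ne_zero.2 (hp0 a)) (leadingCoeff_ne_zero.2 (hr0 a)))
      exact ⟨c1, c2, d1, d2, 1, by rw [e1, pow_one], by rw [e2, pow_one], e3⟩
  · obtain ⟨c1, c2, d1, d2, e1, e2, e3⟩ := hΔ ((ε j : F[X]).coeff l) (by
      refine Finset.mem_union_left _ (Finset.mem_union_left _ (Finset.mem_union_right _ ?_))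
      exact Finset.mem_biUnion.2 ⟨ε j, (ε j).2, coeff_mem_coeffs hl⟩) hl
    exact ⟨c1, c2, d1, d2, 1, by rw [e1, pow_one], by rw [e2, pow_one], e3⟩
  · have h5 := hprod (fun f : F[X] => f)
    rw [h5]
    exact hUW
  · refine hU U ?_
    exact Finset.subset_union_right.trans Finset.subset_union_left
  · refine hU W ?_
    exact Finset.subset_union_right

end Pool.Agent.N808.AS
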