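import Pool.Agent.N808.AS.Stm

/-!
Project AS (helper808), part REG (helper426): the boundary of the blowup of a point has strict
normal crossings.
-/

set_option autoImplicit false
set_option linter.unusedVariables false

universe u

open Pool.Agent.W418.LU2 Pool.Agent.N98.RM IsLocalRing

namespace Pool.Agent.N808.AS

namespace REG_

variable {K : Type u} [Field K] {A : Subring K} {I : Type} {x : I → K}

/-- Two members of the family which are equal, and not units at some point, are the same. -/
theorem inj_of (hx : RegC A x) {S : Subring K} (hS : Loc S) (hAS : A ≤ S) {i i' : I}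
    (h : (x i)⁻¹ ∉ S) (hii : x i = x i') : i = i' := by
  classical
  by_contra hne
  have hf : Function.Injective (fun b : Bool => if b = true then i else i') := by
    intro a b hab
    rcases a with _ | _ <;> rcases b with _ | _
    · rfl
    · exact absurd (by simpa using hab.symm) hne
    · exact absurd (by simpa using hab) hne
    · rfl
  have h1 := hx.reg S hS hAS Bool _ hf
  have hreg := h1.reg
  have hval : ∀ b : Bool, x (if b = true then i else i') = x i := by
    intro b
    rcases b with _ | _
    · simpa using hii.symm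
    · simp
  have hmem : ∀ b : Bool, (⟨x (if b = true then i else i'), h1.mem b⟩ : lo S A) ∈
      maximalIdeal (lo S A) := by
    intro b
    rw [h1.mem_max]
    rintro ⟨-, h2⟩
    apply h
    rw [← hval b]
    exact h2
  have h3 := h1.ind (fun b => if b = true then 1 else -1) (fun b hb => absurd (hmem b) hb) (by
    have e : (∑ b : Bool, (if b = true then (1 : lo S A) else -1) *
        ⟨x (if b = true then i else i'), h1.mem b⟩) = 0 := by
      rw [Fintype.sum_bool]
      apply Subtype.ext
      change (1 : K) * x (if true = true then i else i') +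
        (-1 : K) * x (if false = true then i else i') = 0
      rw [hval true, hval false]
      ring
    rw [e]
    exact Ideal.zero_mem _) true
  exact (Ideal.ne_top_iff_one _).1 (maximalIdeal.isMaximal (lo S A)).ne_top (by simp at h3)

theorem main (hx : RegC A x) {u v : K} {m : I → ℕ} (hu : u ∈ A) (hv : v ∈ A) (hu0 : u ≠ 0)
    (hv0 : v ≠ 0) (hm : ∀ i, (m i = 1 ∧ (x i = u ∨ x i = v)) ∨ (m i = 0 ∧ (x i)⁻¹ ∈ A))
    (hS1 : ∃ S, Loc S ∧ A ≤ S ∧ u⁻¹ ∉ S ∧ v⁻¹ ∉ S)
    (hP : ∀ S, Loc S → A ≤ S → u⁻¹ ∉ S → v⁻¹ ∉ S → RegP S (lo S A) ![u, v]) :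
    RegC (Subring.closure (insert (v / u) (A : Set K)))
      (fun o : Option I => o.elim u fun i => x i / u ^ m i) := by
  classical
  obtain ⟨S1, hL1, hA1, hu1, hv1⟩ := hS1
  have hval : ∀ i, x i / u ^ m i = 1 ∨ (x i = v ∧ x i / u ^ m i = v / u) ∨
      ((x i)⁻¹ ∈ A ∧ x i / u ^ m i = x i) := by
    intro i
    rcases hm i with ⟨h1, h2 | h2⟩ | ⟨h1, h2⟩
    · left
      rw [h1, h2, pow_one, div_self hu0]
    · right; left
      exact ⟨h2, by rw [h1, h2, pow_one]⟩
    · right; right
      exact ⟨h2, by rw [h1, pow_zero, div_one]⟩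
  have hne : ∀ o : Option I, (o.elim u fun i => x i / u ^ m i) ≠ 0 := by
    rintro (_ | i)
    · exact hu0
    · exact div_ne_zero (hx.ne i) (pow_ne_zero _ hu0)
  have hmem : ∀ o : Option I, (o.elim u fun i => x i / u ^ m i) ∈
      Subring.closure (insert (v / u) (A : Set K)) := by
    rintro (_ | i)
    · exact le_closure hu
    · change x i / u ^ m i ∈ _
      rcases hval i with h | ⟨-, h⟩ | ⟨-, h⟩
      · rw [h]; exact Subring.one_mem _
      · rw [h]; exact self_mem_closure
      · rw [h]; exact le_closure (hx.mem i)
  refine ⟨hne, hmem, fun W hW hBW ι _ f hf => ?_⟩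
  have hAW : A ≤ W := le_closure.trans hBW
  have htW : v / u ∈ W := hBW self_mem_closure
  -- the nonunits with index some i
  have hsome : ∀ i, (x i / u ^ m i)⁻¹ ∉ W → x i = v ∧ x i / u ^ m i = v / u := by
    intro i hi
    rcases hval i with h | h | ⟨h1, h⟩
    · exfalso
      apply hi
      rw [h, inv_one]
      exact W.one_mem
    · exact h
    · exfalso
      apply hi
      rw [h]
      exact hAW h1
  by_cases huW : u⁻¹ ∈ W
  · have huI : u⁻¹ ∈ lo W A := inv_mem_lo hAW (le_lo _ _ hu) hu0 huW
    have h3 : v / u ∈ lo W A := by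
      rw [div_eq_mul_inv]
      exact (lo W A).mul_mem (le_lo _ _ hv) huI
    rw [lo_eq_of hAW le_closure (closure_le_lo h3)]
    have hfin : Fintype {a : ι // ((f a).elim u fun i => x i / u ^ m i)⁻¹ ∉ W} :=
      Fintype.ofFinite _
    have hk : ∀ k : {a : ι // ((f a).elim u fun i => x i / u ^ m i)⁻¹ ∉ W},
        ∃ i, f k.1 = some i ∧ x i = v ∧ ((f k.1).elim u fun i => x i / u ^ m i) = v / u := by
      rintro ⟨k, hk⟩
      rcases hfk : f k with _ | i
      · rw [hfk] at hk
        exact absurd huW hk
      · rw [hfk] at hk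
        obtain ⟨h4, h5⟩ := hsome i hk
        exact ⟨i, rfl, h4, h5⟩
    choose g hg1 hg2 hg3 using hk
    have hginj : Function.Injective g := by
      intro a b hab
      apply Subtype.ext
      apply hf
      rw [hg1 a, hg1 b, hab]
    have h1 := hx.reg W hW hAW _ g hginj
    have hreg := h1.reg
    have h2 : RegP W (lo W A)
        (fun a : {a : ι // ((f a).elim u fun i => x i / u ^ m i)⁻¹ ∉ W} =>
          (f a.1).elim u fun i => x i / u ^ m i) := by
      refine ⟨h1.PA, fun a => hne _, fun a => ?_, h1.reg, h1.inv, ?_⟩
      · rw [hg3 a]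
        exact h3
      · refine indN_units h1.ind _ (fun a => ⟨u⁻¹, huI⟩) (fun a => ?_) (fun a => Subtype.ext ?_)
        · rw [isUnit_lo_iff hAW]
          refine ⟨inv_ne_zero hu0, ?_⟩
          change (u⁻¹)⁻¹ ∈ W
          rw [inv_inv]
          exact hAW hu
        · change ((f a.1).elim u fun i => x i / u ^ m i) = u⁻¹ * x (g a)
          rw [hg3 a, hg2 a, div_eq_mul_inv, mul_comm]
    refine regP_reindex h2 _ (fun a => hne _) (fun a => ?_) (fun a => a) (fun a b hab => hab)
      fun a => rfl
    have h4 : Subring.closure (insert (v / u) (A : Set K)) ≤ lo W A := closure_le_lo h3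
    exact h4 (hmem _)
  · have hvW : v⁻¹ ∉ W := by
      intro h
      apply huW
      have e : u⁻¹ = v / u * v⁻¹ := by
        field_simp
      rw [e]
      exact W.mul_mem htW h
    have h1 := hP W hW hAW huW hvW
    have h2 : RegP W (lo W (Subring.closure (insert (v / u) (A : Set K))))
        (Function.update ![u, v] 1 (v / u)) := by
      have h3 := RegP.blow hW hAW h1 (i := 1) (j := 0) (by decide) hvW huW (by
        change v * u⁻¹ ∈ W
        rw [← div_eq_mul_inv]
        exact htW)
      rw [div_eq_mul_inv]
      exact h3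
    refine regP_reindex h2 _ (fun a => hne _) (fun a => le_lo _ _ (hmem _))
      (fun k => if f k.1 = none then 0 else 1) ?_ ?_
    · rintro ⟨a, ha⟩ ⟨b, hb⟩ hab
      apply Subtype.ext
      apply hf
      change f a = f b
      rcases hfa : f a with _ | i
      · rcases hfb : f b with _ | i'
        · rfl
        · exfalso
          simp only [hfa, hfb] at hab
          simp at hab
      · rcases hfb : f b with _ | i'
        · exfalso
          simp only [hfa, hfb] at hab
          simp at hab
        · rw [hfa] at ha
          rw [hfb] at hb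
          obtain ⟨h4, -⟩ := hsome i ha
          obtain ⟨h5, -⟩ := hsome i' hb
          have h6 : i = i' := inj_of hx hL1 hA1 (by rw [h4]; exact hv1) (h4.trans h5.symm)
          rw [h6]
    · rintro ⟨a, ha⟩
      change ((f a).elim u fun i => x i / u ^ m i) =
        Function.update ![u, v] 1 (v / u) (if f a = none then 0 else 1)
      rcases hfa : f a with _ | i
      · rw [if_pos rfl, Function.update_of_ne (by decide)]
        rfl
      · rw [hfa] at ha
        obtain ⟨-, h5⟩ := hsome i ha
        rw [if_neg (by simp), Function.update_self]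
        exact h5

end REG_

theorem t_REG : S_reg.{u} := fun K _ A I x hx u v m hu hv hu0 hv0 hm hS1 hP =>
  REG_.main hx hu hv hu0 hv0 hm hS1 hP

end Pool.Agent.N808.AS
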