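import Pool.Agent.N808.AS.StC

/-!
Log resolution on arithmetic surfaces: the blowup of a bad point.
-/

set_option autoImplicit false
set_option linter.unusedVariables false
set_option linter.unusedSectionVars false

universe u

open Pool.Agent.W418.LU2 Pool.Agent.N98.T2 Pool.Agent.N98.RM Polynomial IsLocalRing

namespace Pool.Agent.N808.AS

section bl

variable {k K : Type u} [CommRing k] [Field K] [Algebra k K] {T I Γ : Type} [Fintype I]
  [Fintype Γ] {Δ : K} {G : Γ → K} {M : PM k K T I} {b : I → Prop} {S0 : Subring K} {t0 : T}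
  {u v : K} {V : ValuationSubring K} {m : I → ℕ} {M' : PM k K (T × Bool) (Option I)}

/-- The data of the blowup. -/
structure Bd (M : PM k K T I) (b : I → Prop) (S0 : Subring K) (t0 : T) (u v : K)
    (V : ValuationSubring K) (m : I → ℕ) (M' : PM k K (T × Bool) (Option I)) : Prop where
  iso : Iso M b S0 t0 u v
  par : Par V (M.P t0 S0) u v
  ld : Ld (M.A t0).toSubring S0 V u v (M.x t0) m b
  A : M'.A = fun p => adj (M.A p.1) (bw t0 u v p)
  x : M'.x = fun p o => o.elim (be t0 u v p) fun i => M.x p.1 i / be t0 u v p ^ m i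

/-- The boundary of the blowup. -/
def bb (b : I → Prop) (o : Option I) : Prop := o.elim True b

namespace Bd

variable (h : Bd M b S0 t0 u v V m M')

include h

lemma x_none (p : T × Bool) : M'.x p none = be t0 u v p := by rw [h.x]; rfl

lemma x_some (p : T × Bool) (i : I) : M'.x p (some i) = M.x p.1 i / be t0 u v p ^ m i := by
  rw [h.x]; rfl

lemma be0 (p : T × Bool) : be t0 u v p ≠ 0 := by
  rw [← h.x_none p]
  exact M'.x0 _ _

lemma le (p : T × Bool) : M.A p.1 ≤ M'.A p := by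
  rw [h.A]
  exact le_adj _ _

lemma on {p : T × Bool} {S : Subring K} (hS : M'.On p S) : M.On p.1 S :=
  ⟨hS.1, fun a ha => hS.2 (h.le p ha)⟩

/-- The charts not containing the point. -/
lemma out_A {p : T × Bool} (hp : p.1 ≠ t0) : M'.A p = M.A p.1 := by
  rw [h.A]
  apply le_antisymm
  · refine adj_le le_rfl ?_
    unfold bw
    rw [if_neg hp]
    exact (M.A p.1).one_mem
  · exact le_adj _ _

lemma out_be {p : T × Bool} (hp : p.1 ≠ t0) : be t0 u v p = 1 := by
  unfold be
  rw [if_neg hp]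

lemma out_P {p : T × Bool} (hp : p.1 ≠ t0) (S : Subring K) : M'.P p S = M.P p.1 S := by
  unfold PM.P
  rw [h.out_A hp]

lemma out_none {p : T × Bool} (hp : p.1 ≠ t0) : M'.x p none = 1 := by
  rw [h.x_none, h.out_be hp]

lemma out_some {p : T × Bool} (hp : p.1 ≠ t0) (i : I) : M'.x p (some i) = M.x p.1 i := by
  rw [h.x_some, h.out_be hp, one_pow, div_one]

lemma out_reg {p : T × Bool} (hp : p.1 ≠ t0) {S : Subring K} (hS : M'.On p S)
    (hr : RegP S (M.P p.1 S) (M.x p.1)) : RegP S (M'.P p S) (M'.x p) := by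
  rw [h.out_P hp]
  have hn : ∀ o : Option I, (M'.x p o)⁻¹ ∉ S → o ≠ none := by
    rintro o ho rfl
    apply ho
    rw [h.out_none hp, inv_one]
    exact S.one_mem
  refine regP_change hr _ (fun o => M'.x0 p o) (fun o => ?_) (fun k => match k with
    | ⟨none, hk⟩ => absurd rfl (hn none hk)
    | ⟨some i, hk⟩ => i) ?_ ?_
  · have h1 := M'.xA p o
    rw [h.out_A hp] at h1
    exact M.le_P _ _ h1
  · rintro ⟨_ | i, hi⟩ ⟨_ | j, hj⟩ hij
    · rfl
    · exact absurd rfl (hn none hi)
    · exact absurd rfl (hn none hj)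
    · have : i = j := hij
      subst this
      rfl
  · rintro ⟨_ | i, hi⟩
    · exact absurd rfl (hn none hi)
    · refine ⟨1, (M.P p.1 S).one_mem, one_ne_zero, by rw [inv_one]; exact S.one_mem, ?_⟩
      change M'.x p (some i) = 1 * M.x p.1 i
      rw [h.out_some hp, one_mul]

/-- The charts containing the point. -/
lemma at_pt {p : T × Bool} (hp : p.1 = t0) : ∃ u' v' : K, Ld (M.A t0).toSubring S0 V u' v'
    (M.x t0) m b ∧ be t0 u v p = u' ∧ (M'.A p).toSubring = A1 (M.A t0).toSubring u' v' ∧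
    ∀ V' : ValuationSubring K, Par V' (M.P t0 S0) u' v' → v' / u' ∈ V' →
      Nx V' (M.P t0 S0) u' (lo V'.toSubring (bl (M.P t0 S0) (v' / u'))) := by
  have hbw : ∀ w : K, bw t0 u v p = w → (M'.A p).toSubring =
      Subring.closure (insert w ((M.A t0).toSubring : Set K)) := by
    intro w hw
    have e : M'.A p = adj (M.A p.1) (bw t0 u v p) := by rw [h.A]
    rw [e, hw, adj_toSubring, hp]
  rcases p with ⟨t, s⟩
  change t = t0 at hp
  cases s
  · refine ⟨v, u, h.ld.symm, ?_, ?_, fun V' h1 h2 => ⟨u, h1, h2, rfl⟩⟩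
    · simp [be, hp]
    · refine hbw _ ?_
      simp [bw, hp]
  · refine ⟨u, v, h.ld, ?_, ?_, fun V' h1 h2 => ⟨v, h1, h2, rfl⟩⟩
    · simp [be, hp]
    · refine hbw _ ?_
      simp [bw, hp]

lemma bb_none : bb b none := trivial

variable (hs : St0 Δ G M b) (hΔ : ∀ t, Δ ∈ M.A t) (hΔ0 : Δ⁻¹ ∉ S0)

include hs

/-- Boundary functions. -/
lemma ism (g : K) (γ : I → ℤ) (hg : ∀ t, IsM (M.A t) (M.x t) g γ) (p : T × Bool) :
    IsM (M'.A p) (M'.x p) g (fun o => o.elim (∑ i, γ i * m i) γ) := by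
  obtain ⟨w, hw0, hw, hw', e⟩ := hg p.1
  refine ⟨w, hw0, h.le p hw, h.le p hw', ?_⟩
  rw [e, Fintype.prod_option]
  congr 1
  change _ = M'.x p none ^ (∑ i, γ i * (m i : ℤ)) * ∏ i, M'.x p (some i) ^ γ i
  have hE := h.be0 p
  rw [h.x_none]
  have e1 : be t0 u v p ^ (∑ i, γ i * (m i : ℤ)) = ∏ i, be t0 u v p ^ (γ i * (m i : ℤ)) := by
    classical
    generalize (Finset.univ : Finset I) = s
    induction s using Finset.induction_on with
    | empty => simp
    | insert a s ha ih => rw [Finset.sum_insert ha, Finset.prod_insert ha, zpow_add₀ hE, ih]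
  rw [e1, ← Finset.prod_mul_distrib]
  refine Finset.prod_congr rfl fun i _ => ?_
  rw [h.x_some, div_zpow, ← zpow_natCast, ← zpow_mul, mul_comm (γ i) (m i : ℤ)]
  have : be t0 u v p ^ ((m i : ℤ) * γ i) ≠ 0 := zpow_ne_zero _ hE
  field_simp

lemma mon (p : T × Bool) (o : Option I) (ho : ¬ bb b o) : ∃ (e : Γ → ℤ) (c : Option I → ℤ),
    (∀ i, ¬ bb b i → c i = 0) ∧ M'.x p o = (∏ a, G a ^ e a) * ∏ i, M'.x p i ^ c i := by
  rcases o with _ | j
  · exact absurd trivial ho
  · obtain ⟨e, c, h1, h2⟩ := hs.mon p.1 j ho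
    have hE := h.be0 p
    refine ⟨e, fun o => o.elim (∑ i, c i * m i - m j) c, ?_, ?_⟩
    · rintro (_ | i) hi
      · exact absurd trivial hi
      · exact h1 i hi
    · rw [Fintype.prod_option]
      change _ = _ * (M'.x p none ^ (∑ i, c i * (m i : ℤ) - m j) * ∏ i, M'.x p (some i) ^ c i)
      rw [h.x_none, h.x_some, h2]
      have e1 : be t0 u v p ^ (∑ i, c i * (m i : ℤ)) = ∏ i, be t0 u v p ^ (c i * (m i : ℤ)) := by
        classical
        generalize (Finset.univ : Finset I) = s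
        induction s using Finset.induction_on with
        | empty => simp
        | insert a s ha ih => rw [Finset.sum_insert ha, Finset.prod_insert ha, zpow_add₀ hE, ih]
      have e2 : ∏ i, M.x p.1 i ^ c i = be t0 u v p ^ (∑ i, c i * (m i : ℤ)) *
          ∏ i, M'.x p (some i) ^ c i := by
        rw [e1, ← Finset.prod_mul_distrib]
        refine Finset.prod_congr rfl fun i _ => ?_
        rw [h.x_some, div_zpow, ← zpow_natCast, ← zpow_mul, mul_comm (c i) (m i : ℤ)]
        have : be t0 u v p ^ ((m i : ℤ) * c i) ≠ 0 := zpow_ne_zero _ hE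
        field_simp
      rw [e2, zpow_sub₀ hE, zpow_natCast]
      ring

include hΔ hΔ0

lemma reg (hREG : S_reg.{u}) (p : T × Bool) :
    RegC (M'.A p).toSubring (fun i : {i // bb b i} => M'.x p i) := by
  by_cases hp : p.1 = t0
  · obtain ⟨u', v', h1, h2, h3, -⟩ := h.at_pt hp
    have h4 := h1.reg hREG (hs.reg t0)
    rw [← h3] at h4
    have h5 := regC_comp h4 (J := {i // bb b i}) (fun o => match o with
      | ⟨none, _⟩ => none
      | ⟨some i, hi⟩ => some ⟨i, hi⟩) (by
      rintro ⟨_ | i, hi⟩ ⟨_ | j, hj⟩ hij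
      · rfl
      · simp at hij
      · simp at hij
      · simp only [Option.some.injEq] at hij
        have hij' : i = j := congrArg Subtype.val hij
        subst hij'
        rfl)
    convert h5 using 1
    funext o
    rcases o with ⟨_ | i, hi⟩
    · change M'.x p none = u'
      rw [h.x_none, h2]
    · change M'.x p (some i) = M.x t0 i / u' ^ m i
      rw [h.x_some, h2, hp]
  · have h1 := hs.reg p.1
    have hn : ∀ o : {i // bb b i}, (M'.x p o)⁻¹ ∉ (M'.A p).toSubring → o.1 ≠ none := by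
      rintro ⟨o, ho⟩ ho' rfl
      apply ho'
      rw [h.out_none hp, inv_one]
      exact Subring.one_mem _
    have h2 := h1.reindex (J := {i // bb b i}) (fun o => M'.x p o) (fun o => M'.x0 p o)
      (fun o => by
        have h3 := M'.xA p o
        rw [h.out_A hp] at h3
        exact h3) (fun o => match o with
      | ⟨⟨none, _⟩, hk⟩ => absurd rfl (hn ⟨none, trivial⟩ (by rw [h.out_A hp]; exact hk))
      | ⟨⟨some i, hi⟩, hk⟩ => ⟨i, hi⟩) (by
      rintro ⟨⟨_ | i, hi⟩, hi'⟩ ⟨⟨_ | j, hj⟩, hj'⟩ hij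
      · rfl
      · exact absurd rfl (hn ⟨none, trivial⟩ (by rw [h.out_A hp]; exact hi'))
      · exact absurd rfl (hn ⟨none, trivial⟩ (by rw [h.out_A hp]; exact hj'))
      · have hij' : i = j := congrArg Subtype.val hij
        subst hij'
        rfl) (by
      rintro ⟨⟨_ | i, hi⟩, hi'⟩
      · exact absurd rfl (hn ⟨none, trivial⟩ (by rw [h.out_A hp]; exact hi'))
      · refine ⟨1, Subring.one_mem _, by rw [inv_one]; exact Subring.one_mem _, ?_⟩
        change M'.x p (some i) = 1 * M.x p.1 i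
        rw [h.out_some hp, one_mul])
    rw [h.out_A hp]
    exact h2

theorem st0 (hREG : S_reg.{u}) (hSTR : S_str.{u}) : St0 Δ G M' (bb b) where
  reg := h.reg hs hΔ hΔ0 hREG
  hv := by
    intro p S hS o o' ho ho' h1
    rcases o' with _ | j
    · exact absurd trivial ho'
    by_cases hp : p.1 = t0
    · obtain ⟨u', v', h2, h3, h4, -⟩ := h.at_pt hp
      have hS' : A1 (M.A t0).toSubring u' v' ≤ S := by rw [← h4]; exact hS.2
      have hP : M'.P p S = lo S (A1 (M.A t0).toSubring u' v') := by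
        unfold PM.P
        rw [h4]
      rw [hP, h.x_some, h3, hp]
      rcases o with _ | i
      · rw [h.x_none, h3]
        rw [h.x_none, h3] at h1
        exact h2.hv_exc hS.1 hS' hSTR h1 ho'
      · rw [h.x_some, h3, hp]
        rw [h.x_some, h3, hp] at h1
        have hon := h.on hS
        rw [hp] at hon
        exact h2.hv_bd hS.1 hS' hSTR ho ho' (fun h5 => hs.hv t0 S hon i j ho ho' h5)
          (fun h5 => hs.hv t0 S0 h.iso.on i j ho ho' h5) h1
    · rw [h.out_P hp]
      rcases o with _ | i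
      · exfalso
        apply h1
        rw [h.out_none hp, inv_one]
        exact S.one_mem
      · rw [h.out_some hp, h.out_some hp]
        rw [h.out_some hp] at h1
        exact hs.hv _ S (h.on hS) i j ho ho' h1
  out := by
    intro p S hS h1
    by_cases hp : p.1 = t0
    · obtain ⟨u', v', h2, h3, h4, -⟩ := h.at_pt hp
      have hS' : A1 (M.A t0).toSubring u' v' ≤ S := by rw [← h4]; exact hS.2
      have hP : M'.P p S = lo S (A1 (M.A t0).toSubring u' v') := by
        unfold PM.P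
        rw [h4]
      have hon := h.on hS
      rw [hp] at hon
      have h5 := h2.far_reg hS.1 hS' (h2.unit_of hS.1 hS' (hΔ t0) hΔ0 h1) (hs.out t0 S hon h1)
      rw [hP]
      convert h5 using 1
      funext o
      rcases o with _ | i
      · rw [h.x_none, h3]
        rfl
      · rw [h.x_some, h3, hp]
        rfl
    · exact h.out_reg hp hS (hs.out _ S (h.on hS) h1)
  dv := by
    intro p o ho
    by_cases hp : p.1 = t0
    · obtain ⟨u', v', h2, h3, h4, -⟩ := h.at_pt hp
      rcases o with _ | i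
      · rw [h.x_none, h3]
        have h5 := h2.dv (hΔ t0) hΔ0
        rw [← h4] at h5
        exact h5
      · rw [h.x_some, h3, hp]
        have h5 := hs.dv t0 i ho
        have h0 := h2.u0
        have h0' := M.x0 t0 i
        have e : Δ / (M.x t0 i / u' ^ m i) = Δ / M.x t0 i * u' ^ m i := by field_simp
        rw [e]
        have hle := h.le p
        rw [hp] at hle
        exact (M'.A p).mul_mem (hle h5) ((M'.A p).pow_mem (hle h2.uA) _)
    · rcases o with _ | i
      · rw [h.out_none hp, div_one]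
        exact h.le p (hΔ _)
      · rw [h.out_some hp]
        exact h.le p (hs.dv _ i ho)
  cov := by
    intro p S hS h1
    obtain ⟨i, hi, h2⟩ := hs.cov _ S (h.on hS) h1
    by_cases hp : p.1 = t0
    · obtain ⟨u', v', h2', h3, h4, -⟩ := h.at_pt hp
      have hS' : A1 (M.A t0).toSubring u' v' ≤ S := by rw [← h4]; exact hS.2
      by_cases hu : u'⁻¹ ∈ S
      · refine ⟨some i, hi, ?_⟩
        rw [h.x_some, h3, hp]
        rw [hp] at h2
        exact h2'.far_inv hS.1 hS' hu i _ h2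
      · refine ⟨none, trivial, ?_⟩
        rw [h.x_none, h3]
        exact hu
    · refine ⟨some i, hi, ?_⟩
      rw [h.out_some hp]
      exact h2
  mon := h.mon hs
  two := by
    rintro p S hS h1 ⟨o, ho, h2⟩
    rcases o with _ | j
    · exact absurd trivial ho
    by_cases hp : p.1 = t0
    · obtain ⟨u', v', h2', h3, h4, -⟩ := h.at_pt hp
      have hS' : A1 (M.A t0).toSubring u' v' ≤ S := by rw [← h4]; exact hS.2
      have hP : M'.P p S = lo S (A1 (M.A t0).toSubring u' v') := by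
        unfold PM.P
        rw [h4]
      rw [hP]
      rw [h.x_some, h3, hp] at h2
      by_cases hu : u'⁻¹ ∈ S
      · rw [h2'.far hS.1 hS' hu]
        have hon := h.on hS
        rw [hp] at hon
        exact hs.two t0 S hon h1 ⟨j, ho, h2'.inv_of hS.1 hS' j _ h2⟩
      · refine h2'.two hS.1 hS' hSTR hu ho ?_ h2
        have h5 := M'.xA p (some j)
        rw [h.x_some, h3, hp] at h5
        rw [← h4]
        exact h5
    · rw [h.out_P hp]
      rw [h.out_some hp] at h2
      exact hs.two _ S (h.on hS) h1 ⟨j, ho, h2⟩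

/-- The bad points of the blowup. -/
theorem bad (hREG : S_reg.{u}) (hSTR : S_str.{u}) (hFIN : S_fin.{u}) (hGOOD : S_good.{u})
    [IsNoetherianRing k] [Finite T] (P' : Subring K) (hP' : P' ∈ M'.BadSet) :
    (P' ∈ M.BadSet ∧ P' ≠ M.P t0 S0) ∨ rr Δ G P' (M.P t0 S0) := by
  have hs' := h.st0 hs hΔ hΔ0 hREG hSTR
  obtain ⟨p, S, hS, rfl, hbad⟩ := hP'
  obtain ⟨h1, o, ho, h2⟩ := (hFIN k K (T × Bool) (Option I) Γ Δ G M' (bb b) hs').2 p S hS hbad
  by_cases hp : p.1 = t0
  · obtain ⟨u', v', h2', h3, h4, h5⟩ := h.at_pt hp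
    have hS' : A1 (M.A t0).toSubring u' v' ≤ S := by rw [← h4]; exact hS.2
    have hP : M'.P p S = lo S (A1 (M.A t0).toSubring u' v') := by
      unfold PM.P
      rw [h4]
    have hon := h.on hS
    rw [hp] at hon
    by_cases hu : u'⁻¹ ∈ S
    · left
      have e : M'.P p S = M.P t0 S := by
        rw [hP, h2'.far hS.1 hS' hu]
        rfl
      refine ⟨⟨t0, S, hon, e, fun h6 => hbad ?_⟩, ?_⟩
      · rw [hP]
        have h7 := h2'.far_reg hS.1 hS' hu h6
        convert h7 using 1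
        funext o
        rcases o with _ | i
        · rw [h.x_none, h3]
          rfl
        · rw [h.x_some, h3, hp]
          rfl
      · intro h6
        apply h2'.uS0
        have h7 : u'⁻¹ ∈ M.P t0 S := h2'.uP hS.1 hS' hu
        rw [← e, h6] at h7
        exact M.P_le h.iso.on h7
    · right
      obtain ⟨V', h6, h7, h8, h9, h10⟩ := h2'.nx hS.1 hS' hu
      refine ⟨⟨V', u', ?_⟩, fun h11 => hbad ?_⟩
      · have h12 := h5 V' h6 h7
        rw [hP, h10]
        exact h12
      · exact hGOOD k K (T × Bool) (Option I) Γ Δ G M' (bb b) hs' p S hS h1 ⟨o, ho, h2⟩ h11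
  · left
    refine ⟨⟨p.1, S, h.on hS, h.out_P hp S, fun h6 => hbad (h.out_reg hp hS h6)⟩, ?_⟩
    intro h6
    rw [h.out_P hp S] at h6
    exact hp (h.iso.uniq p.1 S (h.on hS) h6)

end Bd

end bl

/-- The blowup of a bad point. -/
theorem t_STEP (hBLOW : S_blow.{u}) (hISO : S_iso.{u}) (hREG : S_reg.{u}) (hORD : S_ord.{u})
    (hSTR : S_str.{u}) (hCL : S_cl.{u}) (hFIN : S_fin.{u}) (hGOOD : S_good.{u}) :
    S_step.{u} := by
  classical
  intro k K _ _ _ _ T I Γ _ _ _ Δ G M b hs P hP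
  obtain ⟨t1, S0, hS0, rfl, hbad⟩ := hP
  obtain ⟨hΔ0, j0, hj0, hj0'⟩ := (hFIN k K T I Γ Δ G M b hs.st0).2 t1 S0 hS0 hbad
  obtain ⟨V, x, y, hpar⟩ := hs.st0.two t1 S0 hS0 hΔ0 ⟨j0, hj0, hj0'⟩
  obtain ⟨i0, hi0, hi0'⟩ := hs.st0.cov t1 S0 hS0 hΔ0
  obtain ⟨v, hv, hparv, hbd⟩ := exists_uv (A := (M.A t1).toSubring) hS0.2 hpar (M.x t1)
    (M.xA t1) b (fun ι _ g hg => (hs.st0.reg t1).reg S0 hS0.1 hS0.2 ι g hg) i0 hi0 hi0'
  have hv0 : v ≠ 0 := hparv.y0
  have hvS : v⁻¹ ∉ S0 := by
    rcases (val_of hS0.2 hparv hparv.yP).1 hparv.yV with h1 | h1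
    · exact h1
    · exact absurd h1 hv0
  have hΔA : ∀ t, Δ ∈ M.A t := by
    intro t
    have h1 := hs.st0.dv t i0 hi0
    have e : Δ = Δ / M.x t i0 * M.x t i0 := by
      have := M.x0 t i0
      field_simp
    rw [e]
    exact (M.A t).mul_mem h1 (M.xA t i0)
  obtain ⟨T', hT', M1, π, t0, hRf, hπ, hiso⟩ := hISO k K T I M b S0 t1 hS0 (M.x t1 i0) v
    (M.xA t1 i0) hv (M.x0 t1 i0) hv0 hi0' hvS (fun a ha ha' => hparv.gen a ha
      ((val_of hS0.2 hparv ha).2 (Or.inl ha')))
    (fun t ht S hS h1 => hCL k K T I Γ Δ G M b hs.st0 t S0 ht hΔ0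
      ⟨j0, hj0, M.x_nonunit hS0 ht hj0'⟩ S hS h1) (fun i hi => hbd i hi)
  have hs1 := hs.refine hRf
  have hP1 : M1.P t0 S0 = M.P t1 S0 := by rw [hRf.lo t0 S0 hiso.on, hπ]
  have hΔ1 : ∀ t, Δ ∈ M1.A t := fun t => hRf.le t (hΔA _)
  have hpar1 : Par V (M1.P t0 S0) (M.x t1 i0) v := by rw [hP1]; exact hparv
  have hN : IsNoetherianRing (M1.A t0).toSubring := by
    have h1 := M1.ft t0
    exact Algebra.FiniteType.isNoetherianRing k (M1.A t0)
  generalize M.x t1 i0 = u at *
  have hform : ∀ i, ∃ (m : ℕ) (c : ℕ → K), (∀ l, c l ∈ M1.A t0) ∧ M1.x t0 i = form m c u v ∧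
      (b i → (m = 1 ∧ (M1.x t0 i = u ∨ M1.x t0 i = v)) ∨
        (m = 0 ∧ (M1.x t0 i)⁻¹ ∈ (M1.A t0).toSubring)) ∧
      (¬ b i → ∃ l ≤ m, c l ≠ 0 ∧ (c l)⁻¹ ∈ S0) := by
    intro i
    by_cases hi : b i
    · rcases hiso.bd i hi with h1 | h1 | h1
      · refine ⟨1, fun l => if l = 0 then 1 else 0, fun l => ?_, ?_, fun _ => Or.inl
          ⟨rfl, Or.inl h1⟩, fun h2 => absurd hi h2⟩
        · dsimp only
          split_ifs
          · exact (M1.A t0).one_mem
          · exact (M1.A t0).zero_mem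
        · rw [h1]
          simp [form, Finset.sum_range_succ]
      · refine ⟨1, fun l => if l = 0 then 0 else 1, fun l => ?_, ?_, fun _ => Or.inl
          ⟨rfl, Or.inr h1⟩, fun h2 => absurd hi h2⟩
        · dsimp only
          split_ifs
          · exact (M1.A t0).zero_mem
          · exact (M1.A t0).one_mem
        · rw [h1]
          simp [form, Finset.sum_range_succ]
      · refine ⟨0, fun _ => M1.x t0 i, fun l => M1.xA t0 i, ?_, fun _ => Or.inr ⟨rfl, h1⟩,
          fun h2 => absurd hi h2⟩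
        simp [form]
    · obtain ⟨m, c, h1, h2, h3⟩ := hORD K (M1.A t0).toSubring S0 hN hiso.on.1 hiso.on.2 u v
        hiso.uA hiso.vA hiso.uS hiso.vS hiso.gen (M1.x t0 i) (M1.xA t0 i) (M1.x0 t0 i)
      exact ⟨m, c, h1, h2, fun h4 => absurd h4 hi, fun _ => h3⟩
  choose m c hc hf hmb hmc using hform
  obtain ⟨M', hA, hx⟩ := hBLOW k K T' I M1 t0 u v hiso.uA hiso.vA hiso.u0 hiso.v0 hiso.H m
    (fun i => ⟨c i, hc i, hf i⟩)
  have hB : Bd M1 b S0 t0 u v V m M' := {
    iso := hiso
    par := hpar1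
    ld := {
      loc := hiso.on.1
      AS := hiso.on.2
      uA := hiso.uA
      vA := hiso.vA
      v0 := hiso.v0
      par := hpar1
      gen := hiso.gen
      pt := fun S h1 h2 h3 h4 => hiso.pt S ⟨h1, h2⟩ h3 h4
      x0 := M1.x0 t0
      xA := M1.xA t0
      bd := hmb
      fm := fun i => ⟨c i, hc i, hf i, hmc i⟩ }
    A := hA
    x := hx }
  have hbadP := hB.bad hs1.st0 hΔ1 hΔ0 hREG hSTR hFIN hGOOD
  have haccP : Acc (rr Δ G) (M.P t1 S0) := hs.acc _ ⟨t1, S0, hS0, rfl, hbad⟩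
  refine ⟨T' × Bool, Option I, inferInstance, inferInstance, M', bb b, fun p => π p.1,
    ⟨hB.st0 hs1.st0 hΔ1 hΔ0 hREG hSTR, ?_⟩, ?_, ?_, ?_⟩
  · intro P' hP'
    rcases hbadP P' hP' with ⟨h1, -⟩ | h1
    · exact hs1.acc P' h1
    · rw [hP1] at h1
      exact haccP.inv h1
  · intro p
    exact (hRf.le p.1).trans (hB.le p)
  · rintro g ⟨γ, hγ⟩
    refine ⟨_, hB.ism hs1.st0 g γ fun t => ?_⟩
    obtain ⟨w, h0, h1, h2, h3⟩ := hγ (π t)
    have e : M1.x t = M.x (π t) := funext (hRf.x t)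
    rw [e]
    exact ⟨w, h0, hRf.le t h1, hRf.le t h2, h3⟩
  · intro P' hP'
    rcases hbadP P' hP' with ⟨h1, h2⟩ | h1
    · left
      rw [hP1] at h2
      exact ⟨hRf.bad h1, h2⟩
    · right
      rw [hP1] at h1
      exact h1

end Pool.Agent.N808.AS
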