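import Pool.Agent.N808.AS.Stm2
import Pool.Agent.N808.AS.StC

/-!
Log resolution on arithmetic surfaces: the points on a curve and on a vertical divisor are
two-dimensional (part TWO, helper966).
-/

set_option autoImplicit false
set_option linter.unusedVariables false
set_option linter.unusedSectionVars false

universe u

open Pool.Agent.W418.LU2 Pool.Agent.N98.T2 Pool.Agent.N98.RM Polynomial

namespace Pool.Agent.N808.AS

namespace TWO_

section

variable {O F K : Type u} [CommRing O] [Field F] [Field K] [Algebra O F]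
  [Algebra O K] [Algebra F K] [IsScalarTower O F K]

/-- The evaluation at `w` of the polynomials with coefficients in `R`. -/
noncomputable def ph (R : Subalgebra O F) (w : K) : (↥R)[X] →+* K :=
  (aeval w : F[X] →ₐ[F] K).toRingHom.comp (mapRingHom (algebraMap R F))

lemma ph_inj {R : Subalgebra O F} {w : K} (hw : Transcendental F w) :
    Function.Injective (ph R w) := by
  have h1 : Function.Injective (aeval w : F[X] →ₐ[F] K) := transcendental_iff_injective.1 hw
  have h2 : Function.Injective (mapRingHom (algebraMap R F)) :=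
    map_injective _ Subtype.val_injective
  exact h1.comp h2

lemma ph_C (R : Subalgebra O F) (w : K) (a : R) : ph R w (C a) = algebraMap F K a := by
  change aeval w ((C a).map (algebraMap R F)) = _
  rw [map_C, aeval_C]
  rfl

lemma exists_lift (R : Subalgebra O F) {f : F[X]} (hf : ∀ l, f.coeff l ∈ R) :
    ∃ G : (↥R)[X], G.map (algebraMap R F) = f :=
  (mem_lifts (f := algebraMap R F) f).1 ((lifts_iff_coeff_lifts f).2 fun l => ⟨⟨_, hf l⟩, rfl⟩)

lemma mem_iff (R : Subalgebra O F) (w : K) {a : K} :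
    a ∈ Cw R w ↔ ∃ G : (↥R)[X], ph R w G = a := by
  rw [mem_Cw]
  constructor
  · rintro ⟨f, hf, rfl⟩
    obtain ⟨G, hG⟩ := exists_lift R hf
    refine ⟨G, ?_⟩
    change aeval w (G.map _) = _
    rw [hG]
  · rintro ⟨G, rfl⟩
    exact ⟨G.map (algebraMap R F), fun l => by rw [coeff_map]; exact (G.coeff l).2, rfl⟩

lemma isLocal {S : Subring K} (hS : Loc S) : IsLocalRing S := by
  refine IsLocalRing.of_isUnit_or_isUnit_one_sub_self fun a => ?_
  rcases hS a a.2 with h | h
  · exact Or.inl (isUnit_iff_exists_inv.2 ⟨⟨_, h.2⟩, Subtype.ext (mul_inv_cancel₀ h.1)⟩)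
  · exact Or.inr (isUnit_iff_exists_inv.2 ⟨⟨_, h.2⟩, Subtype.ext (mul_inv_cancel₀ h.1)⟩)

lemma unit_iff {S : Subring K} (s : S) : IsUnit s ↔ (s : K) ≠ 0 ∧ (s : K)⁻¹ ∈ S := by
  constructor
  · intro h
    obtain ⟨t, ht⟩ := isUnit_iff_exists_inv.1 h
    have h1 : (s : K) * t = 1 := congrArg Subtype.val ht
    refine ⟨left_ne_zero_of_mul_eq_one h1, ?_⟩
    rw [← eq_inv_of_mul_eq_one_right h1]
    exact t.2
  · rintro ⟨h1, h2⟩
    exact isUnit_iff_exists_inv.2 ⟨⟨_, h2⟩, Subtype.ext (mul_inv_cancel₀ h1)⟩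

end

end TWO_

theorem t_TWO : S_two.{u} := by
  intro O F K _ _ _ _ _ _ _ w hw R hR S hS hA π hπ hπ0 hπS _ h2 f hf hf1 hfS
  classical
  have hloc := TWO_.isLocal hS
  have hAm : ∀ {a : K}, a ∈ (Cw R w : Subalgebra O K).toSubring ↔
      ∃ G : (↥R)[X], TWO_.ph R w G = a := TWO_.mem_iff R w
  have hφS : ∀ G, TWO_.ph R w G ∈ S := fun G => hA (hAm.2 ⟨G, rfl⟩)
  let ψ : (↥R)[X] →+* S := (TWO_.ph R w).codRestrict S hφS
  let q : Ideal (↥R)[X] := (IsLocalRing.maximalIdeal S).comap ψ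
  have hq : ∀ G, G ∈ q ↔ ¬ (TWO_.ph R w G ≠ 0 ∧ (TWO_.ph R w G)⁻¹ ∈ S) := by
    intro G
    rw [Ideal.mem_comap, IsLocalRing.mem_maximalIdeal, mem_nonunits_iff, TWO_.unit_iff]
    rfl
  let p0 : R := ⟨π, hπ⟩
  let J : Ideal R := Ideal.span {p0}
  have hJm : ∀ a : R, a ∈ J ↔ (a : F) / π ∈ R := by
    intro a
    rw [Ideal.mem_span_singleton']
    constructor
    · rintro ⟨c, rfl⟩
      have h3 : ((c * p0 : R) : F) / π = c := by
        change (c : F) * π / π = c
        rw [mul_div_cancel_right₀ _ hπ0]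
      rw [h3]
      exact c.2
    · intro h
      exact ⟨⟨_, h⟩, Subtype.ext (div_mul_cancel₀ _ hπ0)⟩
  have hJ1 : (1 : R) ∉ J := by
    rw [hJm]
    intro h
    apply hπS
    have h3 : algebraMap F K (((1 : R) : F) / π) ∈ S := hA (Cw_const R w h)
    have h4 : ((1 : R) : F) = 1 := rfl
    rwa [h4, map_div₀, map_one, one_div] at h3
  have hJ : J.IsMaximal := by
    rw [Ideal.isMaximal_iff]
    refine ⟨hJ1, fun I x hI hx hxI => ?_⟩
    obtain ⟨c, hc, d, hd, e⟩ := h2 x x.2 fun h => hx ((hJm x).2 h)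
    have h3 : (1 : R) = ⟨c, hc⟩ * x + ⟨d, hd⟩ * p0 := by
      apply Subtype.ext
      change (1 : F) = c * x + d * π
      linear_combination -e
    rw [h3]
    exact I.add_mem (I.mul_mem_left _ hxI)
      (I.mul_mem_left _ (hI (Ideal.mem_span_singleton_self p0)))
  letI : Field (R ⧸ J) := Ideal.Quotient.field J
  let mp : (↥R)[X] →+* (R ⧸ J)[X] := mapRingHom (Ideal.Quotient.mk J)
  have hmp : Function.Surjective mp := map_surjective _ Ideal.Quotient.mk_surjective
  have hco : ∀ (G : (↥R)[X]) (l : ℕ), (mp G).coeff l = Ideal.Quotient.mk J (G.coeff l) :=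
    fun G l => coeff_map _ l
  have hker : ∀ G : (↥R)[X], mp G = 0 → ∃ G', G = C p0 * G' := by
    intro G hG
    have h3 : C p0 ∣ G := by
      rw [C_dvd_iff_dvd_coeff]
      intro l
      have h4 := hco G l
      rw [hG, coeff_zero] at h4
      exact Ideal.mem_span_singleton.1 (Ideal.Quotient.eq_zero_iff_mem.1 h4.symm)
    exact h3
  have hmpC : mp (C p0) = 0 := by
    change (C p0).map _ = 0
    rw [map_C, Ideal.Quotient.eq_zero_iff_mem.2 (Ideal.mem_span_singleton_self p0), C_0]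
  -- the generator
  obtain ⟨Y, hY⟩ := (IsPrincipalIdealRing.principal (q.map mp)).principal
  have hYmem : Y ∈ q.map mp := by
    rw [hY]
    exact Submodule.mem_span_singleton_self Y
  obtain ⟨y0, hy0, hyY⟩ := (Ideal.mem_map_iff_of_surjective mp hmp).1 hYmem
  have hgen : ∀ G ∈ q, ∃ H G' : (↥R)[X], G = H * y0 + C p0 * G' := by
    intro G hG
    have h3 : mp G ∈ q.map mp := Ideal.mem_map_of_mem mp hG
    rw [hY] at h3
    obtain ⟨Hb, hHb⟩ := Submodule.mem_span_singleton.1 h3
    obtain ⟨H, rfl⟩ := hmp Hb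
    rw [smul_eq_mul, ← hyY] at hHb
    obtain ⟨G', hG'⟩ := hker (G - H * y0) (by rw [map_sub, map_mul, hHb, sub_self])
    exact ⟨H, G', by rw [← hG']; ring⟩
  -- the polynomial `f`
  obtain ⟨F0, hF0⟩ := TWO_.exists_lift R hf
  have hF0q : F0 ∈ q := by
    refine (hq F0).2 fun h => hfS ?_
    rw [← hF0]
    exact h.2
  have hmF0 : mp F0 ≠ 0 := by
    obtain ⟨l, hl⟩ := hf1
    intro h
    apply hl
    have h3 := hco F0 l
    rw [h, coeff_zero] at h3
    have h4 := (hJm _).1 (Ideal.Quotient.eq_zero_iff_mem.1 h3.symm)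
    rw [← hF0, coeff_map]
    exact h4
  have hy00 : mp y0 ≠ 0 := by
    intro h
    obtain ⟨H, G', e⟩ := hgen F0 hF0q
    apply hmF0
    rw [e, map_add, map_mul, h, mul_zero, zero_add, map_mul, hmpC, zero_mul]
  have hy0' : TWO_.ph R w y0 ≠ 0 := by
    intro h
    rw [← map_zero (TWO_.ph R w)] at h
    rw [TWO_.ph_inj hw h, map_zero] at hy00
    exact hy00 rfl
  obtain ⟨V, hV1, hV2⟩ := exists_dom hS
  have hπ0' : algebraMap F K π ≠ 0 := by
    rw [Ne, map_eq_zero]
    exact hπ0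
  have hAn : IsNoetherianRing (Cw R w : Subalgebra O K).toSubring := by
    have h3 : IsNoetherianRing (↥R)[X] := inferInstance
    refine isNoetherianRing_of_surjective (↥R)[X] _
      ((TWO_.ph R w).codRestrict (Cw R w : Subalgebra O K).toSubring fun G => hAm.2 ⟨G, rfl⟩) ?_
    rintro ⟨a, ha⟩
    obtain ⟨G, hG⟩ := hAm.1 ha
    exact ⟨G, Subtype.ext hG⟩
  refine ⟨V, TWO_.ph R w y0, ?_⟩
  exact
    { le := fun a ha => hV1 a (lo_le hA ha)
      inv := fun a ha h => inv_mem_lo hA ha (ne_zero_of_one h) (by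
        by_contra h'
        exact (hV2 a (lo_le hA ha) h').ne h)
      noeth := noeth_lo hAn hS hA
      xP := le_lo _ _ (Cw_const R w hπ)
      yP := le_lo _ _ (hAm.2 ⟨y0, rfl⟩)
      xV := hV2 _ (hA (Cw_const R w hπ)) hπS
      yV := hV2 _ (hφS y0) fun h => (hq y0).1 hy0 ⟨hy0', h⟩
      x0 := hπ0'
      gen := by
        rintro _ ⟨a, ha, b, hb, hb0, hbS, rfl⟩ hlt
        obtain ⟨G, rfl⟩ := hAm.1 ha
        have hGq : G ∈ q := by
          refine (hq G).2 fun h => ?_
          have h3 : (TWO_.ph R w G * b⁻¹) ∈ V :=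
            V.mul_mem _ _ (hV1 _ (hφS G)) (hV1 _ hbS)
          have h4 : (TWO_.ph R w G * b⁻¹)⁻¹ ∈ V := by
            rw [mul_inv, inv_inv]
            exact V.mul_mem _ _ (hV1 _ h.2) (hV1 _ (hA hb))
          exact hlt.ne (one_of_inv h3 (mul_ne_zero h.1 (inv_ne_zero hb0)) h4)
        obtain ⟨H, G', rfl⟩ := hgen G hGq
        refine ⟨TWO_.ph R w G' * b⁻¹, ⟨_, hAm.2 ⟨G', rfl⟩, b, hb, hb0, hbS, rfl⟩,
          TWO_.ph R w H * b⁻¹, ⟨_, hAm.2 ⟨H, rfl⟩, b, hb, hb0, hbS, rfl⟩, ?_⟩
        rw [map_add, map_mul, map_mul, TWO_.ph_C]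
        ring
      nil := by
        rintro n _ ⟨a, ha, b, hb, hb0, hbS, rfl⟩ e
        obtain ⟨G, rfl⟩ := hAm.1 ha
        obtain ⟨H, rfl⟩ := hAm.1 hb
        have e1 : y0 ^ n * H = G * C p0 := by
          apply TWO_.ph_inj hw
          rw [map_mul, map_pow, map_mul, TWO_.ph_C, e]
          change TWO_.ph R w G * (TWO_.ph R w H)⁻¹ * algebraMap F K π * TWO_.ph R w H =
            TWO_.ph R w G * algebraMap F K π
          field_simp
        have e2 := congrArg mp e1
        rw [map_mul, map_pow, map_mul, hmpC, mul_zero] at e2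
        rcases mul_eq_zero.1 e2 with e3 | e3
        · exact pow_ne_zero n hy00 e3
        · obtain ⟨G', rfl⟩ := hker H e3
          rw [map_mul, TWO_.ph_C] at hbS hb0
          apply hπS
          have h5 := right_ne_zero_of_mul hb0
          have h6 : (algebraMap F K π)⁻¹ =
              TWO_.ph R w G' * (algebraMap F K π * TWO_.ph R w G')⁻¹ := by
            rw [mul_inv]
            field_simp
          rw [h6]
          exact S.mul_mem (hφS G') hbS }

end Pool.Agent.N808.AS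

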