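import Pool.Agent.N808.AS.BLM
import Pool.Agent.N808.AS.ISO
import Pool.Agent.N808.AS.REG
import Pool.Agent.N808.AS.ORD
import Pool.Agent.N808.AS.FIN
import Pool.Agent.N808.AS.GOOD
import Pool.Agent.N808.AS.NAG
import Pool.Agent.N808.AS.ACC
import Pool.Agent.N808.AS.DED
import Pool.Agent.N808.AS.POL
import Pool.Agent.N808.AS.TWO
import Pool.Agent.N808.AS.HFIN
import Pool.Agent.N808.AS.ETD
import Pool.Agent.N808.AS.ADDF
import Pool.Agent.N808.AS.STEP
import Pool.Agent.N808.AS.MAIN
import Pool.Agent.N808.AS.INIT

/-!
Log resolution on arithmetic surfaces: the projective line over a Dedekind domain.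
-/

set_option autoImplicit false

universe u

open Pool.Agent.N98.RM

namespace Pool.Agent.N808.AS

/-- The blowup of a bad point. -/
theorem step : S_step.{u} :=
  t_STEP t_BLM (t_ISO t_LOC) t_REG t_ORD t_STR t_CL t_FIN t_GOOD

/-- Rational function fields in one variable over Dedekind domains of characteristic zero have
log regular models. -/
theorem hasRM_line (O F K : Type u) [CommRing O] [IsDedekindDomain O] [Field F] [CharZero F]
    [Algebra O F] [IsFractionRing O F] [Field K] [Algebra F K] [Algebra O K]
    [IsScalarTower O F K] (z : K) (hz : Transcendental F z)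
    (hz' : IntermediateField.adjoin F {z} = ⊤) : HasRM O K :=
  hasRM_p1 step t_FIN (t_INIT t_POL t_DED t_ADDF t_TWO (t_HFIN t_NAG) t_ETD t_ACC t_FIN)
    O F K z hz hz'

end Pool.Agent.N808.AS
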