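import Pool.Agent.N808.AS.GRes
import Pool.Agent.N808.AS.GINIT
import Pool.Agent.N808.AS.GGOOD
import Pool.Agent.N808.AS.GCL
import Pool.Agent.N808.AS.GPRD
import Pool.Agent.N808.AS.GSNG
import Pool.Agent.N808.AS.GNRM
import Pool.Agent.N808.AS.GCOO
import Pool.Agent.N808.AS.GStm2
import Pool.Agent.N808.AS.Top
import Pool.Agent.N808.AS.Num

/-!
Log resolution on regular arithmetic surfaces, the general case, and models of varieties of bounded
degree over function fields of arithmetic surfaces.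

helper808; built on the libraries of helper98 and helper762.
-/

set_option autoImplicit false
set_option linter.unusedVariables false
set_option linter.unusedSectionVars false

open AlgebraicGeometry CategoryTheory Pool.Agent.N98 Pool.Agent.N808.RC
open Pool.Agent.W418.LU2 (lo Loc)

namespace Pool.Agent.N808.AS

lemma isUnit_cast_dvd {R : Type} [CommRing R] {a b : ℕ} (h : a ∣ b) (hb : IsUnit ((b : ℕ) : R)) :
    IsUnit ((a : ℕ) : R) := by
  obtain ⟨c, rfl⟩ := h
  rw [Nat.cast_mul] at hb
  exact isUnit_of_mul_isUnit_left hb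

section surf

variable {O F E : Type} [CommRing O] [IsDedekindDomain O] [Field F] [CharZero F]
  [Algebra O F] [IsFractionRing O F] [Field E] [Algebra F E] [Algebra O E] [IsScalarTower O F E]
  {T : Type} [Finite T]

/-- Log resolution on regular arithmetic surfaces. -/
theorem hasRM_of_regular (hDIM : S_dim.{0}) (hDLE : S_dle.{0}) (hPFO : S_pfo.{0})
    (hKD : S_kdim.{0}) (hfin : ∀ 𝔮 : Ideal O, 𝔮.IsMaximal → Finite (O ⧸ 𝔮))
    (htr : Algebra.trdeg F E ≤ 1) (M : PM O E T Empty)
    (hreg : ∀ t S, M.On t S → IsRegularLocalRing (M.P t S))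
    (hfr : ∀ t (y : E), ∃ c ∈ M.A t, ∃ d ∈ M.A t, d ≠ 0 ∧ y = c * d⁻¹) : RM.HasRM O E := by
  refine hasRM_of_surface (t_GSTEP t_BLM (t_ISO t_LOC) t_REG t_ORD t_STR t_GCL t_GFIN t_GGOOD)
    t_PRD t_GFIN t_SNG hDLE t_NRM t_NRL hPFO t_ACC hfin htr M ?_ hfr
  intro t S hS
  refine hDIM E S (M.P t S) hS.1 (M.P_le hS) ?_ (hreg t S hS) ?_ ?_
  · intro a ha h1
    by_cases h0 : a = 0
    · rw [h0, inv_zero]
      exact (M.P t S).zero_mem
    · exact M.P_inv hS ha h0 h1
  · let A : Subalgebra O E :=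
      { (M.P t S).toSubsemiring with
        algebraMap_mem' := fun a => M.le_P t S ((M.A t).algebraMap_mem a) }
    have h1 : ringKrullDim A ≤ 2 := hKD O F E htr A
    exact h1
  · intro y
    obtain ⟨c, hc, d, hd, hd0, e⟩ := hfr t y
    exact ⟨c, M.le_P t S hc, d, M.le_P t S hd, hd0, e⟩

end surf

/-- Radical extensions of function fields of bounded degree over fields with log regular models
over localizations of rings of integers. -/
theorem exists_gnum {O F E K0 K : Type} [CommRing O] [IsDedekindDomain O] [Module.Finite ℤ O]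
    [Field F] [Algebra O F] [IsFractionRing O F] [CharZero F] [Field E] [Algebra F E]
    (b : ℕ)
    (hE : ∀ (ON : Type) [CommRing ON] [IsDedekindDomain ON] [Algebra ON F] [IsFractionRing ON F]
      [Algebra ON E] [IsScalarTower ON F E] [Algebra O ON] [IsScalarTower O ON F] (N : ℕ), N ≠ 0 →
      IsUnit ((N : ℕ) : ON) → b.factorial ∣ N →
      (∀ c : ON, ∃ (n : ℕ) (a : O), ((N : ℕ) : ON) ^ n * c = algebraMap O ON a) →
      IsLocalization.Away ((N : ℕ) : O) ON → RM.HasRM ON E)
    [Field K0] [Algebra E K0] [Field K]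
    [Algebra K0 K] {m : ℕ} (x : Fin m → K0)
    (htop : IntermediateField.adjoin E (Set.range x) = ⊤) (r : ℕ)
    (htr : Algebra.trdeg E K0 = r) (δ C0 d : ℕ) (hd : 1 ≤ d)
    (hδ : ∀ t : ℕ, r.factorial * Module.finrank E (img E x t) ≤ δ * (t + C0) ^ r)
    {s : ℕ} (w : Fin s → K) (hw0 : ∀ j, w j ≠ 0) (n : Fin s → ℕ) (hn : ∀ j, n j ≠ 0)
    (htopw : IntermediateField.adjoin K0 (Set.range w) = ⊤)
    (g : Fin s → K0) (hg : ∀ j, IsProd E x d (g j)) (hw : ∀ j, w j ^ n j = algebraMap K0 K (g j)) :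
    ∃ (X' : Scheme.{0}) (_ : IsIntegral X') (γ : X' ⟶ Spec (CommRingCat.of ℤ)),
      IsProper γ ∧
      (∀ x : X', IsUnit (((max b ((d * δ) ^ 2 ^ r)).factorial * ∏ j, n j : ℕ) :
        X'.presheaf.stalk x) →
        IsRegularLocalRing (X'.presheaf.stalk x)) ∧
      Nonempty (X'.functionField ≃+* K) := by
  classical
  set N := (max b ((d * δ) ^ 2 ^ r)).factorial * ∏ j, n j with hN
  have hN0 : N ≠ 0 := mul_ne_zero (Nat.factorial_ne_zero _)
    (Finset.prod_ne_zero_iff.2 fun j _ => hn j)
  let ON := Localization.Away ((N : ℕ) : O)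
  have hNF : algebraMap O F ((N : ℕ) : O) ≠ 0 := by
    rw [map_natCast]
    exact Nat.cast_ne_zero.2 hN0
  have hNO : ((N : ℕ) : O) ≠ 0 := fun h => hNF (by rw [h, map_zero])
  have hle : Submonoid.powers ((N : ℕ) : O) ≤ nonZeroDivisors O :=
    powers_le_nonZeroDivisors_of_noZeroDivisors hNO
  let φ : ON →+* F := IsLocalization.Away.lift (S := ON) ((N : ℕ) : O) (IsUnit.mk0 _ hNF)
  let _ : Algebra ON F := φ.toAlgebra
  have h1 : IsScalarTower O ON F := IsScalarTower.of_algebraMap_eq fun a =>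
    (IsLocalization.Away.lift_eq ((N : ℕ) : O) (IsUnit.mk0 _ hNF) a).symm
  have h2 : IsDomain ON := IsLocalization.isDomain_localization hle
  have h3 : IsDedekindDomain ON := IsLocalization.isDedekindDomain O hle ON
  have h4 : IsFractionRing ON F :=
    IsFractionRing.isFractionRing_of_isDomain_of_isLocalization
      (Submonoid.powers ((N : ℕ) : O)) ON F
  let _ : Algebra ON E := ((algebraMap F E).comp φ).toAlgebra
  have h5e : IsScalarTower ON F E := IsScalarTower.of_algebraMap_eq fun _ => rfl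
  let _ : Algebra ON K0 := ((algebraMap E K0).comp (algebraMap ON E)).toAlgebra
  have h5 : IsScalarTower ON E K0 := IsScalarTower.of_algebraMap_eq fun _ => rfl
  let _ : Algebra ON K := ((algebraMap K0 K).comp (algebraMap ON K0)).toAlgebra
  have h5' : IsScalarTower ON K0 K := IsScalarTower.of_algebraMap_eq fun _ => rfl
  let _ : Algebra O K := ((algebraMap ON K).comp (algebraMap O ON)).toAlgebra
  have h6 : IsScalarTower O ON K := IsScalarTower.of_algebraMap_eq fun _ => rfl
  have h6' : ∀ a : O, algebraMap O K a =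
      algebraMap K0 K (algebraMap E K0 (algebraMap F E (algebraMap O F a))) := by
    intro a
    change algebraMap K0 K (algebraMap E K0 (algebraMap F E
      (algebraMap ON F (algebraMap O ON a)))) = _
    rw [← IsScalarTower.algebraMap_apply O ON F]
  have h7 : Infinite E := Infinite.of_injective _ (algebraMap F E).injective
  have hu : IsUnit ((N : ℕ) : ON) := by
    have h8 := IsLocalization.Away.algebraMap_isUnit (S := ON) ((N : ℕ) : O)
    rwa [map_natCast] at h8
  have hu0 : IsUnit ((((max b ((d * δ) ^ 2 ^ r)).factorial : ℕ) : ON) *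
      ((∏ j, n j : ℕ) : ON)) := by
    rw [← Nat.cast_mul]
    exact hu
  have hu1' := isUnit_of_mul_isUnit_left hu0
  have hu1 : IsUnit ((((d * δ) ^ 2 ^ r).factorial : ℕ) : ON) := by
    exact isUnit_cast_dvd (Nat.factorial_dvd_factorial (le_max_right b ((d * δ) ^ 2 ^ r))) hu1'
  have hu2 := isUnit_of_mul_isUnit_right hu0
  have hu3 : ∀ j, IsUnit ((n j : ℕ) : ON) := by
    rw [Nat.cast_prod] at hu2
    exact IsUnit.prod_univ_iff.1 hu2
  have hg0 : ∀ j, g j ≠ 0 := by
    intro j h
    apply pow_ne_zero (n j) (hw0 j)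
    rw [hw j, h, map_zero]
  obtain ⟨B, hB, P, hPd, hP0, hgP⟩ := exists_family hg hg0
  have hbN : b.factorial ∣ N :=
    (Nat.factorial_dvd_factorial (le_max_left b ((d * δ) ^ 2 ^ r))).trans (Dvd.intro _ rfl)
  obtain ⟨T, I, hT, hI, M, hFr, hM⟩ := rel_models_poly (k := ON) (E := E) x
    (hE ON N hN0 hu hbN (fun c => by
      obtain ⟨n, a, h⟩ := IsLocalization.Away.surj ((N : ℕ) : O) c
      refine ⟨n, a, ?_⟩
      rw [← h, map_natCast, mul_comm]) inferInstance) htop
    r htr δ C0 d hd hδ hu1 B P hPd hP0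
  have hgM : ∀ j, RM.IsBr M (g j) := by
    intro j
    obtain ⟨q, β, e, he⟩ := hgP j
    rw [he]
    refine IsBr.prod _ _ fun i _ => IsBr.zpow ?_ _
    cases β i with
    | none => exact RM.IsB.one.br
    | some b => exact hM b
  obtain ⟨T', I', hT', hI', M', hFr', -, -⟩ := radical_tower s M hFr w hw0 htopw n hu3 g hgM hw
  refine RM.exists_model_Z (O := O) (ON := ON) ?_ N ?_ ?_ M' hFr'
  · intro a b hab
    rw [h6', h6'] at hab
    exact IsFractionRing.injective O F ((algebraMap F E).injective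
      ((algebraMap E K0).injective ((algebraMap K0 K).injective hab)))
  · intro c
    obtain ⟨n, a, h⟩ := IsLocalization.Away.surj ((N : ℕ) : O) c
    exact ⟨n, a, h⟩
  · rw [h6']
    exact (_root_.map_ne_zero _).2 ((_root_.map_ne_zero _).2 ((_root_.map_ne_zero _).2 hNF))

lemma finite_res' {O F : Type} [CommRing O] [IsDedekindDomain O] [Module.Finite ℤ O]
    [Field F] [Algebra O F] [IsFractionRing O F] [CharZero F]
    (ON : Type) [CommRing ON] [IsDedekindDomain ON] [Algebra ON F] [IsFractionRing ON F]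
    [Algebra O ON] [IsScalarTower O ON F] (N : ℕ)
    (hN : N ≠ 0) (hNu : IsUnit ((N : ℕ) : ON))
    (hs : ∀ c : ON, ∃ (n : ℕ) (a : O), ((N : ℕ) : ON) ^ n * c = algebraMap O ON a)
    (𝔮 : Ideal ON) (h𝔮 : 𝔮.IsMaximal) : Finite (ON ⧸ 𝔮) := by
  have h1 : CharZero O := (algebraMap O F).charZero
  have hinj : Function.Injective (algebraMap O ON) := by
    intro a c h
    apply IsFractionRing.injective O F
    rw [IsScalarTower.algebraMap_apply O ON F, IsScalarTower.algebraMap_apply O ON F, h]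
  exact finite_res hinj N hN hNu hs 𝔮 h𝔮

section bases

variable {O F E : Type} [CommRing O] [IsDedekindDomain O] [Module.Finite ℤ O]
    [Field F] [Algebra O F] [IsFractionRing O F] [CharZero F] [Field E] [Algebra F E]
    [Algebra O E] [IsScalarTower O F E]
    (ON : Type) [CommRing ON] [IsDedekindDomain ON] [Algebra ON F] [IsFractionRing ON F]
    [Algebra ON E] [IsScalarTower ON F E] [Algebra O ON] [IsScalarTower O ON F] (N : ℕ)
    (hN : N ≠ 0) (hNu : IsUnit ((N : ℕ) : ON))
    (hs : ∀ c : ON, ∃ (n : ℕ) (a : O), ((N : ℕ) : ON) ^ n * c = algebraMap O ON a)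

include hN hNu hs

/-- Function fields of projective models which are regular at all points of large residue
characteristic. -/
theorem hasRM_surface (hDIM : S_dim.{0}) (hDLE : S_dle.{0}) (hPFO : S_pfo.{0})
    (hKD : S_kdim.{0}) (b : ℕ) (hb : b.factorial ∣ N) (htr : Algebra.trdeg F E ≤ 1) {m : ℕ}
    (H : Fin (m + 1) → E) (hH : ∀ i, H i ≠ 0)
    (hgen : IntermediateField.adjoin F (Set.range fun j => H j / H 0) = ⊤)
    (hreg : ∀ i (𝔭 : Ideal (ch O H i)) [𝔭.IsPrime],
      (∀ p : ℕ, p.Prime → p ≤ b → ((p : ℕ) : ch O H i) ∉ 𝔭) →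
        IsRegularLocalRing (Localization.AtPrime 𝔭)) : RM.HasRM ON E := by
  have htow : IsScalarTower O ON E := IsScalarTower.of_algebraMap_eq fun a => by
    rw [IsScalarTower.algebraMap_apply O F E, IsScalarTower.algebraMap_apply O ON F,
      ← IsScalarTower.algebraMap_apply ON F E]
  have hE0 : CharZero E := charZero_of_injective_algebraMap (algebraMap F E).injective
  obtain ⟨M, hM⟩ := t_COO ON E m H hH
  have hM' : ∀ t, M.A t = ch ON H t := hM
  refine hasRM_of_regular (F := F) hDIM hDLE hPFO hKD (finite_res' (O := O) (F := F) ON N hN hNu hs)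
    htr M ?_ ?_
  · intro t S hS
    have h1 : (ch ON H t).toSubring ≤ S := by
      rw [← hM' t]
      exact hS.2
    have h2 := regular_ch (O := O) (b := b) (N := N) (Nat.cast_ne_zero.2 hN) hNu hb hs t
      (hreg t) hS.1 h1
    unfold PM.P
    rw [hM' t]
    exact h2
  · intro t y
    rw [hM' t]
    exact frac_ch (F := F) hH hgen t y

/-- Function fields of curves of bounded degree. -/
theorem hasRM_curve (hDIM : S_dim.{0}) (hDLE : S_dle.{0}) (hPFO : S_pfo.{0})
    (hKD : S_kdim.{0}) (b : ℕ) (hb : b.factorial ∣ N) {m : ℕ} (y : Fin m → E)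
    (htop : IntermediateField.adjoin F (Set.range y) = ⊤) (htr : Algebra.trdeg F E = (1 : ℕ))
    (δ C0 : ℕ) (hδ : ∀ t : ℕ, (1 : ℕ).factorial * Module.finrank F (img F y t) ≤ δ * (t + C0) ^ 1)
    (hδb : δ ^ 2 ≤ b) : RM.HasRM ON E := by
  have hchar : IsUnit ((Nat.factorial ((1 * δ) ^ 2 ^ 1) : ℕ) : ON) := by
    have h1 : ((1 * δ) ^ 2 ^ 1).factorial ∣ N := by
      refine (Nat.factorial_dvd_factorial ?_).trans hb
      rw [one_mul, pow_one]
      exact hδb
    exact isUnit_cast_dvd h1 hNu
  have hF : Infinite F := inferInstance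
  obtain ⟨T, I, hT, hI, M, hFr, -⟩ := rel_models_poly (k := ON) (E := F) y RM.hasRM_dedekind htop
    1 htr δ C0 1 le_rfl hδ hchar Empty (fun i => i.elim) (fun i => i.elim) (fun i => i.elim)
  obtain ⟨M', hM'⟩ := pm_of_lm M
  refine hasRM_of_regular (F := F) hDIM hDLE hPFO hKD (finite_res' (O := O) (F := F) ON N hN hNu hs)
    (by rw [htr, Nat.cast_one]) M' ?_ ?_
  · intro t S hS
    have h1 : (M.A t).toSubring ≤ S := by
      rw [← hM']
      exact hS.2
    have h2 := (M.rg t).reg S hS.1 h1 Empty (fun i => i.elim) (fun i => i.elim)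
    unfold PM.P
    rw [hM']
    exact h2.reg
  · intro t y
    rw [hM']
    exact hFr t y

end bases

end Pool.Agent.N808.AS
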