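import Pool.Agent.N808.AS.Stm

/-!
Log resolution on arithmetic surfaces: the blowup of a bad point, preparations.
-/

set_option autoImplicit false
set_option linter.unusedVariables false
set_option linter.unusedSectionVars false

universe u

open Pool.Agent.W418.LU2 Pool.Agent.N98.T2 Pool.Agent.N98.RM Polynomial IsLocalRing

namespace Pool.Agent.N808.AS

section lo

variable {F : Type u} [Field F]

/-- Change of a family of elements by units. -/
theorem regP_change {A P : Subring F} {ι κ : Type} [Fintype ι] [Fintype κ] {x : ι → F}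
    (h : RegP A P x) (y : κ → F) (hy0 : ∀ k, y k ≠ 0) (hy : ∀ k, y k ∈ P)
    (g : {k : κ // (y k)⁻¹ ∉ A} → ι) (hg : Function.Injective g)
    (hgy : ∀ k, ∃ w ∈ P, w ≠ 0 ∧ w⁻¹ ∈ A ∧ y k.1 = w * x (g k)) : RegP A P y := by
  have hfin : Fintype {k : κ // (y k)⁻¹ ∉ A} := Fintype.ofFinite _
  choose w hw hw0 hwA hgy using hgy
  have h1 : RegP A P (fun k : {k : κ // (y k)⁻¹ ∉ A} => x (g k)) := regP_comp h g hg
  have hreg := h1.reg
  have h2 : RegP A P (fun k : {k : κ // (y k)⁻¹ ∉ A} => y k.1) := by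
    refine ⟨h1.PA, fun a => hy0 _, fun a => hy _, h1.reg, h1.inv, ?_⟩
    refine indN_units h1.ind _ (fun a => ⟨w a, hw _⟩) (fun a => ?_)
      (fun a => Subtype.ext (hgy a))
    rw [h1.isUnit]
    exact ⟨hw0 a, hwA a⟩
  refine regP_reindex h2 _ hy0 hy (fun k => k) (fun a b hab => hab) fun k => rfl

theorem regC_comp {A : Subring F} {I J : Type} {x : I → F} (h : RegC A x) (g : J → I)
    (hg : Function.Injective g) : RegC A (fun j => x (g j)) :=
  ⟨fun j => h.ne _, fun j => h.mem _, fun W hW hAW ι _ f hf =>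
    h.reg W hW hAW ι (fun i => g (f i)) (hg.comp hf)⟩

lemma inv_of_mul {S : Subring F} {a b : F} (ha : a ≠ 0) (hb : b ≠ 0) (haS : a ∈ S)
    (h : (a * b)⁻¹ ∈ S) : b⁻¹ ∈ S := by
  have e : b⁻¹ = a * (a * b)⁻¹ := by field_simp
  rw [e]
  exact S.mul_mem haS h

end lo

section pm

variable {k K : Type u} [CommRing k] [Field K] [Algebra k K] {T I : Type} (M : PM k K T I)

lemma PM.ratio_unit {t t' : T} {S : Subring K} (h : M.On t S) (h' : M.On t' S) :
    M.H t' / M.H t ∈ S ∧ (M.H t' / M.H t)⁻¹ ∈ S :=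
  ⟨h.2 (M.rt t t'), by rw [inv_div]; exact h'.2 (M.rt t' t)⟩

lemma PM.P_le {t : T} {S : Subring K} (h : M.On t S) : M.P t S ≤ S := lo_le h.2

lemma PM.le_P (t : T) (S : Subring K) : (M.A t).toSubring ≤ M.P t S := le_lo _ _

lemma PM.P_inv {t : T} {S : Subring K} (h : M.On t S) {a : K} (ha : a ∈ M.P t S) (h0 : a ≠ 0)
    (hS : a⁻¹ ∈ S) : a⁻¹ ∈ M.P t S := inv_mem_lo h.2 ha h0 hS

lemma PM.P_le_P {t t' : T} {S : Subring K} (h : M.On t S) (h' : M.On t' S) :
    M.P t' S ≤ M.P t S := by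
  have h1 : (M.A t').toSubring ≤ M.P t S := by
    intro f hf
    obtain ⟨n, hn⟩ := M.gl t t' f hf
    have h2 := M.ratio_unit h h'
    have h0 : M.H t' / M.H t ≠ 0 := div_ne_zero (M.H0 _) (M.H0 _)
    have h3 : (M.H t' / M.H t)⁻¹ ∈ M.P t S := M.P_inv h (M.le_P t S (M.rt t t')) h0 h2.2
    have e : f = (M.H t' / M.H t)⁻¹ ^ n * ((M.H t' / M.H t) ^ n * f) := by
      rw [← mul_assoc, ← mul_pow, inv_mul_cancel₀ h0, one_pow, one_mul]
    rw [e]
    exact (M.P t S).mul_mem ((M.P t S).pow_mem h3 n) (M.le_P t S hn)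
  exact (lo_mono h1).trans (lo_lo h.2).le

lemma PM.P_eq {t t' : T} {S : Subring K} (h : M.On t S) (h' : M.On t' S) :
    M.P t S = M.P t' S := le_antisymm (M.P_le_P h' h) (M.P_le_P h h')

lemma PM.x_ratio {t t' : T} {S : Subring K} (h : M.On t S) (h' : M.On t' S) (i : I) :
    M.x t' i / M.x t i ∈ S := by
  obtain ⟨n, hn⟩ := M.gi t t' i
  have h2 := M.ratio_unit h h'
  have h0 : M.H t' / M.H t ≠ 0 := div_ne_zero (M.H0 _) (M.H0 _)
  have e : M.x t' i / M.x t i = (M.H t' / M.H t)⁻¹ ^ n *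
      ((M.H t' / M.H t) ^ n * (M.x t' i / M.x t i)) := by
    rw [← mul_assoc, ← mul_pow, inv_mul_cancel₀ h0, one_pow, one_mul]
  rw [e]
  exact S.mul_mem (S.pow_mem h2.2 n) (h.2 hn)

lemma PM.x_nonunit {t t' : T} {S : Subring K} (h : M.On t S) (h' : M.On t' S) {i : I}
    (hi : (M.x t i)⁻¹ ∉ S) : (M.x t' i)⁻¹ ∉ S := by
  intro h1
  apply hi
  have h0 := M.x0 t i
  have h0' := M.x0 t' i
  have e : (M.x t i)⁻¹ = M.x t' i / M.x t i * (M.x t' i)⁻¹ := by field_simp
  rw [e]
  exact S.mul_mem (M.x_ratio h h' i) h1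

end pm

section refine

variable {k K : Type u} [CommRing k] [Field K] [Algebra k K] {T T' I Γ : Type} [Fintype Γ]
  [Fintype I] {M : PM k K T I} {M' : PM k K T' I} {π : T' → T} {Δ : K} {G : Γ → K} {b : I → Prop}

lemma Rf.on (h : Rf M M' π) {p : T'} {S : Subring K} (hS : M'.On p S) : M.On (π p) S :=
  ⟨hS.1, fun a ha => hS.2 (h.le p ha)⟩

lemma Rf.bad (h : Rf M M' π) : M'.BadSet ⊆ M.BadSet := by
  rintro P ⟨p, S, hS, rfl, hP⟩
  refine ⟨π p, S, h.on hS, h.lo p S hS, ?_⟩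
  rw [← h.lo p S hS]
  have e : M'.x p = M.x (π p) := funext (h.x p)
  rwa [e] at hP

theorem St0.refine (hs : St0 Δ G M b) (h : Rf M M' π) : St0 Δ G M' b where
  reg := by
    intro p
    have h1 := (hs.reg (π p)).of_le (A' := (M'.A p).toSubring) (fun a ha => h.le p ha)
      (fun W hW hAW => by
        have h2 := h.lo p W ⟨hW, hAW⟩
        intro a ha
        have h3 : a ∈ M'.P p W := M'.le_P p W ha
        rw [h2] at h3
        exact h3)
    have e : (fun i : {i // b i} => M'.x p i) = fun i : {i // b i} => M.x (π p) i :=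
      funext fun i => h.x p i
    rw [e]
    exact h1
  hv := by
    intro p S hS i j hi hj h1
    rw [h.x, h.x, h.lo p S hS]
    rw [h.x] at h1
    exact hs.hv _ S (h.on hS) i j hi hj h1
  out := by
    intro p S hS h1
    rw [h.lo p S hS, show M'.x p = M.x (π p) from funext (h.x p)]
    exact hs.out _ S (h.on hS) h1
  dv := by
    intro p i hi
    rw [h.x]
    exact h.le p (hs.dv _ i hi)
  cov := by
    intro p S hS h1
    obtain ⟨i, hi, h2⟩ := hs.cov _ S (h.on hS) h1
    exact ⟨i, hi, by rw [h.x]; exact h2⟩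
  mon := by
    intro p j hj
    obtain ⟨e, c, h1, h2⟩ := hs.mon (π p) j hj
    refine ⟨e, c, h1, ?_⟩
    rw [h.x, h2]
    congr 1
    exact Finset.prod_congr rfl fun i _ => by rw [h.x]
  two := by
    intro p S hS h1 h2
    rw [h.lo p S hS]
    obtain ⟨j, hj, h3⟩ := h2
    exact hs.two _ S (h.on hS) h1 ⟨j, hj, by rw [← h.x]; exact h3⟩

theorem St.refine (hs : St Δ G M b) (h : Rf M M' π) : St Δ G M' b :=
  ⟨hs.st0.refine h, fun P hP => hs.acc P (h.bad hP)⟩

end refine

section par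

variable {E : Type u} [Field E] {V V' : ValuationSubring E} {P : Subring E} {x y : E}

/-- Change of the valuation ring. -/
theorem par_chg (h : Par V P x y) (hle : ∀ a ∈ P, a ∈ V')
    (hd : ∀ a ∈ P, V.valuation a < 1 → V'.valuation a < 1) : Par V' P x y where
  le := hle
  inv := by
    intro a ha h1
    refine h.inv a ha ((lt_or_one (h.le a ha)).resolve_left fun h2 => ?_)
    have := hd a ha h2
    rw [h1] at this
    exact lt_irrefl _ this
  noeth := h.noeth
  xP := h.xP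
  yP := h.yP
  xV := hd _ h.xP h.xV
  yV := hd _ h.yP h.yV
  x0 := h.x0
  gen := by
    intro a ha h1
    refine h.gen a ha ((lt_or_one (h.le a ha)).resolve_right fun h2 => ?_)
    have h3 := hle _ (h.inv a ha h2)
    have h4 := one_of_inv (hle a ha) (ne_zero_of_one h2) h3
    rw [h4] at h1
    exact lt_irrefl _ h1
  nil := h.nil

/-- Elements outside of the square of the maximal ideal. -/
theorem par_exch [IsLocalRing P] (h : Par V P x y) {u : E} (huP : u ∈ P)
    (hu : V.valuation u < 1) (hu2 : (⟨u, huP⟩ : P) ∉ maximalIdeal P ^ 2) :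
    ∃ z, Par V P u z := by
  obtain ⟨α, hα, β, hβ, e⟩ := h.gen u huP hu
  rcases lt_or_one (h.le α hα) with h1 | h1
  · rcases lt_or_one (h.le β hβ) with h2 | h2
    · exfalso
      apply hu2
      have hm : ∀ a : P, V.valuation (a : E) < 1 → a ∈ maximalIdeal P := by
        intro a ha
        rw [mem_maximalIdeal, mem_nonunits_iff, h.isUnit_iff]
        intro h3
        rw [h3] at ha
        exact lt_irrefl _ ha
      have e2 : (⟨u, huP⟩ : P) = ⟨α, hα⟩ * ⟨x, h.xP⟩ + ⟨β, hβ⟩ * ⟨y, h.yP⟩ := Subtype.ext e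
      rw [e2, pow_two]
      exact Ideal.add_mem _ (Ideal.mul_mem_mul (hm _ h1) (hm _ h.xV))
        (Ideal.mul_mem_mul (hm _ h2) (hm _ h.yV))
    · refine ⟨x, ?_⟩
      have h3 := h.change hα hβ h2
      rw [← e] at h3
      exact h3.symm
  · refine ⟨y, ?_⟩
    have h3 := h.symm.change hβ hα h1
    have e2 : β * y + α * x = u := by rw [e]; ring
    rw [e2] at h3
    exact h3.symm

/-- Two independent elements. -/
theorem par_exch2 [IsLocalRing P] (h : Par V P x y) {u v : E} (huP : u ∈ P)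
    (hvP : v ∈ P) (hu : V.valuation u < 1) (hv : V.valuation v < 1)
    (hI : ∀ a b : P, a * ⟨u, huP⟩ + b * ⟨v, hvP⟩ ∈ maximalIdeal P ^ 2 →
      a ∈ maximalIdeal P ∧ b ∈ maximalIdeal P) : Par V P u v := by
  have hone : (1 : P) ∉ maximalIdeal P := fun h1 =>
    (Ideal.ne_top_iff_one _).1 (maximalIdeal.isMaximal P).ne_top h1
  have hu2 : (⟨u, huP⟩ : P) ∉ maximalIdeal P ^ 2 := by
    intro h1
    refine hone (hI 1 0 ?_).1
    rw [one_mul, zero_mul, add_zero]
    exact h1
  obtain ⟨z, hz⟩ := par_exch h huP hu hu2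
  obtain ⟨α, hα, β, hβ, e⟩ := hz.gen v hvP hv
  rcases lt_or_one (h.le β hβ) with h1 | h1
  · exfalso
    refine hone (hI (-⟨α, hα⟩) 1 ?_).2
    have hm : ∀ a : P, V.valuation (a : E) < 1 → a ∈ maximalIdeal P := by
      intro a ha
      rw [mem_maximalIdeal, mem_nonunits_iff, h.isUnit_iff]
      intro h3
      rw [h3] at ha
      exact lt_irrefl _ ha
    have e2 : -(⟨α, hα⟩ : P) * ⟨u, huP⟩ + 1 * ⟨v, hvP⟩ = ⟨β, hβ⟩ * ⟨z, hz.yP⟩ := by
      apply Subtype.ext
      change -α * u + 1 * v = β * z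
      linear_combination e
    rw [e2, pow_two]
    exact Ideal.mul_mem_mul (hm _ h1) (hm _ hz.yV)
  · rw [e]
    exact hz.change hα hβ h1

end par

end Pool.Agent.N808.AS
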