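import Pool.Agent.N808.AS.Stm2
import Pool.Agent.N808.AS.StA
import Pool.Agent.N98.RM.P1

/-!
Log resolution on arithmetic surfaces: the initial state, the base.
-/

set_option autoImplicit false
set_option linter.unusedVariables false
set_option linter.unusedSectionVars false

universe u

open Pool.Agent.W418.LU2 Pool.Agent.N98.T2 Pool.Agent.N98.RM Polynomial IsLocalRing

namespace Pool.Agent.N808.AS

section base

variable {O F : Type u} [CommRing O] [Field F] [Algebra O F] {T0 : Type} {n : ℕ}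
  (M0 : LM (⊥ : Subalgebra O F) ⊤ T0 (Fin n))

/-- The components are prime divisors which generate the ideals of their points. -/
def Prm : Prop := ∀ t i S, Loc S → (M0.A t).toSubring ≤ S → (M0.x t i)⁻¹ ∉ S →
  ∀ a ∈ M0.A t, a⁻¹ ∉ S → a / M0.x t i ∈ M0.A t

variable {M0}

/-- The components are disjoint. -/
lemma Prm.other (h : Prm M0) {t : T0} {i i' : Fin n} {S : Subring F} (hS : Loc S)
    (hA : (M0.A t).toSubring ≤ S) (hi : (M0.x t i)⁻¹ ∉ S) (hne : i' ≠ i) :
    (M0.x t i')⁻¹ ∈ S := by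
  by_contra hi'
  have h1 := h t i S hS hA hi _ (M0.xA t i') hi'
  have h2 := (M0.rg t).reg S hS hA (Fin 2) ![i, i'] (by
    intro a b hab
    fin_cases a <;> fin_cases b
    · rfl
    · exact absurd hab (Ne.symm hne)
    · exact absurd hab hne
    · rfl)
  have hreg := h2.reg
  have hone : (1 : lo S (M0.A t).toSubring) ∉ maximalIdeal (lo S (M0.A t).toSubring) := fun h1 =>
    (Ideal.ne_top_iff_one _).1 (maximalIdeal.isMaximal _).ne_top h1
  have hm : ∀ l, (M0.x t (![i, i'] l))⁻¹ ∉ S := by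
    intro l
    fin_cases l
    · exact hi
    · exact hi'
  have h3 := h2.ind ![⟨-(M0.x t i' / M0.x t i), le_lo _ _ ((M0.A t).neg_mem h1)⟩, 1] (by
    intro l hl
    exfalso
    apply hl
    rw [h2.mem_max]
    rintro ⟨-, h4⟩
    exact hm l h4) (by
    rw [Fin.sum_univ_two]
    have e : (![⟨-(M0.x t i' / M0.x t i), le_lo _ _ ((M0.A t).neg_mem h1)⟩, 1] :
        Fin 2 → lo S (M0.A t).toSubring) 0 * ⟨M0.x t (![i, i'] 0), h2.mem 0⟩ +
        (![⟨-(M0.x t i' / M0.x t i), le_lo _ _ ((M0.A t).neg_mem h1)⟩, 1] :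
        Fin 2 → lo S (M0.A t).toSubring) 1 * ⟨M0.x t (![i, i'] 1), h2.mem 1⟩ = 0 := by
      apply Subtype.ext
      change -(M0.x t i' / M0.x t i) * M0.x t i + 1 * M0.x t i' = 0
      have := M0.x0 t i
      field_simp
      ring
    have e3 : ∀ z : lo S (M0.A t).toSubring, z = 0 →
        z ∈ maximalIdeal (lo S (M0.A t).toSubring) ^ 2 := by
      rintro z rfl
      exact Ideal.zero_mem _
    exact e3 _ e) 1
  exact hone h3

/-- The ideal of a component is maximal. -/
lemma Prm.maxl (h : Prm M0) {t : T0} {i : Fin n} {a : F} (ha : a ∈ M0.A t)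
    (ha' : a / M0.x t i ∉ M0.A t) : ∃ c ∈ M0.A t, ∃ d ∈ M0.A t, a * c + M0.x t i * d = 1 := by
  by_contra hcon
  let a' : (M0.A t).toSubring := ⟨a, ha⟩
  let x' : (M0.A t).toSubring := ⟨M0.x t i, M0.xA t i⟩
  have h1 : Ideal.span {a', x'} ≠ ⊤ := by
    intro h2
    rw [Ideal.eq_top_iff_one, Ideal.mem_span_pair] at h2
    obtain ⟨c, d, h3⟩ := h2
    have h4 : (c : F) * a + d * M0.x t i = 1 := congrArg Subtype.val h3
    exact hcon ⟨c, c.2, d, d.2, by linear_combination h4⟩
  obtain ⟨P, hP, hle⟩ := Ideal.exists_le_maximal _ h1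
  have hPp : P.IsPrime := hP.isPrime
  have h2 : a' ∈ P := hle (Ideal.subset_span (Or.inl rfl))
  have h3 : x' ∈ P := hle (Ideal.subset_span (Or.inr rfl))
  have h4 : (M0.x t i)⁻¹ ∉ (LocalSubring.ofPrime (M0.A t).toSubring P).toSubring :=
    not_inv_mem_ofPrime h3 (M0.x0 t i)
  have ha0 : a ≠ 0 := by
    rintro rfl
    apply ha'
    rw [zero_div]
    exact (M0.A t).zero_mem
  have h5 : a⁻¹ ∉ (LocalSubring.ofPrime (M0.A t).toSubring P).toSubring :=
    not_inv_mem_ofPrime h2 ha0
  exact ha' (h t i _ (loc_ofPrime _ P) (LocalSubring.le_ofPrime _ P) h4 a ha h5)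

/-- The constants making a family of coefficients primitive along the boundary. -/
lemma exists_gam (h : Prm M0) {L : Type} (s : Finset L) (hs : s.Nonempty) (c : L → F)
    (hc : ∀ l ∈ s, IsB M0 (c l)) : ∃ γ : Fin n → ℤ,
    (∀ t, ∀ l ∈ s, (∏ i, M0.x t i ^ (-γ i)) * c l ∈ M0.A t) ∧
    ∀ t i S, Loc S → (M0.A t).toSubring ≤ S → (M0.x t i)⁻¹ ∉ S →
      ∃ l ∈ s, ((∏ i, M0.x t i ^ (-γ i)) * c l)⁻¹ ∈ S := by
  classical
  have hc' : ∀ l, ∃ γ : Fin n → ℤ, l ∈ s → ∀ t, IsM (M0.A t) (M0.x t) (c l) γ := by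
    intro l
    by_cases hl : l ∈ s
    · obtain ⟨γ, hγ⟩ := hc l hl
      exact ⟨γ, fun _ => hγ⟩
    · exact ⟨0, fun h => absurd h hl⟩
  choose g hg using hc'
  let γ : Fin n → ℤ := fun i => s.inf' hs fun l => g l i
  have hle : ∀ l ∈ s, ∀ i, γ i ≤ g l i := fun l hl i => Finset.inf'_le _ hl
  have key : ∀ t, ∀ l ∈ s, ∃ w, w ≠ 0 ∧ w ∈ M0.A t ∧ w⁻¹ ∈ M0.A t ∧
      (∏ i, M0.x t i ^ (-γ i)) * c l = w * ∏ i, M0.x t i ^ (g l i - γ i).toNat := by
    intro t l hl
    obtain ⟨w, hw0, hw, hw', e⟩ := hg l hl t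
    refine ⟨w, hw0, hw, hw', ?_⟩
    rw [e, mul_left_comm, ← Finset.prod_mul_distrib]
    congr 1
    refine Finset.prod_congr rfl fun i _ => ?_
    have h1 := hle l hl i
    have h2 : (((g l i - γ i).toNat : ℕ) : ℤ) = g l i - γ i := Int.toNat_of_nonneg (by omega)
    rw [← zpow_natCast, h2, ← zpow_add₀ (M0.x0 t i)]
    congr 1
    ring
  refine ⟨γ, fun t l hl => ?_, fun t i S hS hA hi => ?_⟩
  · obtain ⟨w, -, hw, -, e⟩ := key t l hl
    rw [e]
    exact (M0.A t).mul_mem hw ((M0.A t).prod_mem fun i _ => (M0.A t).pow_mem (M0.xA t i) _)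
  · obtain ⟨l, hl, e1⟩ := Finset.exists_mem_eq_inf' hs fun l => g l i
    obtain ⟨w, hw0, hw, hw', e⟩ := key t l hl
    refine ⟨l, hl, ?_⟩
    rw [e, mul_inv, ← Finset.prod_inv_distrib]
    refine S.mul_mem (hA hw') (S.prod_mem fun i' _ => ?_)
    by_cases hii : i' = i
    · have h3 : g l i - γ i = 0 := by
        change γ i = g l i at e1
        omega
      rw [hii, h3, Int.toNat_zero, pow_zero, inv_one]
      exact S.one_mem
    · rw [← inv_pow]
      exact S.pow_mem (h.other hS hA hi hii) _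

end base

section gauss

variable {O F K : Type u} [CommRing O] [Field F] [Field K] [Algebra O F] [Algebra O K]
  [Algebra F K] [IsScalarTower O F K]

/-- Gauss' lemma. -/
theorem gauss {w : K} (hw : Transcendental F w) {R : Subalgebra O F} {S : Subring K}
    (hS : Loc S) (hRS : (Cw R w : Subalgebra O K).toSubring ≤ S) {π : F} (hπ : π ∈ R) (hπ0 : π ≠ 0)
    (hπS : (algebraMap F K π)⁻¹ ∉ S)
    (hp : ∀ a ∈ R, (algebraMap F K a)⁻¹ ∉ S → a / π ∈ R) {f : F[X]} (hf : ∀ l, f.coeff l ∈ R)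
    {l0 : ℕ} (hl0 : (algebraMap F K (f.coeff l0))⁻¹ ∈ S) (hl0' : f.coeff l0 ≠ 0) :
    aeval w f / algebraMap F K π ∉ lo S (Cw R w : Subalgebra O K).toSubring := by
  have hπK : algebraMap F K π ≠ 0 := (_root_.map_ne_zero _).2 hπ0
  have hcS : ∀ a ∈ R, algebraMap F K a ∈ S := fun a ha => hRS (Cw_const R w ha)
  -- nonunits
  have hnu : ∀ a ∈ R, a / π ∈ R → (algebraMap F K a)⁻¹ ∈ S → a = 0 := by
    intro a ha h1 h2
    by_contra h0
    apply hπS
    have h3 : algebraMap F K (a / π) ≠ 0 := (_root_.map_ne_zero _).2 (div_ne_zero h0 hπ0)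
    have e : algebraMap F K a = algebraMap F K (a / π) * algebraMap F K π := by
      rw [← map_mul, div_mul_cancel₀ _ hπ0]
    rw [e] at h2
    exact inv_of_mul h3 hπK (hcS _ h1) h2
  -- the polynomials over R
  have hlift : ∀ g : F[X], (∀ l, g.coeff l ∈ R) → ∃ g' : R[X], g'.map (algebraMap R F) = g := by
    intro g hg
    have h1 : g ∈ Polynomial.lifts (algebraMap R F) := by
      rw [Polynomial.lifts_iff_coeff_lifts]
      intro l
      exact ⟨⟨_, hg l⟩, rfl⟩
    exact (Polynomial.mem_lifts g).1 h1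
  have hinjR : Function.Injective (algebraMap R F) := Subtype.val_injective
  have hprime : Prime (C (⟨π, hπ⟩ : R) : R[X]) := by
    rw [Polynomial.prime_C_iff]
    refine ⟨fun h0 => hπ0 (congrArg Subtype.val h0), fun hu => ?_, ?_⟩
    · obtain ⟨c, hc⟩ := isUnit_iff_exists_inv.1 hu
      have h1 : π * c = 1 := congrArg Subtype.val hc
      apply hπS
      rw [← map_inv₀, ← eq_inv_of_mul_eq_one_right h1]
      exact hcS _ c.2
    · rintro a b ⟨c, hc⟩
      have h1 : (a : F) * b = π * c := congrArg Subtype.val hc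
      by_cases ha : (algebraMap F K (a : F))⁻¹ ∈ S
      · by_cases hb : (algebraMap F K (b : F))⁻¹ ∈ S
        · have h2 : (a : F) * b = 0 := by
            refine hnu _ (R.mul_mem a.2 b.2) ?_ ?_
            · rw [h1, mul_div_cancel_left₀ _ hπ0]
              exact c.2
            · rw [map_mul, mul_inv]
              exact S.mul_mem ha hb
          rcases mul_eq_zero.1 h2 with h3 | h3
          · left
            have : a = 0 := Subtype.ext h3
            rw [this]
            exact dvd_zero _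
          · right
            have : b = 0 := Subtype.ext h3
            rw [this]
            exact dvd_zero _
        · right
          exact ⟨⟨_, hp _ b.2 hb⟩, Subtype.ext (by
            change (b : F) = π * (b / π)
            field_simp)⟩
      · left
        exact ⟨⟨_, hp _ a.2 ha⟩, Subtype.ext (by
          change (a : F) = π * (a / π)
          field_simp)⟩
  -- divisibility of the coefficients
  have hcoef : ∀ g' : R[X], C (⟨π, hπ⟩ : R) ∣ g' → ∀ l, ((g'.coeff l : R) : F) / π ∈ R := by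
    rintro g' ⟨g1, rfl⟩ l
    rw [coeff_C_mul]
    change (π * (g1.coeff l : R)) / π ∈ R
    rw [mul_div_cancel_left₀ _ hπ0]
    exact (g1.coeff l).2
  rintro ⟨a, ha, d, hd, hd0, hdS, e⟩
  obtain ⟨g, hg, rfl⟩ := (mem_Cw R w).1 ha
  obtain ⟨k, hk, rfl⟩ := (mem_Cw R w).1 hd
  have e1 : f * k = C π * g := by
    have h1 : aeval w (f * k) = aeval w (C π * g) := by
      rw [map_mul, map_mul, aeval_C]
      have h2 : aeval w f = aeval w g * (aeval w k)⁻¹ * algebraMap F K π := by
        rw [← e]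
        field_simp
      rw [h2]
      field_simp
    exact transcendental_iff_injective.1 hw h1
  obtain ⟨f', hf'⟩ := hlift f hf
  obtain ⟨g', hg'⟩ := hlift g hg
  obtain ⟨k', hk'⟩ := hlift k hk
  have e2 : f' * k' = C (⟨π, hπ⟩ : R) * g' := by
    apply Polynomial.map_injective _ hinjR
    rw [Polynomial.map_mul, Polynomial.map_mul, hf', hg', hk', map_C]
    exact e1
  rcases hprime.dvd_or_dvd (Dvd.intro _ e2.symm) with h1 | h1
  · have h2 := hcoef f' h1 l0
    have h3 : ((f'.coeff l0 : R) : F) = f.coeff l0 := by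
      rw [← hf', coeff_map]
      rfl
    rw [h3] at h2
    exact hl0' (hnu _ (hf l0) h2 hl0)
  · -- k is a nonunit
    obtain ⟨k1, hk1⟩ := h1
    have h4 : aeval w k = algebraMap F K π * aeval w (k1.map (algebraMap R F)) := by
      rw [← hk', hk1, Polynomial.map_mul, map_C, map_mul, aeval_C]
      rfl
    apply hπS
    rw [h4, mul_comm] at hdS
    rw [h4] at hd0
    refine inv_of_mul (right_ne_zero_of_mul hd0) hπK ?_ hdS
    apply hRS
    refine (mem_Cw R w).2 ⟨_, fun l => ?_, rfl⟩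
    rw [coeff_map]
    exact (k1.coeff l).2

end gauss

end Pool.Agent.N808.AS
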