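import Pool.Agent.N808.AS.IniA

/-!
Log resolution on arithmetic surfaces: the initial state.
-/

set_option autoImplicit false
set_option linter.unusedVariables false
set_option linter.unusedSectionVars false

universe u

open Pool.Agent.W418.LU2 Pool.Agent.N98.T2 Pool.Agent.N98.RM Polynomial IsLocalRing

namespace Pool.Agent.N808.AS

/-- The polynomials on the two charts of the projective line. -/
noncomputable def pj {F : Type u} [Field F] (q : F[X]) (b : Bool) : F[X] :=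
  if b then q else q.reverse

section pj

variable {F K : Type u} [Field F] [Field K] [Algebra F K]

lemma pj_coeff (q : F[X]) (b : Bool) (l : ℕ) : ∃ l', (pj q b).coeff l = q.coeff l' := by
  cases b
  · exact ⟨_, coeff_reverse q l⟩
  · exact ⟨l, rfl⟩

lemma pj_coeff' (q : F[X]) (b : Bool) (l : ℕ) (hl : q.coeff l ≠ 0) :
    ∃ l', (pj q b).coeff l' = q.coeff l := by
  cases b
  · refine ⟨q.natDegree - l, ?_⟩
    have h1 := le_natDegree_of_ne_zero hl
    change q.reverse.coeff _ = _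
    rw [coeff_reverse, revAt_le (Nat.sub_le _ _), Nat.sub_sub_self h1]
  · exact ⟨l, rfl⟩

lemma pj_aeval {z : K} (hz : z ≠ 0) (q : F[X]) (b : Bool) :
    aeval (zz z b) (pj q b) = aeval z q * (if b = false then z⁻¹ else 1) ^ q.natDegree := by
  cases b
  · have hu : Invertible z := invertibleOfNonzero hz
    have h1 := eval₂_reverse_mul_pow (algebraMap F K) z q
    rw [invOf_eq_inv] at h1
    change eval₂ (algebraMap F K) z⁻¹ q.reverse = eval₂ (algebraMap F K) z q * _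
    rw [if_pos rfl, ← h1, mul_assoc, ← mul_pow, mul_inv_cancel₀ hz, one_pow, mul_one]
  · simp [pj, zz]

lemma pj_zero (q : F[X]) (hq : q.Monic) : (pj q false).coeff 0 = 1 := by
  change q.reverse.coeff 0 = 1
  rw [coeff_zero_reverse]
  exact hq

end pj

section ini

variable {O F K : Type u} [CommRing O] [Field F] [Field K] [Algebra O F] [Algebra O K]
  [Algebra F K] [IsScalarTower O F K] {T0 : Type} {n : ℕ} {J : Type} [Fintype J]

/-- The data of the initial state. -/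
structure Ini (z : K) (M0 : LM (⊥ : Subalgebra O F) ⊤ T0 (Fin n)) (q : J → F[X]) (Δ : O)
    (γ : J → Fin n → ℤ) (M : PM O K (T0 × Bool) ((Fin n ⊕ Bool) ⊕ J)) : Prop where
  hz : Transcendental F z
  top : IntermediateField.adjoin F {z} = ⊤
  frc : Frc M0
  Δ0 : algebraMap O F Δ ≠ 0
  dv : ∀ t i, algebraMap O F Δ / M0.x t i ∈ M0.A t
  cov : ∀ t S, Loc S → (M0.A t).toSubring ≤ S → (algebraMap O F Δ)⁻¹ ∉ S →
    ∃ i, (M0.x t i)⁻¹ ∉ S
  pr : Prm M0
  qm : ∀ j, (q j).Monic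
  g1 : ∀ t j l, (∏ i, M0.x t i ^ (-γ j i)) * (q j).coeff l ∈ M0.A t
  g2 : ∀ j t i S, Loc S → (M0.A t).toSubring ≤ S → (M0.x t i)⁻¹ ∉ S →
    ∃ l, (q j).coeff l ≠ 0 ∧ ((∏ i, M0.x t i ^ (-γ j i)) * (q j).coeff l)⁻¹ ∈ S
  A : ∀ p, M.A p = Cw (M0.A p.1) (zz z p.2)
  xv : ∀ p i, M.x p (Sum.inl (Sum.inl i)) = algebraMap F K (M0.x p.1 i)
  xc : ∀ p c, M.x p (Sum.inl (Sum.inr c)) = if p.2 = c then zz z p.2 else 1
  xj : ∀ p j, M.x p (Sum.inr j) = aeval z (q j) *
    ((∏ i, algebraMap F K (M0.x p.1 i) ^ (-γ j i)) *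
      (if p.2 = false then z⁻¹ else 1) ^ (q j).natDegree)

/-- The boundary of the initial state: the vertical divisors. -/
def b0 (n : ℕ) (J : Type) : (Fin n ⊕ Bool) ⊕ J → Prop :=
  Sum.elim (Sum.elim (fun _ => True) (fun _ => False)) (fun _ => False)

/-- The functions. -/
noncomputable def G0 (z : K) (q : J → F[X]) (o : Option J) : K := o.elim z fun j => aeval z (q j)

namespace Ini

variable {z : K} {M0 : LM (⊥ : Subalgebra O F) ⊤ T0 (Fin n)} {q : J → F[X]} {Δ : O}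
  {γ : J → Fin n → ℤ} {M : PM O K (T0 × Bool) ((Fin n ⊕ Bool) ⊕ J)} (h : Ini z M0 q Δ γ M)

include h

lemma z0 : z ≠ 0 := by
  rintro rfl
  exact h.hz isAlgebraic_zero

lemma hw (b : Bool) : Transcendental F (zz z b) := by
  cases b
  · exact fun h1 => h.hz (by simpa [zz] using h1.inv)
  · exact h.hz

lemma comap {p : T0 × Bool} {S : Subring K} (hS : M.On p S) :
    Loc (S.comap (algebraMap F K)) ∧ (M0.A p.1).toSubring ≤ S.comap (algebraMap F K) := by
  refine ⟨loc_comap _ hS.1, fun a ha => ?_⟩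
  change algebraMap F K a ∈ S
  apply hS.2
  rw [h.A p]
  exact Cw_const _ _ ha

lemma ΔK : algebraMap O K Δ = algebraMap F K (algebraMap O F Δ) :=
  IsScalarTower.algebraMap_apply _ _ _ _

/-- The equations of the curves. -/
lemma curve (p : T0 × Bool) (j : (Fin n ⊕ Bool) ⊕ J) (hj : ¬ b0 n J j) :
    ∃ f : F[X], (∀ l, f.coeff l ∈ M0.A p.1) ∧ aeval (zz z p.2) f = M.x p j ∧
    ∀ S i, M.On p S → (M.x p (Sum.inl (Sum.inl i)))⁻¹ ∉ S →
      ∃ l, f.coeff l ≠ 0 ∧ (algebraMap F K (f.coeff l))⁻¹ ∈ S := by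
  rcases j with (i | c) | j
  · exact absurd trivial hj
  · by_cases hc : p.2 = c
    · refine ⟨X, fun l => ?_, ?_, fun S i hS hi => ⟨1, ?_, ?_⟩⟩
      · rw [coeff_X]
        split_ifs
        · exact (M0.A p.1).one_mem
        · exact (M0.A p.1).zero_mem
      · rw [h.xc, if_pos hc, aeval_X]
      · rw [coeff_X_one]
        exact one_ne_zero
      · rw [coeff_X_one, map_one, inv_one]
        exact S.one_mem
    · refine ⟨1, fun l => ?_, ?_, fun S i hS hi => ⟨0, ?_, ?_⟩⟩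
      · rw [coeff_one]
        split_ifs
        · exact (M0.A p.1).one_mem
        · exact (M0.A p.1).zero_mem
      · rw [h.xc, if_neg hc, map_one]
      · rw [coeff_one_zero]
        exact one_ne_zero
      · rw [coeff_one_zero, map_one, inv_one]
        exact S.one_mem
  · refine ⟨C (∏ i, M0.x p.1 i ^ (-γ j i)) * pj (q j) p.2, fun l => ?_, ?_,
      fun S i hS hi => ?_⟩
    · obtain ⟨l', hl'⟩ := pj_coeff (q j) p.2 l
      rw [coeff_C_mul, hl']
      exact h.g1 _ _ _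
    · rw [map_mul, aeval_C, pj_aeval h.z0, h.xj, map_prod]
      simp only [map_zpow₀]
      ring
    · obtain ⟨h1, h2⟩ := h.comap hS
      obtain ⟨l, hl, hl'⟩ := h.g2 j p.1 i _ h1 h2 (by
        intro h3
        apply hi
        rw [h.xv, ← map_inv₀]
        exact h3)
      obtain ⟨l', e⟩ := pj_coeff' (q j) p.2 l hl
      refine ⟨l', ?_, ?_⟩
      · rw [coeff_C_mul, e]
        refine mul_ne_zero ?_ hl
        exact Finset.prod_ne_zero_iff.2 fun i _ => zpow_ne_zero _ (M0.x0 _ _)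
      · rw [coeff_C_mul, e, ← map_inv₀]
        exact hl'

lemma hprime {p : T0 × Bool} {S : Subring K} (hS : M.On p S) {i : Fin n}
    (hi : (M.x p (Sum.inl (Sum.inl i)))⁻¹ ∉ S) : ∀ a ∈ M0.A p.1, (algebraMap F K a)⁻¹ ∉ S →
      a / M0.x p.1 i ∈ M0.A p.1 := by
  intro a ha ha'
  obtain ⟨h1, h2⟩ := h.comap hS
  refine h.pr p.1 i _ h1 h2 ?_ a ha ?_
  · intro h3
    apply hi
    rw [h.xv, ← map_inv₀]
    exact h3
  · intro h3
    apply ha'
    rw [← map_inv₀]
    exact h3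

lemma On' {p : T0 × Bool} {S : Subring K} (hS : M.On p S) :
    (Cw (M0.A p.1) (zz z p.2) : Subalgebra O K).toSubring ≤ S := by
  rw [← h.A p]
  exact hS.2

lemma P' (p : T0 × Bool) (S : Subring K) :
    M.P p S = lo S (Cw (M0.A p.1) (zz z p.2) : Subalgebra O K).toSubring := by
  unfold PM.P
  rw [h.A p]

lemma hv {p : T0 × Bool} {S : Subring K} (hS : M.On p S) (i j : (Fin n ⊕ Bool) ⊕ J)
    (hi : b0 n J i) (hj : ¬ b0 n J j) (hiS : (M.x p i)⁻¹ ∉ S) :
    M.x p j / M.x p i ∉ M.P p S := by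
  rcases i with (i | c) | i
  · obtain ⟨f, hf, e, h1⟩ := h.curve p j hj
    obtain ⟨l, hl, hl'⟩ := h1 S i hS hiS
    rw [← e, h.P']
    rw [h.xv]
    rw [h.xv] at hiS
    refine gauss (h.hw p.2) hS.1 (h.On' hS) (M0.xA p.1 i) (M0.x0 p.1 i) hiS
      (h.hprime hS (by rw [h.xv]; exact hiS)) hf hl' hl
  · exact absurd hi (fun h => h)
  · exact absurd hi (fun h => h)

lemma two' [IsNoetherianRing O] (hTWO : S_two.{u}) {p : T0 × Bool} {S : Subring K}
    (hS : M.On p S) (hΔ : (algebraMap O K Δ)⁻¹ ∉ S) {j : (Fin n ⊕ Bool) ⊕ J}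
    (hj : ¬ b0 n J j) (hjS : (M.x p j)⁻¹ ∉ S) :
    ∃ (i : Fin n) (V : ValuationSubring K) (y : K),
      Par V (lo S (Cw (M0.A p.1) (zz z p.2) : Subalgebra O K).toSubring)
        (algebraMap F K (M0.x p.1 i)) y := by
  obtain ⟨h1, h2⟩ := h.comap hS
  obtain ⟨i, hi⟩ := h.cov p.1 _ h1 h2 (by
    intro h3
    apply hΔ
    rw [h.ΔK, ← map_inv₀]
    exact h3)
  have hi' : (M.x p (Sum.inl (Sum.inl i)))⁻¹ ∉ S := by
    intro h3
    apply hi
    change algebraMap F K (M0.x p.1 i)⁻¹ ∈ S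
    rw [map_inv₀, ← h.xv]
    exact h3
  obtain ⟨f, hf, e, h4⟩ := h.curve p j hj
  obtain ⟨l, hl, hl'⟩ := h4 S i hS hi'
  have hπS : (algebraMap F K (M0.x p.1 i))⁻¹ ∉ S := by rw [← h.xv]; exact hi'
  have hN : IsNoetherianRing (M0.A p.1) := by
    have h1 := M0.ft p.1
    exact Algebra.FiniteType.isNoetherianRing O (M0.A p.1)
  refine ⟨i, hTWO O F K (zz z p.2) (h.hw p.2) (M0.A p.1) hN S hS.1 (h.On' hS) _ (M0.xA p.1 i)
    (M0.x0 p.1 i) hπS (h.hprime hS hi') (fun a ha ha' => h.pr.maxl ha ha') f hf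
    ⟨l, fun h5 => ?_⟩ (by rw [e]; exact hjS)⟩
  apply hπS
  have h0 : algebraMap F K (f.coeff l / M0.x p.1 i) ≠ 0 :=
    (_root_.map_ne_zero _).2 (div_ne_zero hl (M0.x0 _ _))
  have e2 : algebraMap F K (f.coeff l) =
      algebraMap F K (f.coeff l / M0.x p.1 i) * algebraMap F K (M0.x p.1 i) := by
    rw [← map_mul, div_mul_cancel₀ _ (M0.x0 _ _)]
  rw [e2] at hl'
  exact inv_of_mul h0 ((_root_.map_ne_zero _).2 (M0.x0 _ _))
    (h.On' hS (Cw_const _ _ h5)) hl'

lemma cov' {p : T0 × Bool} {S : Subring K} (hS : M.On p S) (hΔ : (algebraMap O K Δ)⁻¹ ∉ S) :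
    ∃ i, b0 n J i ∧ (M.x p i)⁻¹ ∉ S := by
  obtain ⟨h1, h2⟩ := h.comap hS
  obtain ⟨i, hi⟩ := h.cov p.1 _ h1 h2 (by
    intro h3
    apply hΔ
    rw [h.ΔK, ← map_inv₀]
    exact h3)
  refine ⟨Sum.inl (Sum.inl i), trivial, fun h3 => hi ?_⟩
  change algebraMap F K (M0.x p.1 i)⁻¹ ∈ S
  rw [map_inv₀, ← h.xv]
  exact h3

lemma dv' (p : T0 × Bool) (i : (Fin n ⊕ Bool) ⊕ J) (hi : b0 n J i) :
    algebraMap O K Δ / M.x p i ∈ M.A p := by
  rcases i with (i | c) | i
  · rw [h.A, h.xv, h.ΔK, ← map_div₀]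
    exact Cw_const _ _ (h.dv p.1 i)
  · exact absurd hi (fun h => h)
  · exact absurd hi (fun h => h)

lemma reg' (hr : ∀ p, RegC (M.A p).toSubring (fun i : Fin n ⊕ Bool => M.x p (Sum.inl i)))
    (p : T0 × Bool) :
    RegC (M.A p).toSubring (fun i : {i // b0 n J i} => M.x p i) := by
  have h1 := regC_comp (hr p) (J := {i // b0 n J i}) (fun i => match i with
    | ⟨Sum.inl i, _⟩ => i
    | ⟨Sum.inr j, hj⟩ => absurd hj (fun h => h)) (by
      rintro ⟨i | j, hi⟩ ⟨i' | j', hi'⟩ hii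
      · have hij : i = i' := hii
        subst hij
        rfl
      · exact absurd hi' (fun h => h)
      · exact absurd hi (fun h => h)
      · exact absurd hi (fun h => h))
  convert h1 using 1
  funext i
  rcases i with ⟨i | j, hi⟩
  · rfl
  · exact absurd hi (fun h => h)

lemma mon' (p : T0 × Bool) (j : (Fin n ⊕ Bool) ⊕ J) (hj : ¬ b0 n J j) :
    ∃ (e : Option J → ℤ) (c : (Fin n ⊕ Bool) ⊕ J → ℤ), (∀ i, ¬ b0 n J i → c i = 0) ∧
      M.x p j = (∏ a, G0 z q a ^ e a) * ∏ i, M.x p i ^ c i := by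
  classical
  have hz0 := h.z0
  rcases j with (i | c) | j
  · exact absurd trivial hj
  · by_cases hc : p.2 = c
    · refine ⟨fun o => o.elim (if p.2 then 1 else -1) 0, 0, fun _ _ => rfl, ?_⟩
      rw [h.xc, if_pos hc, Fintype.prod_option]
      simp only [Option.elim_none, Option.elim_some, Pi.zero_apply, zpow_zero,
        Finset.prod_const_one, mul_one, G0]
      cases hp : p.2 <;> simp [zz]
    · refine ⟨0, 0, fun _ _ => rfl, ?_⟩
      rw [h.xc, if_neg hc]
      simp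
  · refine ⟨fun o => o.elim (if p.2 = false then -((q j).natDegree : ℤ) else 0)
      (fun j' => if j' = j then 1 else 0),
      Sum.elim (Sum.elim (fun i => -γ j i) 0) 0, ?_, ?_⟩
    · rintro ((i | c) | j') hi
      · exact absurd trivial hi
      · rfl
      · rfl
    · rw [h.xj, Fintype.prod_option, Fintype.prod_sum_type, Fintype.prod_sum_type]
      simp only [Option.elim_none, Option.elim_some, Pi.zero_apply, zpow_zero,
        Finset.prod_const_one, mul_one, G0, Sum.elim_inl, Sum.elim_inr, h.xv]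
      have e1 : ∏ j', aeval z (q j') ^ (if j' = j then (1 : ℤ) else 0) = aeval z (q j) := by
        rw [Finset.prod_eq_single j]
        · rw [if_pos rfl, zpow_one]
        · intro j' _ hj'
          rw [if_neg hj', zpow_zero]
        · intro h1
          exact absurd (Finset.mem_univ _) h1
      rw [e1]
      cases hp : p.2
      · rw [if_pos rfl, if_pos rfl, zpow_neg, zpow_natCast, inv_pow]
        ring
      · rw [if_neg (by simp), if_neg (by simp), one_pow, zpow_zero]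
        ring

end Ini

end ini

end Pool.Agent.N808.AS
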