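import Pool.Agent.N808.AS.StA

/-!
Log resolution on arithmetic surfaces: choice of the parameters at a bad point.
-/

set_option autoImplicit false
set_option linter.unusedVariables false
set_option linter.unusedSectionVars false

universe u

open Pool.Agent.W418.LU2 Pool.Agent.N98.T2 Pool.Agent.N98.RM Polynomial IsLocalRing

namespace Pool.Agent.N808.AS

variable {E : Type u} [Field E] {V : ValuationSubring E}

/-- `V` dominates the local ring `lo S A`. -/
lemma val_of {A S : Subring E} (hS : A ≤ S) {x y : E}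
    (h : Par V (lo S A) x y) {a : E} (ha : a ∈ lo S A) : V.valuation a < 1 ↔ a⁻¹ ∉ S ∨ a = 0 := by
  constructor
  · intro h1
    by_cases h0 : a = 0
    · exact Or.inr h0
    · left
      intro h2
      have h3 := inv_mem_lo hS ha h0 h2
      have h4 := one_of_inv (h.le a ha) h0 (h.le _ h3)
      rw [h4] at h1
      exact lt_irrefl _ h1
  · rintro (h1 | h1)
    · refine (lt_or_one (h.le a ha)).resolve_right fun h2 => h1 ?_
      exact lo_le hS (h.inv a ha h2)
    · rw [h1, map_zero]
      exact zero_lt_one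

/-- Clearing the denominator of the second parameter. -/
lemma par_clear {A S : Subring E} (hS : A ≤ S) {x y : E} (h : Par V (lo S A) x y) :
    ∃ v ∈ A, Par V (lo S A) x v := by
  obtain ⟨a, ha, d, hd, hd0, hdS, e⟩ := h.yP
  refine ⟨a, ha, ?_⟩
  have h1 : V.valuation d = 1 := by
    refine (lt_or_one (h.le d (le_lo _ _ hd))).resolve_left fun h2 => ?_
    rcases (val_of hS h (le_lo _ _ hd)).1 h2 with h3 | h3
    · exact h3 hdS
    · exact hd0 h3
  have h2 := h.unit_right (le_lo _ _ hd) h1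
  have e2 : d * y = a := by
    rw [e]
    field_simp
  rwa [e2] at h2

/-- Parameters containing the given normal crossings divisor. -/
theorem exists_uv {A S : Subring E} (hS : A ≤ S) {x y : E} (h : Par V (lo S A) x y)
    {I : Type} (f : I → E) (hf : ∀ i, f i ∈ A) (B : I → Prop)
    (hB : ∀ (ι : Type) [Fintype ι] (g : ι → {i // B i}), Function.Injective g →
      RegP S (lo S A) (fun k => f (g k)))
    (i0 : I) (hi0 : B i0) (hi0' : (f i0)⁻¹ ∉ S) :
    ∃ v ∈ A, Par V (lo S A) (f i0) v ∧ ∀ i, B i → f i = f i0 ∨ f i = v ∨ (f i)⁻¹ ∈ S := by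
  classical
  have hloc : IsLocalRing (lo S A) := h.isLocalRing
  have hone : (1 : lo S A) ∉ maximalIdeal (lo S A) := fun h1 =>
    (Ideal.ne_top_iff_one _).1 (maximalIdeal.isMaximal _).ne_top h1
  have hmem : ∀ i, f i ∈ lo S A := fun i => le_lo _ _ (hf i)
  have hlt : ∀ i, (f i)⁻¹ ∉ S → V.valuation (f i) < 1 := fun i hi =>
    (val_of hS h (hmem i)).2 (Or.inl hi)
  have hm : ∀ i, (f i)⁻¹ ∉ S → (⟨f i, hmem i⟩ : lo S A) ∈ maximalIdeal (lo S A) := by
    intro i hi
    rw [mem_maximalIdeal, mem_nonunits_iff, h.isUnit_iff]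
    intro h3
    have h4 : V.valuation (f i) < 1 := hlt i hi
    change V.valuation (f i) = 1 at h3
    rw [h3] at h4
    exact lt_irrefl _ h4
  -- independence
  have key : ∀ (n : ℕ) (g : Fin n → {i // B i}), Function.Injective g →
      (∀ k, (f (g k))⁻¹ ∉ S) → ∀ c : Fin n → lo S A,
      ∑ k, c k * ⟨f (g k), hmem _⟩ ∈ maximalIdeal (lo S A) ^ 2 →
      ∀ k, c k ∈ maximalIdeal (lo S A) := by
    intro n g hg hgn c hc k
    have h1 := hB (Fin n) g hg
    refine h1.ind c (fun i hi => ?_) hc k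
    exact absurd (hm _ (hgn i)) hi
  have key1 : (⟨f i0, hmem i0⟩ : lo S A) ∉ maximalIdeal (lo S A) ^ 2 := by
    intro h1
    refine hone (key 1 (fun _ => ⟨i0, hi0⟩) (fun a b _ => Subsingleton.elim a b)
      (fun _ => hi0') (fun _ => 1) ?_ 0)
    rw [Fin.sum_univ_one, one_mul]
    exact h1
  by_cases hex : ∃ j, B j ∧ (f j)⁻¹ ∉ S ∧ f j ≠ f i0
  · obtain ⟨j, hj, hj', hne⟩ := hex
    have hji : j ≠ i0 := fun h => hne (by rw [h])
    have h2 : Par V (lo S A) (f i0) (f j) := by
      refine par_exch2 h (hmem i0) (hmem j) (hlt _ hi0') (hlt _ hj') fun a b hab => ?_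
      have h3 := key 2 ![⟨i0, hi0⟩, ⟨j, hj⟩] (by
        intro a b hab
        fin_cases a <;> fin_cases b
        · rfl
        · exact absurd (congrArg Subtype.val hab) (Ne.symm hji)
        · exact absurd (congrArg Subtype.val hab) hji
        · rfl) (by
        intro k
        fin_cases k
        · exact hi0'
        · exact hj') ![a, b] (by
        rw [Fin.sum_univ_two]
        exact hab)
      exact ⟨h3 0, h3 1⟩
    refine ⟨f j, hf j, h2, fun l hl => ?_⟩
    by_contra hcon
    push Not at hcon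
    obtain ⟨h4, h5, h6⟩ := hcon
    have hli : l ≠ i0 := fun h => h4 (by rw [h])
    have hlj : l ≠ j := fun h => h5 (by rw [h])
    obtain ⟨α, hα, β, hβ, e⟩ := h2.gen (f l) (hmem l) (hlt l h6)
    have h3 := key 3 ![⟨i0, hi0⟩, ⟨j, hj⟩, ⟨l, hl⟩] (by
      intro a b hab
      fin_cases a <;> fin_cases b
      · rfl
      · exact absurd (congrArg Subtype.val hab) (Ne.symm hji)
      · exact absurd (congrArg Subtype.val hab) (Ne.symm hli)
      · exact absurd (congrArg Subtype.val hab) hji
      · rfl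
      · exact absurd (congrArg Subtype.val hab) (Ne.symm hlj)
      · exact absurd (congrArg Subtype.val hab) hli
      · exact absurd (congrArg Subtype.val hab) hlj
      · rfl) (by
      intro k
      fin_cases k
      · exact hi0'
      · exact hj'
      · exact h6) ![-⟨α, hα⟩, -⟨β, hβ⟩, 1] (by
      rw [Fin.sum_univ_three]
      have e2 : (![-⟨α, hα⟩, -⟨β, hβ⟩, 1] : Fin 3 → lo S A) 0 * ⟨f i0, hmem _⟩ +
          (![-⟨α, hα⟩, -⟨β, hβ⟩, 1] : Fin 3 → lo S A) 1 * ⟨f j, hmem _⟩ +
          (![-⟨α, hα⟩, -⟨β, hβ⟩, 1] : Fin 3 → lo S A) 2 * ⟨f l, hmem _⟩ = 0 := by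
        apply Subtype.ext
        change -α * f i0 + -β * f j + 1 * f l = 0
        linear_combination e
      have e3 : ∀ z : lo S A, z = 0 → z ∈ maximalIdeal (lo S A) ^ 2 := by
        rintro z rfl
        exact Ideal.zero_mem _
      exact e3 _ e2)
    exact hone (h3 2)
  · push Not at hex
    obtain ⟨z, hz⟩ := par_exch h (hmem i0) (hlt _ hi0') key1
    obtain ⟨v, hv, hv'⟩ := par_clear hS hz
    refine ⟨v, hv, hv', fun l hl => ?_⟩
    by_cases h1 : (f l)⁻¹ ∈ S
    · exact Or.inr (Or.inr h1)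
    · exact Or.inl (hex l hl h1)

end Pool.Agent.N808.AS
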